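import Pool.Agent.Helper3.TCS.Defs

/-!
# Basic facts for one step
-/

set_option autoImplicit false

namespace Pool.TCS

open Pool.TC Pool.TCM Finset
open scoped Classical

section

variable {V κ : Type} [Fintype V] [Fintype κ] {S : CS V κ} {U : Finset V} {L : V → Finset κ}
  {D l m K : ℕ} {x y q Lam : ℝ}

theorem npair_nonneg (S : CS V κ) (A : Finset V) : 0 ≤ npair S A := by
  unfold npair; positivity

theorem npair_le (S : CS V κ) (A : Finset V) : npair S A ≤ (A.card : ℝ) ^ 2 / 2 := by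
  unfold npair
  have h : ((A ×ˢ A).filter (fun p => p.1 ≠ p.2 ∧ ¬ S.adj p.1 p.2)).card ≤ A.card * A.card :=
    (card_filter_le _ _).trans (le_of_eq (card_product _ _))
  have h2 : ((((A ×ˢ A).filter (fun p => p.1 ≠ p.2 ∧ ¬ S.adj p.1 p.2)).card : ℕ) : ℝ) ≤
      (A.card : ℝ) * A.card := by exact_mod_cast h
  rw [pow_two]
  linarith

namespace Hyp

theorem mpos (h : Hyp S U L D l m K x y q Lam) : (0 : ℝ) < m := by
  have h1 := h.mK
  have h2 := h.K24
  have : 0 < m := by omega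
  exact_mod_cast this

theorem m192 (h : Hyp S U L D l m K x y q Lam) : 192 ≤ m := by
  have h1 := h.mK
  have h2 := h.K24
  omega

theorem Kpos (h : Hyp S U L D l m K x y q Lam) : (24 : ℝ) ≤ K := by exact_mod_cast h.K24

theorem lpos (h : Hyp S U L D l m K x y q Lam) : (0 : ℝ) < l := by exact_mod_cast h.l0

theorem al0 (h : Hyp S U L D l m K x y q Lam) : 0 < 1 / (m : ℝ) := one_div_pos.2 h.mpos

theorem alK (h : Hyp S U L D l m K x y q Lam) : (K : ℝ) * (1 / (m : ℝ)) ≤ 1 / 8 := by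
  have h1 : 8 * (K : ℝ) ≤ m := by exact_mod_cast h.mK
  rw [mul_one_div, div_le_div_iff₀ h.mpos (by norm_num)]
  linarith

theorem al1 (h : Hyp S U L D l m K x y q Lam) : 1 / (m : ℝ) ≤ 1 / 192 := by
  apply one_div_le_one_div_of_le (by norm_num)
  exact_mod_cast h.m192

theorem pow_ge (h : Hyp S U L D l m K x y q Lam) :
    1 - 4 * (K : ℝ) * (1 / (m : ℝ)) ≤ ((1 - 1 / (m : ℝ)) ^ (2 * K)) ^ 2 := by
  have h1 : (-2 : ℝ) ≤ -(1 / (m : ℝ)) := by have := h.al1; linarith
  have h2 := one_add_mul_le_pow h1 (4 * K)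
  rw [← pow_mul, show 2 * K * 2 = 4 * K by ring]
  calc 1 - 4 * (K : ℝ) * (1 / (m : ℝ)) = 1 + ((4 * K : ℕ) : ℝ) * -(1 / (m : ℝ)) := by
        push_cast; ring
    _ ≤ (1 + -(1 / (m : ℝ))) ^ (4 * K) := h2
    _ = _ := by rw [← sub_eq_add_neg]

theorem bet_pos (h : Hyp S U L D l m K x y q Lam) : 0 < bet m K := by
  unfold bet
  have h1 := h.al0
  have h2 := h.al1
  have : 0 < 1 - 1 / (m : ℝ) := by linarith
  positivity

theorem bet_le (h : Hyp S U L D l m K x y q Lam) : bet m K ≤ 1 / (m : ℝ) := by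
  unfold bet
  have h1 := h.al0
  have h2 := h.al1
  exact mul_le_of_le_one_right h1.le (pow_le_one₀ (by linarith) (by linarith))

theorem bet_le' (h : Hyp S U L D l m K x y q Lam) : bet m K ≤ 1 / 192 := h.bet_le.trans h.al1

theorem betK (h : Hyp S U L D l m K x y q Lam) : (K : ℝ) * bet m K ≤ 1 / 8 := by
  have h1 := h.bet_le
  have h2 := h.alK
  have h3 := h.Kpos
  nlinarith

theorem sq_sub (h : Hyp S U L D l m K x y q Lam) :
    (1 / (m : ℝ)) ^ 2 - bet m K ^ 2 ≤ 4 * K * (1 / (m : ℝ)) ^ 3 := by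
  have h1 := h.pow_ge
  have h2 : bet m K ^ 2 = (1 / (m : ℝ)) ^ 2 * ((1 - 1 / (m : ℝ)) ^ (2 * K)) ^ 2 := by
    unfold bet; ring
  have h3 : 0 ≤ (1 / (m : ℝ)) ^ 2 := by positivity
  rw [h2]
  nlinarith [mul_le_mul_of_nonneg_left h1 h3]

theorem Pn2 (h : Hyp S U L D l m K x y q Lam) {u : V} (hu : u ∈ U) {a : κ} (ha : a ∈ L u) :
    ((Pn S U L u a).card : ℝ) ≤ 2 * l := (h.hP u hu a ha).trans h.y2

theorem Cv1 (h : Hyp S U L D l m K x y q Lam) (v : V) : ((Cv S U L v).card : ℝ) ≤ l :=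
  (h.hC v).trans h.x1

theorem betPn (h : Hyp S U L D l m K x y q Lam) {u : V} (hu : u ∈ U) {a : κ} (ha : a ∈ L u) :
    bet m K * (Pn S U L u a).card / l ≤ 1 / 96 := by
  have h1 := h.Pn2 hu ha
  have h2 := h.bet_le'
  have h3 := h.bet_pos
  rw [div_le_iff₀ h.lpos]
  have h4 : (0 : ℝ) ≤ (Pn S U L u a).card := Nat.cast_nonneg _
  nlinarith

theorem betCv (h : Hyp S U L D l m K x y q Lam) (v : V) :
    bet m K * (Cv S U L v).card / l ≤ 1 / 192 := by
  have h1 := h.Cv1 v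
  have h2 := h.bet_le'
  have h3 := h.bet_pos
  rw [div_le_iff₀ h.lpos]
  have h4 : (0 : ℝ) ≤ (Cv S U L v).card := Nat.cast_nonneg _
  nlinarith

theorem betx (h : Hyp S U L D l m K x y q Lam) : bet m K * x / l ≤ 1 / 192 := by
  have h1 := h.x1
  have h2 := h.bet_le'
  have h3 := h.bet_pos
  rw [div_le_iff₀ h.lpos]
  have h4 := h.x0
  nlinarith

theorem pp_nonneg (h : Hyp S U L D l m K x y q Lam) {u : V} (hu : u ∈ U) {a : κ} (ha : a ∈ L u) :
    0 ≤ pp S U L l m K u a := by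
  unfold pp
  have h1 := npair_le S (Pn S U L u a)
  have h2 := h.betPn hu ha
  have h3 := h.bet_pos
  have h4 := h.lpos
  set t : ℝ := bet m K * (Pn S U L u a).card / l with ht
  have h5 : 0 ≤ t := by rw [ht]; positivity
  have h6 : bet m K ^ 2 * npair S (Pn S U L u a) / (l : ℝ) ^ 2 ≤ t ^ 2 / 2 := by
    rw [ht, div_pow, mul_pow]
    have : bet m K ^ 2 * npair S (Pn S U L u a) ≤ bet m K ^ 2 * ((Pn S U L u a).card ^ 2 / 2) :=
      mul_le_mul_of_nonneg_left h1 (by positivity)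
    calc bet m K ^ 2 * npair S (Pn S U L u a) / (l : ℝ) ^ 2
        ≤ bet m K ^ 2 * ((Pn S U L u a).card ^ 2 / 2) / (l : ℝ) ^ 2 := by gcongr
      _ = bet m K ^ 2 * (Pn S U L u a).card ^ 2 / (l : ℝ) ^ 2 / 2 := by ring
  nlinarith

theorem pp_le (h : Hyp S U L D l m K x y q Lam) {u : V} (hu : u ∈ U) {a : κ} (ha : a ∈ L u) :
    pp S U L l m K u a ≤ 1 / 96 := by
  have h1 := h.betPn hu ha
  have h2 := npair_nonneg S (Pn S U L u a)
  have h3 := h.lpos
  unfold pp
  have : 0 ≤ bet m K ^ 2 * npair S (Pn S U L u a) / (l : ℝ) ^ 2 := by positivity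
  linarith

theorem eK_nonneg (h : Hyp S U L D l m K x y q Lam) {u : V} (hu : u ∈ U) {a : κ} (ha : a ∈ L u) :
    0 ≤ eK S U L l m K q u a := by
  unfold eK
  have h1 := h.pp_le hu ha
  have h2 := h.hq u hu a ha
  apply div_nonneg <;> linarith

theorem eK_le (h : Hyp S U L D l m K x y q Lam) {u : V} (hu : u ∈ U) {a : κ} (ha : a ∈ L u) :
    eK S U L l m K q u a ≤ 1 / 2 := by
  unfold eK
  have h1 := h.pp_le hu ha
  have h2 := h.pp_nonneg hu ha
  have h3 := h.q1
  rw [div_le_iff₀ (by linarith)]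
  linarith

/-- the equalized probability -/
theorem eK_mul (h : Hyp S U L D l m K x y q Lam) {u : V} (hu : u ∈ U) {a : κ} (ha : a ∈ L u) :
    (1 - eK S U L l m K q u a) * (1 - pp S U L l m K u a) = 1 - q := by
  have h1 := h.pp_le hu ha
  have h2 : 1 - pp S U L l m K u a ≠ 0 := by linarith
  unfold eK
  field_simp
  ring

theorem eR_nonneg (h : Hyp S U L D l m K x y q Lam) (v : V) : 0 ≤ eR S U L l m K x v := by
  unfold eR
  have h1 := h.betCv v
  have h2 := h.hC v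
  have h3 := h.bet_pos
  have h4 := h.lpos
  apply div_nonneg _ (by linarith)
  rw [← sub_div]
  apply div_nonneg _ h4.le
  nlinarith

theorem eR_le (h : Hyp S U L D l m K x y q Lam) (v : V) : eR S U L l m K x v ≤ 1 / 2 := by
  unfold eR
  have h1 := h.betCv v
  have h2 := h.betx
  have h3 := h.bet_pos
  have h4 := h.lpos
  have h5 : 0 ≤ bet m K * (Cv S U L v).card / l := by positivity
  rw [div_le_iff₀ (by linarith)]
  linarith

/-- the equalized probability -/
theorem eR_mul (h : Hyp S U L D l m K x y q Lam) (v : V) :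
    (1 - eR S U L l m K x v) * (1 - bet m K * (Cv S U L v).card / l) = 1 - bet m K * x / l := by
  have h1 := h.betCv v
  have h2 : 1 - bet m K * (Cv S U L v).card / l ≠ 0 := by linarith
  unfold eR
  generalize bet m K * (Cv S U L v).card / l = c at h2 ⊢
  generalize bet m K * x / l = d
  field_simp
  ring

theorem N_small (h : Hyp S U L D l m K x y q Lam) :
    1 / (m : ℝ) ^ (2 * K + 1) ≤ (1 / 2) ^ K := by
  have h1 : (2 : ℝ) ≤ m := by
    have := h.m192
    have h2 : (192 : ℝ) ≤ m := by exact_mod_cast this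
    linarith
  have h3 : (2 : ℝ) ^ K ≤ (m : ℝ) ^ (2 * K + 1) := by
    calc (2 : ℝ) ^ K ≤ (m : ℝ) ^ K := pow_le_pow_left₀ (by norm_num) h1 K
      _ ≤ (m : ℝ) ^ (2 * K + 1) := pow_le_pow_right₀ (by linarith) (by omega)
  rw [one_div_pow]
  exact one_div_le_one_div_of_le (by positivity) h3

theorem Lam_ge (h : Hyp S U L D l m K x y q Lam) : 2 ≤ Lam := by
  by_contra hc
  push Not at hc
  have h1 : Real.exp (-2) ≤ Real.exp (-Lam) := Real.exp_le_exp.2 (by linarith)
  have h2 : (2 : ℝ) ^ 12 ≤ (3 * (D : ℝ) + 2) ^ 12 :=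
    pow_le_pow_left₀ (by norm_num) (by have : (0 : ℝ) ≤ D := Nat.cast_nonneg _; linarith) 12
  have h3 : (1 / 16 : ℝ) ≤ Real.exp (-2) := by
    rw [Real.exp_neg, ← one_div]
    apply one_div_le_one_div_of_le (Real.exp_pos _)
    have : Real.exp 2 = Real.exp 1 * Real.exp 1 := by rw [← Real.exp_add]; norm_num
    rw [this]
    have h4 := Real.exp_one_lt_d9
    have h5 := Real.exp_pos 1
    nlinarith
  have h4 := h.hexp
  have h5 : 0 < Real.exp (-Lam) := Real.exp_pos _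
  nlinarith

end Hyp

end

end Pool.TCS
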