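import Pool.Agent.Helper3.TCS.Stmts
import Pool.Agent.Helper3.TCS.Bas

/-!
# The module E2 of T5 (helper33)
-/

set_option autoImplicit false

namespace Pool.TCS

open Pool.TC Pool.TCM Finset
open scoped Classical

section

variable {V κ : Type} [Fintype V] [Fintype κ]

/-- the letters which put `t` into `KP` -/
noncomputable def E2R (S : CS V κ) (U : Finset V) {l : ℕ} (e : V → Fin l → κ) (w : V) (b : κ)
    (t : V) : Finset (Fin l) :=
  univ.filter (fun i => t ∈ U ∧ S.adj w t ∧ e t i = b)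

theorem E2_KP (S : CS V κ) (U : Finset V) {l : ℕ} (e : V → Fin l → κ) (w : V) (b : κ)
    (ω : V → Fin l) :
    KP S U (oc e ω) w b = univ.filter (fun t => ω t ∈ E2R S U e w b t) := by
  ext t
  simp [KP, E2R, oc]

theorem E2_card (S : CS V κ) (U : Finset V) (L : V → Finset κ) {l : ℕ} (e : V → Fin l → κ)
    (he : Enu U L l e) (w : V) (b : κ) (t : V) :
    ((E2R S U e w b t).card : ℝ) = if t ∈ Pn S U L w b then 1 else 0 := by
  by_cases ht : t ∈ Pn S U L w b
  · rw [if_pos ht]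
    simp only [Pn, mem_filter, mem_univ, true_and] at ht
    obtain ⟨hU, hadj, hb⟩ := ht
    obtain ⟨i, hi⟩ := (he.mem t hU b).1 hb
    have : E2R S U e w b t = {i} := by
      ext j
      simp only [E2R, mem_filter, mem_univ, true_and, mem_singleton]
      constructor
      · rintro ⟨-, -, hj⟩
        exact he.inj t hU (hj.trans hi.symm)
      · rintro rfl
        exact ⟨hU, hadj, hi⟩
    rw [this]
    simp
  · rw [if_neg ht]
    have : E2R S U e w b t = ∅ := by
      ext j
      simp only [E2R, mem_filter, mem_univ, true_and, notMem_empty, iff_false]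
      rintro ⟨hU, hadj, hj⟩
      apply ht
      simp only [Pn, mem_filter, mem_univ, true_and]
      exact ⟨hU, hadj, (he.mem t hU b).2 ⟨j, hj⟩⟩
    rw [this]
    simp

theorem E2_mean1 (hMean : St_Mean) (S : CS V κ) (U : Finset V) (L : V → Finset κ) {l : ℕ}
    (hl : 0 < l) (e : V → Fin l → κ) (he : Enu U L l e) (w : V) (b : κ) :
    mean (fun ω : V → Fin l => ((KP S U (oc e ω) w b).card : ℝ)) =
      ((Pn S U L w b).card : ℝ) / l := by
  have : Nonempty (Fin l) := ⟨⟨0, hl⟩⟩
  have h := (hMean V (Fin l) (E2R S U e w b)).1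
  rw [Fintype.card_fin] at h
  refine Eq.trans ?_ (h.trans ?_)
  · refine congrArg mean ?_
    funext ω
    refine congrArg (fun A : Finset V => ((A.card : ℕ) : ℝ)) ?_
    rw [E2_KP]
    ext t
    simp only [mem_filter]
  congr 1
  rw [sum_congr rfl (fun t _ => E2_card S U L e he w b t)]
  rw [sum_ite_mem, univ_inter, sum_const, nsmul_eq_mul, mul_one]

theorem E2_mean2 (hMean : St_Mean) (S : CS V κ) (U : Finset V) (L : V → Finset κ) {l : ℕ}
    (hl : 0 < l) (e : V → Fin l → κ) (he : Enu U L l e) (w : V) (b : κ) :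
    mean (fun ω : V → Fin l => npair S (KP S U (oc e ω) w b)) =
      npair S (Pn S U L w b) / (l : ℝ) ^ 2 := by
  have : Nonempty (Fin l) := ⟨⟨0, hl⟩⟩
  have h := (hMean V (Fin l) (E2R S U e w b)).2.1 (E2R S U e w b) (fun s t => ¬ S.adj s t)
  rw [Fintype.card_fin] at h
  have h2 : (fun ω : V → Fin l => npair S (KP S U (oc e ω) w b)) =
      fun ω => ((((univ : Finset (V × V)).filter
      (fun p => p.1 ≠ p.2 ∧ ¬ S.adj p.1 p.2 ∧ ω p.1 ∈ E2R S U e w b p.1 ∧
        ω p.2 ∈ E2R S U e w b p.2)).card : ℝ)) / 2 := by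
    funext ω
    unfold npair
    congr 2
    rw [E2_KP]
    congr 1
    ext p
    simp only [mem_filter, mem_product, mem_univ, true_and]
    tauto
  have h3 : mean (fun ω : V → Fin l => npair S (KP S U (oc e ω) w b)) =
      mean (fun ω : V → Fin l => ((((univ : Finset (V × V)).filter
      (fun p => p.1 ≠ p.2 ∧ ¬ S.adj p.1 p.2 ∧ ω p.1 ∈ E2R S U e w b p.1 ∧
        ω p.2 ∈ E2R S U e w b p.2)).card : ℝ))) / 2 := by
    rw [h2]
    unfold mean
    rw [← sum_div]
    ring
  have h33 := h3.trans (congrArg (fun z : ℝ => z / 2) (Eq.trans (congrArg mean (funext fun ω =>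
    congrArg (fun A : Finset (V × V) => ((A.card : ℕ) : ℝ)) (by
      ext p
      simp only [mem_filter]))) h))
  rw [h33]
  unfold npair
  have h4 : (∑ p ∈ (univ : Finset (V × V)).filter (fun p => p.1 ≠ p.2 ∧ ¬ S.adj p.1 p.2),
      ((E2R S U e w b p.1).card : ℝ) * (E2R S U e w b p.2).card) =
      ((((Pn S U L w b ×ˢ Pn S U L w b).filter (fun p => p.1 ≠ p.2 ∧ ¬ S.adj p.1 p.2)).card : ℕ) : ℝ) := by
    have h5 : ∀ p : V × V, ((E2R S U e w b p.1).card : ℝ) * (E2R S U e w b p.2).card =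
        if p ∈ Pn S U L w b ×ˢ Pn S U L w b then 1 else 0 := by
      intro p
      rw [E2_card S U L e he w b, E2_card S U L e he w b]
      by_cases h6 : p.1 ∈ Pn S U L w b <;> by_cases h7 : p.2 ∈ Pn S U L w b <;>
        simp [h6, h7, mem_product]
    rw [sum_congr rfl (fun p _ => h5 p), sum_ite_mem, sum_const, nsmul_eq_mul, mul_one]
    congr 2
    ext p
    simp only [mem_inter, mem_filter, mem_univ, true_and]
    tauto
  have h5 : ∀ X Y c : ℝ, X = Y → X / c / 2 = Y / 2 / c := by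
    intro X Y c hXY
    rw [hXY]
    ring
  refine h5 _ _ _ (Eq.trans ?_ h4)
  refine sum_congr ?_ fun _ _ => rfl
  ext p
  simp only [mem_filter]

end

theorem thm_E2 (hMean : St_Mean) : St_E2 := by
  intro V κ _ _ S U L D l m K x y q Lam e hH he w hw b hb
  have hl : 0 < l := hH.l0
  have : Nonempty (Fin l) := ⟨⟨0, hl⟩⟩
  have hcard : (0 : ℝ) < Fintype.card (V → Fin l) := by
    have : 0 < Fintype.card (V → Fin l) := Fintype.card_pos
    exact_mod_cast this
  have hlR := hH.lpos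
  have m1 := E2_mean1 hMean S U L hl e he w b
  have m2 := E2_mean2 hMean S U L hl e he w b
  set n : ℝ := ((Pn S U L w b).card : ℝ) / l with hn
  set N2 : ℝ := npair S (Pn S U L w b) / (l : ℝ) ^ 2 with hN2
  set al : ℝ := 1 / (m : ℝ) with hal
  set be : ℝ := bet m K with hbe
  set E : ℝ := eK S U L l m K q w b with hE
  have hE0 : 0 ≤ E := hH.eK_nonneg hw hb
  have hE1 : E ≤ 1 / 2 := hH.eK_le hw hb
  have hal0 : 0 < al := hH.al0
  have hbe0 : 0 < be := hH.bet_pos
  have hbeal : be ≤ al := hH.bet_le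
  have hn0 : 0 ≤ n := by rw [hn]; positivity
  have hn2 : n ≤ 2 := by
    rw [hn, div_le_iff₀ hlR]
    exact hH.Pn2 hw hb
  have hN0 : 0 ≤ N2 := div_nonneg (npair_nonneg _ _) (by positivity)
  have hN22 : N2 ≤ 2 := by
    have h1 := npair_le S (Pn S U L w b)
    have h2 : N2 ≤ n ^ 2 / 2 := by
      rw [hN2, hn, div_pow, div_div, mul_comm ((l : ℝ) ^ 2) 2, ← div_div]
      gcongr
    nlinarith
  have hsq := hH.sq_sub
  rw [← hal, ← hbe] at hsq
  have hpp : pp S U L l m K w b = be * n - be ^ 2 * N2 := by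
    unfold pp
    rw [hn, hN2, ← hbe]
    ring
  have hmul := hH.eK_mul hw hb
  rw [hpp, ← hE] at hmul
  -- the mean
  have hstep : mean (fun ω : V → Fin l => Psi2 S U L l m K q (oc e ω) w b) ≤
      (1 - be - be * n + al ^ 2 * N2 + al ^ 2 * n) * (1 - E) := by
    have h1 : mean (fun ω : V → Fin l => Psi2 S U L l m K q (oc e ω) w b) ≤
        mean (fun ω : V → Fin l => (1 - be - be * ((KP S U (oc e ω) w b).card : ℝ) +
          al ^ 2 * npair S (KP S U (oc e ω) w b) + al ^ 2 * ((KP S U (oc e ω) w b).card : ℝ)) *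
            (1 - E)) := by
      unfold mean
      apply div_le_div_of_nonneg_right _ hcard.le
      apply sum_le_sum
      intro ω _
      unfold Psi2
      apply mul_le_mul_of_nonneg_right _ (by linarith)
      have h2 : min (npair S (KP S U (oc e ω) w b)) ((K : ℝ) ^ 2) ≤
        npair S (KP S U (oc e ω) w b) := min_le_left _ _
      have h3 : al ^ 2 * min (npair S (KP S U (oc e ω) w b)) ((K : ℝ) ^ 2) ≤
        al ^ 2 * npair S (KP S U (oc e ω) w b) := mul_le_mul_of_nonneg_left h2 (by positivity)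
      linarith
    refine h1.trans (le_of_eq ?_)
    rw [← m1, ← m2]
    unfold mean
    rw [← sum_mul]
    simp only [sum_add_distrib, sum_sub_distrib, ← mul_sum, sum_const, card_univ, nsmul_eq_mul]
    field_simp
  refine hstep.trans ?_
  have h9 : (1 - be) * (1 - q) = (1 - be) * ((1 - E) * (1 - (be * n - be ^ 2 * N2))) := by
    rw [hmul]
  rw [h9]
  have hK : (24 : ℝ) ≤ K := hH.Kpos
  have hal3 : 0 < al ^ 3 := by positivity
  have hbe3 : be ^ 3 ≤ al ^ 3 := pow_le_pow_left₀ hbe0.le hbeal 3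
  have hsq0 : 0 ≤ al ^ 2 - be ^ 2 := by nlinarith
  have t1 : (al ^ 2 - be ^ 2) * N2 ≤ 8 * K * al ^ 3 := by nlinarith
  have t2 : (al ^ 2 - be ^ 2) * n ≤ 8 * K * al ^ 3 := by nlinarith
  have t3 : be ^ 3 * N2 ≤ 2 * al ^ 3 := by
    have : be ^ 3 * N2 ≤ al ^ 3 * 2 := mul_le_mul hbe3 hN22 hN0 hal3.le
    linarith
  have t4 : 2 * al ^ 3 ≤ 2 * K * al ^ 3 := by nlinarith
  have key : (al ^ 2 - be ^ 2) * N2 + (al ^ 2 - be ^ 2) * n + be ^ 3 * N2 ≤ 18 * K * al ^ 3 := by
    linarith
  have key0 : 0 ≤ (al ^ 2 - be ^ 2) * N2 + (al ^ 2 - be ^ 2) * n + be ^ 3 * N2 := by positivity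
  have key2 : (1 - E) * ((al ^ 2 - be ^ 2) * N2 + (al ^ 2 - be ^ 2) * n + be ^ 3 * N2) ≤
      18 * K * al ^ 3 := by
    refine le_trans ?_ key
    exact mul_le_of_le_one_left key0 (by linarith)
  nlinarith [key2]

end Pool.TCS
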