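import Pool.Agent.Helper3.TCS.Stmts
import Pool.Agent.Helper3.TCS.Bas

/-!
# CHOICE: a good choice of one option at every vertex
-/

set_option autoImplicit false

namespace Pool.TCS

open Pool.TC Pool.TCM Finset
open scoped Classical

set_option linter.unusedSectionVars false

section

variable {V κ : Type} [Fintype V] [Fintype κ]

/-- the tags of the events at one vertex -/
abbrev choice_Tag (κ : Type) : Type := Unit ⊕ Unit ⊕ Unit ⊕ κ ⊕ κ

/-- the local lemma for events with positions -/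
theorem choice_lll (hNear : St_Near) (hLLL0 : St_LLL0) (S : CS V κ) {D l : ℕ} {Lam : ℝ}
    (hdeg : ∀ u, (univ.filter (fun v => S.adj u v)).card ≤ D) (hcol : Fintype.card κ ≤ D)
    (hl : 0 < l) (hexp : 4 * Real.exp (-Lam) * ((3 * (D : ℝ) + 2) ^ 12 + 1) ≤ 1)
    (Ev : V × choice_Tag κ → (V → Fin l) → Prop)
    (hloc : ∀ j (ω ω' : V → Fin l), (∀ t, near S 3 j.1 t → ω t = ω' t) → Ev j ω → Ev j ω')
    (hp : ∀ j, ((univ.filter (fun ω => Ev j ω)).card : ℝ) ≤
      Real.exp (-Lam) * Fintype.card (V → Fin l)) :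
    ∃ ω : V → Fin l, ∀ j, ¬ Ev j ω := by
  obtain ⟨n1, n2, n3, n4⟩ := hNear V κ S D hdeg hcol
  have : Nonempty (Fin l) := ⟨⟨0, hl⟩⟩
  refine hLLL0 V (Fin l) (V × choice_Tag κ) Ev
    (fun j => univ.filter (fun t => near S 3 j.1 t)) (Real.exp (-Lam)) ((3 * D + 2) ^ 12)
    (fun j ω ω' h => hloc j ω ω' fun t ht => h t (mem_filter.2 ⟨mem_univ _, ht⟩)) hp ?_
    (Real.exp_pos _).le ?_
  · intro j
    have h2 := n4 6 j.1
    have h3 : Fintype.card (choice_Tag κ) ≤ 2 * D + 3 := by
      simp only [Fintype.card_sum, Fintype.card_unit]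
      omega
    refine le_trans (card_le_card (t := (univ.filter (fun w => near S 6 j.1 w)) ×ˢ
      (univ : Finset (choice_Tag κ))) fun j' hj' => ?_) ?_
    · obtain ⟨t, h2, h3⟩ := (mem_filter.1 hj').2
      rw [mem_product]
      refine ⟨mem_filter.2 ⟨mem_univ _, ?_⟩, mem_univ _⟩
      exact n2 3 3 _ _ _ (mem_filter.1 h2).2 (n1 3 _ _ (mem_filter.1 h3).2)
    calc ((univ.filter (fun w => near S 6 j.1 w)) ×ˢ (univ : Finset (choice_Tag κ))).card
      _ = (univ.filter (fun w => near S 6 j.1 w)).card * Fintype.card (choice_Tag κ) := by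
          rw [card_product, card_univ]
      _ ≤ (3 * D + 1) ^ 6 * (2 * D + 3) := Nat.mul_le_mul h2 h3
      _ ≤ (3 * D + 2) ^ 6 * (3 * D + 2) ^ 6 := by
          refine Nat.mul_le_mul (Nat.pow_le_pow_left (by omega) 6) ?_
          calc 2 * D + 3 ≤ (3 * D + 2) * 2 := by omega
            _ ≤ (3 * D + 2) * (3 * D + 2) := Nat.mul_le_mul_left _ (by omega)
            _ = (3 * D + 2) ^ 2 := by ring
            _ ≤ (3 * D + 2) ^ 6 := Nat.pow_le_pow_right (by omega) (by omega)
      _ = (3 * D + 2) ^ 12 := by rw [← pow_add]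
  · push_cast
    exact hexp

/-- a function with influence is local -/
theorem choice_loc {S : CS V κ} {l : ℕ} {u : V} {F : (V → Fin l) → ℝ} {R : V → Finset (Fin l)}
    (h : Infl S l u F R) (ω ω' : V → Fin l) (hω : ∀ t, near S 3 u t → ω t = ω' t) :
    F ω = F ω' := by
  have key : ∀ Q : Finset V, F (fun t => if t ∈ Q then ω' t else ω t) = F ω := by
    intro Q
    induction Q using Finset.induction_on with
    | empty => simp
    | insert w Q hw ih =>
      rw [← ih]
      by_cases hn : near S 3 u w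
      · have h1 : (fun t => if t ∈ insert w Q then ω' t else ω t) =
            (fun t => if t ∈ Q then ω' t else ω t) := by
          funext t
          by_cases ht : t = w
          · subst ht
            rw [if_pos (mem_insert_self _ _), if_neg hw]
            exact (hω t hn).symm
          · by_cases htQ : t ∈ Q
            · rw [if_pos (mem_insert_of_mem htQ), if_pos htQ]
            · rw [if_neg htQ, if_neg fun hc => ?_]
              rcases mem_insert.1 hc with h2 | h2
              · exact ht h2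
              · exact htQ h2
        rw [h1]
      · have hR : R w = ∅ := by
          by_contra hc
          exact hn (h.loc w (nonempty_iff_ne_empty.2 hc))
        refine h.eq w _ _ (fun t ht => ?_) ?_ ?_
        · by_cases htQ : t ∈ Q
          · rw [if_pos (mem_insert_of_mem htQ), if_pos htQ]
          · rw [if_neg htQ, if_neg fun hc => ?_]
            rcases mem_insert.1 hc with h2 | h2
            · exact ht h2
            · exact htQ h2
        · rw [hR]
          exact notMem_empty _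
        · rw [hR]
          exact notMem_empty _
  have h1 := key univ
  simp only [mem_univ, if_true] at h1
  exact h1.symm

theorem choice_card_le {Ω : Type} [Fintype Ω] {P Q : Ω → Prop} {_ : DecidablePred P}
    {_ : DecidablePred Q} (h : ∀ ω, P ω → Q ω) :
    ((univ.filter P).card : ℝ) ≤ ((univ.filter Q).card : ℝ) := by
  have h1 : (univ.filter P).card ≤ (univ.filter Q).card := card_le_card fun ω hω => by
    rw [mem_filter] at hω ⊢
    exact ⟨hω.1, h ω hω.2⟩
  exact_mod_cast h1

theorem choice_sqrt {l : ℕ} {Lam : ℝ} :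
    3 * 4 * Real.sqrt (3 * (l : ℝ) * Lam) ≤ 21 * Real.sqrt (l * Lam) := by
  have h1 : Real.sqrt (3 * (l : ℝ) * Lam) = Real.sqrt 3 * Real.sqrt (l * Lam) := by
    rw [mul_assoc, Real.sqrt_mul (by norm_num)]
  have h2 : Real.sqrt 3 ≤ 7 / 4 := by
    rw [Real.sqrt_le_left (by norm_num)]
    norm_num
  rw [h1]
  have h3 := Real.sqrt_nonneg ((l : ℝ) * Lam)
  nlinarith

/-- the upper tail -/
theorem choice_bern (hBern : St_Bern) {S : CS V κ} {l : ℕ} {u : V} {F : (V → Fin l) → ℝ}
    {R : V → Finset (Fin l)} (h : Infl S l u F R) {Lam : ℝ} (hl : 0 < l) (hLam : 0 < Lam)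
    (hLl : Lam ≤ l) {B : ℝ} (hB : mean F ≤ B) :
    ((univ.filter (fun ω => B + 21 * Real.sqrt (l * Lam) < F ω)).card : ℝ) ≤
      Real.exp (-Lam) * Fintype.card (V → Fin l) := by
  have : Nonempty (Fin l) := ⟨⟨0, hl⟩⟩
  have hl0 : (0 : ℝ) < l := by exact_mod_cast hl
  have h1 := hBern V (Fin l) F 4 (3 * l) Lam R (by norm_num) hLam (by linarith) h.bd h.eq (by
    rw [Fintype.card_fin]
    exact h.sum)
  refine le_trans ?_ h1
  have h2 : univ.filter (fun ω => B + 21 * Real.sqrt (l * Lam) < F ω) ⊆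
      univ.filter (fun ω => mean F + 3 * 4 * Real.sqrt (3 * l * Lam) ≤ F ω) := by
    intro ω hω
    rw [mem_filter] at hω ⊢
    refine ⟨mem_univ _, ?_⟩
    have := choice_sqrt (l := l) (Lam := Lam)
    linarith [hω.2]
  exact_mod_cast card_le_card h2

theorem choice_neg {S : CS V κ} {l : ℕ} {u : V} {F : (V → Fin l) → ℝ}
    {R : V → Finset (Fin l)} (h : Infl S l u F R) : Infl S l u (fun ω => -F ω) R := by
  refine ⟨fun w ω ω' hω => ?_, fun w ω ω' hω h1 h2 => ?_, h.sum, h.loc⟩
  · have h3 := h.bd w ω ω' hω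
    have h4 : -F ω - -F ω' = -(F ω - F ω') := by ring
    rw [h4, abs_neg]
    exact h3
  · have h3 := h.eq w ω ω' hω h1 h2
    rw [h3]

theorem choice_mean_sum {Ω ι : Type} [Fintype Ω] (s : Finset ι) (f : Ω → ι → ℝ) :
    mean (fun ω => ∑ a ∈ s, f ω a) = ∑ a ∈ s, mean (fun ω => f ω a) := by
  unfold mean
  rw [sum_comm, sum_div]

theorem choice_mean_neg {Ω : Type} [Fintype Ω] (f : Ω → ℝ) :
    mean (fun ω => -f ω) = -mean f := by
  unfold mean
  rw [sum_neg_distrib, neg_div]

theorem choice_enu [Nonempty κ] (U : Finset V) (L : V → Finset κ) (l : ℕ)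
    (h : ∀ u ∈ U, (L u).card = l) : ∃ e : V → Fin l → κ, Enu U L l e := by
  refine ⟨fun u i => if hu : u ∈ U then ((equivFinOfCardEq (h u hu)).symm i : κ)
    else Classical.arbitrary κ, ?_, ?_⟩
  · intro u hu i j hij
    simp only [dif_pos hu] at hij
    exact (equivFinOfCardEq (h u hu)).symm.injective (Subtype.ext hij)
  · intro u hu a
    constructor
    · intro ha
      refine ⟨equivFinOfCardEq (h u hu) ⟨a, ha⟩, ?_⟩
      simp only [dif_pos hu, Equiv.symm_apply_apply]
    · rintro ⟨i, rfl⟩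
      simp only [dif_pos hu]
      exact ((equivFinOfCardEq (h u hu)).symm i).2

end

/-- CHOICE for nonempty sets of colours -/
theorem choice_main (hNear : St_Near) (hLLL0 : St_LLL0) (hBern : St_Bern) (hE1 : St_E1)
    (hE2 : St_E2) (hE3 : St_E3) (hE4 : St_E4) (hI1 : St_I1) (hI2 : St_I2) (hI3 : St_I3)
    (V κ : Type) [Fintype V] [Fintype κ] [Nonempty κ] (S : CS V κ) (U : Finset V)
    (L : V → Finset κ) (D l m K : ℕ) (x y q Lam : ℝ) (h : Hyp S U L D l m K x y q Lam) :
    ∃ o : V → κ, Good S U L l m K x y q Lam o := by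
  obtain ⟨e, he⟩ := choice_enu U L l h.card
  obtain ⟨n1, n2, n3, n4⟩ := hNear V κ S D h.deg h.col
  have hb0 := h.bet_pos
  have hb1 := h.bet_le'
  have hbx := h.betx
  have hl0 := h.lpos
  have hm0 := h.mpos
  have hq1 := h.q1
  have hx0 := h.x0
  -- the three bounds
  set B1 : ℝ := (l : ℝ) * ((1 - q) * (1 - bet m K * x / l) - 2 ^ 13 * (1 / 4) ^ K) with hB1
  set B2 : ℝ := x * (1 - bet m K) * (1 - q) + 18 * K * (1 / (m : ℝ)) ^ 3 * l with hB2
  set B3 : ℝ := y * (1 - bet m K) * (1 - bet m K * x / l) + 8 * K * (1 / (m : ℝ)) ^ 3 * l +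
    2 * bet m K with hB3
  set Ev : V × choice_Tag κ → (V → Fin l) → Prop := fun j ω =>
    match j.2 with
    | Sum.inl _ => j.1 ∈ U ∧ ∑ a ∈ L j.1, Psi1 S U L l m K x q (oc e ω) j.1 a <
        B1 - 21 * Real.sqrt (l * Lam)
    | Sum.inr (Sum.inl _) => B2 + 21 * Real.sqrt (l * Lam) <
        ∑ p ∈ Cv S U L j.1, Psi2 S U L l m K q (oc e ω) p.1 p.2
    | Sum.inr (Sum.inr (Sum.inl _)) =>
        K < (univ.filter (fun w => w ∈ U ∧ S.r w (oc e ω w) = j.1)).card
    | Sum.inr (Sum.inr (Sum.inr (Sum.inl a))) => j.1 ∈ U ∧ a ∈ L j.1 ∧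
        B3 + 21 * Real.sqrt (l * Lam) <
          ∑ w ∈ Pn S U L j.1 a, Psi3 S U L l m K x (oc e ω) w a
    | Sum.inr (Sum.inr (Sum.inr (Sum.inr a))) => j.1 ∈ U ∧ a ∈ L j.1 ∧
        K < (KP S U (oc e ω) j.1 a).card with hEv
  have hnear1 : ∀ u w, stp S u w → near S 3 u w := by
    intro u w hs
    refine n3 1 3 u w (by norm_num) ?_
    exact ⟨u, rfl, hs⟩
  have hcard0 : (0 : ℝ) ≤ Real.exp (-Lam) * Fintype.card (V → Fin l) := by positivity
  have hfalse : ∀ (P : (V → Fin l) → Prop), (∀ ω, ¬ P ω) →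
      ((univ.filter (fun ω => P ω)).card : ℝ) ≤ Real.exp (-Lam) * Fintype.card (V → Fin l) := by
    intro P hP
    rw [filter_eq_empty_iff.2 fun ω _ => hP ω, card_empty, Nat.cast_zero]
    exact hcard0
  obtain ⟨ω, hω⟩ := choice_lll hNear hLLL0 S h.deg h.col h.l0 h.hexp Ev (by
    rintro ⟨v, tg⟩ ω ω' hωω hE
    rcases tg with _ | _ | _ | a | a
    · obtain ⟨hu, hE⟩ := hE
      obtain ⟨R, hR⟩ := hI1 V κ S U L D l m K x y q Lam e h he v hu
      refine ⟨hu, ?_⟩
      have h1 := choice_loc hR ω ω' hωω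
      change ∑ a ∈ L v, Psi1 S U L l m K x q (oc e ω) v a <
        B1 - 21 * Real.sqrt (l * Lam) at hE
      change ∑ a ∈ L v, Psi1 S U L l m K x q (oc e ω') v a <
        B1 - 21 * Real.sqrt (l * Lam)
      rw [← h1]
      exact hE
    · obtain ⟨R, hR⟩ := hI2 V κ S U L D l m K x y q Lam e h he v
      have h1 := choice_loc hR ω ω' hωω
      change B2 + 21 * Real.sqrt (l * Lam) <
        ∑ p ∈ Cv S U L v, Psi2 S U L l m K q (oc e ω) p.1 p.2 at hE
      change B2 + 21 * Real.sqrt (l * Lam) <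
        ∑ p ∈ Cv S U L v, Psi2 S U L l m K q (oc e ω') p.1 p.2
      rw [← h1]
      exact hE
    · change K < (univ.filter (fun w => w ∈ U ∧ S.r w (oc e ω w) = v)).card at hE
      change K < (univ.filter (fun w => w ∈ U ∧ S.r w (oc e ω' w) = v)).card
      have h1 : univ.filter (fun w => w ∈ U ∧ S.r w (oc e ω w) = v) =
          univ.filter (fun w => w ∈ U ∧ S.r w (oc e ω' w) = v) := by
        ext w
        rw [mem_filter, mem_filter]
        constructor
        · rintro ⟨h2, h3, h4⟩
          refine ⟨h2, h3, ?_⟩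
          have h5 := hωω w (hnear1 v w (Or.inr (Or.inr (Or.inr ⟨_, h4⟩))))
          unfold oc at h4 ⊢
          rw [← h5]
          exact h4
        · rintro ⟨h2, h3, h4⟩
          refine ⟨h2, h3, ?_⟩
          have h5 := hωω w (hnear1 v w (Or.inr (Or.inr (Or.inr ⟨_, h4⟩))))
          unfold oc at h4 ⊢
          rw [h5]
          exact h4
      rw [← h1]
      exact hE
    · obtain ⟨hu, ha, hE⟩ := hE
      obtain ⟨R, hR⟩ := hI3 V κ S U L D l m K x y q Lam e h he v hu a ha
      refine ⟨hu, ha, ?_⟩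
      have h1 := choice_loc hR ω ω' hωω
      change B3 + 21 * Real.sqrt (l * Lam) <
        ∑ w ∈ Pn S U L v a, Psi3 S U L l m K x (oc e ω) w a at hE
      change B3 + 21 * Real.sqrt (l * Lam) <
        ∑ w ∈ Pn S U L v a, Psi3 S U L l m K x (oc e ω') w a
      rw [← h1]
      exact hE
    · obtain ⟨hu, ha, hE⟩ := hE
      refine ⟨hu, ha, ?_⟩
      have h1 : KP S U (oc e ω) v a = KP S U (oc e ω') v a := by
        unfold KP
        ext w
        rw [mem_filter, mem_filter]
        constructor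
        · rintro ⟨h2, h3, h4, h5⟩
          refine ⟨h2, h3, h4, ?_⟩
          have h6 := hωω w (hnear1 v w (Or.inr (Or.inl h4)))
          unfold oc at h5 ⊢
          rw [← h6]
          exact h5
        · rintro ⟨h2, h3, h4, h5⟩
          refine ⟨h2, h3, h4, ?_⟩
          have h6 := hωω w (hnear1 v w (Or.inr (Or.inl h4)))
          unfold oc at h5 ⊢
          rw [h6]
          exact h5
      change K < (KP S U (oc e ω) v a).card at hE
      change K < (KP S U (oc e ω') v a).card
      rw [← h1]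
      exact hE) (by
    rintro ⟨v, tg⟩
    rcases tg with _ | _ | _ | a | a
    · by_cases hu : v ∈ U
      · obtain ⟨R, hR⟩ := hI1 V κ S U L D l m K x y q Lam e h he v hu
        have h1 : mean (fun ω : V → Fin l =>
            -∑ a ∈ L v, Psi1 S U L l m K x q (oc e ω) v a) ≤ -B1 := by
          rw [choice_mean_neg, choice_mean_sum, neg_le_neg_iff]
          calc B1 = ∑ _a ∈ L v, ((1 - q) * (1 - bet m K * x / l) - 2 ^ 13 * (1 / 4) ^ K) := by
                rw [sum_const, h.card v hu, nsmul_eq_mul]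
            _ ≤ _ := sum_le_sum fun a ha => hE1 V κ S U L D l m K x y q Lam e h he v hu a ha
        refine le_trans (choice_card_le fun ω hω => ?_)
          (choice_bern hBern (choice_neg hR) h.l0 h.L0 h.Ll h1)
        have h3 : ∑ a ∈ L v, Psi1 S U L l m K x q (oc e ω) v a <
          B1 - 21 * Real.sqrt (l * Lam) := hω.2
        linarith
      · exact hfalse _ fun ω hω => hu hω.1
    · obtain ⟨R, hR⟩ := hI2 V κ S U L D l m K x y q Lam e h he v
      refine choice_bern hBern hR h.l0 h.L0 h.Ll ?_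
      rw [choice_mean_sum]
      have h1 : ∀ p ∈ Cv S U L v, mean (fun ω : V → Fin l =>
          Psi2 S U L l m K q (oc e ω) p.1 p.2) ≤
          (1 - bet m K) * (1 - q) + 18 * K * (1 / (m : ℝ)) ^ 3 := by
        intro p hp
        unfold Cv at hp
        rw [mem_filter] at hp
        exact hE2 V κ S U L D l m K x y q Lam e h he p.1 hp.2.1 p.2 hp.2.2.1
      refine (sum_le_card_nsmul _ _ _ h1).trans ?_
      rw [nsmul_eq_mul]
      have h2 := h.hC v
      have h3 := h.Cv1 v
      have h4 : 0 ≤ (1 - bet m K) * (1 - q) := mul_nonneg (by linarith) (by linarith)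
      have h5 : 0 ≤ 18 * (K : ℝ) * (1 / (m : ℝ)) ^ 3 := by positivity
      calc ((Cv S U L v).card : ℝ) * ((1 - bet m K) * (1 - q) + 18 * K * (1 / (m : ℝ)) ^ 3) =
          ((Cv S U L v).card : ℝ) * ((1 - bet m K) * (1 - q)) +
            ((Cv S U L v).card : ℝ) * (18 * K * (1 / (m : ℝ)) ^ 3) := by ring
        _ ≤ x * ((1 - bet m K) * (1 - q)) + l * (18 * K * (1 / (m : ℝ)) ^ 3) :=
            add_le_add (mul_le_mul_of_nonneg_right h2 h4) (mul_le_mul_of_nonneg_right h3 h5)
        _ = B2 := by rw [hB2]; ring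
    · exact le_trans (choice_card_le fun ω hω => hω)
        ((hE4 V κ S U L D l m K x y q Lam e h he).2 v)
    · by_cases hu : v ∈ U ∧ a ∈ L v
      · obtain ⟨hu, ha⟩ := hu
        obtain ⟨R, hR⟩ := hI3 V κ S U L D l m K x y q Lam e h he v hu a ha
        have h0 : mean (fun ω : V → Fin l =>
            ∑ w ∈ Pn S U L v a, Psi3 S U L l m K x (oc e ω) w a) ≤ B3 := by
          rw [choice_mean_sum]
          have h1 : ∀ w ∈ Pn S U L v a, mean (fun ω : V → Fin l =>
              Psi3 S U L l m K x (oc e ω) w a) ≤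
              (1 - bet m K) * (1 - bet m K * x / l) + 4 * K * (1 / (m : ℝ)) ^ 3 +
                bet m K / l := by
            intro w hw
            unfold Pn at hw
            rw [mem_filter] at hw
            exact hE3 V κ S U L D l m K x y q Lam e h he w hw.2.1 a hw.2.2.2
          refine (sum_le_card_nsmul _ _ _ h1).trans ?_
          rw [nsmul_eq_mul]
          have h2 := h.hP v hu a ha
          have h3 := h.Pn2 hu ha
          have h4 : 0 ≤ (1 - bet m K) * (1 - bet m K * x / l) :=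
            mul_nonneg (by linarith) (by linarith)
          have h5 : 0 ≤ 4 * (K : ℝ) * (1 / (m : ℝ)) ^ 3 + bet m K / l := by positivity
          calc ((Pn S U L v a).card : ℝ) * ((1 - bet m K) * (1 - bet m K * x / l) +
              4 * K * (1 / (m : ℝ)) ^ 3 + bet m K / l) =
              ((Pn S U L v a).card : ℝ) * ((1 - bet m K) * (1 - bet m K * x / l)) +
              ((Pn S U L v a).card : ℝ) * (4 * K * (1 / (m : ℝ)) ^ 3 + bet m K / l) := by ring
            _ ≤ y * ((1 - bet m K) * (1 - bet m K * x / l)) +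
              2 * l * (4 * K * (1 / (m : ℝ)) ^ 3 + bet m K / l) :=
                add_le_add (mul_le_mul_of_nonneg_right h2 h4)
                  (mul_le_mul_of_nonneg_right h3 h5)
            _ = B3 := by
                rw [hB3]
                field_simp
                ring
        exact le_trans (choice_card_le fun ω hω => hω.2.2)
          (choice_bern hBern hR h.l0 h.L0 h.Ll h0)
      · exact hfalse _ fun ω hω => hu ⟨hω.1, hω.2.1⟩
    · by_cases hu : v ∈ U ∧ a ∈ L v
      · obtain ⟨hu, ha⟩ := hu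
        exact le_trans (choice_card_le fun ω hω => hω.2.2)
          ((hE4 V κ S U L D l m K x y q Lam e h he).1 v hu a ha)
      · exact hfalse _ fun ω hω => hu ⟨hω.1, hω.2.1⟩)
  refine ⟨oc e ω, ?_, ?_, ?_, ?_, ?_, ?_⟩
  · intro u hu
    exact (he.mem u hu _).2 ⟨ω u, rfl⟩
  · intro u hu a ha
    have h1 := hω (u, Sum.inr (Sum.inr (Sum.inr (Sum.inr a))))
    by_contra hc
    exact h1 ⟨hu, ha, not_le.1 hc⟩
  · intro v
    have h1 := hω (v, Sum.inr (Sum.inr (Sum.inl ())))
    by_contra hc
    exact h1 (not_le.1 hc)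
  · intro u hu
    have h1 := hω (u, Sum.inl ())
    by_contra hc
    exact h1 ⟨hu, not_le.1 hc⟩
  · intro v
    have h1 := hω (v, Sum.inr (Sum.inl ()))
    by_contra hc
    exact h1 (not_le.1 hc)
  · intro u hu a ha
    have h1 := hω (u, Sum.inr (Sum.inr (Sum.inr (Sum.inl a))))
    by_contra hc
    exact h1 ⟨hu, ha, not_le.1 hc⟩

/-- CHOICE. -/
theorem thm_Choice (hNear : St_Near) (hLLL0 : St_LLL0) (hBern : St_Bern) (hE1 : St_E1)
    (hE2 : St_E2) (hE3 : St_E3) (hE4 : St_E4) (hI1 : St_I1) (hI2 : St_I2) (hI3 : St_I3) :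
    St_Choice := by
  intro V κ _ _ _ S U L D l m K x y q Lam h
  exact choice_main hNear hLLL0 hBern hE1 hE2 hE3 hE4 hI1 hI2 hI3 V κ S U L D l m K x y q Lam h

end Pool.TCS
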