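import Pool.Agent.Helper3.TCS.Stmts
import Pool.Agent.Helper3.TCS.Bas

/-!
# Ret: the probabilities of the events `retv` (helper89)
-/

set_option autoImplicit false
set_option linter.unusedSectionVars false

namespace Pool.TCS

open Pool.TC Pool.TCM Finset
open scoped Classical

/-! ### Tools -/

/-- the small letters -/
def Ret_Fl (N c : ℕ) : Finset (Fin N) := univ.filter fun i => i.val < c

theorem Ret_Fl_card {N c : ℕ} (h : c ≤ N) : (Ret_Fl N c).card = c := by
  unfold Ret_Fl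
  rw [Fin.card_filter_val_lt]
  exact min_eq_right h

theorem Ret_Fl_mem {N c : ℕ} (i : Fin N) : i ∈ Ret_Fl N c ↔ i.val < c := by
  unfold Ret_Fl
  simp

theorem Ret_Flc_mem {N c : ℕ} (i : Fin N) : i ∈ (Ret_Fl N c)ᶜ ↔ ¬ i.val < c := by
  rw [mem_compl, Ret_Fl_mem]

theorem Ret_Fl_frac {N c : ℕ} (h : c ≤ N) :
    ((Ret_Fl N c).card : ℝ) / Fintype.card (Fin N) = (c : ℝ) / N := by
  rw [Ret_Fl_card h, Fintype.card_fin]

theorem Ret_Flc_frac {N c : ℕ} (hN : 0 < N) (h : c ≤ N) :
    (((Ret_Fl N c)ᶜ.card : ℕ) : ℝ) / Fintype.card (Fin N) = 1 - (c : ℝ) / N := by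
  rw [card_compl, Ret_Fl_card h, Fintype.card_fin, Nat.cast_sub h]
  have : (0 : ℝ) < N := by exact_mod_cast hN
  field_simp

theorem Ret_mean_mono {Ω : Type} [Fintype Ω] {F G : Ω → ℝ} (h : ∀ ω, F ω ≤ G ω) :
    mean F ≤ mean G := by
  unfold mean
  exact div_le_div_of_nonneg_right (sum_le_sum fun ω _ => h ω) (Nat.cast_nonneg _)

theorem Ret_mean_congr {Ω : Type} {i j : Fintype Ω} {F G : Ω → ℝ} (h : ∀ ω, F ω = G ω) :
    @mean Ω i F = @mean Ω j G := by
  rw [Subsingleton.elim i j, funext h]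

theorem Ret_box (hBox : St_Box) {T A : Type} [Fintype T] [Fintype A] [Nonempty A]
    {i : Fintype (T → A)} (E : (T → A) → Prop) [∀ ω, Decidable (E ω)] (T0 : Finset T)
    (B : T → Finset A) (h : ∀ ω, E ω ↔ ∀ t ∈ T0, ω t ∈ B t) :
    @mean (T → A) i (fun ω : T → A => if E ω then (1 : ℝ) else 0) =
      ∏ t ∈ T0, ((B t).card : ℝ) / Fintype.card A := by
  have h1 := (hBox T A).1 (fun t => if t ∈ T0 then B t else univ)
  have hA : (0 : ℝ) < Fintype.card A := by exact_mod_cast Fintype.card_pos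
  have h3 : ∀ t : T, (((if t ∈ T0 then B t else univ : Finset A).card : ℕ) : ℝ) / Fintype.card A =
      if t ∈ T0 then ((B t).card : ℝ) / Fintype.card A else 1 := by
    intro t
    by_cases ht : t ∈ T0
    · rw [if_pos ht, if_pos ht]
    · rw [if_neg ht, if_neg ht, card_univ]
      exact div_self hA.ne'
  rw [prod_congr rfl fun t _ => h3 t, prod_ite_mem, univ_inter] at h1
  rw [← h1]
  refine Ret_mean_congr fun ω => ?_
  refine if_congr ?_ rfl rfl
  rw [h ω]
  constructor
  · intro h3 t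
    by_cases ht : t ∈ T0
    · rw [if_pos ht]
      exact h3 t ht
    · rw [if_neg ht]
      exact mem_univ _
  · intro h3 t ht
    have h4 := h3 t
    rwa [if_pos ht] at h4

section

variable {V κ : Type} [Fintype V] [Fintype κ] {S : CS V κ} {U : Finset V} {L : V → Finset κ}
  {D l m K : ℕ} {x y q Lam : ℝ} {o : V → κ}

theorem Ret_conf_symm {u w : V} (h : conf S o u w) : conf S o w u := by
  obtain ⟨h1, h2⟩ := h
  refine ⟨h1.symm, ?_⟩
  rcases h2 with ⟨h2, h3⟩ | h2
  · exact Or.inl ⟨S.symm _ _ h2, h3.symm⟩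
  · exact Or.inr h2.symm

theorem Ret_qc_le (hg : Good S U L l m K x y q Lam o) {u : V} (hu : u ∈ U) :
    qc S U o u ≤ 2 * K := by
  have h1 := hg.kP u hu (o u) (hg.mem u hu)
  have h2 := hg.kR (S.r u (o u))
  unfold qc
  have h3 : (univ.filter fun w => w ∈ U ∧ conf S o u w) ⊆
      KP S U o u (o u) ∪ univ.filter (fun w => w ∈ U ∧ S.r w (o w) = S.r u (o u)) := by
    intro w hw
    obtain ⟨-, hwU, -, hc⟩ := mem_filter.1 hw
    rw [mem_union]
    rcases hc with ⟨hc1, hc2⟩ | hc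
    · left
      unfold KP
      rw [mem_filter]
      exact ⟨mem_univ _, hwU, hc1, hc2.symm⟩
    · right
      rw [mem_filter]
      exact ⟨mem_univ _, hwU, hc.symm⟩
  have h4 := (card_le_card h3).trans (card_union_le _ _)
  omega

theorem Ret_Npos (h : Hyp S U L D l m K x y q Lam) : 0 < m ^ (2 * K + 1) :=
  Nat.pow_pos (by have := h.m192; omega)

theorem Ret_act_frac (h : Hyp S U L D l m K x y q Lam) :
    ((m ^ (2 * K) : ℕ) : ℝ) / ((m ^ (2 * K + 1) : ℕ) : ℝ) = 1 / (m : ℝ) := by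
  have hm := h.mpos
  push_cast
  rw [pow_succ]
  field_simp

theorem Ret_act_le (h : Hyp S U L D l m K x y q Lam) : m ^ (2 * K) ≤ m ^ (2 * K + 1) :=
  Nat.pow_le_pow_right (by have := h.m192; omega) (Nat.le_succ _)

theorem Ret_coin_le (_h : Hyp S U L D l m K x y q Lam) {k : ℕ} (hk : k ≤ 2 * K) :
    (m - 1) ^ (2 * K - k) * m ^ (k + 1) ≤ m ^ (2 * K + 1) := by
  have h1 : m ^ (2 * K + 1) = m ^ (2 * K - k) * m ^ (k + 1) := by
    rw [← pow_add]
    congr 1
    omega
  rw [h1]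
  exact Nat.mul_le_mul_right _ (Nat.pow_le_pow_left (Nat.sub_le _ _) _)

theorem Ret_coin_frac (h : Hyp S U L D l m K x y q Lam) {k : ℕ} (hk : k ≤ 2 * K) :
    (((m - 1) ^ (2 * K - k) * m ^ (k + 1) : ℕ) : ℝ) / ((m ^ (2 * K + 1) : ℕ) : ℝ) =
      (1 - 1 / (m : ℝ)) ^ (2 * K - k) := by
  have hm := h.mpos
  have h1 : m ^ (2 * K + 1) = m ^ (2 * K - k) * m ^ (k + 1) := by
    rw [← pow_add]
    congr 1
    omega
  have h2 : 1 ≤ m := by have := h.m192; omega
  rw [h1]
  push_cast
  rw [Nat.cast_sub h2, Nat.cast_one, mul_div_mul_right _ _ (by positivity), ← div_pow]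
  congr 1
  field_simp

/-- the boxes for the labels -/
noncomputable def Ret_B (S : CS V κ) (U : Finset V) (o : V → κ) (m K : ℕ) (u w : V) :
    Lab V κ → Finset (Fin (m ^ (2 * K + 1)))
  | Sum.inl (Sum.inl v) => if v = u ∨ v = w then Ret_Fl _ (m ^ (2 * K))
      else (Ret_Fl _ (m ^ (2 * K)))ᶜ
  | Sum.inl (Sum.inr v) => Ret_Fl _ ((m - 1) ^ (2 * K - qc S U o v) * m ^ (qc S U o v + 1))
  | Sum.inr _ => univ

/-- the conflicting neighbours -/
noncomputable def Ret_N (S : CS V κ) (U : Finset V) (o : V → κ) (u : V) : Finset V :=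
  univ.filter fun w => w ∈ U ∧ conf S o u w

theorem Ret_N_self (u : V) : u ∉ Ret_N S U o u := by
  intro h
  unfold Ret_N at h
  exact (mem_filter.1 h).2.2.1 rfl

/-- the labels of the conflicting neighbours -/
noncomputable def Ret_im (κ : Type) (A : Finset V) : Finset (Lab V κ) :=
  A.image fun v => Sum.inl (Sum.inl v)

theorem Ret_prod_im (h : Hyp S U L D l m K x y q Lam) (u w : V) (A : Finset V) (hu : u ∉ A)
    (hw : w ∉ A) :
    ∏ t ∈ Ret_im κ A, (((Ret_B S U o m K u w t).card : ℕ) : ℝ) /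
      Fintype.card (Fin (m ^ (2 * K + 1))) = (1 - 1 / (m : ℝ)) ^ A.card := by
  unfold Ret_im
  rw [prod_image (by
    intro a _ b _ hab
    exact Sum.inl_injective (Sum.inl_injective hab)), ← prod_const]
  refine prod_congr rfl fun v hv => ?_
  have h1 : v ≠ u := fun h => hu (h ▸ hv)
  have h2 : v ≠ w := fun h => hw (h ▸ hv)
  show (((if v = u ∨ v = w then Ret_Fl _ (m ^ (2 * K))
      else (Ret_Fl _ (m ^ (2 * K)))ᶜ : Finset (Fin (m ^ (2 * K + 1)))).card : ℕ) : ℝ) / _ = _
  rw [if_neg (by rintro (h3 | h3); exacts [h1 h3, h2 h3]),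
    Ret_Flc_frac (Ret_Npos h) (Ret_act_le h), Ret_act_frac h]

theorem Ret_B_act (h : Hyp S U L D l m K x y q Lam) (u w v : V) (hv : v = u ∨ v = w) :
    (((Ret_B S U o m K u w (Sum.inl (Sum.inl v))).card : ℕ) : ℝ) /
      Fintype.card (Fin (m ^ (2 * K + 1))) = 1 / (m : ℝ) := by
  show (((if v = u ∨ v = w then Ret_Fl _ (m ^ (2 * K))
      else (Ret_Fl _ (m ^ (2 * K)))ᶜ : Finset (Fin (m ^ (2 * K + 1)))).card : ℕ) : ℝ) / _ = _
  rw [if_pos hv, Ret_Fl_frac (Ret_act_le h), Ret_act_frac h]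

theorem Ret_B_coin (h : Hyp S U L D l m K x y q Lam) (u w v : V) (hv : qc S U o v ≤ 2 * K) :
    (((Ret_B S U o m K u w (Sum.inl (Sum.inr v))).card : ℕ) : ℝ) /
      Fintype.card (Fin (m ^ (2 * K + 1))) = (1 - 1 / (m : ℝ)) ^ (2 * K - qc S U o v) := by
  show (((Ret_Fl _ ((m - 1) ^ (2 * K - qc S U o v) * m ^ (qc S U o v + 1)) :
    Finset (Fin (m ^ (2 * K + 1)))).card : ℕ) : ℝ) / _ = _
  rw [Ret_Fl_frac (Ret_coin_le h hv), Ret_coin_frac h hv]

/-- the first probability -/
theorem Ret_one (hBox : St_Box) (h : Hyp S U L D l m K x y q Lam)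
    (hg : Good S U L l m K x y q Lam o) {u : V} (hu : u ∈ U) :
    mean (fun ω => if retv S U o m K ω u then (1 : ℝ) else 0) = bet m K := by
  have : Nonempty (Fin (m ^ (2 * K + 1))) := ⟨⟨0, Ret_Npos h⟩⟩
  have hq := Ret_qc_le hg hu
  obtain ⟨T0, hT0⟩ : ∃ T0 : Finset (Lab V κ), T0 = insert (Sum.inl (Sum.inl u))
    (insert (Sum.inl (Sum.inr u)) (Ret_im κ (Ret_N S U o u))) := ⟨_, rfl⟩
  rw [Ret_box hBox (fun ω => retv S U o m K ω u) T0 (Ret_B S U o m K u u) ?_]
  · rw [hT0, prod_insert, prod_insert, Ret_prod_im h u u _ (Ret_N_self u) (Ret_N_self u),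
      Ret_B_act h u u u (Or.inl rfl), Ret_B_coin h u u u hq]
    · unfold bet
      have h1 : (Ret_N S U o u).card = qc S U o u := rfl
      rw [h1, ← pow_add]
      congr 2
      omega
    · unfold Ret_im
      simp
    · unfold Ret_im
      simp [Ret_N_self]
  · intro ω
    rw [hT0]
    constructor
    · rintro ⟨-, h1, h2, h3⟩ t ht
      rw [mem_insert, mem_insert] at ht
      rcases ht with rfl | rfl | ht
      · show _ ∈ (if u = u ∨ u = u then _ else _)
        rw [if_pos (Or.inl rfl), Ret_Fl_mem]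
        exact h1
      · exact (Ret_Fl_mem _).2 h2
      · unfold Ret_im at ht
        obtain ⟨v, hv, rfl⟩ := mem_image.1 ht
        have hvu : v ≠ u := fun h4 => Ret_N_self u (h4 ▸ hv)
        show _ ∈ (if v = u ∨ v = u then _ else _)
        rw [if_neg (by rintro (h4 | h4) <;> exact hvu h4), Ret_Flc_mem]
        unfold Ret_N at hv
        exact h3 v (mem_filter.1 hv).2.1 (mem_filter.1 hv).2.2
    · intro h1
      refine ⟨hu, ?_, ?_, ?_⟩
      · have h2 := h1 (Sum.inl (Sum.inl u)) (mem_insert_self _ _)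
        change _ ∈ (if u = u ∨ u = u then _ else _) at h2
        rw [if_pos (Or.inl rfl), Ret_Fl_mem] at h2
        exact h2
      · exact (Ret_Fl_mem _).1 (h1 (Sum.inl (Sum.inr u)) (mem_insert_of_mem (mem_insert_self _ _)))
      · intro w hw hc
        have hwN : w ∈ Ret_N S U o u := by
          unfold Ret_N
          exact mem_filter.2 ⟨mem_univ _, hw, hc⟩
        have hwu : w ≠ u := fun h4 => Ret_N_self u (h4 ▸ hwN)
        have h2 := h1 (Sum.inl (Sum.inl w)) (mem_insert_of_mem (mem_insert_of_mem (by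
          unfold Ret_im
          exact mem_image_of_mem _ hwN)))
        change _ ∈ (if w = u ∨ w = u then _ else _) at h2
        rw [if_neg (by rintro (h4 | h4) <;> exact hwu h4), Ret_Flc_mem] at h2
        exact h2

/-- the second probability -/
theorem Ret_two (hBox : St_Box) (h : Hyp S U L D l m K x y q Lam)
    (hg : Good S U L l m K x y q Lam o) {u w : V} (hu : u ∈ U) (hw : w ∈ U) (huw : u ≠ w)
    (hc : ¬ conf S o u w) :
    bet m K ^ 2 ≤
      mean (fun ω => if retv S U o m K ω u ∧ retv S U o m K ω w then (1 : ℝ) else 0) := by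
  have : Nonempty (Fin (m ^ (2 * K + 1))) := ⟨⟨0, Ret_Npos h⟩⟩
  have hq := Ret_qc_le hg hu
  have hq' := Ret_qc_le hg hw
  have hα := h.al0
  have hα' := h.al1
  have hc' : ¬ conf S o w u := fun h1 => hc (Ret_conf_symm h1)
  obtain ⟨A, hA⟩ : ∃ A : Finset V, A = Ret_N S U o u ∪ Ret_N S U o w := ⟨_, rfl⟩
  have huA : u ∉ A := by
    rw [hA, mem_union]
    rintro (h1 | h1)
    · exact Ret_N_self u h1
    · unfold Ret_N at h1
      exact hc' (mem_filter.1 h1).2.2
  have hwA : w ∉ A := by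
    rw [hA, mem_union]
    rintro (h1 | h1)
    · unfold Ret_N at h1
      exact hc (mem_filter.1 h1).2.2
    · exact Ret_N_self w h1
  obtain ⟨T0, hT0⟩ : ∃ T0 : Finset (Lab V κ), T0 = insert (Sum.inl (Sum.inl u))
    (insert (Sum.inl (Sum.inl w)) (insert (Sum.inl (Sum.inr u)) (insert (Sum.inl (Sum.inr w))
      (Ret_im κ A)))) := ⟨_, rfl⟩
  obtain ⟨E, hEE⟩ : ∃ E : (Lab V κ → Fin (m ^ (2 * K + 1))) → Prop,
    ∀ ω, E ω ↔ ∀ t ∈ T0, ω t ∈ Ret_B S U o m K u w t := ⟨_, fun _ => Iff.rfl⟩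
  have h1 : mean (fun ω : Lab V κ → Fin (m ^ (2 * K + 1)) => if E ω then (1 : ℝ) else 0) ≤
      mean (fun ω => if retv S U o m K ω u ∧ retv S U o m K ω w then (1 : ℝ) else 0) := by
    refine Ret_mean_mono fun ω => ?_
    by_cases hE' : E ω
    · have hE := (hEE ω).1 hE'
      have e1 : ∀ v, v = u ∨ v = w → Sum.inl (Sum.inl v) ∈ T0 → actv m K ω v := by
        intro v hv hvT
        have h2 := hE _ hvT
        change _ ∈ (if v = u ∨ v = w then _ else _) at h2
        rw [if_pos hv, Ret_Fl_mem] at h2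
        exact h2
      have e2 : ∀ v ∈ A, ¬ actv m K ω v := by
        intro v hv
        have h2 := hE (Sum.inl (Sum.inl v)) (by
          rw [hT0]
          refine mem_insert_of_mem (mem_insert_of_mem (mem_insert_of_mem (mem_insert_of_mem ?_)))
          unfold Ret_im
          exact mem_image_of_mem _ hv)
        change _ ∈ (if v = u ∨ v = w then _ else _) at h2
        rw [if_neg (by rintro (h4 | h4); exacts [huA (h4 ▸ hv), hwA (h4 ▸ hv)]),
          Ret_Flc_mem] at h2
        exact h2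
      have e3 : ∀ v, Sum.inl (Sum.inr v) ∈ T0 → goodv S U o m K ω v := fun v hv =>
        (Ret_Fl_mem _).1 (hE _ hv)
      rw [if_pos hE', if_pos]
      refine ⟨⟨hu, e1 u (Or.inl rfl) (by rw [hT0]; simp), e3 u (by rw [hT0]; simp), ?_⟩,
        ⟨hw, e1 w (Or.inr rfl) (by rw [hT0]; simp), e3 w (by rw [hT0]; simp), ?_⟩⟩
      · intro v hv hcv
        apply e2
        rw [hA, mem_union]
        left
        unfold Ret_N
        exact mem_filter.2 ⟨mem_univ _, hv, hcv⟩
      · intro v hv hcv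
        apply e2
        rw [hA, mem_union]
        right
        unfold Ret_N
        exact mem_filter.2 ⟨mem_univ _, hv, hcv⟩
    · rw [if_neg hE']
      split_ifs <;> norm_num
  refine le_trans ?_ h1
  rw [Ret_box hBox E T0 (Ret_B S U o m K u w) hEE]
  rw [hT0, prod_insert, prod_insert, prod_insert, prod_insert, Ret_prod_im h u w A huA hwA,
    Ret_B_act h u w u (Or.inl rfl), Ret_B_act h u w w (Or.inr rfl), Ret_B_coin h u w u hq,
    Ret_B_coin h u w w hq']
  · have h2 : A.card ≤ qc S U o u + qc S U o w := by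
      rw [hA]
      exact card_union_le _ _
    have hγ0 : 0 ≤ 1 - 1 / (m : ℝ) := by linarith
    have hγ1 : 1 - 1 / (m : ℝ) ≤ 1 := by linarith
    have h3 : (1 - 1 / (m : ℝ)) ^ (qc S U o u + qc S U o w) ≤ (1 - 1 / (m : ℝ)) ^ A.card :=
      pow_le_pow_of_le_one hγ0 hγ1 h2
    have h4 : bet m K ^ 2 = 1 / (m : ℝ) * (1 / (m : ℝ) * ((1 - 1 / (m : ℝ)) ^ (2 * K - qc S U o u) *
        ((1 - 1 / (m : ℝ)) ^ (2 * K - qc S U o w) *
          (1 - 1 / (m : ℝ)) ^ (qc S U o u + qc S U o w)))) := by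
      unfold bet
      rw [← pow_add, ← pow_add]
      have h5 : 2 * K - qc S U o u + (2 * K - qc S U o w + (qc S U o u + qc S U o w)) =
        2 * K + 2 * K := by omega
      rw [h5, pow_add]
      ring
    rw [h4]
    refine mul_le_mul_of_nonneg_left (mul_le_mul_of_nonneg_left
      (mul_le_mul_of_nonneg_left (mul_le_mul_of_nonneg_left h3 ?_) ?_) hα.le) hα.le
    · positivity
    · positivity
  · unfold Ret_im
    simp
  · unfold Ret_im
    simp [huw]
  · unfold Ret_im
    simp [hwA]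
  · unfold Ret_im
    simp [huA, huw]

/-- upper bounds -/
theorem Ret_up (hBox : St_Box) (h : Hyp S U L D l m K x y q Lam) (A : Finset V)
    (E : (Lab V κ → Fin (m ^ (2 * K + 1))) → Prop) [∀ ω, Decidable (E ω)]
    (hE : ∀ ω, E ω → ∀ v ∈ A, retv S U o m K ω v) :
    mean (fun ω => if E ω then (1 : ℝ) else 0) ≤ (1 / (m : ℝ)) ^ A.card := by
  have : Nonempty (Fin (m ^ (2 * K + 1))) := ⟨⟨0, Ret_Npos h⟩⟩
  obtain ⟨E', hEE⟩ : ∃ E' : (Lab V κ → Fin (m ^ (2 * K + 1))) → Prop,
    ∀ ω, E' ω ↔ ∀ t ∈ Ret_im κ A, ω t ∈ Ret_Fl (m ^ (2 * K + 1)) (m ^ (2 * K)) :=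
    ⟨_, fun _ => Iff.rfl⟩
  have h1 : mean (fun ω => if E ω then (1 : ℝ) else 0) ≤
      mean (fun ω : Lab V κ → Fin (m ^ (2 * K + 1)) => if E' ω then (1 : ℝ) else 0) := by
    refine Ret_mean_mono fun ω => ?_
    by_cases hω : E ω
    · rw [if_pos hω, if_pos]
      rw [hEE]
      intro t ht
      unfold Ret_im at ht
      obtain ⟨v, hv, rfl⟩ := mem_image.1 ht
      rw [Ret_Fl_mem]
      exact (hE ω hω v hv).2.1
    · rw [if_neg hω]
      split_ifs <;> norm_num
  refine h1.trans (le_of_eq ?_)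
  rw [Ret_box hBox E' (Ret_im κ A) (fun _ => Ret_Fl (m ^ (2 * K + 1)) (m ^ (2 * K))) hEE]
  unfold Ret_im
  rw [prod_image (by
    intro a _ b _ hab
    exact Sum.inl_injective (Sum.inl_injective hab)), prod_const, Ret_Fl_frac (Ret_act_le h),
    Ret_act_frac h]

theorem Ret_floor (h : Hyp S U L D l m K x y q Lam) {e : ℝ} (h0 : 0 ≤ e) (h1 : e ≤ 1 / 2) :
    ⌊e * (m : ℝ) ^ (2 * K + 1)⌋₊ ≤ m ^ (2 * K + 1) ∧
    1 - e ≤ 1 - ((⌊e * (m : ℝ) ^ (2 * K + 1)⌋₊ : ℕ) : ℝ) / ((m ^ (2 * K + 1) : ℕ) : ℝ) ∧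
    1 - ((⌊e * (m : ℝ) ^ (2 * K + 1)⌋₊ : ℕ) : ℝ) / ((m ^ (2 * K + 1) : ℕ) : ℝ) ≤
      1 - e + (1 / 2) ^ K := by
  have hm := h.mpos
  have h2 := h.N_small
  have hN : (0 : ℝ) < (m : ℝ) ^ (2 * K + 1) := by positivity
  have h3 : ((⌊e * (m : ℝ) ^ (2 * K + 1)⌋₊ : ℕ) : ℝ) ≤ e * (m : ℝ) ^ (2 * K + 1) :=
    Nat.floor_le (by positivity)
  have h4 := Nat.lt_floor_add_one (e * (m : ℝ) ^ (2 * K + 1))
  refine ⟨?_, ?_, ?_⟩
  · have h5 : ((⌊e * (m : ℝ) ^ (2 * K + 1)⌋₊ : ℕ) : ℝ) ≤ ((m ^ (2 * K + 1) : ℕ) : ℝ) := by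
      push_cast
      nlinarith
    exact_mod_cast h5
  · have h5 : ((⌊e * (m : ℝ) ^ (2 * K + 1)⌋₊ : ℕ) : ℝ) / ((m ^ (2 * K + 1) : ℕ) : ℝ) ≤ e := by
      push_cast
      rw [div_le_iff₀ hN]
      exact h3
    linarith
  · have h5 : e - 1 / (m : ℝ) ^ (2 * K + 1) ≤
        ((⌊e * (m : ℝ) ^ (2 * K + 1)⌋₊ : ℕ) : ℝ) / ((m ^ (2 * K + 1) : ℕ) : ℝ) := by
      push_cast
      rw [le_div_iff₀ hN, sub_mul, one_div_mul_cancel hN.ne']
      linarith
    linarith

/-- the last part: a box of labels which are independent of `f` -/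
theorem Ret_indep (hBox : St_Box) (h : Hyp S U L D l m K x y q Lam)
    (f : (Lab V κ → Fin (m ^ (2 * K + 1))) → ℝ)
    (hf : ∀ ω ω' : Lab V κ → Fin (m ^ (2 * K + 1)), (∀ t, ω (Sum.inl t) = ω' (Sum.inl t)) →
      f ω = f ω')
    (E : (Lab V κ → Fin (m ^ (2 * K + 1))) → Prop) [∀ ω, Decidable (E ω)]
    (T0 : Finset (V ⊕ (V × κ))) (c : V ⊕ (V × κ) → ℕ) (hc : ∀ t ∈ T0, c t ≤ m ^ (2 * K + 1))
    (hE : ∀ ω, E ω ↔ ∀ t ∈ T0, ¬ (ω (Sum.inr t)).val < c t) :
    mean (fun ω => if E ω then f ω else 0) =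
      mean f * ∏ t ∈ T0, (1 - ((c t : ℕ) : ℝ) / ((m ^ (2 * K + 1) : ℕ) : ℝ)) := by
  have : Nonempty (Fin (m ^ (2 * K + 1))) := ⟨⟨0, Ret_Npos h⟩⟩
  have h1 := (hBox (Lab V κ) (Fin (m ^ (2 * K + 1)))).2
    (univ.filter fun t : Lab V κ => ∃ s, t = Sum.inl s) f (fun ω => if E ω then (1 : ℝ) else 0)
    (by
      intro ω ω' hω
      refine hf ω ω' fun t => hω _ ?_
      rw [mem_filter]
      exact ⟨mem_univ _, t, rfl⟩) (by
      intro ω ω' hω
      have h2 : ∀ t, ω (Sum.inr t) = ω' (Sum.inr t) := by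
        intro t
        apply hω
        rw [mem_filter]
        rintro ⟨-, s, hs⟩
        exact absurd hs (by simp)
      refine if_congr ?_ rfl rfl
      rw [hE, hE]
      simp only [h2])
  have h2 : mean (fun ω => if E ω then f ω else 0) =
      mean f * mean (fun ω => if E ω then (1 : ℝ) else 0) := by
    refine Eq.trans (Ret_mean_congr fun ω => ?_) (h1.trans ?_)
    · by_cases hω : E ω
      · rw [if_pos hω, if_pos hω, mul_one]
      · rw [if_neg hω, if_neg hω, mul_zero]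
    · congr 1
      · exact Ret_mean_congr fun _ => rfl
      · exact Ret_mean_congr fun _ => rfl
  rw [h2]
  congr 1
  rw [Ret_box hBox E (T0.image Sum.inr) (fun t => match t with
      | Sum.inl _ => univ
      | Sum.inr t => (Ret_Fl (m ^ (2 * K + 1)) (c t))ᶜ) ?_]
  · rw [prod_image (by
      intro a _ b _ hab
      exact Sum.inr_injective hab)]
    refine prod_congr rfl fun t ht => ?_
    exact Ret_Flc_frac (Ret_Npos h) (hc t ht)
  · intro ω
    rw [hE]
    constructor
    · intro h3 t ht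
      obtain ⟨t', ht', rfl⟩ := mem_image.1 ht
      exact (Ret_Flc_mem _).2 (h3 t' ht')
    · intro h3 t ht
      exact (Ret_Flc_mem _).1 (h3 _ (mem_image_of_mem _ ht))

end

theorem Ret_mean_le_one {Ω : Type} [Fintype Ω] {F : Ω → ℝ} (h : ∀ ω, F ω ≤ 1) : mean F ≤ 1 := by
  unfold mean
  apply div_le_one_of_le₀ _ (Nat.cast_nonneg _)
  calc ∑ ω, F ω ≤ ∑ ω : Ω, (1 : ℝ) := sum_le_sum fun ω _ => h ω
    _ = Fintype.card Ω := by rw [sum_const, nsmul_eq_mul, mul_one, card_univ]

theorem Ret_mean_nonneg {Ω : Type} [Fintype Ω] {F : Ω → ℝ} (h : ∀ ω, 0 ≤ F ω) : 0 ≤ mean F := by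
  unfold mean
  exact div_nonneg (sum_nonneg fun ω _ => h ω) (Nat.cast_nonneg _)

theorem thm_Ret (hBox : St_Box) : St_Ret := by
  intro V κ _ _ S U L D l m K x y q Lam o h hg
  refine ⟨fun u hu => Ret_one hBox h hg hu,
    fun u hu w hw huw hc => Ret_two hBox h hg hu hw huw hc, ?_, ?_, ?_⟩
  · intro u hu w hw huw
    have h1 := Ret_up (o := o) hBox h {u, w}
      (fun ω => retv S U o m K ω u ∧ retv S U o m K ω w) (by
        intro ω hω v hv
        rw [mem_insert, mem_singleton] at hv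
        rcases hv with rfl | rfl
        · exact hω.1
        · exact hω.2)
    rwa [card_pair huw] at h1
  · intro u hu w hw t ht huw hut hwt
    have h1 := Ret_up (o := o) hBox h {u, w, t}
      (fun ω => retv S U o m K ω u ∧ retv S U o m K ω w ∧ retv S U o m K ω t) (by
        intro ω hω v hv
        rw [mem_insert, mem_insert, mem_singleton] at hv
        rcases hv with rfl | rfl | rfl
        · exact hω.1
        · exact hω.2.1
        · exact hω.2.2)
    have h2 : ({u, w, t} : Finset V).card = 3 := card_eq_three.2 ⟨u, w, t, huw, hut, hwt, rfl⟩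
    rwa [h2] at h1
  · intro f hf0 hf1 hf
    have hF0 := Ret_mean_nonneg hf0
    have hF1 := Ret_mean_le_one hf1
    refine ⟨?_, ?_, ?_⟩
    · intro v u hu a ha
      have e1 := h.eK_nonneg hu ha
      have e2 := h.eK_le hu ha
      have e3 := h.eR_nonneg v
      have e4 := h.eR_le v
      obtain ⟨k1, k2, -⟩ := Ret_floor h e1 e2
      obtain ⟨r1, r2, -⟩ := Ret_floor h e3 e4
      rw [Ret_indep hBox h f hf (fun ω => ¬ bkv S U L l m K x ω v ∧ ¬ ekv S U L l m K q ω u a)
        {Sum.inl v, Sum.inr (u, a)} (fun t => match t with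
          | Sum.inl v => ⌊eR S U L l m K x v * (m : ℝ) ^ (2 * K + 1)⌋₊
          | Sum.inr p => ⌊eK S U L l m K q p.1 p.2 * (m : ℝ) ^ (2 * K + 1)⌋₊) (by
            intro t ht
            rw [mem_insert, mem_singleton] at ht
            rcases ht with rfl | rfl
            · exact r1
            · exact k1) (by
            intro ω
            rw [forall_mem_insert]
            refine and_congr Iff.rfl ?_
            constructor
            · intro h1 t ht
              rw [mem_singleton] at ht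
              subst ht
              exact h1
            · intro h1
              exact h1 _ (mem_singleton_self _))]
      rw [prod_pair (by simp), mul_assoc]
      refine mul_le_mul_of_nonneg_left ?_ hF0
      exact mul_le_mul r2 k2 (by linarith) (by linarith)
    · intro u hu a ha
      have e1 := h.eK_nonneg hu ha
      have e2 := h.eK_le hu ha
      obtain ⟨k1, -, k3⟩ := Ret_floor h e1 e2
      rw [Ret_indep hBox h f hf (fun ω => ¬ ekv S U L l m K q ω u a)
        {Sum.inr (u, a)} (fun _ => ⌊eK S U L l m K q u a * (m : ℝ) ^ (2 * K + 1)⌋₊)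
          (fun t _ => k1) (by
            intro ω
            constructor
            · intro h1 t ht
              rw [mem_singleton] at ht
              subst ht
              exact h1
            · intro h1
              exact h1 _ (mem_singleton_self _))]
      rw [prod_singleton]
      have h2 : (0 : ℝ) ≤ (1 / 2) ^ K := by positivity
      have h3 := mul_le_mul_of_nonneg_left k3 hF0
      nlinarith
    · intro v
      have e3 := h.eR_nonneg v
      have e4 := h.eR_le v
      obtain ⟨r1, -, r3⟩ := Ret_floor h e3 e4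
      rw [Ret_indep hBox h f hf (fun ω => ¬ bkv S U L l m K x ω v)
        {Sum.inl v} (fun _ => ⌊eR S U L l m K x v * (m : ℝ) ^ (2 * K + 1)⌋₊)
          (fun t _ => r1) (by
            intro ω
            constructor
            · intro h1 t ht
              rw [mem_singleton] at ht
              subst ht
              exact h1
            · intro h1
              exact h1 _ (mem_singleton_self _))]
      rw [prod_singleton]
      have h2 : (0 : ℝ) ≤ (1 / 2) ^ K := by positivity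
      have h3 := mul_le_mul_of_nonneg_left r3 hF0
      nlinarith

end Pool.TCS
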