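import Pool.Agent.Helper3.TCS.Defs

/-!
# Statements of the parts of the proof of T5 (paper proof: `TC5_helper3.md`)
-/

set_option autoImplicit false

namespace Pool.TCS

open Pool.TC Pool.TCM Finset
open scoped Classical

/-! ### Tools -/

/-- NEAR. Balls of the distance relation. -/
def St_Near : Prop := ∀ (V κ : Type) [Fintype V] [Fintype κ] (S : CS V κ) (D : ℕ),
  (∀ u, (univ.filter (fun v => S.adj u v)).card ≤ D) → Fintype.card κ ≤ D →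
  (∀ n u w, near S n u w → near S n w u) ∧
  (∀ n n' u w x, near S n u w → near S n' w x → near S (n + n') u x) ∧
  (∀ n n' u w, n ≤ n' → near S n u w → near S n' u w) ∧
  (∀ n u, (univ.filter (fun w => near S n u w)).card ≤ (3 * D + 1) ^ n)

/-- LLL0. The local lemma for events in a product space. -/
def St_LLL0 : Prop := ∀ (T A J : Type) [Fintype T] [Fintype A] [Nonempty A] [Fintype J]
  (Ev : J → (T → A) → Prop) (S : J → Finset T) (p : ℝ) (N : ℕ),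
  (∀ j (ω ω' : T → A), (∀ t ∈ S j, ω t = ω' t) → Ev j ω → Ev j ω') →
  (∀ j, ((univ.filter (fun ω => Ev j ω)).card : ℝ) ≤ p * Fintype.card (T → A)) →
  (∀ j, (univ.filter (fun j' => ∃ t, t ∈ S j ∧ t ∈ S j')).card ≤ N) →
  0 ≤ p → 4 * p * (N + 1) ≤ 1 → ∃ ω : T → A, ∀ j, ¬ Ev j ω

/-- BERN. Bernstein inequality: only the letters in `R t` of the coordinate `t` matter. -/
def St_Bern : Prop := ∀ (T A : Type) [Fintype T] [Fintype A] [Nonempty A] (F : (T → A) → ℝ)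
  (c P Lam : ℝ) (R : T → Finset A), 0 < c → 0 < Lam → Lam ≤ P →
  (∀ t (ω ω' : T → A), (∀ t', t' ≠ t → ω t' = ω' t') → |F ω - F ω'| ≤ c) →
  (∀ t (ω ω' : T → A), (∀ t', t' ≠ t → ω t' = ω' t') → ω t ∉ R t → ω' t ∉ R t → F ω = F ω') →
  (∑ t, ((R t).card : ℝ)) ≤ P * Fintype.card A →
  ((univ.filter (fun ω => mean F + 3 * c * Real.sqrt (P * Lam) ≤ F ω)).card : ℝ) ≤
    Real.exp (-Lam) * Fintype.card (T → A)

/-- MEAN. Means of counting functions on a product space. -/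
def St_Mean : Prop := ∀ (T A : Type) [Fintype T] [Fintype A] [Nonempty A] (R : T → Finset A),
  (mean (fun ω : T → A => ((univ.filter (fun t => ω t ∈ R t)).card : ℝ)) =
    (∑ t, ((R t).card : ℝ)) / Fintype.card A) ∧
  (∀ (R' : T → Finset A) (rel : T → T → Prop),
    mean (fun ω : T → A => (((univ : Finset (T × T)).filter
      (fun p => p.1 ≠ p.2 ∧ rel p.1 p.2 ∧ ω p.1 ∈ R p.1 ∧ ω p.2 ∈ R' p.2)).card : ℝ)) =
    (∑ p ∈ (univ : Finset (T × T)).filter (fun p => p.1 ≠ p.2 ∧ rel p.1 p.2),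
      ((R p.1).card : ℝ) * (R' p.2).card) / (Fintype.card A : ℝ) ^ 2) ∧
  (∀ P : ℝ, (∑ t, ((R t).card : ℝ)) ≤ P * Fintype.card A →
    mean (fun ω : T → A => (4 : ℝ) ^ (univ.filter (fun t => ω t ∈ R t)).card) ≤
      Real.exp (3 * P))

/-- BOX. The probability of a box; independence of disjoint sets of coordinates. -/
def St_Box : Prop := ∀ (T A : Type) [Fintype T] [Fintype A] [Nonempty A],
  (∀ B : T → Finset A, mean (fun ω : T → A => if ∀ t, ω t ∈ B t then (1 : ℝ) else 0) =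
    ∏ t, ((B t).card : ℝ) / Fintype.card A) ∧
  (∀ (Q : Finset T) (f g : (T → A) → ℝ),
    (∀ ω ω' : T → A, (∀ t ∈ Q, ω t = ω' t) → f ω = f ω') →
    (∀ ω ω' : T → A, (∀ t, t ∉ Q → ω t = ω' t) → g ω = g ω') →
    mean (fun ω => f ω * g ω) = mean f * mean g)

/-- IT. The final transversal. -/
def St_IT : Prop := ∀ (V κ : Type) [Fintype V] [Fintype κ] [Nonempty κ] (S : CS V κ) (U : Finset V)
  (L : V → Finset κ) (l : ℕ), 0 < l → (∀ u ∈ U, (L u).card = l) →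
  (∀ v, 8 * (Cv S U L v).card ≤ l) → (∀ u ∈ U, ∀ a ∈ L u, 8 * (Pn S U L u a).card ≤ l) →
  Solv S U L

/-! ### The choice -/

/-- E1. -/
def St_E1 : Prop := ∀ (V κ : Type) [Fintype V] [Fintype κ] (S : CS V κ) (U : Finset V)
  (L : V → Finset κ) (D l m K : ℕ) (x y q Lam : ℝ) (e : V → Fin l → κ),
  Hyp S U L D l m K x y q Lam → Enu U L l e → ∀ u ∈ U, ∀ a ∈ L u,
  (1 - q) * (1 - bet m K * x / l) - 2 ^ 13 * (1 / 4) ^ K ≤
    mean (fun ω : V → Fin l => Psi1 S U L l m K x q (oc e ω) u a)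

/-- E2. -/
def St_E2 : Prop := ∀ (V κ : Type) [Fintype V] [Fintype κ] (S : CS V κ) (U : Finset V)
  (L : V → Finset κ) (D l m K : ℕ) (x y q Lam : ℝ) (e : V → Fin l → κ),
  Hyp S U L D l m K x y q Lam → Enu U L l e → ∀ w ∈ U, ∀ b ∈ L w,
  mean (fun ω : V → Fin l => Psi2 S U L l m K q (oc e ω) w b) ≤
    (1 - bet m K) * (1 - q) + 18 * K * (1 / (m : ℝ)) ^ 3

/-- E3. -/
def St_E3 : Prop := ∀ (V κ : Type) [Fintype V] [Fintype κ] (S : CS V κ) (U : Finset V)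
  (L : V → Finset κ) (D l m K : ℕ) (x y q Lam : ℝ) (e : V → Fin l → κ),
  Hyp S U L D l m K x y q Lam → Enu U L l e → ∀ w ∈ U, ∀ a ∈ L w,
  mean (fun ω : V → Fin l => Psi3 S U L l m K x (oc e ω) w a) ≤
    (1 - bet m K) * (1 - bet m K * x / l) + 4 * K * (1 / (m : ℝ)) ^ 3 + bet m K / l

/-- E4. Large multiplicities are rare. -/
def St_E4 : Prop := ∀ (V κ : Type) [Fintype V] [Fintype κ] (S : CS V κ) (U : Finset V)
  (L : V → Finset κ) (D l m K : ℕ) (x y q Lam : ℝ) (e : V → Fin l → κ),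
  Hyp S U L D l m K x y q Lam → Enu U L l e →
  (∀ u ∈ U, ∀ a ∈ L u, ((univ.filter (fun ω : V → Fin l =>
    K < (KP S U (oc e ω) u a).card)).card : ℝ) ≤ Real.exp (-Lam) * Fintype.card (V → Fin l)) ∧
  (∀ v, ((univ.filter (fun ω : V → Fin l =>
    K < (univ.filter (fun w => w ∈ U ∧ S.r w (oc e ω w) = v)).card)).card : ℝ) ≤
      Real.exp (-Lam) * Fintype.card (V → Fin l))

/-- I1. -/
def St_I1 : Prop := ∀ (V κ : Type) [Fintype V] [Fintype κ] (S : CS V κ) (U : Finset V)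
  (L : V → Finset κ) (D l m K : ℕ) (x y q Lam : ℝ) (e : V → Fin l → κ),
  Hyp S U L D l m K x y q Lam → Enu U L l e → ∀ u ∈ U, ∃ R : V → Finset (Fin l),
  Infl S l u (fun ω => ∑ a ∈ L u, Psi1 S U L l m K x q (oc e ω) u a) R

/-- I2. -/
def St_I2 : Prop := ∀ (V κ : Type) [Fintype V] [Fintype κ] (S : CS V κ) (U : Finset V)
  (L : V → Finset κ) (D l m K : ℕ) (x y q Lam : ℝ) (e : V → Fin l → κ),
  Hyp S U L D l m K x y q Lam → Enu U L l e → ∀ v, ∃ R : V → Finset (Fin l),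
  Infl S l v (fun ω => ∑ p ∈ Cv S U L v, Psi2 S U L l m K q (oc e ω) p.1 p.2) R

/-- I3. -/
def St_I3 : Prop := ∀ (V κ : Type) [Fintype V] [Fintype κ] (S : CS V κ) (U : Finset V)
  (L : V → Finset κ) (D l m K : ℕ) (x y q Lam : ℝ) (e : V → Fin l → κ),
  Hyp S U L D l m K x y q Lam → Enu U L l e → ∀ u ∈ U, ∀ a ∈ L u, ∃ R : V → Finset (Fin l),
  Infl S l u (fun ω => ∑ w ∈ Pn S U L u a, Psi3 S U L l m K x (oc e ω) w a) R

/-- CHOICE. -/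
def St_Choice : Prop := ∀ (V κ : Type) [Fintype V] [Fintype κ] [Nonempty κ] (S : CS V κ) (U : Finset V)
  (L : V → Finset κ) (D l m K : ℕ) (x y q Lam : ℝ), Hyp S U L D l m K x y q Lam →
  ∃ o : V → κ, Good S U L l m K x y q Lam o

/-! ### The activation -/

/-- RET. The probabilities of the events `retv`, and the independence of the other labels. -/
def St_Ret : Prop := ∀ (V κ : Type) [Fintype V] [Fintype κ] (S : CS V κ) (U : Finset V)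
  (L : V → Finset κ) (D l m K : ℕ) (x y q Lam : ℝ) (o : V → κ),
  Hyp S U L D l m K x y q Lam → Good S U L l m K x y q Lam o →
  (∀ u ∈ U, mean (fun ω => if retv S U o m K ω u then (1 : ℝ) else 0) = bet m K) ∧
  (∀ u ∈ U, ∀ w ∈ U, u ≠ w → ¬ conf S o u w →
    bet m K ^ 2 ≤ mean (fun ω => if retv S U o m K ω u ∧ retv S U o m K ω w then (1 : ℝ) else 0)) ∧
  (∀ u ∈ U, ∀ w ∈ U, u ≠ w →
    mean (fun ω => if retv S U o m K ω u ∧ retv S U o m K ω w then (1 : ℝ) else 0) ≤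
      (1 / (m : ℝ)) ^ 2) ∧
  (∀ u ∈ U, ∀ w ∈ U, ∀ t ∈ U, u ≠ w → u ≠ t → w ≠ t →
    mean (fun ω => if retv S U o m K ω u ∧ retv S U o m K ω w ∧ retv S U o m K ω t
      then (1 : ℝ) else 0) ≤ (1 / (m : ℝ)) ^ 3) ∧
  (∀ f : (Lab V κ → Fin (m ^ (2 * K + 1))) → ℝ, (∀ ω, 0 ≤ f ω) → (∀ ω, f ω ≤ 1) →
    (∀ ω ω', (∀ t, ω (Sum.inl t) = ω' (Sum.inl t)) → f ω = f ω') →
    (∀ v, ∀ u ∈ U, ∀ a ∈ L u, mean f * (1 - eR S U L l m K x v) * (1 - eK S U L l m K q u a) ≤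
      mean (fun ω => if ¬ bkv S U L l m K x ω v ∧ ¬ ekv S U L l m K q ω u a then f ω else 0)) ∧
    (∀ u ∈ U, ∀ a ∈ L u, mean (fun ω => if ¬ ekv S U L l m K q ω u a then f ω else 0) ≤
      mean f * (1 - eK S U L l m K q u a) + (1 / 2) ^ K) ∧
    (∀ v, mean (fun ω => if ¬ bkv S U L l m K x ω v then f ω else 0) ≤
      mean f * (1 - eR S U L l m K x v) + (1 / 2) ^ K))

/-- M1. -/
def St_M1 : Prop := ∀ (V κ : Type) [Fintype V] [Fintype κ] (S : CS V κ) (U : Finset V)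
  (L : V → Finset κ) (D l m K : ℕ) (x y q Lam : ℝ) (o : V → κ),
  Hyp S U L D l m K x y q Lam → Good S U L l m K x y q Lam o → ∀ u ∈ U,
  (∑ a ∈ L u, Psi1 S U L l m K x q o u a) - 4 / 3 * (K : ℝ) ^ 3 * (1 / (m : ℝ)) ^ 3 * l ≤
    mean (G1 S U L l m K x q o u)

/-- M2. -/
def St_M2 : Prop := ∀ (V κ : Type) [Fintype V] [Fintype κ] (S : CS V κ) (U : Finset V)
  (L : V → Finset κ) (D l m K : ℕ) (x y q Lam : ℝ) (o : V → κ),
  Hyp S U L D l m K x y q Lam → Good S U L l m K x y q Lam o → ∀ v,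
  mean (G2 S U L l m K q o v) ≤
    (∑ p ∈ Cv S U L v, Psi2 S U L l m K q o p.1 p.2) + (1 / 2) ^ K * l

/-- M3. -/
def St_M3 : Prop := ∀ (V κ : Type) [Fintype V] [Fintype κ] (S : CS V κ) (U : Finset V)
  (L : V → Finset κ) (D l m K : ℕ) (x y q Lam : ℝ) (o : V → κ),
  Hyp S U L D l m K x y q Lam → Good S U L l m K x y q Lam o → ∀ u ∈ U, ∀ a ∈ L u,
  mean (G3 S U L l m K x o u a) ≤
    (∑ w ∈ Pn S U L u a, Psi3 S U L l m K x o w a) + 2 * (1 / 2) ^ K * l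

/-- J1. -/
def St_J1 : Prop := ∀ (V κ : Type) [Fintype V] [Fintype κ] (S : CS V κ) (U : Finset V)
  (L : V → Finset κ) (D l m K : ℕ) (x y q Lam : ℝ) (o : V → κ),
  Hyp S U L D l m K x y q Lam → Good S U L l m K x y q Lam o → ∀ u ∈ U,
  ∃ cc, Diff S l m K u (G1 S U L l m K x q o u) cc

/-- J2. -/
def St_J2 : Prop := ∀ (V κ : Type) [Fintype V] [Fintype κ] (S : CS V κ) (U : Finset V)
  (L : V → Finset κ) (D l m K : ℕ) (x y q Lam : ℝ) (o : V → κ),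
  Hyp S U L D l m K x y q Lam → Good S U L l m K x y q Lam o → ∀ v,
  ∃ cc, Diff S l m K v (G2 S U L l m K q o v) cc

/-- J3. -/
def St_J3 : Prop := ∀ (V κ : Type) [Fintype V] [Fintype κ] (S : CS V κ) (U : Finset V)
  (L : V → Finset κ) (D l m K : ℕ) (x y q Lam : ℝ) (o : V → κ),
  Hyp S U L D l m K x y q Lam → Good S U L l m K x y q Lam o → ∀ u ∈ U, ∀ a ∈ L u,
  ∃ cc, Diff S l m K u (G3 S U L l m K x o u a) cc

/-- ACTI. -/
def St_Acti : Prop := ∀ (V κ : Type) [Fintype V] [Fintype κ] (S : CS V κ) (U : Finset V)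
  (L : V → Finset κ) (D l m K : ℕ) (x y q Lam : ℝ) (o : V → κ),
  Hyp S U L D l m K x y q Lam → Good S U L l m K x y q Lam o →
  ∃ ω : Lab V κ → Fin (m ^ (2 * K + 1)),
    (∀ u ∈ U, (∑ a ∈ L u, Psi1 S U L l m K x q o u a) -
      4 / 3 * (K : ℝ) ^ 3 * (1 / (m : ℝ)) ^ 3 * l - 30 * (K : ℝ) ^ 2 * Real.sqrt (l * Lam) ≤
        G1 S U L l m K x q o u ω) ∧
    (∀ v, G2 S U L l m K q o v ω ≤ (∑ p ∈ Cv S U L v, Psi2 S U L l m K q o p.1 p.2) +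
      (1 / 2) ^ K * l + 30 * (K : ℝ) ^ 2 * Real.sqrt (l * Lam)) ∧
    (∀ u ∈ U, ∀ a ∈ L u, G3 S U L l m K x o u a ω ≤
      (∑ w ∈ Pn S U L u a, Psi3 S U L l m K x o w a) + 2 * (1 / 2) ^ K * l +
        30 * (K : ℝ) ^ 2 * Real.sqrt (l * Lam))

/-- STEP. One step. -/
def St_Step : Prop := ∀ (V κ : Type) [Fintype V] [Fintype κ] [Nonempty κ] (S : CS V κ) (U : Finset V)
  (L : V → Finset κ) (D l m K : ℕ) (x y q Lam : ℝ), Hyp S U L D l m K x y q Lam →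
  ∃ (U' : Finset V) (L' : V → Finset κ), U' ⊆ U ∧ (∀ u ∈ U', L' u ⊆ L u) ∧
    (∀ u ∈ U', (l : ℝ) * ((1 - q) * (1 - bet m K * x / l) - Err m K Lam l) ≤ (L' u).card) ∧
    (∀ v, ((Cv S U' L' v).card : ℝ) ≤ x * (1 - bet m K) * (1 - q) + Err m K Lam l * l) ∧
    (∀ u ∈ U', ∀ a ∈ L' u, ((Pn S U' L' u a).card : ℝ) ≤
      y * (1 - bet m K) * (1 - bet m K * x / l) + Err m K Lam l * l) ∧
    (Solv S U' L' → Solv S U L)

/-- ITER. Iteration until the transversal exists. -/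
def St_Iter : Prop := ∀ (V κ : Type) [Fintype V] [Fintype κ] [Nonempty κ] (S : CS V κ) (n : ℕ) (U : Finset V)
  (L : V → Finset κ) (D l m K L0 : ℕ) (g Lam : ℝ),
  (∀ u, (univ.filter (fun v => S.adj u v)).card ≤ D) → Fintype.card κ ≤ D →
  (∀ u ∈ U, (L u).card = l) →
  (∀ u ∈ U, ∀ a ∈ L u, ∀ a' ∈ L u, S.r u a = S.r u a' → a = a') →
  (∀ v, ((Cv S U L v).card : ℝ) ≤ (1 - g) * l) →
  (∀ u ∈ U, ∀ a ∈ L u, ((Pn S U L u a).card : ℝ) ≤ (1 - g) * l) →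
  0 < g → g ≤ 7 / 8 → 8 * K ≤ m → 24 ≤ K → 0 < Lam → Lam ≤ K →
  4 * Real.exp (-Lam) * ((3 * (D : ℝ) + 2) ^ 12 + 1) ≤ 1 → 0 < L0 → Lam ≤ L0 →
  8 * Err m K Lam L0 ≤ g * bet m K / 16 → 7 / 8 ≤ g * (1 + bet m K / 16) ^ n →
  (L0 : ℝ) ≤ l * (1 - 3 * bet m K) ^ n → Solv S U L

/-! ### The graph -/

/-- REG. Regularisation. -/
def St_Reg : Prop := ∀ (V : Type) [Fintype V] (G : SimpleGraph V) (D T : ℕ),
  (∀ u, (nb G u).card ≤ D) →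
  (∀ u, ((nb G u ×ˢ nb G u).filter (fun p => G.Adj p.1 p.2)).card ≤ T) →
  ∃ (W : Type) (_ : Fintype W) (H : SimpleGraph W) (f : V → W), Function.Injective f ∧
    (∀ u v, G.Adj u v → H.Adj (f u) (f v)) ∧ (∀ w, (nb H w).card = D) ∧
    (∀ w, ((nb H w ×ˢ nb H w).filter (fun p => H.Adj p.1 p.2)).card ≤ T)

section chain

variable {V : Type} {s l ρ : ℕ}

/-- the reserved colours -/
noncomputable def J0 (r : ℕ) : Finset (Col s l ρ) :=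
  univ.filter (fun c => ∃ q a, c = Sum.inl (q, a) ∧ ∀ i : Fin l, i.val < r → a i = false)

/-- the probability that a colour becomes reserved by the rounds `j, ..., l - 1` -/
noncomputable def MJ (r j : ℕ) : Col s l ρ → ℝ
  | Sum.inl (_, a) => if ∀ i : Fin l, i.val < r → i.val < j → a i = false then (1 / 2) ^ (r - j)
      else 0
  | Sum.inr _ => 0

/-- the test functions for the number of edges at `v` with a colour which is not reserved -/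
noncomputable def G5 (r : ℕ) (θ : ℝ) (j : ℕ) : V → Col s l ρ → Col s l ρ → ℝ :=
  fun _ c m => (1 - MJ r j c) * (1 - θ * MJ r j m)

end chain

/-- RUN5. All rounds. -/
def St_Run5 : Prop := ∀ (V : Type) [Fintype V] (G : SimpleGraph V) (D s l ρ r : ℕ)
  (θ Lam : ℝ), (∀ u, (nb G u).card ≤ D) → 2 ≤ s → ρ ≤ 2 ^ l →
  s * 2 ^ l + ρ = D + 1 → 0 < r → r ≤ l → 0 ≤ θ → θ ≤ 1 → 0 < Lam →
  4 * Real.exp (-Lam) * (2 * ((D : ℝ) + 1) ^ 2 * LL D (l + 1) * (D + 2) + 1) ≤ 1 →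
  8 * ((l : ℝ) + 1) * Real.sqrt (2 * ((D : ℝ) + 1) * Lam) ≤ (D : ℝ) + 1 →
  ∃ (E : EC (Col s l ρ) V) (z : V → V) (m : V → Col s l ρ), Stt G (8 * (l + 1)) E z m (l + 1) ∧
    (∀ v, X E m (G5 r θ l) v ≤ ((D : ℝ) + 1 - (s * 2 ^ (l - r) : ℕ)) * (1 - θ * (1 / 2) ^ r / 2) +
      8 * ((l : ℝ) + 1) * Real.sqrt (2 * ((D : ℝ) + 1) * Lam)) ∧
    (∀ v a, X E m (gY l a) v ≤
      (Real.sqrt (D + 1) * (1 / Real.sqrt 2) ^ l + 14 * Real.sqrt Lam) ^ 2)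

/-- TAU. A random bipartition: `z` an involution, `n j` an involution of the set `P j` with
another set. -/
def St_Tau : Prop := ∀ (V I J : Type) [Fintype V] [Fintype I] [Fintype J] (G : SimpleGraph V)
  (z : V → V) (Q : I → Finset V) (P : J → Finset V) (p : J → V → V) (M N : ℕ) (Lam : ℝ),
  (∀ u, z (z u) = u) → (∀ u, z u ≠ u → G.Adj u (z u)) →
  (∀ j, Function.Injective (p j)) → (∀ j, ∀ u ∈ P j, G.Adj u (p j u)) →
  (∀ j, ∀ u ∈ P j, z (p j u) = p j u) → 0 < M →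
  (∀ i, (Q i).card ≤ M) → (∀ j, (P j).card ≤ M) →
  (∀ w, (univ.filter (fun i => w ∈ Q i)).card ≤ N) →
  (∀ w, (univ.filter (fun j => w ∈ P j ∨ ∃ u ∈ P j, p j u = w)).card ≤ N) → 0 ≤ Lam →
  4 * Real.exp (-Lam) * (32 * (N : ℝ) * M + 1) ≤ 1 →
  ∃ τ : V → Bool, (∀ u, τ (z u) = τ u) ∧
    (∀ i b, (((Q i).filter (fun w => τ w = b)).card : ℝ) ≤
      ((Q i).card : ℝ) / 2 + 2 * Real.sqrt (M * Lam)) ∧
    (∀ j, (((P j).filter (fun w => τ (p j w) ≠ τ w)).card : ℝ) ≤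
      ((P j).card : ℝ) / 2 + 32 * Real.sqrt (M * Lam)) ∧
    (∀ j, ((((P j) ×ˢ (P j)).filter (fun w => w.1 ≠ w.2 ∧ ¬ G.Adj w.1 w.2)).card : ℝ) / 4 -
      32 * M * Real.sqrt (M * Lam) ≤ (((((P j).filter (fun w => τ (p j w) ≠ τ w)) ×ˢ
        ((P j).filter (fun w => τ (p j w) ≠ τ w))).filter
          (fun w => w.1 ≠ w.2 ∧ ¬ G.Adj w.1 w.2)).card : ℝ))

/-- the numerical conditions -/
structure N5 (D s l ρ r t0 K m0 m2 n L0 ll : ℕ) (δ g Lam x y q l1 : ℝ) : Prop where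
  s2 : 2 ≤ s
  ρl : ρ ≤ 2 ^ l
  sum : s * 2 ^ l + ρ = D + 1
  r0 : 0 < r
  rl : r ≤ l
  t1 : 0 < t0
  D0 : 0 < D
  δ1 : δ ≤ 1
  expR : 4 * Real.exp (-Lam) * (2 * ((D : ℝ) + 1) ^ 2 * LL D (l + 1) * (D + 2) + 1) ≤ 1
  expH : 4 * Real.exp (-Lam) * ((3 * ((D + 1 : ℕ) : ℝ) + 2) ^ 12 + 1) ≤ 1
  tY : (Real.sqrt (D + 1) * (1 / Real.sqrt 2) ^ l + 14 * Real.sqrt Lam) ^ 2 + 1 ≤ t0
  nz : 8 * ((l : ℝ) + 1) * Real.sqrt (2 * ((D : ℝ) + 1) * Lam) ≤ (D : ℝ) + 1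
  ell : (ll : ℝ) ≤ ((D : ℝ) + 1 - (s * 2 ^ (l - r) : ℕ) - 2 - 2 * ((l : ℝ) + 1)) / 2 -
    2 * Real.sqrt (((D : ℝ) + 1) * Lam)
  xdef : (((D : ℝ) + 1 - (s * 2 ^ (l - r) : ℕ)) * (1 - 1 / (4 * t0) * (1 / 2) ^ r / 2) +
    (8 * ((l : ℝ) + 1) + (1 + t0)) * Real.sqrt (2 * ((D : ℝ) + 1) * Lam)) / 2 +
      2 * Real.sqrt (((D : ℝ) + 1) * Lam) ≤ x
  ydef : (D : ℝ) / 2 + 32 * Real.sqrt (((D : ℝ) + 1) * Lam) ≤ y
  qdef : bet m0 K * ((D : ℝ) / 2 + 32 * Real.sqrt (((D : ℝ) + 1) * Lam)) / ll -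
    bet m0 K ^ 2 * ((δ * (D : ℝ) ^ 2 - D) / 8 -
      16 * ((D : ℝ) + 1) * Real.sqrt (((D : ℝ) + 1) * Lam)) / (ll : ℝ) ^ 2 ≤ q
  bD : bet m0 K * D ≤ 2 * ll
  l0 : 0 < ll
  x0 : 0 ≤ x
  x1 : x ≤ ll
  y0 : 0 ≤ y
  y2 : y ≤ 2 * ll
  q0 : 0 ≤ q
  q1 : q ≤ 1 / 2
  mK0 : 8 * K ≤ m0
  mK2 : 8 * K ≤ m2
  K24 : 24 ≤ K
  La : 0 < Lam
  LK : Lam ≤ K
  Ll : Lam ≤ ll
  l1def : l1 = (ll : ℝ) * ((1 - q) * (1 - bet m0 K * x / ll) - Err m0 K Lam ll)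
  l1pos : 0 < l1
  xg : x * (1 - bet m0 K) * (1 - q) + Err m0 K Lam ll * ll ≤ (1 - g) * l1
  yg : y * (1 - bet m0 K) * (1 - bet m0 K * x / ll) + Err m0 K Lam ll * ll ≤ (1 - g) * l1
  g0 : 0 < g
  g1 : g ≤ 7 / 8
  L00 : 0 < L0
  LL0 : Lam ≤ L0
  err2 : 8 * Err m2 K Lam L0 ≤ g * bet m2 K / 16
  gn : 7 / 8 ≤ g * (1 + bet m2 K / 16) ^ n
  L0n : (L0 : ℝ) ≤ l1 * (1 - 3 * bet m2 K) ^ n

/-- CORE5. The theorem for regular graphs, given the numerical conditions. -/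
def St_Core5 : Prop := ∀ (V : Type) [Fintype V] (G : SimpleGraph V)
  (D s l ρ r t0 K m0 m2 n L0 ll : ℕ) (δ g Lam x y q l1 : ℝ),
  N5 D s l ρ r t0 K m0 m2 n L0 ll δ g Lam x y q l1 → (∀ u, (nb G u).card = D) →
  (∀ u, (((nb G u ×ˢ nb G u).filter (fun p => G.Adj p.1 p.2)).card : ℝ) ≤
    (1 - δ) * (D : ℝ) ^ 2) →
  ∃ (c : V → Col s l ρ) (e : Sym2 V → Col s l ρ ⊕ Bool),
    (∀ u v, G.Adj u v → c u ≠ c v) ∧
    (∀ u v w, G.Adj u v → G.Adj u w → v ≠ w → e s(u, v) ≠ e s(u, w)) ∧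
    (∀ u v, G.Adj u v → e s(u, v) ≠ Sum.inl (c u))

/-- NUM5. The parameters. -/
def St_Num5 : Prop := ∀ k : ℕ, ∃ D0 : ℕ, ∀ D ≥ D0,
  ∃ (s l ρ r t0 K m0 m2 n L0 ll : ℕ) (g Lam x y q l1 : ℝ),
    N5 D s l ρ r t0 K m0 m2 n L0 ll (1 / (Nat.log 2 D : ℝ) ^ k) g Lam x y q l1

end Pool.TCS
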