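import Pool.Agent.Helper3.TCS.Stmts
import Pool.Agent.Helper3.TCS.Bas

/-!
# Means of counting functions on a product space (helper38)
-/

set_option autoImplicit false

namespace Pool.TCS

open Pool.TC Pool.TCM Finset
open scoped Classical

section

variable {T A : Type} [Fintype T] [Fintype A]

theorem Mean_sum {Ω ι : Type} [Fintype Ω] (s : Finset ι) (F : ι → Ω → ℝ) :
    mean (fun ω => ∑ i ∈ s, F i ω) = ∑ i ∈ s, mean (F i) := by
  unfold mean
  rw [sum_comm, sum_div]

/-- the mean of a product -/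
theorem Mean_prod (g : T → A → ℝ) :
    mean (fun ω : T → A => ∏ t, g t (ω t)) = ∏ t, (∑ a, g t a) / (Fintype.card A : ℝ) := by
  unfold mean
  rw [prod_div_distrib, prod_const, card_univ, Fintype.card_fun, Nat.cast_pow, prod_univ_sum,
    Fintype.piFinset_univ]

theorem Mean_prod_on [Nonempty A] (Q : Finset T) (g : T → A → ℝ) :
    mean (fun ω : T → A => ∏ t ∈ Q, g t (ω t)) = ∏ t ∈ Q, (∑ a, g t a) / (Fintype.card A : ℝ) := by
  have hA : (Fintype.card A : ℝ) ≠ 0 := by
    exact_mod_cast Fintype.card_ne_zero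
  have h := Mean_prod (A := A) (fun t a => if t ∈ Q then g t a else 1)
  have h1 : (fun ω : T → A => ∏ t, if t ∈ Q then g t (ω t) else 1) =
      fun ω : T → A => ∏ t ∈ Q, g t (ω t) := by
    funext ω
    rw [prod_ite_mem, univ_inter]
  rw [h1] at h
  rw [h, ← univ_inter Q, ← prod_ite_mem, univ_inter]
  refine prod_congr rfl fun t _ => ?_
  split_ifs with ht
  · rfl
  · rw [sum_const, card_univ, nsmul_eq_mul, mul_one, div_self hA]

theorem Mean_one [Nonempty A] (t : T) (R : Finset A) :
    mean (fun ω : T → A => if ω t ∈ R then (1 : ℝ) else 0) = (R.card : ℝ) / Fintype.card A := by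
  have h := Mean_prod_on (A := A) {t} (fun _ a => if a ∈ R then (1 : ℝ) else 0)
  simp only [prod_singleton] at h
  rw [h]
  congr 1
  rw [sum_boole]
  congr 2
  ext a
  simp

theorem Mean_two [Nonempty A] {t t' : T} (htt : t ≠ t') (R R' : Finset A) :
    mean (fun ω : T → A => if ω t ∈ R ∧ ω t' ∈ R' then (1 : ℝ) else 0) =
      (R.card : ℝ) * R'.card / (Fintype.card A : ℝ) ^ 2 := by
  have h := Mean_prod_on (A := A) {t, t'}
    (fun s a => if s = t then (if a ∈ R then (1 : ℝ) else 0) else (if a ∈ R' then (1 : ℝ) else 0))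
  have h1 : (fun ω : T → A => ∏ s ∈ ({t, t'} : Finset T),
      (if s = t then (if ω s ∈ R then (1 : ℝ) else 0) else (if ω s ∈ R' then (1 : ℝ) else 0))) =
      fun ω : T → A => if ω t ∈ R ∧ ω t' ∈ R' then (1 : ℝ) else 0 := by
    funext ω
    rw [prod_pair htt, if_pos rfl, if_neg htt.symm, ite_and]
    split_ifs <;> simp
  rw [h1] at h
  have h2 : ∀ R : Finset A, (∑ a, if a ∈ R then (1 : ℝ) else 0) = R.card := by
    intro R
    rw [sum_boole]
    congr 2
    ext a
    simp
  rw [h, prod_pair htt]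
  simp only [if_neg htt.symm, if_true]
  rw [h2, h2, div_mul_div_comm, sq]

end

theorem thm_Mean : St_Mean := by
  intro T A _ _ _ R
  have hA0 : (0 : ℝ) < Fintype.card A := by
    exact_mod_cast Fintype.card_pos
  refine ⟨?_, fun R' rel => ?_, fun P hP => ?_⟩
  · have h1 : (fun ω : T → A => ((univ.filter (fun t => ω t ∈ R t)).card : ℝ)) =
        fun ω : T → A => ∑ t, if ω t ∈ R t then (1 : ℝ) else 0 := by
      funext ω
      rw [sum_boole]
    rw [h1, Mean_sum, sum_div]
    exact sum_congr rfl fun t _ => Mean_one t (R t)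
  · have h1 : (fun ω : T → A => (((univ : Finset (T × T)).filter
        (fun p => p.1 ≠ p.2 ∧ rel p.1 p.2 ∧ ω p.1 ∈ R p.1 ∧ ω p.2 ∈ R' p.2)).card : ℝ)) =
        fun ω : T → A => ∑ p ∈ (univ : Finset (T × T)).filter (fun p => p.1 ≠ p.2 ∧ rel p.1 p.2),
          if ω p.1 ∈ R p.1 ∧ ω p.2 ∈ R' p.2 then (1 : ℝ) else 0 := by
      funext ω
      rw [sum_boole, filter_filter]
      congr 2
      ext p
      simp only [mem_filter, mem_univ, true_and]
      tauto
    rw [h1, Mean_sum, sum_div]
    refine sum_congr rfl fun p hp => ?_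
    rw [mem_filter] at hp
    exact Mean_two hp.2.1 (R p.1) (R' p.2)
  · have h1 : (fun ω : T → A => (4 : ℝ) ^ (univ.filter (fun t => ω t ∈ R t)).card) =
        fun ω : T → A => ∏ t, if ω t ∈ R t then (4 : ℝ) else 1 := by
      funext ω
      rw [prod_ite, prod_const, prod_const_one, mul_one]
    rw [h1, Mean_prod (fun t a => if a ∈ R t then (4 : ℝ) else 1)]
    have h2 : ∀ t, (∑ a, if a ∈ R t then (4 : ℝ) else 1) / (Fintype.card A : ℝ) =
        1 + 3 * ((R t).card / Fintype.card A) := by
      intro t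
      have h3 : ∀ a, (if a ∈ R t then (4 : ℝ) else 1) = 1 + 3 * (if a ∈ R t then (1 : ℝ) else 0) := by
        intro a
        split_ifs <;> norm_num
      have h4 : (∑ a, if a ∈ R t then (1 : ℝ) else 0) = (R t).card := by
        rw [sum_boole]
        congr 2
        ext a
        simp
      rw [sum_congr rfl fun a _ => h3 a, sum_add_distrib, ← mul_sum, h4, sum_const, card_univ,
        nsmul_eq_mul, mul_one]
      field_simp
    rw [prod_congr rfl fun t _ => h2 t]
    have h5 : ∏ t, (1 + 3 * ((R t).card / Fintype.card A) : ℝ) ≤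
        ∏ t, Real.exp (3 * ((R t).card / Fintype.card A)) := by
      refine prod_le_prod (fun t _ => by positivity) fun t _ => ?_
      rw [add_comm]
      exact Real.add_one_le_exp _
    refine h5.trans ?_
    rw [← Real.exp_sum, ← mul_sum, ← sum_div]
    apply Real.exp_le_exp.2
    have h6 : (∑ t, ((R t).card : ℝ)) / Fintype.card A ≤ P := by
      rw [div_le_iff₀ hA0]
      exact hP
    linarith

end Pool.TCS
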