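import Pool.Agent.Helper3.TCS.Stmts
import Pool.Agent.Helper3.TCS.Bas

/-!
# ACTI: the labels (helper38)
-/

set_option autoImplicit false

namespace Pool.TCS

open Pool.TC Pool.TCM Finset
open scoped Classical

/-- the difference property of `-F` -/
theorem Acti_neg {V κ : Type} [Fintype V] [Fintype κ] {S : CS V κ} {l m K : ℕ} {u : V}
    {F : (Lab V κ → Fin (m ^ (2 * K + 1))) → ℝ} {cc : Lab V κ → ℝ} (h : Diff S l m K u F cc) :
    Diff S l m K u (fun ω => -F ω) cc := by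
  refine ⟨h.nn, fun t ω ω' ht => ?_, h.sum, h.loc⟩
  have h1 := h.bd t ω ω' ht
  have h2 : -F ω - -F ω' = -(F ω - F ω') := by ring
  rw [h2, abs_neg]
  exact h1

/-- the index set -/
abbrev ActiJ {V κ : Type} (U : Finset V) (L : V → Finset κ) : Type :=
  {u : V // u ∈ U} ⊕ (V ⊕ {p : V × κ // p.1 ∈ U ∧ p.2 ∈ L p.1})

/-- the position of an index -/
def actiP {V κ : Type} {U : Finset V} {L : V → Finset κ} : ActiJ U L → V
  | Sum.inl u => u.1
  | Sum.inr (Sum.inl v) => v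
  | Sum.inr (Sum.inr p) => p.1.1

/-- the kind of an index -/
def actiK {V κ : Type} {U : Finset V} {L : V → Finset κ} : ActiJ U L → Option (Option κ)
  | Sum.inl _ => none
  | Sum.inr (Sum.inl _) => some none
  | Sum.inr (Sum.inr p) => some (some p.1.2)

theorem acti_inj {V κ : Type} {U : Finset V} {L : V → Finset κ} (j j' : ActiJ U L)
    (h1 : actiP j = actiP j') (h2 : actiK j = actiK j') : j = j' := by
  rcases j with ⟨u, hu⟩ | v | ⟨⟨u, a⟩, hu⟩ <;> rcases j' with ⟨u', hu'⟩ | v' | ⟨⟨u', a'⟩, hu'⟩ <;>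
    simp_all [actiP, actiK]

/-- the number of indices in a set of positions -/
theorem acti_card {V κ : Type} [Fintype V] [Fintype κ] {U : Finset V} {L : V → Finset κ}
    (P : V → Prop) : (univ.filter (fun j : ActiJ U L => P (actiP j))).card ≤
      (univ.filter P).card * (Fintype.card κ + 2) := by
  have h : (univ.filter (fun j : ActiJ U L => P (actiP j))).card ≤
      ((univ.filter P) ×ˢ (univ : Finset (Option (Option κ)))).card := by
    refine card_le_card_of_injOn (fun j => (actiP j, actiK j)) (fun j hj => ?_) ?_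
    · rw [mem_coe, mem_filter] at hj
      rw [mem_coe, mem_product, mem_filter]
      exact ⟨⟨mem_univ _, hj.2⟩, mem_univ _⟩
    · intro j _ j' _ hjj
      rw [Prod.mk.injEq] at hjj
      exact acti_inj j j' hjj.1 hjj.2
  rw [card_product, card_univ, Fintype.card_option, Fintype.card_option] at h
  exact h

/-- the mean does not depend on the instance -/
theorem acti_inst {Ω : Type} (i1 i2 : Fintype Ω) (F : Ω → ℝ) :
    (∑ ω ∈ @univ Ω i1, F ω) / (@Fintype.card Ω i1 : ℝ) = @mean Ω i2 F := by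
  have e : i1 = i2 := Subsingleton.elim _ _
  subst e
  rfl

/-- the local lemma with relations -/
theorem acti_LM (hLM : Pool.TCM.St_LM) (T A J : Type) [Fintype T] [Fintype A] [Nonempty A]
    [Fintype J] (F : J → (T → A) → ℝ) (c : J → T → ℝ) (V lam Lam : ℝ) (P : J → T → Prop)
    (Q : J → J → Prop) (N : ℕ) (h1 : ∀ j t, 0 ≤ c j t)
    (h2 : ∀ j t (ω ω' : T → A), (∀ t', t' ≠ t → ω t' = ω' t') → |F j ω - F j ω'| ≤ c j t)
    (h3 : ∀ j t, c j t ≠ 0 → P j t) (h4 : ∀ j, ∑ t, c j t ^ 2 ≤ V) (h5 : 0 < V) (h6 : 0 ≤ lam)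
    (h7 : 2 * V * Lam ≤ lam ^ 2) (h8 : ∀ j j' t, P j t → P j' t → Q j j')
    (h9 : ∀ j, (univ.filter (fun j' => Q j j')).card ≤ N)
    (h10 : 4 * Real.exp (-Lam) * (N + 1) ≤ 1) :
    ∃ ω : T → A, ∀ j, F j ω ≤ (∑ ω', F j ω') / Fintype.card (T → A) + lam := by
  refine hLM T A J F c (fun _ => V) (fun _ => lam) (fun j => univ.filter (P j)) Lam N h1 h2
    (fun j t ht => ?_) h4 (fun _ => h5) (fun _ => h6) (fun _ => h7) (fun j => ?_) h10
  · by_contra h
    exact ht (mem_filter.2 ⟨mem_univ _, h3 j t h⟩)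
  · refine le_trans (card_le_card fun j' hj' => ?_) (h9 j)
    rw [mem_filter] at hj' ⊢
    obtain ⟨-, t, ht, ht'⟩ := hj'
    exact ⟨mem_univ _, h8 j j' t (mem_filter.1 ht).2 (mem_filter.1 ht').2⟩

theorem thm_Acti (hNear : St_Near) (hLM : Pool.TCM.St_LM) (hM1 : St_M1) (hM2 : St_M2)
    (hM3 : St_M3) (hJ1 : St_J1) (hJ2 : St_J2) (hJ3 : St_J3) : St_Acti := by
  intro V κ _ _ S U L D l m K x y q Lam o hH hG
  obtain ⟨n1, n2, -, n4⟩ := hNear V κ S D hH.deg hH.col
  let F : ActiJ U L → (Lab V κ → Fin (m ^ (2 * K + 1))) → ℝ := fun j => match j with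
    | Sum.inl u => fun ω => -G1 S U L l m K x q o u.1 ω
    | Sum.inr (Sum.inl v) => G2 S U L l m K q o v
    | Sum.inr (Sum.inr p) => G3 S U L l m K x o p.1.1 p.1.2
  have hF : ∀ j : ActiJ U L, ∃ cc, Diff S l m K (actiP j) (F j) cc := by
    rintro (u | v | p)
    · obtain ⟨cc, hcc⟩ := hJ1 V κ S U L D l m K x y q Lam o hH hG u.1 u.2
      exact ⟨cc, Acti_neg hcc⟩
    · exact hJ2 V κ S U L D l m K x y q Lam o hH hG v
    · exact hJ3 V κ S U L D l m K x y q Lam o hH hG p.1.1 p.2.1 p.1.2 p.2.2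
  choose cc hcc using hF
  have hm : 0 < m := by
    have := hH.m192
    omega
  haveI : Nonempty (Fin (m ^ (2 * K + 1))) := ⟨⟨0, pow_pos hm _⟩⟩
  have hl : (0 : ℝ) < l := hH.lpos
  have hK : (0 : ℝ) < K := by linarith [hH.Kpos]
  have hlL : 0 ≤ (l : ℝ) * Lam := mul_nonneg hl.le hH.L0.le
  have hN : ∀ j : ActiJ U L, (univ.filter (fun j' : ActiJ U L =>
      near S 10 (actiP j) (actiP j'))).card ≤ (3 * D + 2) ^ 12 := by
    intro j
    refine (acti_card (fun w => near S 10 (actiP j) w)).trans ?_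
    calc (univ.filter (fun w => near S 10 (actiP j) w)).card * (Fintype.card κ + 2)
        ≤ (3 * D + 1) ^ 10 * (D + 2) :=
          Nat.mul_le_mul (n4 10 _) (Nat.add_le_add_right hH.col _)
      _ ≤ (3 * D + 2) ^ 10 * (3 * D + 2) ^ 2 :=
          Nat.mul_le_mul (Nat.pow_le_pow_left (by omega) _) (by nlinarith)
      _ = (3 * D + 2) ^ 12 := by rw [← pow_add]
  obtain ⟨ω, hω⟩ := acti_LM hLM (Lab V κ) (Fin (m ^ (2 * K + 1))) (ActiJ U L) F cc
    (450 * (K : ℝ) ^ 4 * l) (30 * (K : ℝ) ^ 2 * Real.sqrt (l * Lam)) Lam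
    (fun j t => near S 5 (actiP j) (pos t)) (fun j j' => near S 10 (actiP j) (actiP j'))
    ((3 * D + 2) ^ 12) (fun j => (hcc j).nn) (fun j => (hcc j).bd) (fun j => (hcc j).loc)
    (fun j => (hcc j).sum) (by positivity) (by positivity)
    (by
      rw [mul_pow, mul_pow, Real.sq_sqrt hlL]
      exact le_of_eq (by ring))
    (fun j j' t ht ht' => n2 5 5 _ _ _ ht (n1 5 _ _ ht')) hN
    (by
      have h := hH.hexp
      push_cast
      exact h)
  have hω' : ∀ j, F j ω ≤ mean (F j) + 30 * (K : ℝ) ^ 2 * Real.sqrt (l * Lam) := fun j =>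
    (hω j).trans_eq (congrArg (fun z => z + 30 * (K : ℝ) ^ 2 * Real.sqrt (l * Lam))
      (acti_inst _ _ (F j)))
  refine ⟨ω, fun u hu => ?_, fun v => ?_, fun u hu a ha => ?_⟩
  · have h1 : -G1 S U L l m K x q o u ω ≤ mean (fun ω' => -G1 S U L l m K x q o u ω') +
        30 * (K : ℝ) ^ 2 * Real.sqrt (l * Lam) := hω' (Sum.inl ⟨u, hu⟩)
    have h2 := hM1 V κ S U L D l m K x y q Lam o hH hG u hu
    have h3 : mean (fun ω' => -G1 S U L l m K x q o u ω') = -mean (G1 S U L l m K x q o u) := by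
      unfold mean
      rw [sum_neg_distrib, neg_div]
    rw [h3] at h1
    linarith
  · have h1 : G2 S U L l m K q o v ω ≤ mean (G2 S U L l m K q o v) +
        30 * (K : ℝ) ^ 2 * Real.sqrt (l * Lam) := hω' (Sum.inr (Sum.inl v))
    have h2 := hM2 V κ S U L D l m K x y q Lam o hH hG v
    linarith
  · have h1 : G3 S U L l m K x o u a ω ≤ mean (G3 S U L l m K x o u a) +
        30 * (K : ℝ) ^ 2 * Real.sqrt (l * Lam) := hω' (Sum.inr (Sum.inr ⟨(u, a), hu, ha⟩))
    have h2 := hM3 V κ S U L D l m K x y q Lam o hH hG u hu a ha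
    linarith

end Pool.TCS
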