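import Pool.Agent.Helper3.TCS.Stmts
import Pool.Agent.Helper3.TCS.Bas
import Pool.Agent.Helper3.TCM.Core
import Pool.Agent.Helper3.TCM.Fin

/-!
CORE5: the theorem for regular graphs, given the numerical conditions (helper79).
-/

set_option autoImplicit false
set_option linter.unusedSectionVars false

namespace Pool.TCS

open Pool.TC Pool.TCM Finset
open scoped Classical

section aux

variable {V κ : Type} [Fintype V] [Fintype κ]

private theorem c5_mem_J0 {s l ρ : ℕ} (r : ℕ) (c : Col s l ρ) :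
    c ∈ (J0 r : Finset (Col s l ρ)) ↔
      ∃ q a, c = Sum.inl (q, a) ∧ ∀ i : Fin l, i.val < r → a i = false := by
  simp only [J0, mem_filter, mem_univ, true_and]

private theorem c5_MJ {s l ρ : ℕ} {r : ℕ} (hrl : r ≤ l) (c : Col s l ρ) :
    MJ r l c = if c ∈ (J0 r : Finset (Col s l ρ)) then 1 else 0 := by
  rcases c with ⟨q, a⟩ | i
  · have h2 : r - l = 0 := by omega
    by_cases h : ∀ i : Fin l, i.val < r → a i = false
    · have h1 : (Sum.inl (q, a) : Col s l ρ) ∈ (J0 r : Finset (Col s l ρ)) :=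
        (c5_mem_J0 r _).2 ⟨q, a, rfl, h⟩
      rw [if_pos h1]
      show (if (∀ i : Fin l, i.val < r → i.val < l → a i = false) then
        (1 / 2 : ℝ) ^ (r - l) else 0) = 1
      rw [if_pos (fun i hi _ => h i hi), h2, pow_zero]
    · have h1 : (Sum.inl (q, a) : Col s l ρ) ∉ (J0 r : Finset (Col s l ρ)) := by
        rw [c5_mem_J0]
        rintro ⟨q', a', h3, h4⟩
        have h5 := Sum.inl_injective h3
        rw [Prod.mk.injEq] at h5
        exact h (by rw [h5.2]; exact h4)
      rw [if_neg h1]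
      show (if (∀ i : Fin l, i.val < r → i.val < l → a i = false) then
        (1 / 2 : ℝ) ^ (r - l) else 0) = 0
      rw [if_neg (fun h3 => h (fun i hi => h3 i hi i.isLt))]
  · have h1 : (Sum.inr i : Col s l ρ) ∉ (J0 r : Finset (Col s l ρ)) := by
      rw [c5_mem_J0]
      rintro ⟨q, a, h, _⟩
      cases h
    rw [if_neg h1]
    rfl

private theorem c5_card_J0 {s l ρ : ℕ} {r : ℕ} (hrl : r ≤ l) :
    (J0 r : Finset (Col s l ρ)).card = s * 2 ^ (l - r) := by
  have h := card_Jp (V := Unit) (s := s) (l := l) (ρ := ρ) r hrl (fun _ _ => false) ()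
  rw [← h]
  congr 1

private theorem c5_npair {S : CS V κ} {A B : Finset V} (hAB : A ⊆ B) :
    npair S B ≤ npair S A + ((B.card : ℝ) - A.card) * B.card := by
  have h1 : (B ×ˢ B).filter (fun p => p.1 ≠ p.2 ∧ ¬ S.adj p.1 p.2) ⊆
      (A ×ˢ A).filter (fun p => p.1 ≠ p.2 ∧ ¬ S.adj p.1 p.2) ∪
        (((B \ A) ×ˢ B) ∪ (B ×ˢ (B \ A))) := by
    rintro ⟨a, b⟩ hp
    simp only [mem_filter, mem_product, mem_union, mem_sdiff] at hp ⊢
    by_cases ha : a ∈ A
    · by_cases hb : b ∈ A
      · exact Or.inl ⟨⟨ha, hb⟩, hp.2⟩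
      · exact Or.inr (Or.inr ⟨hp.1.1, hp.1.2, hb⟩)
    · exact Or.inr (Or.inl ⟨⟨hp.1.1, ha⟩, hp.1.2⟩)
  have h2 := card_le_card h1
  have h3 := card_union_le ((A ×ˢ A).filter (fun p => p.1 ≠ p.2 ∧ ¬ S.adj p.1 p.2))
    (((B \ A) ×ˢ B) ∪ (B ×ˢ (B \ A)))
  have h4 := card_union_le ((B \ A) ×ˢ B) (B ×ˢ (B \ A))
  rw [card_product, card_product] at h4
  have h5 : (B \ A).card = B.card - A.card := card_sdiff_of_subset hAB
  have h6 : A.card ≤ B.card := card_le_card hAB
  have h7 : (((B \ A).card : ℕ) : ℝ) = (B.card : ℝ) - A.card := by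
    rw [h5, Nat.cast_sub h6]
  have h8 : ((((B ×ˢ B).filter (fun p => p.1 ≠ p.2 ∧ ¬ S.adj p.1 p.2)).card : ℕ) : ℝ) ≤
      (((A ×ˢ A).filter (fun p => p.1 ≠ p.2 ∧ ¬ S.adj p.1 p.2)).card : ℝ) +
        (((B \ A).card : ℝ) * B.card + B.card * ((B \ A).card : ℝ)) := by
    exact_mod_cast h2.trans (h3.trans (Nat.add_le_add_left h4 _))
  unfold npair
  rw [h7] at h8
  linarith

private theorem c5_mono {S : CS V κ} {A B : Finset V} (hAB : A ⊆ B) {b l : ℝ} (hb : 0 ≤ b)
    (hl : 0 < l) (hbl : b * B.card ≤ l) :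
    b * A.card / l - b ^ 2 * npair S A / l ^ 2 ≤ b * B.card / l - b ^ 2 * npair S B / l ^ 2 := by
  have h1 := c5_npair (S := S) hAB
  have h2 : (A.card : ℝ) ≤ B.card := by exact_mod_cast card_le_card hAB
  have h3 : b ^ 2 * (npair S B - npair S A) ≤ b * ((B.card : ℝ) - A.card) * l := by
    have h4 : b ^ 2 * (npair S B - npair S A) ≤ b ^ 2 * (((B.card : ℝ) - A.card) * B.card) :=
      mul_le_mul_of_nonneg_left (by linarith) (by positivity)
    have h5 : b ^ 2 * (((B.card : ℝ) - A.card) * B.card) =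
        b * ((B.card : ℝ) - A.card) * (b * B.card) := by ring
    have h6 : b * ((B.card : ℝ) - A.card) * (b * B.card) ≤ b * ((B.card : ℝ) - A.card) * l :=
      mul_le_mul_of_nonneg_left hbl (mul_nonneg hb (by linarith))
    linarith
  have h7 : b * B.card / l - b ^ 2 * npair S B / l ^ 2 -
      (b * A.card / l - b ^ 2 * npair S A / l ^ 2) =
      (b * ((B.card : ℝ) - A.card) * l - b ^ 2 * (npair S B - npair S A)) / l ^ 2 := by
    field_simp
    ring
  have h8 : 0 ≤ (b * ((B.card : ℝ) - A.card) * l - b ^ 2 * (npair S B - npair S A)) / l ^ 2 :=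
    div_nonneg (by linarith) (by positivity)
  linarith

private theorem c5_nonadj (G : SimpleGraph V) {D : ℕ} {δ : ℝ} {u : V} (hD : (nb G u).card = D)
    (hsp : (((nb G u ×ˢ nb G u).filter (fun p => G.Adj p.1 p.2)).card : ℝ) ≤
      (1 - δ) * (D : ℝ) ^ 2) {P : Finset V} (hP : P ⊆ nb G u) :
    δ * (D : ℝ) ^ 2 - D - 2 * ((D : ℝ) - P.card) * D ≤
      (((P ×ˢ P).filter (fun w => w.1 ≠ w.2 ∧ ¬ G.Adj w.1 w.2)).card : ℝ) := by
  set N := nb G u with hNdef
  have h1 : N ×ˢ N ⊆ ((P ×ˢ P).filter (fun w => w.1 ≠ w.2 ∧ ¬ G.Adj w.1 w.2)) ∪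
      ((N.image (fun v => (v, v))) ∪ ((N ×ˢ N).filter (fun p => G.Adj p.1 p.2) ∪
        (((N \ P) ×ˢ N) ∪ (N ×ˢ (N \ P))))) := by
    rintro ⟨a, b⟩ hp
    simp only [mem_filter, mem_product, mem_union, mem_sdiff, mem_image, Prod.mk.injEq] at hp ⊢
    by_cases hab : a = b
    · exact Or.inr (Or.inl ⟨a, hp.1, rfl, hab⟩)
    by_cases hadj : G.Adj a b
    · exact Or.inr (Or.inr (Or.inl ⟨hp, hadj⟩))
    by_cases ha : a ∈ P
    · by_cases hb : b ∈ P
      · exact Or.inl ⟨⟨ha, hb⟩, hab, hadj⟩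
      · exact Or.inr (Or.inr (Or.inr (Or.inr ⟨hp.1, hp.2, hb⟩)))
    · exact Or.inr (Or.inr (Or.inr (Or.inl ⟨⟨hp.1, ha⟩, hp.2⟩)))
  have h2 := card_le_card h1
  rw [card_product, hD] at h2
  have h3 := card_union_le ((P ×ˢ P).filter (fun w => w.1 ≠ w.2 ∧ ¬ G.Adj w.1 w.2))
      ((N.image (fun v => (v, v))) ∪ ((N ×ˢ N).filter (fun p => G.Adj p.1 p.2) ∪
        (((N \ P) ×ˢ N) ∪ (N ×ˢ (N \ P)))))
  have h4 := card_union_le (N.image (fun v => (v, v))) ((N ×ˢ N).filter (fun p => G.Adj p.1 p.2) ∪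
        (((N \ P) ×ˢ N) ∪ (N ×ˢ (N \ P))))
  have h5 := card_union_le ((N ×ˢ N).filter (fun p => G.Adj p.1 p.2))
    (((N \ P) ×ˢ N) ∪ (N ×ˢ (N \ P)))
  have h6 := card_union_le ((N \ P) ×ˢ N) (N ×ˢ (N \ P))
  rw [card_product, card_product, hD] at h6
  have h7 : (N.image (fun v => (v, v))).card ≤ D := card_image_le.trans hD.le
  have h8 : (N \ P).card = D - P.card := by rw [card_sdiff_of_subset hP, hD]
  have h9 : P.card ≤ D := by rw [← hD]; exact card_le_card hP
  have h10 : (((N \ P).card : ℕ) : ℝ) = (D : ℝ) - P.card := by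
    rw [h8, Nat.cast_sub h9]
  have h11 : D * D ≤ ((P ×ˢ P).filter (fun w => w.1 ≠ w.2 ∧ ¬ G.Adj w.1 w.2)).card +
      (D + (((N ×ˢ N).filter (fun p => G.Adj p.1 p.2)).card +
        ((N \ P).card * D + D * (N \ P).card))) := by omega
  have h12 : (D : ℝ) * D ≤ (((P ×ˢ P).filter (fun w => w.1 ≠ w.2 ∧ ¬ G.Adj w.1 w.2)).card : ℝ) +
      (D + ((((N ×ˢ N).filter (fun p => G.Adj p.1 p.2)).card : ℝ) +
        (((N \ P).card : ℝ) * D + D * ((N \ P).card : ℝ)))) := by exact_mod_cast h11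
  rw [h10] at h12
  nlinarith

private theorem c5_exp (D : ℕ) (Lam : ℝ)
    (h : 4 * Real.exp (-Lam) * ((3 * ((D + 1 : ℕ) : ℝ) + 2) ^ 12 + 1) ≤ 1) :
    4 * Real.exp (-Lam) * (32 * ((2 * D * (D + 1) : ℕ) : ℝ) * ((D + 1 : ℕ) : ℝ) + 1) ≤ 1 := by
  refine le_trans ?_ h
  have hD : (0 : ℝ) ≤ D := Nat.cast_nonneg _
  have h1 : 32 * ((2 * D * (D + 1) : ℕ) : ℝ) * ((D + 1 : ℕ) : ℝ) ≤
      (3 * ((D + 1 : ℕ) : ℝ) + 2) ^ 12 := by
    push_cast
    have h2 : ((D : ℝ) + 1) ^ 3 ≤ (3 * ((D : ℝ) + 1) + 2) ^ 3 :=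
      pow_le_pow_left₀ (by linarith) (by linarith) 3
    have h3 : (4 : ℝ) ^ 9 ≤ (3 * ((D : ℝ) + 1) + 2) ^ 9 :=
      pow_le_pow_left₀ (by norm_num) (by linarith) 9
    calc 32 * (2 * (D : ℝ) * (D + 1)) * (D + 1) ≤ 64 * ((D : ℝ) + 1) ^ 3 := by
          have : (D : ℝ) * ((D : ℝ) + 1) ^ 2 ≤ ((D : ℝ) + 1) ^ 3 := by
            rw [pow_succ ((D : ℝ) + 1) 2, mul_comm]
            exact mul_le_mul_of_nonneg_left (by linarith) (by positivity)
          nlinarith
      _ ≤ (3 * ((D : ℝ) + 1) + 2) ^ 9 * (3 * ((D : ℝ) + 1) + 2) ^ 3 := by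
          have h5 : (64 : ℝ) ≤ (3 * ((D : ℝ) + 1) + 2) ^ 9 := le_trans (by norm_num) h3
          exact mul_le_mul h5 h2 (by positivity) (by positivity)
      _ = (3 * ((D : ℝ) + 1) + 2) ^ 12 := by ring
  have h0 : (0 : ℝ) ≤ 4 * Real.exp (-Lam) := by positivity
  exact mul_le_mul_of_nonneg_left (by linarith) h0

private theorem c5_bet {m K : ℕ} (hmK : 8 * K ≤ m) (hK : 24 ≤ K) :
    0 < bet m K ∧ bet m K ≤ 1 / 192 := by
  have hm : 192 ≤ m := by omega
  have hm' : (192 : ℝ) ≤ m := by exact_mod_cast hm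
  have hm0 : (0 : ℝ) < m := by linarith
  have h1 : 1 / (m : ℝ) ≤ 1 / 192 := one_div_le_one_div_of_le (by norm_num) hm'
  have h2 : 0 < 1 / (m : ℝ) := one_div_pos.2 hm0
  have h3 : 0 < 1 - 1 / (m : ℝ) := by linarith
  unfold bet
  refine ⟨by positivity, ?_⟩
  exact (mul_le_of_le_one_right h2.le (pow_le_one₀ h3.le (by linarith))).trans h1

/-- trimming: the right-hand lists are smaller -/
private theorem c5_solv {S : CS V κ} {U : Finset V} {L L' : V → Finset κ}
    (h : ∀ u ∈ U, L' u ⊆ L u) (hs : Solv S U L') : Solv S U L := by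
  obtain ⟨c, h1, h2, h3⟩ := hs
  exact ⟨c, fun u hu => h u hu (h1 u hu), h2, h3⟩

private theorem c5_Cv {S : CS V κ} {U : Finset V} {L L' : V → Finset κ}
    (h : ∀ u ∈ U, L' u ⊆ L u) (v : V) : ((Cv S U L' v).card : ℝ) ≤ (Cv S U L v).card := by
  have : Cv S U L' v ⊆ Cv S U L v := by
    intro p hp
    simp only [Cv, mem_filter, mem_univ, true_and] at hp ⊢
    exact ⟨hp.1, h _ hp.1 hp.2.1, hp.2.2⟩
  exact_mod_cast card_le_card this

private theorem c5_Pn {S : CS V κ} {U : Finset V} {L L' : V → Finset κ}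
    (h : ∀ u ∈ U, L' u ⊆ L u) (u : V) (a : κ) :
    ((Pn S U L' u a).card : ℝ) ≤ (Pn S U L u a).card := by
  have : Pn S U L' u a ⊆ Pn S U L u a := by
    intro p hp
    simp only [Pn, mem_filter, mem_univ, true_and] at hp ⊢
    exact ⟨hp.1, hp.2.1, h _ hp.1 hp.2.2⟩
  exact_mod_cast card_le_card this

/-- two steps of the nibble -/
private theorem c5_run (hStep : St_Step) (hIter : St_Iter) [Nonempty κ] (S : CS V κ)
    (U : Finset V) (L : V → Finset κ) (D K m0 m2 n L0 ll : ℕ) (g Lam x y q l1 : ℝ)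
    (hH : Hyp S U L D ll m0 K x y q Lam) (mK2 : 8 * K ≤ m2)
    (l1def : l1 = (ll : ℝ) * ((1 - q) * (1 - bet m0 K * x / ll) - Err m0 K Lam ll))
    (l1pos : 0 < l1)
    (xg : x * (1 - bet m0 K) * (1 - q) + Err m0 K Lam ll * ll ≤ (1 - g) * l1)
    (yg : y * (1 - bet m0 K) * (1 - bet m0 K * x / ll) + Err m0 K Lam ll * ll ≤ (1 - g) * l1)
    (g0 : 0 < g) (g1 : g ≤ 7 / 8) (L00 : 0 < L0) (LL0 : Lam ≤ L0)
    (err2 : 8 * Err m2 K Lam L0 ≤ g * bet m2 K / 16) (gn : 7 / 8 ≤ g * (1 + bet m2 K / 16) ^ n)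
    (L0n : (L0 : ℝ) ≤ l1 * (1 - 3 * bet m2 K) ^ n) : Solv S U L := by
  obtain ⟨U', L', hU', hL', hcard, hC, hP, hsol⟩ := hStep V κ S U L D ll m0 K x y q Lam hH
  apply hsol
  have hex : ∀ u : V, ∃ t : Finset κ, u ∈ U' → t ⊆ L' u ∧ t.card = ⌈l1⌉₊ := by
    intro u
    by_cases hu : u ∈ U'
    · have h1 : l1 ≤ ((L' u).card : ℝ) := by rw [l1def]; exact hcard u hu
      have h2 : ⌈l1⌉₊ ≤ (L' u).card := Nat.ceil_le.2 h1
      obtain ⟨t, ht1, ht2⟩ := exists_subset_card_eq h2
      exact ⟨t, fun _ => ⟨ht1, ht2⟩⟩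
    · exact ⟨∅, fun h => absurd h hu⟩
  choose L2 hL2 using hex
  have hle : l1 ≤ (⌈l1⌉₊ : ℝ) := Nat.le_ceil _
  have hg : 0 ≤ 1 - g := by linarith
  obtain ⟨hb0, hb1⟩ := c5_bet mK2 hH.K24
  refine c5_solv (fun u hu => (hL2 u hu).1) ?_
  refine hIter V κ S n U' L2 D ⌈l1⌉₊ m2 K L0 g Lam hH.deg hH.col (fun u hu => (hL2 u hu).2)
    ?_ ?_ ?_ g0 g1 mK2 hH.K24 hH.L0 hH.LK hH.hexp L00 LL0 err2 gn ?_
  · intro u hu a ha a' ha'
    exact hH.inj2 u (hU' hu) a (hL' u hu ((hL2 u hu).1 ha)) a' (hL' u hu ((hL2 u hu).1 ha'))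
  · intro v
    refine (c5_Cv (fun u hu => (hL2 u hu).1) v).trans ((hC v).trans (xg.trans ?_))
    exact mul_le_mul_of_nonneg_left hle hg
  · intro u hu a ha
    refine (c5_Pn (fun u hu => (hL2 u hu).1) u a).trans
      ((hP u hu a ((hL2 u hu).1 ha)).trans (yg.trans ?_))
    exact mul_le_mul_of_nonneg_left hle hg
  · refine L0n.trans (mul_le_mul_of_nonneg_right hle (pow_nonneg (by linarith) n))

end aux

theorem thm_Core5 (hRun : St_Run5) (hAct : Pool.TCM.St_Act) (hTau : St_Tau) (hStep : St_Step)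
    (hIter : St_Iter) : St_Core5 := by
  intro V _ G D s l ρ r t0 K m0 m2 n L0 ll δ g Lam x y q l1 hN hreg hsp
  have hD : ∀ u, (nb G u).card ≤ D := fun u => (hreg u).le
  have ht0R : (1 : ℝ) ≤ t0 := by exact_mod_cast hN.t1
  set θ : ℝ := 1 / (4 * t0) with hθ
  have hθ0 : 0 ≤ θ := by rw [hθ]; positivity
  have hθ1 : θ ≤ 1 := by
    rw [hθ, div_le_one (by positivity)]
    linarith
  have hLam := hN.La
  have hcol : Fintype.card (Col s l ρ) = D + 1 := by
    rw [← hN.sum]
    simp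
  have hD0 : (0 : ℝ) ≤ D := Nat.cast_nonneg _
  obtain ⟨E, z, m, hst, hX, hY⟩ := hRun V G D s l ρ r θ Lam hD hN.s2 hN.ρl hN.sum hN.r0 hN.rl
    hθ0 hθ1 hLam hN.expR hN.nz
  have hnb : ∀ u w, w ∈ nb G u ↔ G.Adj u w := by
    intro u w
    simp [nb]
  have hJc : (J0 r : Finset (Col s l ρ)).card = s * 2 ^ (l - r) := c5_card_J0 hN.rl
  let A : V → Finset (Col s l ρ) := fun v =>
    univ.filter (fun c => E.N c v ≠ v ∧ c ∉ (J0 r : Finset (Col s l ρ)))
  have hAm : ∀ v c, c ∈ A v ↔ E.N c v ≠ v ∧ c ∉ (J0 r : Finset (Col s l ρ)) := by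
    intro v c
    simp [A]
  let Qa : V → Finset V := fun v =>
    ((A v).filter (fun c => m (E.N c v) ∈ (J0 r : Finset (Col s l ρ)))).image (fun c => E.N c v)
  have hinj : ∀ v, Set.InjOn (fun c => E.N c v) (A v) := by
    intro v c hc c' hc' h
    have := (hAm v c).1 (by exact_mod_cast hc)
    exact E.uniq _ _ _ h this.1
  have hQcard : ∀ v, (Qa v).card =
      ((A v).filter (fun c => m (E.N c v) ∈ (J0 r : Finset (Col s l ρ)))).card := by
    intro v
    apply card_image_of_injOn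
    exact (hinj v).mono (by
      intro c hc
      exact (mem_filter.1 hc).1)
  have hG5 : ∀ (w : V) (c m' : Col s l ρ), G5 r θ l w c m' =
      (1 - if c ∈ (J0 r : Finset (Col s l ρ)) then 1 else 0) *
        (1 - θ * if m' ∈ (J0 r : Finset (Col s l ρ)) then 1 else 0) := by
    intro w c m'
    unfold G5
    rw [c5_MJ hN.rl, c5_MJ hN.rl]
  have hXA : ∀ v, X E m (G5 r θ l) v = ((A v).card : ℝ) - θ * (Qa v).card := by
    intro v
    rw [hQcard]
    unfold X
    have h1 : ((A v).card : ℝ) =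
        ∑ c : Col s l ρ, if E.N c v ≠ v ∧ c ∉ (J0 r : Finset (Col s l ρ)) then 1 else 0 := by
      simp only [A]
      rw [card_filter]
      push_cast
      rfl
    have h2 : (((A v).filter (fun c => m (E.N c v) ∈ (J0 r : Finset (Col s l ρ)))).card : ℝ) =
        ∑ c : Col s l ρ, if (E.N c v ≠ v ∧ c ∉ (J0 r : Finset (Col s l ρ))) ∧
          m (E.N c v) ∈ (J0 r : Finset (Col s l ρ)) then 1 else 0 := by
      simp only [A]
      rw [filter_filter, card_filter]
      push_cast
      rfl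
    rw [h1, h2, mul_sum, ← sum_sub_distrib]
    refine sum_congr rfl (fun c _ => ?_)
    by_cases h3 : E.N c v = v
    · simp [h3]
    · rw [if_neg h3, hG5]
      by_cases h4 : c ∈ (J0 r : Finset (Col s l ρ))
      · simp [h3, h4]
      · by_cases h5 : m (E.N c v) ∈ (J0 r : Finset (Col s l ρ))
        · simp [h3, h4, h5]
        · simp [h3, h4, h5]
  -- the conflict relation
  let cf : V → V → Prop := fun u w => G.Adj u w ∧ m u = m w ∧ m u ∈ (J0 r : Finset (Col s l ρ))
  have hcf : ∀ w, (univ.filter (fun u => cf w u)).card ≤ t0 := by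
    intro w
    by_cases hw : m w ∈ (J0 r : Finset (Col s l ρ))
    swap
    · have : univ.filter (fun u => cf w u) = ∅ := by
        rw [filter_eq_empty_iff]
        rintro u _ ⟨_, _, h⟩
        exact hw h
      rw [this]
      simp
    obtain ⟨a, ha⟩ : ∃ a, m w = Sum.inl a := by
      obtain ⟨q', a', h, _⟩ := (c5_mem_J0 r _).1 hw
      exact ⟨(q', a'), h⟩
    have h1 : univ.filter (fun u => cf w u) ⊆
        insert (z w) ((univ.filter (fun c => E.N c w ≠ w ∧ m (E.N c w) = Sum.inl a)).image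
          (fun c => E.N c w)) := by
      intro u hu
      simp only [mem_filter, mem_univ, true_and] at hu
      obtain ⟨h2, h3, _⟩ := hu
      rw [mem_insert]
      rcases hst.cov w u h2 with ⟨c, hc⟩ | h4
      · right
        rw [mem_image]
        refine ⟨c, ?_, hc⟩
        simp only [mem_filter, mem_univ, true_and]
        rw [hc, ← h3, ha]
        exact ⟨h2.ne.symm, rfl⟩
      · exact Or.inl h4.symm
    have h2 : ((univ.filter (fun c => E.N c w ≠ w ∧ m (E.N c w) = Sum.inl a)).card : ℝ) ≤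
        X E m (gY l a) w := by
      unfold X
      rw [card_filter]
      push_cast
      refine sum_le_sum (fun c _ => ?_)
      by_cases h3 : E.N c w = w
      · simp [h3]
      · simp only [h3, not_false_eq_true, true_and, if_false, ne_eq]
        by_cases h4 : m (E.N c w) = Sum.inl a
        · rw [h4]
          simp [gY]
        · simp only [h4, if_false]
          unfold gY
          rcases m (E.N c w) with ⟨q, b⟩ | i
          · dsimp only
            split_ifs
            · exact zero_le_one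
            · exact le_refl _
          · exact le_refl _
    have h3 : ((univ.filter (fun u => cf w u)).card : ℝ) ≤ t0 := by
      have h4 := (card_le_card h1).trans ((card_insert_le _ _).trans
        (Nat.add_le_add_right card_image_le 1))
      have h5 : ((univ.filter (fun u => cf w u)).card : ℝ) ≤
          ((univ.filter (fun c => E.N c w ≠ w ∧ m (E.N c w) = Sum.inl a)).card : ℝ) + 1 := by
        exact_mod_cast h4
      have h6 := hY w a
      have h7 := hN.tY
      linarith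
    exact_mod_cast h3
  have hQadj : ∀ v, ∀ w ∈ Qa v, G.Adj v w := by
    intro v w hw
    simp only [Qa, mem_image, mem_filter] at hw
    obtain ⟨c, ⟨h1, _⟩, rfl⟩ := hw
    exact hst.sub c v ((hAm v c).1 h1).1
  have hQD : ∀ v, ((Qa v).card : ℝ) ≤ (D : ℝ) + 1 := by
    intro v
    have h1 : (Qa v).card ≤ D := (card_le_card (fun w hw => (hnb v w).2 (hQadj v w hw))).trans (hD v)
    have h2 : ((Qa v).card : ℝ) ≤ (D : ℝ) := by exact_mod_cast h1
    linarith
  obtain ⟨F0, hF0, hF1⟩ := hAct V G D t0 cf Qa ((D : ℝ) + 1) Lam hD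
    (by
      rintro u w ⟨h1, h2, h3⟩
      exact ⟨h1.symm, h2.symm, by rw [← h2]; exact h3⟩)
    (fun u w h => h.1) hN.t1 (by intro w; convert hcf w) hQadj (by positivity) hQD hLam.le
    (exp_act D Lam _ (LL_ge D l) hN.expR)
  -- the free vertices
  let F : V → Prop := fun w => F0 w ∧ m w ∈ (J0 r : Finset (Col s l ρ))
  have hXF : ∀ v, (((A v).filter (fun c => ¬ F (E.N c v))).card : ℝ) ≤
      ((D : ℝ) + 1 - (s * 2 ^ (l - r) : ℕ)) * (1 - 1 / (4 * t0) * (1 / 2) ^ r / 2) +
        (8 * ((l : ℝ) + 1) + (1 + t0)) * Real.sqrt (2 * ((D : ℝ) + 1) * Lam) := by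
    intro v
    have h3 : (((A v).filter (fun c => ¬ F (E.N c v))).card : ℝ) =
        (A v).card - ((A v).filter (fun c => F (E.N c v))).card := by
      have := card_filter_add_card_filter_not (s := A v) (fun c => F (E.N c v))
      have h4 : (((A v).filter (fun c => F (E.N c v))).card : ℝ) +
          ((A v).filter (fun c => ¬ F (E.N c v))).card = (A v).card := by exact_mod_cast this
      linarith
    have h4 : (((Qa v).filter F0).card : ℝ) ≤ ((A v).filter (fun c => F (E.N c v))).card := by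
      have h5 : (Qa v).filter F0 ⊆ ((A v).filter (fun c => F (E.N c v))).image
          (fun c => E.N c v) := by
        intro w hw
        simp only [Qa, mem_filter, mem_image] at hw
        obtain ⟨⟨c, ⟨h6, h7⟩, rfl⟩, h8⟩ := hw
        rw [mem_image]
        exact ⟨c, mem_filter.2 ⟨h6, h8, h7⟩, rfl⟩
      exact_mod_cast (card_le_card h5).trans card_image_le
    have h5 := hF1 v
    have h6 := hXA v
    have h7 := hX v
    have h8 : ((Qa v).card : ℝ) / (4 * t0) = θ * (Qa v).card := by rw [hθ]; ring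
    rw [h8] at h5
    rw [← hθ]
    linarith
  -- the bipartition
  let Q1 : V ⊕ V → Finset V := fun i => match i with
    | Sum.inl u => ((A u).filter (fun c => z (E.N c u) = E.N c u)).image (fun c => E.N c u)
    | Sum.inr v => ((A v).filter (fun c => ¬ F (E.N c v))).image (fun c => E.N c v)
  let P1 : V × Col s l ρ → Finset V := fun j =>
    univ.filter (fun w => G.Adj j.1 w ∧ ¬ F w ∧ E.N j.2 w ≠ w ∧ z (E.N j.2 w) = E.N j.2 w)
  have hP1 : ∀ j w, w ∈ P1 j ↔
      (G.Adj j.1 w ∧ ¬ F w ∧ E.N j.2 w ≠ w ∧ z (E.N j.2 w) = E.N j.2 w) := by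
    intro j w
    simp [P1]
  have hQ1l : ∀ u, ∀ w ∈ Q1 (Sum.inl u), G.Adj u w := by
    intro u w hw
    obtain ⟨c, hc, rfl⟩ := mem_image.1 hw
    exact hst.sub c u ((hAm u c).1 (mem_filter.1 hc).1).1
  have hQ1r : ∀ u, ∀ w ∈ Q1 (Sum.inr u), G.Adj u w := by
    intro u w hw
    obtain ⟨c, hc, rfl⟩ := mem_image.1 hw
    exact hst.sub c u ((hAm u c).1 (mem_filter.1 hc).1).1
  have hP1n : ∀ j, P1 j ⊆ nb G j.1 := fun j w hw => (hnb _ _).2 ((hP1 j w).1 hw).1
  obtain ⟨τ, hτ, hτQ, hτP, hτN⟩ := hTau V (V ⊕ V) (V × Col s l ρ) G z Q1 P1 (fun j => E.N j.2)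
    (D + 1) (2 * D * (D + 1)) Lam hst.zinv hst.zadj
    (fun j u w h => by
      have h' : E.N j.2 u = E.N j.2 w := h
      rw [← E.inv j.2 u, h', E.inv])
    (fun j u hu => hst.sub j.2 u ((hP1 j u).1 hu).2.2.1)
    (fun j u hu => ((hP1 j u).1 hu).2.2.2) (by omega)
    (by
      rintro (u | u)
      · exact ((card_le_card (fun w hw => (hnb u w).2 (hQ1l u w hw))).trans (hD u)).trans
          (Nat.le_succ D)
      · exact ((card_le_card (fun w hw => (hnb u w).2 (hQ1r u w hw))).trans (hD u)).trans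
          (Nat.le_succ D))
    (fun j => ((card_le_card (hP1n j)).trans (hD j.1)).trans (Nat.le_succ D))
    (by
      intro w
      have h1 : (univ.filter (fun i => w ∈ Q1 i)) ⊆ (nb G w).disjSum (nb G w) := by
        rintro (u | v) hi
        · have h2 : w ∈ Q1 (Sum.inl u) := (Finset.mem_filter.1 hi).2
          exact Finset.mem_disjSum.2 (Or.inl ⟨u, (hnb w u).2 (hQ1l u w h2).symm, rfl⟩)
        · have h2 : w ∈ Q1 (Sum.inr v) := (Finset.mem_filter.1 hi).2
          exact Finset.mem_disjSum.2 (Or.inr ⟨v, (hnb w v).2 (hQ1r v w h2).symm, rfl⟩)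
      have h3 := Finset.card_le_card h1
      rw [Finset.card_disjSum] at h3
      have h4 := hD w
      have h5 : 2 * D ≤ 2 * D * (D + 1) := Nat.le_mul_of_pos_right _ (by omega)
      omega)
    (by
      intro w
      have h1 : (univ.filter (fun j : V × Col s l ρ => w ∈ P1 j ∨ ∃ u ∈ P1 j, E.N j.2 u = w)) ⊆
          (nb G w ×ˢ (univ : Finset (Col s l ρ))) ∪
            (univ : Finset (Col s l ρ)).biUnion (fun a => (nb G (E.N a w)) ×ˢ {a}) := by
        rintro ⟨u, a⟩ hj
        rw [mem_union]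
        rcases (mem_filter.1 hj).2 with h | ⟨u', h2, h3⟩
        · left
          rw [mem_product]
          exact ⟨(hnb w u).2 ((hP1 _ w).1 h).1.symm, mem_univ _⟩
        · right
          rw [mem_biUnion]
          refine ⟨a, mem_univ _, ?_⟩
          rw [mem_product, mem_singleton]
          refine ⟨?_, rfl⟩
          have h4 : E.N a w = u' := by
            rw [← h3]
            exact E.inv a u'
          rw [h4]
          exact (hnb u' u).2 ((hP1 _ u').1 h2).1.symm
      have h2 := (card_le_card h1).trans (card_union_le _ _)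
      have h3 : (nb G w ×ˢ (univ : Finset (Col s l ρ))).card ≤ D * (D + 1) := by
        rw [card_product, card_univ, hcol]
        exact Nat.mul_le_mul_right _ (hD w)
      have h4 : ((univ : Finset (Col s l ρ)).biUnion
          (fun a => (nb G (E.N a w)) ×ˢ {a})).card ≤ D * (D + 1) := by
        refine card_biUnion_le.trans ?_
        refine (sum_le_sum (g := fun _ => D) (fun a _ => ?_)).trans ?_
        · rw [card_product, card_singleton, mul_one]
          exact hD _
        · rw [sum_const, card_univ, hcol, smul_eq_mul, mul_comm]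
      have h5 : 2 * D * (D + 1) = D * (D + 1) + D * (D + 1) := by ring
      rw [h5]
      refine le_trans ?_ (Nat.add_le_add h3 h4)
      convert h2)
    hLam.le (c5_exp D Lam hN.expH)
  have hcast : (((D + 1 : ℕ) : ℝ)) = (D : ℝ) + 1 := by push_cast; ring
  rw [hcast] at hτQ hτP hτN
  set sq : ℝ := Real.sqrt (((D : ℝ) + 1) * Lam) with hsq
  have hsq0 : 0 ≤ sq := Real.sqrt_nonneg _
  -- the lists
  let Lf : V → Finset (Col s l ρ) := fun u =>
    univ.filter (fun c => c ∉ (J0 r : Finset (Col s l ρ)) ∧ E.N c u ≠ u ∧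
      z (E.N c u) = E.N c u ∧ τ (E.N c u) ≠ τ u)
  have hLfm : ∀ u c, c ∈ Lf u ↔ (c ∉ (J0 r : Finset (Col s l ρ)) ∧ E.N c u ≠ u ∧
      z (E.N c u) = E.N c u ∧ τ (E.N c u) ≠ τ u) := by
    intro u c
    simp [Lf]
  have hLf : ∀ u, ll ≤ (Lf u).card := by
    intro u
    -- missing colours
    have h1 : nb G u ⊆ insert (z u) ((univ.filter (fun c => E.N c u ≠ u)).image
        (fun c => E.N c u)) := by
      intro v hv
      have hv' := (hnb u v).1 hv
      rw [mem_insert]
      rcases hst.cov u v hv' with ⟨c, hc⟩ | h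
      · right
        rw [mem_image]
        refine ⟨c, ?_, hc⟩
        rw [mem_filter]
        refine ⟨mem_univ _, ?_⟩
        rw [hc]
        exact hv'.ne.symm
      · exact Or.inl h.symm
    have h2 : D ≤ (univ.filter (fun c => E.N c u ≠ u)).card + 1 := by
      rw [← hreg u]
      exact (card_le_card h1).trans ((card_insert_le _ _).trans
        (Nat.add_le_add_right card_image_le 1))
    have h3 : (univ.filter (fun c => E.N c u = u)).card +
        (univ.filter (fun c => E.N c u ≠ u)).card = D + 1 := by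
      rw [← hcol, ← card_univ]
      exact card_filter_add_card_filter_not (s := univ) (fun c => E.N c u = u)
    have h4 : (univ : Finset (Col s l ρ)) ⊆
        A u ∪ ((univ.filter (fun c => E.N c u = u)) ∪ (J0 r : Finset (Col s l ρ))) := by
      intro c _
      rw [mem_union, mem_union, hAm, mem_filter]
      by_cases h5 : E.N c u = u
      · exact Or.inr (Or.inl ⟨mem_univ _, h5⟩)
      · by_cases h6 : c ∈ (J0 r : Finset (Col s l ρ))
        · exact Or.inr (Or.inr h6)
        · exact Or.inl ⟨h5, h6⟩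
    have h5 := (card_le_card h4).trans ((card_union_le _ _).trans
      (Nat.add_le_add_left (card_union_le _ _) _))
    rw [card_univ, hcol, hJc] at h5
    -- the matching
    have h6 : ((A u).filter (fun c => ¬ z (E.N c u) = E.N c u)).card ≤ 2 * (l + 1) := by
      have h7 : ((A u).filter (fun c => ¬ z (E.N c u) = E.N c u)).image (fun c => E.N c u) ⊆
          (ball G (8 * (l + 1)) u).filter (fun x => z x ≠ x) := by
        intro v hv
        obtain ⟨c, hc, rfl⟩ := mem_image.1 hv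
        rw [mem_filter] at hc
        rw [mem_filter]
        refine ⟨?_, hc.2⟩
        have hv' : E.N c u ∈ nb G u := (hnb _ _).2 (hst.sub c u ((hAm u c).1 hc.1).1)
        have hmono : ∀ n, E.N c u ∈ ball G (n + 1) u := by
          intro n
          induction n with
          | zero =>
            simp only [ball, mem_biUnion, mem_singleton, exists_eq_left, mem_insert]
            exact Or.inr hv'
          | succ n ih =>
            rw [ball, mem_biUnion]
            exact ⟨E.N c u, ih, mem_insert_self _ _⟩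
        have := hmono (8 * l + 7)
        rwa [show 8 * l + 7 + 1 = 8 * (l + 1) by ring] at this
      have h8 : (((A u).filter (fun c => ¬ z (E.N c u) = E.N c u)).image
          (fun c => E.N c u)).card = ((A u).filter (fun c => ¬ z (E.N c u) = E.N c u)).card := by
        apply card_image_of_injOn
        exact (hinj u).mono (by
          intro c hc
          exact (mem_filter.1 hc).1)
      rw [← h8]
      exact (card_le_card h7).trans (hst.spr u)
    have h7 : ((A u).filter (fun c => z (E.N c u) = E.N c u)).card +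
        ((A u).filter (fun c => ¬ z (E.N c u) = E.N c u)).card = (A u).card :=
      card_filter_add_card_filter_not (s := A u) (fun c => z (E.N c u) = E.N c u)
    have h8 : (Q1 (Sum.inl u)).card = ((A u).filter (fun c => z (E.N c u) = E.N c u)).card := by
      apply card_image_of_injOn
      exact (hinj u).mono (by
        intro c hc
        exact (mem_filter.1 hc).1)
    have h9 : (Q1 (Sum.inl u)).filter (fun w => ¬ τ w = τ u) ⊆
        (Lf u).image (fun c => E.N c u) := by
      intro w hw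
      rw [mem_filter] at hw
      obtain ⟨c, hc, rfl⟩ := mem_image.1 hw.1
      rw [mem_filter, hAm] at hc
      rw [mem_image]
      exact ⟨c, (hLfm u c).2 ⟨hc.1.2, hc.1.1, hc.2, hw.2⟩, rfl⟩
    have h10 := (card_le_card h9).trans card_image_le
    have h11 : ((Q1 (Sum.inl u)).filter (fun w => τ w = τ u)).card +
        ((Q1 (Sum.inl u)).filter (fun w => ¬ τ w = τ u)).card = (Q1 (Sum.inl u)).card :=
      card_filter_add_card_filter_not (s := Q1 (Sum.inl u)) (fun w => τ w = τ u)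
    have h12 := hτQ (Sum.inl u) (τ u)
    have h13 := hN.ell
    rw [← hsq] at h13
    have h14 : D + 1 ≤ (Q1 (Sum.inl u)).card + 2 * (l + 1) + 2 + s * 2 ^ (l - r) := by omega
    have h15 : (D : ℝ) + 1 ≤ ((Q1 (Sum.inl u)).card : ℝ) + 2 * ((l : ℝ) + 1) + 2 +
        ((s * 2 ^ (l - r) : ℕ) : ℝ) := by exact_mod_cast h14
    have h16 : ((Q1 (Sum.inl u)).card : ℝ) ≤
        (((Q1 (Sum.inl u)).filter (fun w => τ w = τ u)).card : ℝ) + ((Lf u).card : ℝ) := by
      have : (Q1 (Sum.inl u)).card ≤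
        ((Q1 (Sum.inl u)).filter (fun w => τ w = τ u)).card + (Lf u).card := by omega
      exact_mod_cast this
    have h17 : (ll : ℝ) ≤ ((Lf u).card : ℝ) := by linarith
    exact_mod_cast h17
  choose L hL1 hL2 using fun u => exists_subset_card_eq (hLf u)
  -- the structure
  let S : CS V (Col s l ρ) :=
    { adj := G.Adj
      r := fun u a => E.N a u
      symm := fun u v h => h.symm
      irr := fun u h => h.ne rfl
      inj := fun u u' a h => by
        have h' : E.N a u = E.N a u' := h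
        rw [← E.inv a u, h', E.inv] }
  let U : Finset V := univ.filter (fun u => ¬ F u)
  have hU : ∀ u, u ∈ U ↔ ¬ F u := by
    intro u
    simp [U]
  have hLm : ∀ u c, c ∈ L u → (c ∉ (J0 r : Finset (Col s l ρ)) ∧ E.N c u ≠ u ∧
      z (E.N c u) = E.N c u ∧ τ (E.N c u) ≠ τ u) := fun u c hc => (hLfm u c).1 (hL1 u hc)
  -- the right-hand degrees
  have hC : ∀ v, ((Cv S U L v).card : ℝ) ≤ x := by
    intro v
    have h1 : (Cv S U L v).image Prod.fst ⊆
        (Q1 (Sum.inr v)).filter (fun w => τ w = !(τ v)) := by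
      intro w hw
      obtain ⟨⟨w', c⟩, hp, rfl⟩ := mem_image.1 hw
      simp only [Cv, mem_filter, mem_univ, true_and] at hp
      obtain ⟨h2, h3, h4⟩ := hp
      have h4' : E.N c w' = v := h4
      obtain ⟨h5, h6, h7, h8⟩ := hLm w' c h3
      have h9 : E.N c v = w' := by rw [← h4', E.inv]
      rw [mem_filter]
      refine ⟨mem_image.2 ⟨c, ?_, h9⟩, ?_⟩
      · rw [mem_filter, hAm, h9]
        refine ⟨⟨?_, h5⟩, (hU w').1 h2⟩
        intro h10
        rw [h4'] at h6
        exact h6 h10.symm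
      · rw [h4'] at h8
        revert h8
        show τ v ≠ τ w' → τ w' = !(τ v)
        cases τ w' <;> cases τ v <;> simp
    have h2 : ((Cv S U L v).image Prod.fst).card = (Cv S U L v).card := by
      apply card_image_of_injOn
      rintro ⟨w, c⟩ hp ⟨w', c'⟩ hp' h
      have hp1 : w ∈ U ∧ c ∈ L w ∧ S.r w c = v := by
        simpa only [Cv, coe_filter, mem_univ, true_and, Set.mem_setOf_eq] using hp
      have hp2 : w' ∈ U ∧ c' ∈ L w' ∧ S.r w' c' = v := by
        simpa only [Cv, coe_filter, mem_univ, true_and, Set.mem_setOf_eq] using hp'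
      obtain ⟨h2, h3, h4⟩ := hp1
      obtain ⟨h5, h6, h7⟩ := hp2
      have hww : w = w' := h
      subst hww
      have h8 : E.N c w = E.N c' w := by
        have h4' : E.N c w = v := h4
        have h7' : E.N c' w = v := h7
        rw [h4', h7']
      rw [E.uniq _ _ _ h8 (hLm w c h3).2.1]
    have h3 := card_le_card h1
    rw [h2] at h3
    have h4 : ((Cv S U L v).card : ℝ) ≤
        (((Q1 (Sum.inr v)).filter (fun w => τ w = !(τ v))).card : ℝ) := by exact_mod_cast h3
    have h5 := hτQ (Sum.inr v) (!(τ v))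
    have h6 : ((Q1 (Sum.inr v)).card : ℝ) ≤
        (((A v).filter (fun c => ¬ F (E.N c v))).card : ℝ) := by exact_mod_cast card_image_le
    have h7 := hXF v
    have h8 := hN.xdef
    rw [← hsq] at h8
    linarith
  -- the crossing part
  have hPP : ∀ u a, Pn S U L u a ⊆ (P1 (u, a)).filter (fun w => τ (E.N a w) ≠ τ w) := by
    intro u a w hw
    simp only [Pn, mem_filter, mem_univ, true_and] at hw
    obtain ⟨h1, h2, h3⟩ := hw
    obtain ⟨h4, h5, h6, h7⟩ := hLm w a h3
    rw [mem_filter, hP1]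
    exact ⟨⟨h2, (hU w).1 h1, h5, h6⟩, h7⟩
  have hPD : ∀ u a, ((P1 (u, a)).card : ℝ) ≤ D := by
    intro u a
    exact_mod_cast (card_le_card (hP1n (u, a))).trans (hD u)
  have hPc : ∀ u a, (((P1 (u, a)).filter (fun w => τ (E.N a w) ≠ τ w)).card : ℝ) ≤
      ((P1 (u, a)).card : ℝ) / 2 + 32 * sq := fun u a => hτP (u, a)
  have hPy : ∀ u a, (((P1 (u, a)).filter (fun w => τ (E.N a w) ≠ τ w)).card : ℝ) ≤ y := by
    intro u a
    have h1 := hPc u a
    have h2 := hPD u a
    have h3 := hN.ydef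
    rw [← hsq] at h3
    linarith
  obtain ⟨hb0, hb1⟩ := c5_bet hN.mK0 hN.K24
  have hllp : (0 : ℝ) < ll := by exact_mod_cast hN.l0
  have hq : ∀ u ∈ U, ∀ a ∈ L u, pp S U L ll m0 K u a ≤ q := by
    intro u _ a _
    set B : Finset V := (P1 (u, a)).filter (fun w => τ (E.N a w) ≠ τ w) with hB
    have h1 : bet m0 K * (Pn S U L u a).card / ll -
        bet m0 K ^ 2 * npair S (Pn S U L u a) / (ll : ℝ) ^ 2 ≤
        bet m0 K * B.card / ll - bet m0 K ^ 2 * npair S B / (ll : ℝ) ^ 2 := by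
      refine c5_mono (hPP u a) hb0.le hllp ?_
      have h2 := hPy u a
      rw [← hB] at h2
      have h3 := hN.y2
      have h4 : bet m0 K * B.card ≤ 1 / 192 * (2 * ll) :=
        mul_le_mul hb1 (h2.trans h3) (Nat.cast_nonneg _) (by norm_num)
      linarith
    have h2 := hτN (u, a)
    have h3 := c5_nonadj G (hreg u) (hsp u) (hP1n (u, a))
    have h4 : (((B ×ˢ B).filter (fun w => w.1 ≠ w.2 ∧ ¬ G.Adj w.1 w.2)).card : ℝ) =
        2 * npair S B := by
      unfold npair
      have : ((B ×ˢ B).filter (fun w => w.1 ≠ w.2 ∧ ¬ G.Adj w.1 w.2)).card =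
          ((B ×ˢ B).filter (fun p => p.1 ≠ p.2 ∧ ¬ S.adj p.1 p.2)).card := by
        congr 1
      rw [this]
      ring
    have h2' : (((P1 (u, a) ×ˢ P1 (u, a)).filter
        (fun w => w.1 ≠ w.2 ∧ ¬ G.Adj w.1 w.2)).card : ℝ) / 4 - 32 * ((D : ℝ) + 1) * sq ≤
        2 * npair S B := by
      rw [← h4]
      exact h2
    have h5 := hPc u a
    rw [← hB] at h5
    have h6 := hPD u a
    have h7 := hN.qdef
    rw [← hsq] at h7
    have h8 := hN.bD
    refine h1.trans (le_trans ?_ h7)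
    set N : ℝ := ((P1 (u, a)).card : ℝ) with hNd
    have e1 : bet m0 K * (B.card : ℝ) / ll - bet m0 K ^ 2 * npair S B / (ll : ℝ) ^ 2 =
        bet m0 K / ll * B.card - (bet m0 K / ll) ^ 2 * npair S B := by
      field_simp
    have e2 : bet m0 K * ((D : ℝ) / 2 + 32 * sq) / ll -
        bet m0 K ^ 2 * ((δ * (D : ℝ) ^ 2 - D) / 8 - 16 * ((D : ℝ) + 1) * sq) / (ll : ℝ) ^ 2 =
        bet m0 K / ll * ((D : ℝ) / 2 + 32 * sq) -
        (bet m0 K / ll) ^ 2 * ((δ * (D : ℝ) ^ 2 - D) / 8 - 16 * ((D : ℝ) + 1) * sq) := by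
      field_simp
    rw [e1, e2]
    have h9 : bet m0 K / ll * D ≤ 2 := by
      rw [div_mul_eq_mul_div, div_le_iff₀ hllp]
      exact h8
    set b : ℝ := bet m0 K / ll with hb
    have hbp : 0 ≤ b := div_nonneg hb0.le hllp.le
    have h10 : b * (B.card : ℝ) ≤ b * (N / 2 + 32 * sq) := mul_le_mul_of_nonneg_left h5 hbp
    have h11 : b ^ 2 * (((δ * (D : ℝ) ^ 2 - D - 2 * ((D : ℝ) - N) * D) / 4 -
        32 * ((D : ℝ) + 1) * sq) / 2) ≤ b ^ 2 * npair S B :=
      mul_le_mul_of_nonneg_left (by linarith) (by positivity)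
    have h12 : 0 ≤ b * ((D : ℝ) - N) * (2 - b * D) :=
      mul_nonneg (mul_nonneg hbp (by linarith)) (by linarith)
    have e3 : b * ((D : ℝ) / 2 + 32 * sq) -
        b ^ 2 * ((δ * (D : ℝ) ^ 2 - D) / 8 - 16 * ((D : ℝ) + 1) * sq) -
        (b * (N / 2 + 32 * sq) - b ^ 2 * (((δ * (D : ℝ) ^ 2 - D - 2 * ((D : ℝ) - N) * D) / 4 -
          32 * ((D : ℝ) + 1) * sq) / 2)) = b * ((D : ℝ) - N) * (2 - b * D) / 4 := by
      ring
    linarith
  have hH : Hyp S U L (D + 1) ll m0 K x y q Lam :=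
    { deg := fun u => (hD u).trans (Nat.le_succ D)
      col := hcol.le
      card := fun u _ => hL2 u
      inj2 := fun u _ a ha a' _ h => E.uniq a a' u h (hLm u a ha).2.1
      hC := hC
      hP := fun u _ a _ => by
        have h1 : ((Pn S U L u a).card : ℝ) ≤
            (((P1 (u, a)).filter (fun w => τ (E.N a w) ≠ τ w)).card : ℝ) := by
          exact_mod_cast card_le_card (hPP u a)
        exact h1.trans (hPy u a)
      hq := hq
      l0 := hN.l0
      x0 := hN.x0
      x1 := hN.x1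
      y0 := hN.y0
      y2 := hN.y2
      q0 := hN.q0
      q1 := hN.q1
      mK := hN.mK0
      K24 := hN.K24
      L0 := hN.La
      LK := hN.LK
      Ll := hN.Ll
      hexp := hN.expH }
  haveI : Nonempty (Col s l ρ) := by
    rw [← Fintype.card_pos_iff, hcol]
    omega
  obtain ⟨c, hc1, hc2, hc3⟩ := c5_run hStep hIter S U L (D + 1) K m0 m2 n L0 ll g Lam x y q l1 hH
    hN.mK2 hN.l1def hN.l1pos hN.xg hN.yg hN.g0 hN.g1 hN.L00 hN.LL0 hN.err2 hN.gn hN.L0n
  let c' : V → Col s l ρ := fun u => if F u then m u else c u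
  have hcF : ∀ u, F u → c' u = m u := fun u hu => if_pos hu
  have hcU : ∀ u, ¬ F u → c' u = c u := fun u hu => if_neg hu
  obtain ⟨e, he1, he2⟩ := fin_end G E z τ {u | ¬ F u} (fun u => E.N (c' u) u) c' hst.zinv hst.cov
    hτ
    (by
      intro u hu
      have hu' : ¬ F u := hu
      show z (E.N (c' u) u) = E.N (c' u) u
      rw [hcU u hu']
      exact (hLm u (c u) (hc1 u ((hU u).2 hu'))).2.2.1)
    (by
      intro u hu
      have hu' : ¬ F u := hu
      show τ (E.N (c' u) u) ≠ τ u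
      rw [hcU u hu']
      exact (hLm u (c u) (hc1 u ((hU u).2 hu'))).2.2.2)
    (by
      intro u hu w hw h
      have hu' : ¬ F u := hu
      have hw' : ¬ F w := hw
      by_contra hne
      refine hc2 u ((hU u).2 hu') w ((hU w).2 hw') hne ?_
      have h' : E.N (c' u) u = E.N (c' w) w := h
      rw [hcU u hu', hcU w hw'] at h'
      exact h')
    (fun u _ => rfl)
    (by
      intro u hu
      have hu' : F u := by
        by_contra h
        exact hu h
      rw [hcF u hu']
      exact hst.miss u)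
  refine ⟨c', e, ?_, he1, he2⟩
  have hJF : ∀ u v, F u → ¬ F v → c' u ≠ c' v := by
    intro u v hu hv h
    rw [hcF u hu, hcU v hv] at h
    have h1 := (hLm v (c v) (hc1 v ((hU v).2 hv))).1
    rw [← h] at h1
    exact h1 hu.2
  intro u v huv hcc
  by_cases hu : F u
  · by_cases hv : F v
    · rw [hcF u hu, hcF v hv] at hcc
      exact hF0 u v hu.1 hv.1 ⟨huv, hcc, hu.2⟩
    · exact hJF u v hu hv hcc
  · by_cases hv : F v
    · exact hJF v u hv hu hcc.symm
    · rw [hcU u hu, hcU v hv] at hcc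
      exact hc3 u ((hU u).2 hu) v ((hU v).2 hv) huv hcc

end Pool.TCS
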