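import Pool.Agent.Helper3.TCS.Stmts

/-!
MAIN5: the theorem from CORE5, NUM5 and REG.
-/

set_option autoImplicit false

namespace Pool.TCS

open Pool.TC Pool.TCM Finset
open scoped Classical

/-- The main theorem for small types. -/
theorem main5_zero (hReg : St_Reg) (hCore : St_Core5) (hNum : St_Num5) (k : ℕ) :
    ∃ D0 : ℕ, ∀ D ≥ D0, ∀ (V : Type) [Fintype V] (G : SimpleGraph V),
    (∀ u, (nb G u).card ≤ D) →
    (∀ u, (((nb G u ×ˢ nb G u).filter (fun p => G.Adj p.1 p.2)).card : ℝ) ≤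
      (1 - 1 / (Nat.log 2 D : ℝ) ^ k) * (D : ℝ) ^ 2) →
    ∃ (c : V → Fin (D + 3)) (e : Sym2 V → Fin (D + 3)), IsTotalColouring G c e := by
  obtain ⟨D0, hD0⟩ := hNum k
  refine ⟨D0, fun D hD V _ G hdeg hsp => ?_⟩
  obtain ⟨s, l, ρ, r, t0, K, m0, m2, n, L0, ll, g, Lam, x, y, q, l1, hN⟩ := hD0 D hD
  obtain ⟨W, _, H, f, hf, hadj, hreg, hT⟩ := hReg V G D
    ⌊(1 - 1 / (Nat.log 2 D : ℝ) ^ k) * (D : ℝ) ^ 2⌋₊ hdeg
    (fun u => Nat.le_floor (hsp u))
  obtain ⟨c, e, h1, h2, h3⟩ := hCore W H D s l ρ r t0 K m0 m2 n L0 ll _ g Lam x y q l1 hN hreg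
    (fun u => by
      have h := hT u
      by_cases h0 : 0 ≤ (1 - 1 / (Nat.log 2 D : ℝ) ^ k) * (D : ℝ) ^ 2
      · exact (Nat.le_floor_iff h0).1 h
      · push Not at h0
        rcases isEmpty_or_nonempty V with hV | hV
        · have hδ := hN.δ1
          exact absurd h0 (not_lt.2 (mul_nonneg (by linarith) (by positivity)))
        · exact absurd h0 (not_lt.2 (le_trans (Nat.cast_nonneg _) (hsp hV.some))))
  have hcol : Fintype.card (Col s l ρ ⊕ Bool) = D + 3 := by
    have := hN.sum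
    simp only [Col, Fintype.card_sum, Fintype.card_prod, Fintype.card_fin, Fintype.card_fun,
      Fintype.card_bool]
    omega
  let φ : Col s l ρ ⊕ Bool ≃ Fin (D + 3) := Fintype.equivFinOfCardEq hcol
  refine ⟨fun u => φ (Sum.inl (c (f u))), fun x => φ (e (x.map f)), ?_, ?_, ?_⟩
  · intro u v huv h
    exact h1 _ _ (hadj u v huv) (Sum.inl_injective (φ.injective h))
  · intro u v w huv huw hvw h
    simp only [Sym2.map_mk] at h
    exact h2 (f u) (f v) (f w) (hadj u v huv) (hadj u w huw) (fun h' => hvw (hf h'))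
      (φ.injective h)
  · intro u v huv h
    simp only [Sym2.map_mk] at h
    exact h3 (f u) (f v) (hadj u v huv) (φ.injective h)

/-- The main theorem. -/
theorem main5 (hReg : St_Reg) (hCore : St_Core5) (hNum : St_Num5) (k : ℕ) :
    ∃ D0 : ℕ, ∀ D ≥ D0, ∀ {V : Type*} [Fintype V] (G : SimpleGraph V),
    (∀ u, (univ.filter (fun v => G.Adj u v)).card ≤ D) →
    (∀ u, ((((univ.filter (fun v => G.Adj u v)) ×ˢ (univ.filter (fun v => G.Adj u v))).filter
      (fun p => G.Adj p.1 p.2)).card : ℝ) ≤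
      (1 - 1 / (Nat.log 2 D : ℝ) ^ k) * (D : ℝ) ^ 2) →
    ∃ (c : V → Fin (D + 3)) (e : Sym2 V → Fin (D + 3)), IsTotalColouring G c e := by
  obtain ⟨D0, hD0⟩ := main5_zero hReg hCore hNum k
  refine ⟨D0, fun D hD V _ G hdeg hsp => ?_⟩
  let φ : V ≃ Fin (Fintype.card V) := Fintype.equivFin V
  let G' : SimpleGraph (Fin (Fintype.card V)) := G.comap φ.symm
  have hadj : ∀ a b, G'.Adj a b ↔ G.Adj (φ.symm a) (φ.symm b) := fun a b => Iff.rfl
  have hnb : ∀ a, (nb G' a) = (univ.filter (fun v => G.Adj (φ.symm a) v)).map φ.toEmbedding := by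
    intro a
    ext b
    simp only [nb, mem_filter, mem_univ, true_and, mem_map, Equiv.coe_toEmbedding]
    constructor
    · intro h
      exact ⟨φ.symm b, h, by simp⟩
    · rintro ⟨v, h, rfl⟩
      rw [hadj]
      simpa using h
  obtain ⟨c, e, hce⟩ := hD0 D hD (Fin (Fintype.card V)) G'
    (by
      intro a
      rw [hnb, card_map]
      exact hdeg _)
    (by
      intro a
      refine le_trans ?_ (hsp (φ.symm a))
      norm_cast
      refine card_le_card_of_injOn (fun p => (φ.symm p.1, φ.symm p.2)) ?_ ?_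
      · rintro ⟨b, b'⟩ h
        simp only [hnb, mem_coe, mem_filter, mem_product, mem_map, Equiv.coe_toEmbedding,
          mem_univ, true_and] at h ⊢
        obtain ⟨⟨⟨v, h1, rfl⟩, ⟨w, h2, rfl⟩⟩, h3⟩ := h
        rw [hadj] at h3
        simp only [Equiv.symm_apply_apply] at h3 ⊢
        exact ⟨⟨h1, h2⟩, h3⟩
      · rintro ⟨b, b'⟩ _ ⟨b1, b1'⟩ _ h
        simp only [Prod.mk.injEq, EmbeddingLike.apply_eq_iff_eq] at h ⊢
        exact h)
  refine ⟨fun v => c (φ v), fun x => e (x.map φ), ?_, ?_, ?_⟩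
  · intro u v huv
    exact hce.vertex_vertex (φ u) (φ v) (by simpa [hadj] using huv)
  · intro u v w h1 h2 h3
    simp only [Sym2.map_mk]
    exact hce.edge_edge (φ u) (φ v) (φ w) (by simpa [hadj] using h1) (by simpa [hadj] using h2)
      (fun h => h3 (φ.injective h))
  · intro u v huv
    simp only [Sym2.map_mk]
    exact hce.vertex_edge (φ u) (φ v) (by simpa [hadj] using huv)

end Pool.TCS
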