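import Pool.Agent.Helper3.TCS.Stmts

/-!
# A Bernstein inequality for functions on a product space (helper65, after helper3)
-/

set_option autoImplicit false

namespace Pool.TCS

open Pool.TC Pool.TCM Finset
open scoped Classical

private theorem Bern_mean_sub {Ω : Type} [Fintype Ω] [Nonempty Ω] (F : Ω → ℝ) :
    ∑ ω, (F ω - mean F) = 0 := by
  have h : (Fintype.card Ω : ℝ) ≠ 0 := by exact_mod_cast Fintype.card_ne_zero
  rw [Finset.sum_sub_distrib, Finset.sum_const, Finset.card_univ, nsmul_eq_mul]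
  unfold mean
  field_simp
  ring

/-- one coordinate -/
private theorem Bern_one (A : Type) [Fintype A] [Nonempty A] (g : A → ℝ) (R : Finset A)
    (c s : ℝ) (hs : 0 ≤ s) (_hc : 0 ≤ c) (hsc : s * c ≤ 1) (h1 : ∀ a a', |g a - g a'| ≤ c)
    (h2 : ∀ a a', a ∉ R → a' ∉ R → g a = g a') :
    ∑ a, Real.exp (s * (g a - mean g)) ≤
      Fintype.card A * Real.exp ((s * c) ^ 2 * (R.card / Fintype.card A)) := by
  have hN : (0 : ℝ) < Fintype.card A := by exact_mod_cast Fintype.card_pos
  have hbd : ∀ a, |g a - mean g| ≤ c := by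
    intro a
    have e : g a - mean g = (∑ a', (g a - g a')) / Fintype.card A := by
      rw [Finset.sum_sub_distrib, Finset.sum_const, Finset.card_univ, nsmul_eq_mul]
      unfold mean
      field_simp
    rw [e, abs_div, abs_of_pos hN, div_le_iff₀ hN]
    calc |∑ a', (g a - g a')| ≤ ∑ a', |g a - g a'| := Finset.abs_sum_le_sum_abs _ _
      _ ≤ ∑ _a' : A, c := Finset.sum_le_sum fun a' _ => h1 a a'
      _ = c * Fintype.card A := by
          rw [Finset.sum_const, Finset.card_univ, nsmul_eq_mul, mul_comm]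
  have hvar : ∑ a, (g a - mean g) ^ 2 ≤ R.card * c ^ 2 := by
    by_cases hR : ∃ a0, a0 ∉ R
    · obtain ⟨a0, ha0⟩ := hR
      have e : ∑ a, (g a - mean g) ^ 2 ≤ ∑ a, (g a - g a0) ^ 2 := by
        have e1 : ∑ a, (g a - g a0) ^ 2 = ∑ a, (g a - mean g) ^ 2 +
            Fintype.card A * (mean g - g a0) ^ 2 := by
          have e2 : ∀ a, (g a - g a0) ^ 2 = (g a - mean g) ^ 2 +
              2 * (mean g - g a0) * (g a - mean g) + (mean g - g a0) ^ 2 := fun a => by ring
          simp only [e2]
          rw [Finset.sum_add_distrib, Finset.sum_add_distrib, ← Finset.mul_sum,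
            Bern_mean_sub, mul_zero, add_zero, Finset.sum_const, Finset.card_univ, nsmul_eq_mul]
        rw [e1]
        have := sq_nonneg (mean g - g a0)
        nlinarith
      refine e.trans ?_
      calc ∑ a, (g a - g a0) ^ 2 ≤ ∑ a, (if a ∈ R then c ^ 2 else 0) := by
            refine Finset.sum_le_sum fun a _ => ?_
            split_ifs with h
            · exact sq_le_sq' (neg_le_of_abs_le (h1 a a0)) (le_of_abs_le (h1 a a0))
            · rw [h2 a a0 h ha0, sub_self]
              norm_num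
        _ = R.card * c ^ 2 := by
            rw [Finset.sum_ite_mem, Finset.univ_inter, Finset.sum_const, nsmul_eq_mul]
    · push Not at hR
      have hR' : R = Finset.univ := Finset.eq_univ_iff_forall.2 hR
      rw [hR', Finset.card_univ]
      calc ∑ a, (g a - mean g) ^ 2 ≤ ∑ _a : A, c ^ 2 := by
            refine Finset.sum_le_sum fun a _ => ?_
            exact sq_le_sq' (neg_le_of_abs_le (hbd a)) (le_of_abs_le (hbd a))
        _ = Fintype.card A * c ^ 2 := by
            rw [Finset.sum_const, Finset.card_univ, nsmul_eq_mul]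
  have hexp : ∀ a, Real.exp (s * (g a - mean g)) ≤
      1 + s * (g a - mean g) + s ^ 2 * (g a - mean g) ^ 2 := by
    intro a
    have h3 : |s * (g a - mean g)| ≤ 1 := by
      rw [abs_mul, abs_of_nonneg hs]
      exact (mul_le_mul_of_nonneg_left (hbd a) hs).trans hsc
    have h4 := le_of_abs_le (Real.abs_exp_sub_one_sub_id_le h3)
    nlinarith
  have h5 : ∑ a, Real.exp (s * (g a - mean g)) ≤
      Fintype.card A + s ^ 2 * ∑ a, (g a - mean g) ^ 2 := by
    refine (Finset.sum_le_sum fun a _ => hexp a).trans (le_of_eq ?_)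
    rw [Finset.sum_add_distrib, Finset.sum_add_distrib, ← Finset.mul_sum, ← Finset.mul_sum,
      Bern_mean_sub, mul_zero, add_zero, Finset.sum_const, Finset.card_univ, nsmul_eq_mul, mul_one]
  refine h5.trans ?_
  have h6 := Real.add_one_le_exp ((s * c) ^ 2 * (R.card / Fintype.card A))
  have h7 : s ^ 2 * ∑ a, (g a - mean g) ^ 2 ≤ s ^ 2 * (R.card * c ^ 2) :=
    mul_le_mul_of_nonneg_left hvar (sq_nonneg s)
  calc (Fintype.card A : ℝ) + s ^ 2 * ∑ a, (g a - mean g) ^ 2
      ≤ Fintype.card A + s ^ 2 * (R.card * c ^ 2) := by linarith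
    _ = Fintype.card A * ((s * c) ^ 2 * (R.card / Fintype.card A) + 1) := by
        field_simp
        ring
    _ ≤ _ := mul_le_mul_of_nonneg_left h6 hN.le

private theorem Bern_cons {A : Type} [Fintype A] (n : ℕ) (H : (Fin (n + 1) → A) → ℝ) :
    ∑ ω, H ω = ∑ a, ∑ ω' : Fin n → A, H (Fin.cons a ω') := by
  rw [← (Fin.consEquiv (fun _ => A)).sum_comp H, Fintype.sum_prod_type]
  rfl

private theorem Bern_fin (A : Type) [Fintype A] [Nonempty A] (c s : ℝ) (hs : 0 ≤ s)
    (hc : 0 ≤ c) (hsc : s * c ≤ 1) (n : ℕ) : ∀ (F : (Fin n → A) → ℝ) (R : Fin n → Finset A),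
    (∀ t (ω ω' : Fin n → A), (∀ t', t' ≠ t → ω t' = ω' t') → |F ω - F ω'| ≤ c) →
    (∀ t (ω ω' : Fin n → A), (∀ t', t' ≠ t → ω t' = ω' t') → ω t ∉ R t → ω' t ∉ R t →
      F ω = F ω') →
    ∑ ω, Real.exp (s * (F ω - mean F)) ≤ Fintype.card (Fin n → A) *
      Real.exp ((s * c) ^ 2 * ((∑ t, ((R t).card : ℝ)) / Fintype.card A)) := by
  have hN : (0 : ℝ) < Fintype.card A := by exact_mod_cast Fintype.card_pos
  induction n with
  | zero =>
    intro F R _ _
    have h1 : ∀ ω, F ω - mean F = 0 := by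
      intro ω
      have h2 := Bern_mean_sub F
      rw [Fintype.sum_unique] at h2
      rw [Subsingleton.elim ω default]
      exact h2
    simp [h1]
  | succ n ih =>
    intro F R h1 h2
    set M : ℝ := (Fintype.card (Fin n → A) : ℝ) with hM
    have hM0 : 0 < M := by rw [hM]; exact_mod_cast Fintype.card_pos
    have hcard : (Fintype.card (Fin (n + 1) → A) : ℝ) = Fintype.card A * M := by
      rw [hM, Fintype.card_fun, Fintype.card_fun, Fintype.card_fin, Fintype.card_fin, pow_succ]
      push_cast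
      ring
    set g : A → ℝ := fun a => mean (fun ω' : Fin n → A => F (Fin.cons a ω')) with hg
    have hga : ∀ a, g a * M = ∑ ω' : Fin n → A, F (Fin.cons a ω') := by
      intro a
      rw [hg]
      unfold mean
      rw [← hM]
      field_simp
    have hmean : mean F = mean g := by
      unfold mean
      rw [Bern_cons n F, hcard]
      have e : ∑ a, ∑ ω' : Fin n → A, F (Fin.cons a ω') = (∑ a, g a) * M := by
        rw [Finset.sum_mul]
        exact Finset.sum_congr rfl fun a _ => (hga a).symm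
      rw [e]
      field_simp
    have hcons : ∀ (a a' : A) (ω' : Fin n → A) (t' : Fin (n + 1)), t' ≠ 0 →
        (Fin.cons a ω' : Fin (n + 1) → A) t' = (Fin.cons a' ω' : Fin (n + 1) → A) t' := by
      intro a a' ω' t' ht'
      obtain ⟨j, rfl⟩ := Fin.exists_succ_eq.2 ht'
      rw [Fin.cons_succ, Fin.cons_succ]
    have hg1 : ∀ a a', |g a - g a'| ≤ c := by
      intro a a'
      have e : (g a - g a') * M =
          ∑ ω' : Fin n → A, (F (Fin.cons a ω') - F (Fin.cons a' ω')) := by
        rw [sub_mul, hga, hga, Finset.sum_sub_distrib]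
      have e2 : |g a - g a'| * M ≤ c * M := by
        rw [← abs_of_pos hM0, ← abs_mul, abs_of_pos hM0, e]
        calc |∑ ω' : Fin n → A, (F (Fin.cons a ω') - F (Fin.cons a' ω'))|
            ≤ ∑ ω' : Fin n → A, |F (Fin.cons a ω') - F (Fin.cons a' ω')| :=
              Finset.abs_sum_le_sum_abs _ _
          _ ≤ ∑ _ω' : Fin n → A, c :=
              Finset.sum_le_sum fun ω' _ => h1 0 _ _ (hcons a a' ω')
          _ = c * M := by
              rw [Finset.sum_const, Finset.card_univ, nsmul_eq_mul, mul_comm]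
      exact le_of_mul_le_mul_right e2 hM0
    have hg2 : ∀ a a', a ∉ R 0 → a' ∉ R 0 → g a = g a' := by
      intro a a' ha ha'
      have e : g a * M = g a' * M := by
        rw [hga, hga]
        refine Finset.sum_congr rfl fun ω' _ => ?_
        refine h2 0 _ _ (hcons a a' ω') ?_ ?_
        · rw [Fin.cons_zero]; exact ha
        · rw [Fin.cons_zero]; exact ha'
      exact mul_right_cancel₀ hM0.ne' e
    have hih : ∀ a, ∑ ω' : Fin n → A, Real.exp (s * (F (Fin.cons a ω') - g a)) ≤
        M * Real.exp ((s * c) ^ 2 * ((∑ t : Fin n, ((R t.succ).card : ℝ)) / Fintype.card A)) := by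
      intro a
      refine ih (fun ω' => F (Fin.cons a ω')) (fun t => R t.succ) ?_ ?_
      · intro t ω ω' hω
        refine h1 t.succ _ _ fun t' ht' => ?_
        refine Fin.cases ?_ (fun j hj => ?_) t' ht'
        · intro _
          rw [Fin.cons_zero, Fin.cons_zero]
        · rw [Fin.cons_succ, Fin.cons_succ]
          exact hω j fun h => hj (by rw [h])
      · intro t ω ω' hω ha ha'
        refine h2 t.succ _ _ (fun t' ht' => ?_) ?_ ?_
        · refine Fin.cases ?_ (fun j hj => ?_) t' ht'
          · intro _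
            rw [Fin.cons_zero, Fin.cons_zero]
          · rw [Fin.cons_succ, Fin.cons_succ]
            exact hω j fun h => hj (by rw [h])
        · rw [Fin.cons_succ]; exact ha
        · rw [Fin.cons_succ]; exact ha'
    have hone := Bern_one A g (R 0) c s hs hc hsc hg1 hg2
    set E1 : ℝ := Real.exp ((s * c) ^ 2 *
      ((∑ t : Fin n, ((R t.succ).card : ℝ)) / Fintype.card A)) with hE1
    rw [Bern_cons n]
    calc ∑ a, ∑ ω' : Fin n → A, Real.exp (s * (F (Fin.cons a ω') - mean F))
        = ∑ a, Real.exp (s * (g a - mean g)) *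
            ∑ ω' : Fin n → A, Real.exp (s * (F (Fin.cons a ω') - g a)) := by
          refine Finset.sum_congr rfl fun a _ => ?_
          rw [Finset.mul_sum]
          refine Finset.sum_congr rfl fun ω' _ => ?_
          rw [← Real.exp_add, hmean]
          congr 1
          ring
      _ ≤ ∑ a, Real.exp (s * (g a - mean g)) * (M * E1) :=
          Finset.sum_le_sum fun a _ => mul_le_mul_of_nonneg_left (hih a) (Real.exp_pos _).le
      _ = (∑ a, Real.exp (s * (g a - mean g))) * (M * E1) := by rw [Finset.sum_mul]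
      _ ≤ (Fintype.card A * Real.exp ((s * c) ^ 2 * ((R 0).card / Fintype.card A))) *
            (M * E1) :=
          mul_le_mul_of_nonneg_right hone (mul_nonneg hM0.le (Real.exp_pos _).le)
      _ = _ := by
          rw [hcard, Fin.sum_univ_succ, add_div, mul_add, Real.exp_add]
          ring

private theorem Bern_exp (T A : Type) [Fintype T] [Fintype A] [Nonempty A] (c s : ℝ)
    (hs : 0 ≤ s) (hc : 0 ≤ c) (hsc : s * c ≤ 1) (F : (T → A) → ℝ) (R : T → Finset A)
    (h1 : ∀ t (ω ω' : T → A), (∀ t', t' ≠ t → ω t' = ω' t') → |F ω - F ω'| ≤ c)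
    (h2 : ∀ t (ω ω' : T → A), (∀ t', t' ≠ t → ω t' = ω' t') → ω t ∉ R t → ω' t ∉ R t →
      F ω = F ω') :
    ∑ ω, Real.exp (s * (F ω - mean F)) ≤ Fintype.card (T → A) *
      Real.exp ((s * c) ^ 2 * ((∑ t, ((R t).card : ℝ)) / Fintype.card A)) := by
  obtain ⟨e, -⟩ : ∃ e : T ≃ Fin (Fintype.card T), True := ⟨Fintype.equivFin T, trivial⟩
  set ee : (Fin (Fintype.card T) → A) ≃ (T → A) := Equiv.arrowCongr e.symm (Equiv.refl A) with hee
  have hee' : ∀ ω t, ee ω t = ω (e t) := fun ω t => rfl
  have hsum : ∀ H : (T → A) → ℝ, ∑ ω, H ω = ∑ ω', H (ee ω') := fun H => (ee.sum_comp H).symm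
  have hcard : Fintype.card (T → A) = Fintype.card (Fin (Fintype.card T) → A) :=
    (Fintype.card_congr ee).symm
  have hmean : mean F = mean (fun ω' => F (ee ω')) := by
    unfold mean
    rw [hsum F, hcard]
  have hR : ∑ t, ((R t).card : ℝ) = ∑ j, ((R (e.symm j)).card : ℝ) :=
    (e.symm.sum_comp fun t => ((R t).card : ℝ)).symm
  rw [hsum, hcard, hmean, hR]
  refine Bern_fin A c s hs hc hsc _ (fun ω' => F (ee ω')) (fun j => R (e.symm j)) ?_ ?_
  · intro j ω ω' hω
    refine h1 (e.symm j) _ _ fun t' ht' => ?_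
    rw [hee', hee']
    exact hω _ fun h => ht' (by rw [← h, Equiv.symm_apply_apply])
  · intro j ω ω' hω ha ha'
    refine h2 (e.symm j) _ _ (fun t' ht' => ?_) ?_ ?_
    · rw [hee', hee']
      exact hω _ fun h => ht' (by rw [← h, Equiv.symm_apply_apply])
    · rw [hee', Equiv.apply_symm_apply]
      exact ha
    · rw [hee', Equiv.apply_symm_apply]
      exact ha'

theorem thm_Bern : St_Bern := by
  intro T A _ _ _ F c P Lam R hc hL hLP h1 h2 h3
  have hN : (0 : ℝ) < Fintype.card A := by exact_mod_cast Fintype.card_pos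
  have hP : 0 < P := lt_of_lt_of_le hL hLP
  set σ : ℝ := Real.sqrt (Lam / P) with hσ
  have hσ0 : 0 ≤ σ := Real.sqrt_nonneg _
  have hσ2 : σ ^ 2 = Lam / P := Real.sq_sqrt (by positivity)
  have hσ1 : σ ≤ 1 := by
    rw [hσ]
    exact Real.sqrt_le_iff.2 ⟨zero_le_one, by rw [one_pow, div_le_one hP]; exact hLP⟩
  have hprod : σ * Real.sqrt (P * Lam) = Lam := by
    rw [hσ, ← Real.sqrt_mul (by positivity)]
    have : Lam / P * (P * Lam) = Lam ^ 2 := by
      field_simp
    rw [this, Real.sqrt_sq hL.le]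
  have hsc : σ / c * c = σ := by field_simp
  have hE := Bern_exp T A c (σ / c) (by positivity) hc.le (by rw [hsc]; exact hσ1) F R h1 h2
  rw [hsc, hσ2] at hE
  set B := univ.filter (fun ω => mean F + 3 * c * Real.sqrt (P * Lam) ≤ F ω) with hB
  have h4 : (B.card : ℝ) * Real.exp (3 * Lam) ≤ ∑ ω, Real.exp (σ / c * (F ω - mean F)) := by
    calc (B.card : ℝ) * Real.exp (3 * Lam) = ∑ _ω ∈ B, Real.exp (3 * Lam) := by
          rw [Finset.sum_const, nsmul_eq_mul]
      _ ≤ ∑ ω ∈ B, Real.exp (σ / c * (F ω - mean F)) := by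
          refine Finset.sum_le_sum fun ω hω => Real.exp_le_exp.2 ?_
          rw [hB, Finset.mem_filter] at hω
          have h5 : 3 * c * Real.sqrt (P * Lam) ≤ F ω - mean F := by linarith [hω.2]
          have h9 : σ / c * (3 * c * Real.sqrt (P * Lam)) = 3 * (σ * Real.sqrt (P * Lam)) := by
            field_simp
          calc 3 * Lam = σ / c * (3 * c * Real.sqrt (P * Lam)) := by rw [h9, hprod]
            _ ≤ σ / c * (F ω - mean F) := mul_le_mul_of_nonneg_left h5 (by positivity)
      _ ≤ _ := Finset.sum_le_sum_of_subset_of_nonneg (Finset.subset_univ _)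
          fun ω _ _ => (Real.exp_pos _).le
  have h5 : Lam / P * ((∑ t, ((R t).card : ℝ)) / Fintype.card A) ≤ Lam := by
    have h6 : (∑ t, ((R t).card : ℝ)) / Fintype.card A ≤ P := by
      rw [div_le_iff₀ hN]
      exact h3
    calc Lam / P * ((∑ t, ((R t).card : ℝ)) / Fintype.card A) ≤ Lam / P * P :=
          mul_le_mul_of_nonneg_left h6 (by positivity)
      _ = Lam := by field_simp
  have h6 : (B.card : ℝ) * Real.exp (3 * Lam) ≤ Fintype.card (T → A) * Real.exp Lam :=
    h4.trans (hE.trans (mul_le_mul_of_nonneg_left (Real.exp_le_exp.2 h5) (Nat.cast_nonneg _)))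
  have h7 : (B.card : ℝ) ≤ Fintype.card (T → A) * (Real.exp Lam * Real.exp (-(3 * Lam))) := by
    have h8 : Real.exp (3 * Lam) * Real.exp (-(3 * Lam)) = 1 := by
      rw [← Real.exp_add, add_neg_cancel, Real.exp_zero]
    calc (B.card : ℝ) = B.card * Real.exp (3 * Lam) * Real.exp (-(3 * Lam)) := by
          rw [mul_assoc, h8, mul_one]
      _ ≤ Fintype.card (T → A) * Real.exp Lam * Real.exp (-(3 * Lam)) :=
          mul_le_mul_of_nonneg_right h6 (Real.exp_pos _).le
      _ = _ := by ring
  refine h7.trans ?_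
  rw [mul_comm]
  apply mul_le_mul_of_nonneg_right _ (Nat.cast_nonneg _)
  rw [← Real.exp_add]
  apply Real.exp_le_exp.2
  linarith

end Pool.TCS
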