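import Pool.Agent.Helper3.TCS.Stmts
import Pool.Agent.Helper3.TCS.Bas

/-!
# TCS: module Box (helper25): the probability of a box, independence of disjoint sets of coordinates
-/

set_option autoImplicit false

namespace Pool.TCS

open Pool.TC Pool.TCM Finset
open scoped Classical

theorem Box_one (T A : Type) [Fintype T] [Fintype A] (B : T → Finset A) :
    mean (fun ω : T → A => if ∀ t, ω t ∈ B t then (1 : ℝ) else 0) =
      ∏ t, ((B t).card : ℝ) / Fintype.card A := by
  unfold mean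
  rw [Finset.prod_div_distrib, Finset.prod_const, Finset.card_univ]
  congr 1
  · rw [← Finset.sum_filter, Finset.sum_const, nsmul_eq_mul, mul_one]
    have h1 : (univ : Finset (T → A)).filter (fun ω => ∀ t, ω t ∈ B t) =
        Fintype.piFinset B := by
      ext ω
      simp [Fintype.mem_piFinset]
    rw [h1, Fintype.card_piFinset]
    push_cast
    rfl
  · rw [Fintype.card_pi, Finset.prod_const, Finset.card_univ]
    push_cast
    rfl

theorem Box_two (T A : Type) [Fintype T] [Fintype A] [Nonempty A] (Q : Finset T)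
    (f g : (T → A) → ℝ) (hf : ∀ ω ω' : T → A, (∀ t ∈ Q, ω t = ω' t) → f ω = f ω')
    (hg : ∀ ω ω' : T → A, (∀ t, t ∉ Q → ω t = ω' t) → g ω = g ω') :
    mean (fun ω => f ω * g ω) = mean f * mean g := by
  let e := Equiv.piEquivPiSubtypeProd (fun t => t ∈ Q) (fun _ : T => A)
  obtain ⟨z⟩ := ‹Nonempty A›
  let a0 : {t // t ∈ Q} → A := fun _ => z
  let b0 : {t // t ∉ Q} → A := fun _ => z
  have e1 : ∀ a b (t : T) (ht : t ∈ Q), e.symm (a, b) t = a ⟨t, ht⟩ := by
    intro a b t ht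
    show (if h : t ∈ Q then a ⟨t, h⟩ else b ⟨t, h⟩) = a ⟨t, ht⟩
    rw [dif_pos ht]
  have e2 : ∀ a b (t : T) (ht : t ∉ Q), e.symm (a, b) t = b ⟨t, ht⟩ := by
    intro a b t ht
    show (if h : t ∈ Q then a ⟨t, h⟩ else b ⟨t, h⟩) = b ⟨t, ht⟩
    rw [dif_neg ht]
  have hf' : ∀ a b, f (e.symm (a, b)) = f (e.symm (a, b0)) := fun a b =>
    hf _ _ fun t ht => by rw [e1 a b t ht, e1 a b0 t ht]
  have hg' : ∀ a b, g (e.symm (a, b)) = g (e.symm (a0, b)) := fun a b =>
    hg _ _ fun t ht => by rw [e2 a b t ht, e2 a0 b t ht]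
  have s1 : ∀ h : (T → A) → ℝ, ∑ ω, h ω = ∑ a, ∑ b, h (e.symm (a, b)) := by
    intro h
    rw [← Fintype.sum_prod_type', ← e.symm.sum_comp]
  have c1 : ((Fintype.card (T → A) : ℕ) : ℝ) = (Fintype.card ({t // t ∈ Q} → A) : ℝ) *
      (Fintype.card ({t // t ∉ Q} → A) : ℝ) := by
    have h1 := Fintype.card_congr e
    rw [Fintype.card_prod] at h1
    rw [h1]
    push_cast
    rfl
  have cA : (Fintype.card ({t // t ∈ Q} → A) : ℝ) ≠ 0 := by
    have : Nonempty ({t // t ∈ Q} → A) := ⟨a0⟩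
    exact_mod_cast Fintype.card_ne_zero
  have cB : (Fintype.card ({t // t ∉ Q} → A) : ℝ) ≠ 0 := by
    have : Nonempty ({t // t ∉ Q} → A) := ⟨b0⟩
    exact_mod_cast Fintype.card_ne_zero
  have t1 : ∑ ω, f ω * g ω = (∑ a, f (e.symm (a, b0))) * ∑ b, g (e.symm (a0, b)) := by
    rw [s1, Finset.sum_mul_sum]
    exact Finset.sum_congr rfl fun a _ => Finset.sum_congr rfl fun b _ => by rw [hf', hg']
  have t2 : ∑ ω, f ω = (Fintype.card ({t // t ∉ Q} → A) : ℝ) * ∑ a, f (e.symm (a, b0)) := by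
    rw [s1, Finset.mul_sum]
    refine Finset.sum_congr rfl fun a _ => ?_
    rw [Finset.sum_congr rfl fun b _ => hf' a b, Finset.sum_const, Finset.card_univ, nsmul_eq_mul]
  have t3 : ∑ ω, g ω = (Fintype.card ({t // t ∈ Q} → A) : ℝ) * ∑ b, g (e.symm (a0, b)) := by
    rw [s1, Finset.sum_congr rfl fun a _ => Finset.sum_congr rfl fun b _ => hg' a b,
      Finset.sum_const, Finset.card_univ, nsmul_eq_mul]
  unfold mean
  rw [t1, t2, t3, c1]
  field_simp

theorem thm_Box : St_Box := by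
  intro T A _ _ _
  exact ⟨Box_one T A, Box_two T A⟩

end Pool.TCS
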