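import Pool.Agent.Helper3.TCS.Stmts
import Pool.Agent.Helper3.TCS.Bas

/-!
# E3 (helper9)
-/

set_option autoImplicit false

namespace Pool.TCS

open Pool.TC Pool.TCM Finset
open scoped Classical

theorem e3_mean {Ω : Type} [Fintype Ω] (h : 0 < (Fintype.card Ω : ℝ)) (A B : ℝ) (f : Ω → ℝ) :
    mean (fun ω => A + B * f ω) = A + B * mean f := by
  unfold mean
  rw [Finset.sum_add_distrib, ← Finset.mul_sum, Finset.sum_const, Finset.card_univ, nsmul_eq_mul]
  generalize (∑ ω, f ω) = s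
  field_simp

theorem e3_alg (be al al3 c cl C l e1 X : ℝ) (hbe : 0 < be) (hl : 0 < l) (hC0 : 0 ≤ C)
    (hCl : C ≤ l) (hcl : cl = (C - 1) / l) (hc : c = be * C / l) (he0 : 0 ≤ e1) (he1 : e1 ≤ 1)
    (hX : e1 * (1 - c) = 1 - X) (hsq : al ^ 2 - be ^ 2 ≤ al3) (hal : be ^ 2 ≤ al ^ 2) :
    (1 - be - be * cl + al ^ 2 * cl) * e1 ≤ (1 - be) * (1 - X) + al3 + be / l := by
  rw [← hX]
  have h1 : (1 - be - be * cl + al ^ 2 * cl) * e1 - (1 - be) * (e1 * (1 - c)) =
      e1 * (be / l + (al ^ 2 - be ^ 2) * (C / l) - al ^ 2 / l) := by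
    rw [hcl, hc]
    field_simp
    ring
  have h2 : C / l ≤ 1 := by
    rw [div_le_one hl]
    exact hCl
  have h4 : 0 ≤ C / l := div_nonneg hC0 hl.le
  have h5 : (al ^ 2 - be ^ 2) * (C / l) ≤ al3 := by
    calc (al ^ 2 - be ^ 2) * (C / l) ≤ (al ^ 2 - be ^ 2) * 1 :=
          mul_le_mul_of_nonneg_left h2 (by linarith)
      _ ≤ al3 := by linarith
  have h6 : 0 ≤ al ^ 2 / l := by positivity
  have h7 : 0 ≤ be / l := by positivity
  have h8 : e1 * (be / l + (al ^ 2 - be ^ 2) * (C / l) - al ^ 2 / l) ≤ e1 * (be / l + al3) :=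
    mul_le_mul_of_nonneg_left (by linarith) he0
  have h9 : e1 * (be / l + al3) ≤ 1 * (be / l + al3) :=
    mul_le_mul_of_nonneg_right he1 (by linarith)
  linarith

theorem e3_count {V κ : Type} [Fintype V] [Fintype κ] {S : CS V κ} {U : Finset V}
    {L : V → Finset κ} {D l m K : ℕ} {x y q Lam : ℝ} {e : V → Fin l → κ}
    (h : Hyp S U L D l m K x y q Lam) (he : Enu U L l e) {w : V} (hw : w ∈ U) {a : κ}
    (ha : a ∈ L w) :
    (∑ t : V, (((univ : Finset (Fin l)).filter
      (fun i => t ∈ U ∧ t ≠ w ∧ S.r t (e t i) = S.r w a)).card : ℝ)) =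
      (Cv S U L (S.r w a)).card - 1 := by
  have hmem : (w, a) ∈ Cv S U L (S.r w a) := by
    simp only [Cv, mem_filter, mem_univ, true_and]
    exact ⟨hw, ha, trivial⟩
  have hcard : ∑ t : V, ((univ : Finset (Fin l)).filter
      (fun i => t ∈ U ∧ t ≠ w ∧ S.r t (e t i) = S.r w a)).card =
      ((Cv S U L (S.r w a)).erase (w, a)).card := by
    rw [← Finset.card_sigma]
    refine Finset.card_bij (fun p _ => (p.1, e p.1 p.2)) ?_ ?_ ?_
    · rintro ⟨t, i⟩ hp
      simp only [Finset.mem_sigma, mem_filter, mem_univ, true_and] at hp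
      simp only [mem_erase, Cv, mem_filter, mem_univ, true_and]
      refine ⟨?_, hp.1, (he.mem t hp.1 _).2 ⟨i, rfl⟩, hp.2.2⟩
      intro hcon
      exact hp.2.1 (Prod.mk.inj hcon).1
    · rintro ⟨t, i⟩ hp ⟨t', i'⟩ hp' heq
      simp only [Finset.mem_sigma, mem_filter, mem_univ, true_and] at hp hp'
      obtain ⟨h1, h2⟩ := Prod.mk.inj heq
      simp only at h1 h2
      subst h1
      have := he.inj t hp.1 h2
      rw [this]
    · rintro ⟨t, b⟩ hp
      simp only [mem_erase, Cv, mem_filter, mem_univ, true_and] at hp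
      obtain ⟨hne, htU, hb, hr⟩ := hp
      obtain ⟨i, hi⟩ := (he.mem t htU b).1 hb
      refine ⟨⟨t, i⟩, ?_, ?_⟩
      · simp only [Finset.mem_sigma, mem_filter, mem_univ, true_and]
        refine ⟨htU, ?_, ?_⟩
        · rintro rfl
          apply hne
          rw [h.inj2 t htU b hb a ha hr]
        · rw [hi]
          exact hr
      · simp only
        rw [hi]
  have h2 : (∑ t : V, (((univ : Finset (Fin l)).filter
      (fun i => t ∈ U ∧ t ≠ w ∧ S.r t (e t i) = S.r w a)).card : ℝ)) =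
      (((Cv S U L (S.r w a)).erase (w, a)).card : ℝ) := by
    rw [← hcard]
    push_cast
    rfl
  rw [h2, card_erase_of_mem hmem, Nat.cast_sub (card_pos.2 ⟨_, hmem⟩)]
  simp

theorem thm_E3 (hMean : St_Mean) : St_E3 := by
  intro V κ _ _ S U L D l m K x y q Lam e h he w hw a ha
  have : Nonempty (Fin l) := ⟨⟨0, h.l0⟩⟩
  have hm := (hMean V (Fin l) (fun t => (univ : Finset (Fin l)).filter
      (fun i => t ∈ U ∧ t ≠ w ∧ S.r t (e t i) = S.r w a))).1
  rw [e3_count h he hw ha, Fintype.card_fin] at hm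
  have hm2 : mean (fun ω : V → Fin l => ((KR S U (oc e ω) w (S.r w a)).card : ℝ)) =
      ((Cv S U L (S.r w a)).card - 1) / l := by
    refine Eq.trans (congrArg mean (funext fun ω => ?_)) hm
    refine congrArg Nat.cast (congrArg Finset.card ?_)
    ext t
    simp only [KR, oc, mem_filter, mem_univ, true_and]
  have hN : (0 : ℝ) < Fintype.card (V → Fin l) := by exact_mod_cast Fintype.card_pos
  have hlin : mean (fun ω : V → Fin l => Psi3 S U L l m K x (oc e ω) w a) =
      (1 - bet m K - bet m K * (((Cv S U L (S.r w a)).card - 1) / l) +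
        (1 / (m : ℝ)) ^ 2 * (((Cv S U L (S.r w a)).card - 1) / l)) *
        (1 - eR S U L l m K x (S.r w a)) := by
    rw [← hm2]
    have hk : ∀ ω : V → Fin l, Psi3 S U L l m K x (oc e ω) w a =
        (1 - bet m K) * (1 - eR S U L l m K x (S.r w a)) +
        ((1 / (m : ℝ)) ^ 2 - bet m K) * (1 - eR S U L l m K x (S.r w a)) *
          ((KR S U (oc e ω) w (S.r w a)).card : ℝ) := by
      intro ω
      unfold Psi3
      ring
    rw [funext hk, e3_mean hN]
    ring
  rw [hlin]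
  refine e3_alg (bet m K) (1 / (m : ℝ)) (4 * K * (1 / (m : ℝ)) ^ 3)
    (bet m K * (Cv S U L (S.r w a)).card / l) _ (Cv S U L (S.r w a)).card l _
    (bet m K * x / l) h.bet_pos h.lpos (Nat.cast_nonneg _) (h.Cv1 _) rfl rfl ?_ ?_
    (h.eR_mul _) h.sq_sub ?_
  · have := h.eR_le (S.r w a)
    linarith
  · have := h.eR_nonneg (S.r w a)
    linarith
  · exact pow_le_pow_left₀ h.bet_pos.le h.bet_le 2

end Pool.TCS
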