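import Pool.Agent.Helper3.TCS.Stmts
import Pool.Agent.Helper3.TCS.Bas

/-!
# I3: influence of the coordinates on the third sum (helper44)
-/

set_option autoImplicit false

namespace Pool.TCS

open Pool.TC Pool.TCM Finset
open scoped Classical

section

variable {V κ : Type} [Fintype V] [Fintype κ] {S : CS V κ} {U : Finset V} {L : V → Finset κ}
  {D l m K : ℕ} {x y q Lam : ℝ}

/-- the indicator of the influence of the coordinate `t` -/
private noncomputable def I3_ind (S : CS V κ) (U : Finset V) (a : κ) (t : V) (o : V → κ)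
    (w : V) : ℝ := if (t ∈ U ∧ t ≠ w ∧ S.r t (o t) = S.r w a) then 1 else 0

private theorem I3_ind_nonneg (a : κ) (t : V) (o : V → κ) (w : V) :
    0 ≤ I3_ind S U a t o w := by
  unfold I3_ind
  split_ifs <;> norm_num

private theorem I3_card (a : κ) (t : V) (o o' : V → κ) (h : ∀ s, s ≠ t → o s = o' s) (w : V) :
    ((KR S U o w (S.r w a)).card : ℝ) - ((KR S U o' w (S.r w a)).card : ℝ) =
      I3_ind S U a t o w - I3_ind S U a t o' w := by
  have hc : ∀ o : V → κ, ((KR S U o w (S.r w a)).card : ℝ) =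
      I3_ind S U a t o w + ∑ s ∈ univ.erase t,
        (if (s ∈ U ∧ s ≠ w ∧ S.r s (o s) = S.r w a) then (1 : ℝ) else 0) := by
    intro o
    unfold KR I3_ind
    rw [Finset.card_filter]
    push_cast
    rw [← Finset.add_sum_erase univ _ (mem_univ t)]
  rw [hc o, hc o']
  have h2 : ∑ s ∈ univ.erase t,
      (if (s ∈ U ∧ s ≠ w ∧ S.r s (o s) = S.r w a) then (1 : ℝ) else 0) =
      ∑ s ∈ univ.erase t,
        (if (s ∈ U ∧ s ≠ w ∧ S.r s (o' s) = S.r w a) then (1 : ℝ) else 0) := by
    apply Finset.sum_congr rfl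
    intro s hs
    rw [h s (Finset.ne_of_mem_erase hs)]
  rw [h2]
  ring

private theorem I3_psi (h : Hyp S U L D l m K x y q Lam) (a : κ) (t : V) (o o' : V → κ)
    (ho : ∀ s, s ≠ t → o s = o' s) (w : V) :
    ∃ c : ℝ, |c| ≤ 1 ∧ Psi3 S U L l m K x o w a - Psi3 S U L l m K x o' w a =
      c * (I3_ind S U a t o w - I3_ind S U a t o' w) := by
  refine ⟨(-bet m K + (1 / (m : ℝ)) ^ 2) * (1 - eR S U L l m K x (S.r w a)), ?_, ?_⟩
  · have h1 := h.bet_pos
    have h2 := h.bet_le'
    have h3 := h.al0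
    have h4 := h.al1
    have h5 := h.eR_nonneg (S.r w a)
    have h6 := h.eR_le (S.r w a)
    have h7 : (1 / (m : ℝ)) ^ 2 ≤ 1 := by nlinarith
    have h8 : 0 ≤ (1 / (m : ℝ)) ^ 2 := by positivity
    rw [abs_mul]
    have h9 : |(-bet m K + (1 / (m : ℝ)) ^ 2)| ≤ 1 := by
      rw [abs_le]
      constructor <;> linarith
    have h10 : |1 - eR S U L l m K x (S.r w a)| ≤ 1 := by
      rw [abs_le]
      constructor <;> linarith
    calc |(-bet m K + (1 / (m : ℝ)) ^ 2)| * |1 - eR S U L l m K x (S.r w a)|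
        ≤ 1 * 1 := mul_le_mul h9 h10 (abs_nonneg _) (by norm_num)
      _ = 1 := by norm_num
  · have h1 := I3_card (S := S) (U := U) a t o o' ho w
    unfold Psi3
    rw [← h1]
    ring

private theorem I3_sum_ind (a : κ) (t : V) (o : V → κ) (P : Finset V) :
    ∑ w ∈ P, I3_ind S U a t o w ≤ 1 := by
  unfold I3_ind
  rw [← Finset.sum_filter, Finset.sum_const, nsmul_eq_mul, mul_one]
  have : (P.filter (fun w => t ∈ U ∧ t ≠ w ∧ S.r t (o t) = S.r w a)).card ≤ 1 := by
    rw [Finset.card_le_one]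
    intro w hw w' hw'
    rw [Finset.mem_filter] at hw hw'
    exact S.inj w w' a (hw.2.2.2.symm.trans hw'.2.2.2)
  exact_mod_cast this

theorem thm_I3 : St_I3 := by
  intro V κ _ _ S U L D l m K x y q Lam e h he u hu a ha
  refine ⟨fun t => univ.filter (fun i => t ∈ U ∧ ∃ w ∈ Pn S U L u a, t ≠ w ∧
    S.r t (e t i) = S.r w a), ?_, ?_, ?_, ?_⟩
  · -- bounded differences
    intro t ω ω' hω
    have ho : ∀ s, s ≠ t → oc e ω s = oc e ω' s := by
      intro s hs
      unfold oc
      rw [hω s hs]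
    rw [← Finset.sum_sub_distrib]
    have h1 : |∑ w ∈ Pn S U L u a, (Psi3 S U L l m K x (oc e ω) w a -
        Psi3 S U L l m K x (oc e ω') w a)| ≤
        ∑ w ∈ Pn S U L u a, (I3_ind S U a t (oc e ω) w + I3_ind S U a t (oc e ω') w) := by
      refine (Finset.abs_sum_le_sum_abs _ _).trans (Finset.sum_le_sum fun w _ => ?_)
      obtain ⟨c, hc, hc2⟩ := I3_psi h a t (oc e ω) (oc e ω') ho w
      rw [hc2, abs_mul]
      have h2 := I3_ind_nonneg (S := S) (U := U) a t (oc e ω) w
      have h3 := I3_ind_nonneg (S := S) (U := U) a t (oc e ω') w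
      have h4 : |I3_ind S U a t (oc e ω) w - I3_ind S U a t (oc e ω') w| ≤
          I3_ind S U a t (oc e ω) w + I3_ind S U a t (oc e ω') w := by
        rw [abs_le]
        constructor <;> linarith
      calc |c| * |I3_ind S U a t (oc e ω) w - I3_ind S U a t (oc e ω') w|
          ≤ 1 * (I3_ind S U a t (oc e ω) w + I3_ind S U a t (oc e ω') w) :=
            mul_le_mul hc h4 (abs_nonneg _) (by norm_num)
        _ = _ := one_mul _
    rw [Finset.sum_add_distrib] at h1
    have h5 := I3_sum_ind (S := S) (U := U) a t (oc e ω) (Pn S U L u a)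
    have h6 := I3_sum_ind (S := S) (U := U) a t (oc e ω') (Pn S U L u a)
    linarith
  · -- the letters outside of `R t`
    intro t ω ω' hω hR hR'
    have ho : ∀ s, s ≠ t → oc e ω s = oc e ω' s := by
      intro s hs
      unfold oc
      rw [hω s hs]
    apply Finset.sum_congr rfl
    intro w hw
    obtain ⟨c, -, hc2⟩ := I3_psi h a t (oc e ω) (oc e ω') ho w
    have hz : ∀ ζ : V → Fin l, ζ t ∉ univ.filter (fun i => t ∈ U ∧ ∃ w ∈ Pn S U L u a, t ≠ w ∧
        S.r t (e t i) = S.r w a) → I3_ind S U a t (oc e ζ) w = 0 := by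
      intro ζ hζ
      unfold I3_ind
      rw [if_neg]
      rintro ⟨h1, h2, h3⟩
      apply hζ
      rw [Finset.mem_filter]
      exact ⟨mem_univ _, h1, w, hw, h2, h3⟩
    rw [hz ω hR, hz ω' hR', sub_zero, mul_zero] at hc2
    linarith
  · -- the total influence
    have hle : ∀ t : V, (univ.filter (fun i => t ∈ U ∧ ∃ w ∈ Pn S U L u a, t ≠ w ∧
        S.r t (e t i) = S.r w a)).card ≤ ∑ w ∈ Pn S U L u a,
          (univ.filter (fun i => t ∈ U ∧ S.r t (e t i) = S.r w a)).card := by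
      intro t
      refine (Finset.card_le_card ?_).trans Finset.card_biUnion_le
      intro i hi
      rw [Finset.mem_filter] at hi
      obtain ⟨-, h1, w, hw, h2, h3⟩ := hi
      rw [Finset.mem_biUnion]
      exact ⟨w, hw, Finset.mem_filter.2 ⟨mem_univ _, h1, h3⟩⟩
    have hcv : ∀ v : V, ∑ t, (univ.filter (fun i => t ∈ U ∧ S.r t (e t i) = v)).card ≤
        (Cv S U L v).card := by
      intro v
      rw [← Finset.card_sigma]
      apply Finset.card_le_card_of_injOn (fun p : (_ : V) × Fin l => (p.1, e p.1 p.2))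
      · intro p hp
        rw [Finset.mem_coe, Finset.mem_sigma, Finset.mem_filter] at hp
        obtain ⟨-, -, h1, h2⟩ := hp
        unfold Cv
        rw [Finset.mem_coe, Finset.mem_filter]
        exact ⟨mem_univ _, h1, (he.mem p.1 h1 _).2 ⟨p.2, rfl⟩, h2⟩
      · rintro ⟨t, i⟩ hp ⟨t', i'⟩ hp' heq
        rw [Finset.mem_coe, Finset.mem_sigma, Finset.mem_filter] at hp
        obtain ⟨-, -, h1, h2⟩ := hp
        simp only [Prod.mk.injEq] at heq
        obtain ⟨h3, h4⟩ := heq
        subst h3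
        have := he.inj t h1 h4
        subst this
        rfl
    have h1 : ∑ t : V, (univ.filter (fun i => t ∈ U ∧ ∃ w ∈ Pn S U L u a, t ≠ w ∧
        S.r t (e t i) = S.r w a)).card ≤ ∑ w ∈ Pn S U L u a, (Cv S U L (S.r w a)).card := by
      refine (Finset.sum_le_sum fun t _ => hle t).trans ?_
      rw [Finset.sum_comm]
      exact Finset.sum_le_sum fun w _ => hcv (S.r w a)
    have h2 : (∑ t : V, ((univ.filter (fun i => t ∈ U ∧ ∃ w ∈ Pn S U L u a, t ≠ w ∧
        S.r t (e t i) = S.r w a)).card : ℝ)) ≤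
        ∑ w ∈ Pn S U L u a, ((Cv S U L (S.r w a)).card : ℝ) := by exact_mod_cast h1
    have h3 : (∑ w ∈ Pn S U L u a, ((Cv S U L (S.r w a)).card : ℝ)) ≤
        (Pn S U L u a).card * l := by
      rw [← nsmul_eq_mul]
      exact Finset.sum_le_card_nsmul _ _ _ fun w _ => h.Cv1 (S.r w a)
    have h4 := h.Pn2 hu ha
    have h5 := h.lpos
    nlinarith
  · -- locality
    rintro t ⟨i, hi⟩
    rw [Finset.mem_filter] at hi
    obtain ⟨-, h1, w, hw, h2, h3⟩ := hi
    unfold Pn at hw
    rw [Finset.mem_filter] at hw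
    exact ⟨S.r w a, ⟨w, ⟨u, rfl, Or.inr (Or.inl hw.2.2.1)⟩, Or.inr (Or.inr (Or.inl ⟨a, rfl⟩))⟩,
      Or.inr (Or.inr (Or.inr ⟨e t i, h3⟩))⟩

end

end Pool.TCS
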