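import Pool.Agent.Helper3.TCS.Stmts
import Pool.Agent.Helper3.TCS.Bas
import Pool.Agent.Helper45.Vu.IT

/-!
# The final transversal
-/

set_option autoImplicit false

namespace Pool.TCS

open Pool.TC Pool.TCM Finset
open scoped Classical

/-- the conflict graph on the pairs (vertex, option) -/
def ITgraph {V κ : Type} (S : CS V κ) : SimpleGraph (V × κ) where
  Adj p q := p.1 ≠ q.1 ∧ (S.r p.1 p.2 = S.r q.1 q.2 ∨ (S.adj p.1 q.1 ∧ p.2 = q.2))
  symm := ⟨fun _ _ h => ⟨h.1.symm, h.2.elim (fun e => Or.inl e.symm)
    (fun e => Or.inr ⟨S.symm _ _ e.1, e.2.symm⟩)⟩⟩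
  loopless := ⟨fun _ h => h.1 rfl⟩

theorem thm_IT : St_IT := by
  intro V κ _ _ _ S U L l hl hL hC hP
  rcases U.eq_empty_or_nonempty with rfl | ⟨u0, hu0⟩
  · exact ⟨fun _ => Classical.arbitrary κ, fun u hu => absurd hu (notMem_empty u),
      fun u hu => absurd hu (notMem_empty u), fun u hu => absurd hu (notMem_empty u)⟩
  have hL0 : (L u0).Nonempty := by
    rw [← card_pos, hL u0 hu0]
    exact hl
  obtain ⟨a0, ha0⟩ := hL0
  have h8 : 8 ≤ l := by
    have h1 : 0 < (Cv S U L (S.r u0 a0)).card := by
      apply card_pos.2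
      refine ⟨(u0, a0), ?_⟩
      unfold Cv
      rw [mem_filter]
      exact ⟨mem_univ _, hu0, ha0, rfl⟩
    have h2 := hC (S.r u0 a0)
    omega
  have hinj : ∀ u : V, Function.Injective (fun a : κ => (u, a)) := by
    intro u a b h
    exact (Prod.mk.inj h).2
  obtain ⟨f, hf, hf2⟩ := Pool.Agent.Helper45.Vu.exists_transversal (ITgraph S)
    (fun u : V => (L u).image (fun a => (u, a))) (u0, a0) (l / 4) (by omega) U
    (by
      intro i hi
      rw [card_image_of_injective _ (hinj i), hL i hi]
      omega)
    (by
      intro i hi x hx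
      obtain ⟨a, ha, rfl⟩ := mem_image.1 hx
      have hd : ∑ j ∈ U.erase i, (((L j).image (fun a => (j, a))).filter
          (fun y => (ITgraph S).Adj (i, a) y)).card =
          ((U.erase i).biUnion (fun j => ((L j).image (fun a => (j, a))).filter
          (fun y => (ITgraph S).Adj (i, a) y))).card := by
        rw [card_biUnion]
        intro j _ k _ hjk
        rw [Function.onFun, disjoint_left]
        intro y hy hz
        obtain ⟨b, _, hb⟩ := mem_image.1 (mem_filter.1 hy).1
        obtain ⟨c, _, hc⟩ := mem_image.1 (mem_filter.1 hz).1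
        apply hjk
        have h1 : (j, b).1 = (k, c).1 := by rw [hb, hc]
        exact h1
      have hs : ((U.erase i).biUnion (fun j => ((L j).image (fun a => (j, a))).filter
          (fun y => (ITgraph S).Adj (i, a) y))) ⊆
          Cv S U L (S.r i a) ∪ (Pn S U L i a).image (fun w => (w, a)) := by
        intro y hy
        obtain ⟨j, hj, hy⟩ := mem_biUnion.1 hy
        obtain ⟨hy1, hy2⟩ := mem_filter.1 hy
        obtain ⟨b, hb, rfl⟩ := mem_image.1 hy1
        have hjU := (mem_erase.1 hj).2
        rw [mem_union]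
        rcases hy2.2 with h | h
        · left
          unfold Cv
          rw [mem_filter]
          exact ⟨mem_univ _, hjU, hb, h.symm⟩
        · right
          have hab : a = b := h.2
          subst hab
          apply mem_image_of_mem
          unfold Pn
          rw [mem_filter]
          exact ⟨mem_univ _, hjU, h.1, hb⟩
      have h1 := card_le_card hs
      have h2 := card_union_le (Cv S U L (S.r i a)) ((Pn S U L i a).image (fun w => (w, a)))
      have h3 : ((Pn S U L i a).image (fun w => (w, a))).card ≤ (Pn S U L i a).card :=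
        card_image_le
      have h4 := hC (S.r i a)
      have h5 := hP i hi a ha
      have h6 : ((U.erase i).biUnion (fun j => ((L j).image (fun a => (j, a))).filter
          (fun y => (ITgraph S).Adj (i, a) y))).card ≤ l / 4 := by omega
      refine le_trans (le_of_eq ?_) h6
      exact hd)
  have hfu : ∀ u ∈ U, (f u).2 ∈ L u ∧ (f u).1 = u := by
    intro u hu
    obtain ⟨a, ha, h⟩ := mem_image.1 (hf u hu)
    rw [← h]
    exact ⟨ha, rfl⟩
  refine ⟨fun u => (f u).2, fun u hu => (hfu u hu).1, ?_, ?_⟩
  · intro u hu w hw huw h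
    apply hf2 u hu w hw huw
    refine ⟨?_, Or.inl ?_⟩
    · rw [(hfu u hu).2, (hfu w hw).2]
      exact huw
    · rw [(hfu u hu).2, (hfu w hw).2]
      exact h
  · intro u hu w hw huw h
    have hne : u ≠ w := by
      intro h1
      rw [h1] at huw
      exact S.irr w huw
    apply hf2 u hu w hw hne
    refine ⟨?_, Or.inr ⟨?_, h⟩⟩
    · rw [(hfu u hu).2, (hfu w hw).2]
      exact hne
    · rw [(hfu u hu).2, (hfu w hw).2]
      exact huw

end Pool.TCS
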