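import Pool.Agent.Helper3.TCS.Stmts
import Pool.Agent.Helper3.TCS.Bas

/-!
ITER: iteration of the step until the transversal exists.
-/

set_option autoImplicit false
set_option linter.unusedSectionVars false

namespace Pool.TCS

open Pool.TC Pool.TCM Finset
open scoped Classical

section iter

variable {V κ : Type} [Fintype V] [Fintype κ] [Nonempty κ] {S : CS V κ}

/-- the gap is large: the transversal exists -/
private theorem Iter_end (hIT : St_IT) {U : Finset V} {L : V → Finset κ} {l : ℕ} {g : ℝ}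
    (hl : 0 < l) (hcard : ∀ u ∈ U, (L u).card = l)
    (hC : ∀ v, ((Cv S U L v).card : ℝ) ≤ (1 - g) * l)
    (hP : ∀ u ∈ U, ∀ a ∈ L u, ((Pn S U L u a).card : ℝ) ≤ (1 - g) * l) (hg : 7 / 8 ≤ g) :
    Solv S U L := by
  have hl' : (0 : ℝ) ≤ l := Nat.cast_nonneg l
  have h1 : (1 - g) * l ≤ (l : ℝ) / 8 := by nlinarith
  refine hIT V κ S U L l hl hcard (fun v => ?_) (fun u hu a ha => ?_)
  · have h2 := (hC v).trans h1
    have h3 : (8 : ℝ) * (Cv S U L v).card ≤ l := by linarith
    exact_mod_cast h3
  · have h2 := (hP u hu a ha).trans h1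
    have h3 : (8 : ℝ) * (Pn S U L u a).card ≤ l := by linarith
    exact_mod_cast h3

/-- the numerical inequality -/
private theorem Iter_num {b g E g' B : ℝ} (hb0 : 0 < b) (hb1 : b ≤ 1 / 192) (hg0 : 0 < g)
    (hg1 : g ≤ 7 / 8) (hE0 : 0 ≤ E) (hE : 8 * E ≤ g * b / 16) (hg' : g' ≤ g * (1 + b / 16))
    (hB : B = (1 - b * (1 - g)) * (1 - b * (1 - g)) - E) :
    1 - 3 * b ≤ B ∧ (1 - g) * (1 - b) * (1 - b * (1 - g)) + E ≤ (1 - g') * B := by
  have hgb : 0 < g * b := mul_pos hg0 hb0
  have hq0 : 0 ≤ b * (1 - g) := mul_nonneg hb0.le (by linarith)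
  have hq1 : b * (1 - g) ≤ b := by nlinarith
  have hgb' : g * b ≤ b := by nlinarith
  have hB1 : 1 - 3 * b ≤ B := by
    rw [hB]
    nlinarith [mul_nonneg hq0 hq0]
  refine ⟨hB1, ?_⟩
  have hB0 : 0 ≤ B := by linarith
  have h1 : (1 - g - g * b / 16) * B ≤ (1 - g') * B :=
    mul_le_mul_of_nonneg_right (by nlinarith) hB0
  refine le_trans ?_ h1
  set t : ℝ := 1 - b * (1 - g) with ht
  have ht1 : t ≤ 1 := by rw [ht]; linarith
  have ht0 : 191 / 192 ≤ t := by rw [ht]; linarith
  have e1 : (1 - g - g * b / 16) * B - ((1 - g) * (1 - b) * t + E) =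
      g * b * ((1 - g) * t) - g * b / 16 * (t * t) - E * (1 + (1 - g) - g * b / 16) := by
    rw [hB, ht]
    ring
  have h2 : 1 / 8 * t ≤ (1 - g) * t := mul_le_mul_of_nonneg_right (by linarith) (by linarith)
  have h3 : g * b * (1 / 8 * t) ≤ g * b * ((1 - g) * t) := mul_le_mul_of_nonneg_left h2 hgb.le
  have h4 : t * t ≤ t := by nlinarith
  have h5 : g * b / 16 * (t * t) ≤ g * b / 16 * t := mul_le_mul_of_nonneg_left h4 (by positivity)
  have h6 : E * (1 + (1 - g) - g * b / 16) ≤ E * 2 := mul_le_mul_of_nonneg_left (by linarith) hE0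
  have h7 : g * b / 16 * (191 / 192) ≤ g * b / 16 * t := mul_le_mul_of_nonneg_left ht0 (by positivity)
  linarith

private theorem Iter_bet {m K : ℕ} (hmK : 8 * K ≤ m) (hK : 24 ≤ K) :
    0 < bet m K ∧ bet m K ≤ 1 / 192 := by
  have hm : 192 ≤ m := by omega
  have hm' : (192 : ℝ) ≤ m := by exact_mod_cast hm
  have hm0 : (0 : ℝ) < m := by linarith
  have h1 : 1 / (m : ℝ) ≤ 1 / 192 := one_div_le_one_div_of_le (by norm_num) hm'
  have h2 : 0 < 1 / (m : ℝ) := one_div_pos.2 hm0
  have h3 : 0 < 1 - 1 / (m : ℝ) := by linarith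
  unfold bet
  refine ⟨by positivity, ?_⟩
  exact (mul_le_of_le_one_right h2.le (pow_le_one₀ h3.le (by linarith))).trans h1

private theorem Iter_Err {m K : ℕ} {Lam a b : ℝ} (hL : 0 < Lam) (ha : 0 < a) (hab : a ≤ b) :
    Err m K Lam b ≤ Err m K Lam a := by
  unfold Err
  have h1 : Real.sqrt (Lam / b) ≤ Real.sqrt (Lam / a) :=
    Real.sqrt_le_sqrt (div_le_div_of_nonneg_left hL.le ha hab)
  have h2 : 64 * (K : ℝ) ^ 2 * Real.sqrt (Lam / b) ≤ 64 * (K : ℝ) ^ 2 * Real.sqrt (Lam / a) :=
    mul_le_mul_of_nonneg_left h1 (by positivity)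
  linarith

private theorem Iter_Err0 {m K : ℕ} {Lam a : ℝ} : 0 ≤ Err m K Lam a := by
  unfold Err
  have := Real.sqrt_nonneg (Lam / a)
  positivity

end iter

theorem thm_Iter (hStep : St_Step) (hIT : St_IT) : St_Iter := by
  intro V κ _ _ _ S n
  induction n with
  | zero =>
    intro U L D l m K L0 g Lam hdeg hcol hcard hinj hC hP hg0 hg1 hmK hK hLam hLK hexp hL0 hLL
      hErr hn hln
    rw [pow_zero, mul_one] at hn hln
    have hl : 0 < l := by
      have h1 : L0 ≤ l := by exact_mod_cast hln
      omega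
    exact Iter_end hIT hl hcard hC hP hn
  | succ n ih =>
    intro U L D l m K L0 g Lam hdeg hcol hcard hinj hC hP hg0 hg1 hmK hK hLam hLK hexp hL0 hLL
      hErr hn hln
    obtain ⟨hb0, hb1⟩ := Iter_bet hmK hK
    have hL0' : (0 : ℝ) < L0 := by exact_mod_cast hL0
    have hc0 : 0 < 1 - 3 * bet m K := by linarith
    have hc1 : 1 - 3 * bet m K ≤ 1 := by linarith
    have hl' : (L0 : ℝ) ≤ l := by
      refine hln.trans ?_
      exact mul_le_of_le_one_right (Nat.cast_nonneg l) (pow_le_one₀ hc0.le hc1)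
    have hlp : (0 : ℝ) < l := lt_of_lt_of_le hL0' hl'
    have hl : 0 < l := by exact_mod_cast hlp
    by_cases hg : 7 / 8 ≤ g
    · exact Iter_end hIT hl hcard hC hP hg
    · push Not at hg
      set b : ℝ := bet m K with hb
      set E : ℝ := Err m K Lam l with hE
      have hE0 : 0 ≤ E := Iter_Err0
      have hEle : E ≤ Err m K Lam L0 := Iter_Err hLam hL0' hl'
      have hE8 : 8 * E ≤ g * b / 16 := by linarith
      have hqx : b * ((1 - g) * l) / l = b * (1 - g) := by
        field_simp
      have hH : Hyp S U L D l m K ((1 - g) * l) ((1 - g) * l) (b * (1 - g)) Lam :=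
        { deg := hdeg
          col := hcol
          card := hcard
          inj2 := hinj
          hC := hC
          hP := hP
          hq := by
            intro u hu a ha
            unfold pp
            have h1 := npair_nonneg S (Pn S U L u a)
            have h2 : 0 ≤ bet m K ^ 2 * npair S (Pn S U L u a) / (l : ℝ) ^ 2 := by positivity
            have h3 : bet m K * (Pn S U L u a).card / l ≤ b * (1 - g) := by
              rw [← hqx, ← hb]
              exact div_le_div_of_nonneg_right (mul_le_mul_of_nonneg_left (hP u hu a ha) hb0.le)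
                hlp.le
            linarith
          l0 := hl
          x0 := mul_nonneg (by linarith) hlp.le
          x1 := by nlinarith
          y0 := mul_nonneg (by linarith) hlp.le
          y2 := by nlinarith
          q0 := mul_nonneg hb0.le (by linarith)
          q1 := by nlinarith
          mK := hmK
          K24 := hK
          L0 := hLam
          LK := hLK
          Ll := hLL.trans hl'
          hexp := hexp }
      obtain ⟨U', L', hUU, hLL', hLc, hCv, hPn, hSolv⟩ := hStep V κ S U L D l m K _ _ _ Lam hH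
      rw [← hb, hqx, ← hE] at hLc
      rw [← hb, ← hE] at hCv
      rw [← hb, hqx, ← hE] at hPn
      set B : ℝ := (1 - b * (1 - g)) * (1 - b * (1 - g)) - E with hB
      set g' : ℝ := min (g * (1 + b / 16)) (7 / 8) with hg'
      obtain ⟨hB1, hB2⟩ := Iter_num hb0 hb1 hg0 hg.le hE0 hE8 (min_le_left _ _ : g' ≤ _) hB
      have hBpos : 0 < B := by linarith
      have hlB : 0 ≤ (l : ℝ) * B := by positivity
      set l' : ℕ := ⌈(l : ℝ) * B⌉₊ with hl'def
      have hl'ge : (l : ℝ) * B ≤ l' := Nat.le_ceil _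
      -- trimming
      have htrim : ∀ u, ∃ A : Finset κ, A ⊆ L' u ∧ (u ∈ U' → A.card = l') := by
        intro u
        by_cases hu : u ∈ U'
        · have h1 : l' ≤ (L' u).card := by
            rw [hl'def, Nat.ceil_le]
            exact hLc u hu
          obtain ⟨A, hA1, hA2⟩ := Finset.exists_subset_card_eq h1
          exact ⟨A, hA1, fun _ => hA2⟩
        · exact ⟨∅, empty_subset _, fun h => absurd h hu⟩
      choose L'' hL1 hL2 using htrim
      have hCsub : ∀ v, Cv S U' L'' v ⊆ Cv S U' L' v := by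
        intro v p hp
        unfold Cv at hp ⊢
        rw [mem_filter] at hp ⊢
        exact ⟨hp.1, hp.2.1, hL1 _ hp.2.2.1, hp.2.2.2⟩
      have hPsub : ∀ u a, Pn S U' L'' u a ⊆ Pn S U' L' u a := by
        intro u a w hw
        unfold Pn at hw ⊢
        rw [mem_filter] at hw ⊢
        exact ⟨hw.1, hw.2.1, hw.2.2.1, hL1 _ hw.2.2.2⟩
      have hg'1 : g' ≤ 7 / 8 := min_le_right _ _
      have hgg : g ≤ g' := by
        rw [hg']
        refine le_min ?_ hg.le
        nlinarith
      have hfin : (l : ℝ) * ((1 - g) * (1 - b) * (1 - b * (1 - g)) + E) ≤ (1 - g') * l' := by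
        calc (l : ℝ) * ((1 - g) * (1 - b) * (1 - b * (1 - g)) + E)
            ≤ l * ((1 - g') * B) := mul_le_mul_of_nonneg_left hB2 hlp.le
          _ = (1 - g') * (l * B) := by ring
          _ ≤ (1 - g') * l' := mul_le_mul_of_nonneg_left hl'ge (by linarith)
      apply hSolv
      have hres : Solv S U' L'' := by
        refine ih U' L'' D l' m K L0 g' Lam hdeg hcol (fun u hu => hL2 u hu) ?_ ?_ ?_
          (lt_of_lt_of_le hg0 hgg) hg'1 hmK hK hLam hLK hexp hL0 hLL ?_ ?_ ?_
        · intro u hu a ha a' ha' h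
          exact hinj u (hUU hu) a (hLL' u hu (hL1 u ha)) a' (hLL' u hu (hL1 u ha')) h
        · intro v
          have h1 : ((Cv S U' L'' v).card : ℝ) ≤ (Cv S U' L' v).card := by
            exact_mod_cast card_le_card (hCsub v)
          refine h1.trans ((hCv v).trans (le_trans (le_of_eq ?_) hfin))
          ring
        · intro u hu a ha
          have h1 : ((Pn S U' L'' u a).card : ℝ) ≤ (Pn S U' L' u a).card := by
            exact_mod_cast card_le_card (hPsub u a)
          refine h1.trans ((hPn u hu a (hL1 u ha)).trans (le_trans (le_of_eq ?_) hfin))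
          ring
        · refine hErr.trans ?_
          rw [← hb]
          have : g * b ≤ g' * b := mul_le_mul_of_nonneg_right hgg hb0.le
          linarith
        · rw [← hb]
          have hp1 : (1 : ℝ) ≤ 1 + b / 16 := by linarith
          rcases le_total (g * (1 + b / 16)) (7 / 8) with h1 | h1
          · rw [hg', min_eq_left h1]
            calc (7 / 8 : ℝ) ≤ g * (1 + b / 16) ^ (n + 1) := hn
              _ = g * (1 + b / 16) * (1 + b / 16) ^ n := by rw [pow_succ]; ring
          · rw [hg', min_eq_right h1]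
            have h2 : (1 : ℝ) ≤ (1 + b / 16) ^ n := one_le_pow₀ hp1
            linarith
        · rw [← hb]
          have h1 : (0 : ℝ) ≤ (1 - 3 * b) ^ n := pow_nonneg hc0.le n
          calc (L0 : ℝ) ≤ l * (1 - 3 * b) ^ (n + 1) := hln
            _ = l * (1 - 3 * b) * (1 - 3 * b) ^ n := by rw [pow_succ]; ring
            _ ≤ l * B * (1 - 3 * b) ^ n :=
              mul_le_mul_of_nonneg_right (mul_le_mul_of_nonneg_left hB1 hlp.le) h1
            _ ≤ l' * (1 - 3 * b) ^ n := mul_le_mul_of_nonneg_right hl'ge h1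
      obtain ⟨c, hc1', hc2, hc3⟩ := hres
      exact ⟨c, fun u hu => hL1 u (hc1' u hu), hc2, hc3⟩

end Pool.TCS
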