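import Pool.Agent.Helper3.TCS.Stmts
import Pool.Agent.Helper3.TCS.Bas

/-!
# TCS: module J3 (helper25): bounded differences of `G3`
-/

set_option autoImplicit false
set_option linter.unusedSectionVars false

namespace Pool.TCS

open Pool.TC Pool.TCM Finset
open scoped Classical

section

variable {V κ : Type} [Fintype V] [Fintype κ] {S : CS V κ} {U : Finset V} {L : V → Finset κ}
  {D l m K : ℕ} {x y q Lam : ℝ} {o : V → κ}

omit [Fintype V] [Fintype κ] in
theorem J3_near_mono {n : ℕ} {u w : V} (h : near S n u w) : near S (n + 1) u w :=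
  ⟨w, h, Or.inl rfl⟩

omit [Fintype V] [Fintype κ] in
theorem J3_near_le {n n' : ℕ} (hn : n ≤ n') {u w : V} (h : near S n u w) : near S n' u w := by
  induction hn with
  | refl => exact h
  | step _ ih => exact J3_near_mono ih

omit [Fintype V] [Fintype κ] in
theorem J3_near_stp {n : ℕ} {u v w : V} (h : near S n u v) (h' : stp S v w) :
    near S (n + 1) u w := ⟨v, h, h'⟩

omit [Fintype V] [Fintype κ] in
theorem J3_conf_symm {u w : V} (h : conf S o u w) : conf S o w u :=
  ⟨h.1.symm, h.2.imp (fun h => ⟨S.symm _ _ h.1, h.2.symm⟩) Eq.symm⟩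

omit [Fintype V] [Fintype κ] in
theorem J3_conf_near {n : ℕ} {u v w : V} (h : near S n u v) (hc : conf S o v w) :
    near S (n + 2) u w := by
  rcases hc.2 with h1 | h1
  · exact J3_near_mono (J3_near_stp h (Or.inr (Or.inl h1.1)))
  · exact J3_near_stp (J3_near_stp h (Or.inr (Or.inr (Or.inl ⟨o v, rfl⟩))))
      (Or.inr (Or.inr (Or.inr ⟨o w, h1.symm⟩)))

/-- the vertices in conflict with `v` -/
noncomputable def J3_C (S : CS V κ) (U : Finset V) (o : V → κ) (v : V) : Finset V :=
  univ.filter (fun w => w ∈ U ∧ conf S o v w)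

theorem J3_C_card (hG : Good S U L l m K x y q Lam o) {v : V} (hv : v ∈ U) :
    (J3_C S U o v).card ≤ 2 * K := by
  have h1 : J3_C S U o v ⊆ KP S U o v (o v) ∪
      univ.filter (fun w => w ∈ U ∧ S.r w (o w) = S.r v (o v)) := by
    intro w hw
    unfold J3_C at hw
    rw [mem_filter] at hw
    obtain ⟨-, hwU, -, h2⟩ := hw
    rw [mem_union]
    rcases h2 with h2 | h2
    · left
      unfold KP
      rw [mem_filter]
      exact ⟨mem_univ _, hwU, h2.1, h2.2.symm⟩
    · right
      rw [mem_filter]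
      exact ⟨mem_univ _, hwU, h2.symm⟩
  have h2 := (card_le_card h1).trans (card_union_le _ _)
  have h3 := hG.kP v hv (o v) (hG.mem v hv)
  have h4 := hG.kR (S.r v (o v))
  omega

/-- the vertices whose status matters -/
noncomputable def J3_M (S : CS V κ) (U : Finset V) (L : V → Finset κ) (o : V → κ) (u : V) (a : κ) :
    Finset V :=
  Pn S U L u a ∪ (Pn S U L u a).biUnion (fun w => KR S U o w (S.r w a))

theorem J3_M_U {u : V} {a : κ} {w : V} (h : w ∈ J3_M S U L o u a) : w ∈ U := by
  unfold J3_M at h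
  rw [mem_union, mem_biUnion] at h
  rcases h with h | ⟨v, _, h⟩
  · unfold Pn at h
    exact (mem_filter.1 h).2.1
  · unfold KR at h
    exact (mem_filter.1 h).2.1

theorem J3_M_near {u : V} {a : κ} {w : V} (h : w ∈ J3_M S U L o u a) : near S 3 u w := by
  unfold J3_M at h
  rw [mem_union, mem_biUnion] at h
  have h0 : ∀ v ∈ Pn S U L u a, near S 1 u v := by
    intro v hv
    unfold Pn at hv
    exact J3_near_stp (n := 0) rfl (Or.inr (Or.inl (mem_filter.1 hv).2.2.1))
  rcases h with h | ⟨v, hv, h⟩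
  · exact J3_near_le (by norm_num) (h0 w h)
  · unfold KR at h
    exact J3_near_stp (J3_near_stp (h0 v hv) (Or.inr (Or.inr (Or.inl ⟨a, rfl⟩))))
      (Or.inr (Or.inr (Or.inr ⟨o w, (mem_filter.1 h).2.2.2⟩)))

theorem J3_M_card (hH : Hyp S U L D l m K x y q Lam) (hG : Good S U L l m K x y q Lam o)
    {u : V} (hu : u ∈ U) {a : κ} (ha : a ∈ L u) :
    ((J3_M S U L o u a).card : ℝ) ≤ 2 * l * (K + 1) := by
  have h1 : (J3_M S U L o u a).card ≤ (Pn S U L u a).card + (Pn S U L u a).card * K := by
    unfold J3_M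
    refine (card_union_le _ _).trans (Nat.add_le_add_left ?_ _)
    refine card_biUnion_le_card_mul _ _ _ fun w _ => ?_
    refine le_trans (card_le_card ?_) (hG.kR (S.r w a))
    intro t ht
    unfold KR at ht
    rw [mem_filter] at ht ⊢
    exact ⟨mem_univ _, ht.2.1, ht.2.2.2⟩
  have h2 : ((J3_M S U L o u a).card : ℝ) ≤
      ((Pn S U L u a).card : ℝ) + ((Pn S U L u a).card : ℝ) * K := by
    exact_mod_cast h1
  have h3 := hH.Pn2 hu ha
  have h4 : (0 : ℝ) ≤ K := Nat.cast_nonneg _
  nlinarith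

/-- changes of the status -/
theorem J3_ret {ω ω' : Lab V κ → Fin (m ^ (2 * K + 1))} {t : Lab V κ}
    (h : ∀ t', t' ≠ t → ω t' = ω' t') {v : V}
    (hv : ¬ (retv S U o m K ω v ↔ retv S U o m K ω' v)) :
    v ∈ U ∧ (t = Sum.inl (Sum.inl v) ∨ t = Sum.inl (Sum.inr v) ∨
      ∃ w ∈ U, conf S o v w ∧ t = Sum.inl (Sum.inl w)) := by
  by_contra hc
  apply hv
  by_cases hU : v ∈ U
  · have hc' : ¬ (t = Sum.inl (Sum.inl v) ∨ t = Sum.inl (Sum.inr v) ∨
      ∃ w ∈ U, conf S o v w ∧ t = Sum.inl (Sum.inl w)) := fun h' => hc ⟨hU, h'⟩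
    have h1 : ω (Sum.inl (Sum.inl v)) = ω' (Sum.inl (Sum.inl v)) :=
      h _ fun h' => hc' (Or.inl h'.symm)
    have h2 : ω (Sum.inl (Sum.inr v)) = ω' (Sum.inl (Sum.inr v)) :=
      h _ fun h' => hc' (Or.inr (Or.inl h'.symm))
    have h3 : ∀ w ∈ U, conf S o v w → ω (Sum.inl (Sum.inl w)) = ω' (Sum.inl (Sum.inl w)) :=
      fun w hw hcw => h _ fun h' => hc' (Or.inr (Or.inr ⟨w, hw, hcw, h'.symm⟩))
    unfold retv actv goodv
    rw [h1, h2]
    constructor
    · rintro ⟨k1, k2, k3, k4⟩
      refine ⟨k1, k2, k3, fun w hw hcw => ?_⟩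
      rw [← h3 w hw hcw]
      exact k4 w hw hcw
    · rintro ⟨k1, k2, k3, k4⟩
      refine ⟨k1, k2, k3, fun w hw hcw => ?_⟩
      rw [h3 w hw hcw]
      exact k4 w hw hcw
  · unfold retv
    constructor
    · rintro ⟨k1, -⟩
      exact absurd k1 hU
    · rintro ⟨k1, -⟩
      exact absurd k1 hU

theorem J3_card_diff {α : Type} (A : Finset α) (P P' : α → Prop) :
    |((A.filter P).card : ℝ) - ((A.filter P').card : ℝ)| ≤
      ((A.filter (fun w => ¬ (P w ↔ P' w))).card : ℝ) := by
  have h1 : ∀ R R' : α → Prop, (A.filter R).card ≤ (A.filter R').card +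
      (A.filter (fun w => ¬ (R w ↔ R' w))).card := by
    intro R R'
    refine le_trans (card_le_card ?_) (card_union_le _ _)
    intro w hw
    rw [mem_filter] at hw
    rw [mem_union, mem_filter, mem_filter]
    by_cases h : R' w
    · exact Or.inl ⟨hw.1, h⟩
    · exact Or.inr ⟨hw.1, fun h' => h (h'.1 hw.2)⟩
  have h2 := h1 P P'
  have h3 := h1 P' P
  have h4 : (A.filter (fun w => ¬ (P' w ↔ P w))) = A.filter (fun w => ¬ (P w ↔ P' w)) := by
    refine filter_congr fun w _ => ?_
    rw [Iff.comm (a := P' w)]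
  rw [h4] at h3
  rw [abs_le]
  constructor
  · have h5 : ((A.filter P').card : ℝ) ≤ ((A.filter P).card : ℝ) +
        ((A.filter (fun w => ¬ (P w ↔ P' w))).card : ℝ) := by exact_mod_cast h3
    linarith
  · have h5 : ((A.filter P).card : ℝ) ≤ ((A.filter P').card : ℝ) +
        ((A.filter (fun w => ¬ (P w ↔ P' w))).card : ℝ) := by exact_mod_cast h2
    linarith

/-- the property of a term -/
def J3_P (S : CS V κ) (U : Finset V) (L : V → Finset κ) (l m K : ℕ) (x : ℝ) (o : V → κ) (a : κ)
    (ω : Lab V κ → Fin (m ^ (2 * K + 1))) (w : V) : Prop :=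
  ¬ retv S U o m K ω w ∧ (∀ t ∈ KR S U o w (S.r w a), ¬ retv S U o m K ω t) ∧
    ¬ bkv S U L l m K x ω (S.r w a)

theorem J3_G3 (u : V) (a : κ) (ω : Lab V κ → Fin (m ^ (2 * K + 1))) :
    G3 S U L l m K x o u a ω =
      (((Pn S U L u a).filter (fun w => J3_P S U L l m K x o a ω w)).card : ℝ) := by
  unfold G3
  congr 2
  ext w
  rw [mem_filter, mem_filter]
  exact Iff.rfl

/-- the changed terms -/
theorem J3_diff (u : V) (a : κ) (ω ω' : Lab V κ → Fin (m ^ (2 * K + 1))) :
    |G3 S U L l m K x o u a ω - G3 S U L l m K x o u a ω'| ≤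
      2 * (((J3_M S U L o u a).filter
        (fun v => ¬ (retv S U o m K ω v ↔ retv S U o m K ω' v))).card : ℝ) +
      (((Pn S U L u a).filter (fun w => ¬ (bkv S U L l m K x ω (S.r w a) ↔
        bkv S U L l m K x ω' (S.r w a)))).card : ℝ) := by
  rw [J3_G3, J3_G3]
  refine (J3_card_diff _ _ _).trans ?_
  have h1 : (Pn S U L u a).filter (fun w => ¬ (J3_P S U L l m K x o a ω w ↔
      J3_P S U L l m K x o a ω' w)) ⊆
      ((Pn S U L u a).filter (fun v => ¬ (retv S U o m K ω v ↔ retv S U o m K ω' v)) ∪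
      (Pn S U L u a).filter (fun w => ∃ t ∈ KR S U o w (S.r w a),
        ¬ (retv S U o m K ω t ↔ retv S U o m K ω' t))) ∪
      (Pn S U L u a).filter (fun w => ¬ (bkv S U L l m K x ω (S.r w a) ↔
        bkv S U L l m K x ω' (S.r w a))) := by
    intro w hw
    rw [mem_filter] at hw
    rw [mem_union, mem_union, mem_filter, mem_filter, mem_filter]
    by_contra hc
    push Not at hc
    obtain ⟨⟨c1, c2⟩, c3⟩ := hc
    apply hw.2
    unfold J3_P
    rw [c1 hw.1, c3 hw.1]
    have c4 : (∀ t ∈ KR S U o w (S.r w a), ¬ retv S U o m K ω t) ↔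
        ∀ t ∈ KR S U o w (S.r w a), ¬ retv S U o m K ω' t := by
      refine forall₂_congr fun t ht => ?_
      rw [c2 hw.1 t ht]
    rw [c4]
  have h2 := (card_le_card h1).trans ((card_union_le _ _).trans
    (Nat.add_le_add_right (card_union_le _ _) _))
  have h3 : ((Pn S U L u a).filter (fun v => ¬ (retv S U o m K ω v ↔ retv S U o m K ω' v))).card ≤
      ((J3_M S U L o u a).filter
        (fun v => ¬ (retv S U o m K ω v ↔ retv S U o m K ω' v))).card := by
    refine card_le_card (filter_subset_filter _ ?_)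
    unfold J3_M
    exact subset_union_left
  have h4 : ((Pn S U L u a).filter (fun w => ∃ t ∈ KR S U o w (S.r w a),
        ¬ (retv S U o m K ω t ↔ retv S U o m K ω' t))).card ≤
      ((J3_M S U L o u a).filter
        (fun v => ¬ (retv S U o m K ω v ↔ retv S U o m K ω' v))).card := by
    have c1 : ∀ w ∈ (Pn S U L u a).filter (fun w => ∃ t ∈ KR S U o w (S.r w a),
        ¬ (retv S U o m K ω t ↔ retv S U o m K ω' t)), ∃ t ∈ KR S U o w (S.r w a),
        ¬ (retv S U o m K ω t ↔ retv S U o m K ω' t) := fun w hw => (mem_filter.1 hw).2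
    choose! f hf1 hf2 using c1
    refine card_le_card_of_injOn f ?_ ?_
    · intro w hw
      have hw' : w ∈ (Pn S U L u a).filter (fun w => ∃ t ∈ KR S U o w (S.r w a),
        ¬ (retv S U o m K ω t ↔ retv S U o m K ω' t)) := hw
      have hgoal : f w ∈ (J3_M S U L o u a).filter
          (fun v => ¬ (retv S U o m K ω v ↔ retv S U o m K ω' v)) := by
        rw [mem_filter]
        refine ⟨?_, hf2 w hw'⟩
        unfold J3_M
        rw [mem_union, mem_biUnion]
        exact Or.inr ⟨w, (mem_filter.1 hw').1, hf1 w hw'⟩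
      exact hgoal
    · intro w hw w' hw' heq
      have e1 := hf1 w hw
      have e2 := hf1 w' hw'
      unfold KR at e1 e2
      have e3 := (mem_filter.1 e1).2.2.2
      have e4 := (mem_filter.1 e2).2.2.2
      rw [← heq, e3] at e4
      exact S.inj _ _ a e4
  have h5 : (((Pn S U L u a).filter (fun w => ¬ (J3_P S U L l m K x o a ω w ↔
      J3_P S U L l m K x o a ω' w))).card : ℝ) ≤
      ((2 * ((J3_M S U L o u a).filter
        (fun v => ¬ (retv S U o m K ω v ↔ retv S U o m K ω' v))).card +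
      ((Pn S U L u a).filter (fun w => ¬ (bkv S U L l m K x ω (S.r w a) ↔
        bkv S U L l m K x ω' (S.r w a)))).card : ℕ) : ℝ) := by
    exact_mod_cast (by omega)
  push_cast at h5
  exact h5

theorem J3_eq {α : Type} (M : Finset α) (v : α) :
    ((M.filter (fun w => w = v)).card : ℝ) ≤ if v ∈ M then (1 : ℝ) else 0 := by
  split_ifs with h
  · have h1 : (M.filter (fun w => w = v)).card ≤ 1 := by
      rw [card_le_one]
      intro w hw w' hw'
      rw [(mem_filter.1 hw).2, (mem_filter.1 hw').2]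
    exact_mod_cast h1
  · have h1 : M.filter (fun w => w = v) = ∅ := by
      rw [filter_eq_empty_iff]
      intro w hw hn
      rw [hn] at hw
      exact h hw
    rw [h1]
    simp

/-- the bounds for the differences -/
noncomputable def J3_cc (S : CS V κ) (U : Finset V) (L : V → Finset κ) (o : V → κ) (u : V)
    (a : κ) : Lab V κ → ℝ
  | Sum.inl (Sum.inl v) => if v ∈ U then
      2 * (((J3_M S U L o u a).filter (fun w => w = v ∨ conf S o w v)).card : ℝ) else 0
  | Sum.inl (Sum.inr v) => if v ∈ J3_M S U L o u a then 2 else 0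
  | Sum.inr (Sum.inl v) => if ∃ w ∈ Pn S U L u a, S.r w a = v then 1 else 0
  | Sum.inr (Sum.inr _) => 0

theorem J3_bd (u : V) (a : κ) (t : Lab V κ) (ω ω' : Lab V κ → Fin (m ^ (2 * K + 1)))
    (h : ∀ t', t' ≠ t → ω t' = ω' t') :
    |G3 S U L l m K x o u a ω - G3 S U L l m K x o u a ω'| ≤ J3_cc S U L o u a t := by
  refine (J3_diff u a ω ω').trans ?_
  have hbk : ∀ v : V, t ≠ Sum.inr (Sum.inl v) →
      (bkv S U L l m K x ω v ↔ bkv S U L l m K x ω' v) := by
    intro v hv
    unfold bkv
    rw [h _ hv.symm]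
  have hbk0 : (∀ v : V, t ≠ Sum.inr (Sum.inl v)) →
      ((Pn S U L u a).filter (fun w => ¬ (bkv S U L l m K x ω (S.r w a) ↔
        bkv S U L l m K x ω' (S.r w a)))).card = 0 := by
    intro hv
    rw [card_eq_zero, filter_eq_empty_iff]
    intro w _ hn
    exact hn (hbk _ (hv _))
  rcases t with (v | v) | (v | p)
  · rw [hbk0 fun _ => by simp]
    simp only [Nat.cast_zero, add_zero]
    show _ ≤ if v ∈ U then
      2 * (((J3_M S U L o u a).filter (fun w => w = v ∨ conf S o w v)).card : ℝ) else 0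
    split_ifs with hv
    · have h1 : (J3_M S U L o u a).filter
          (fun v => ¬ (retv S U o m K ω v ↔ retv S U o m K ω' v)) ⊆
          (J3_M S U L o u a).filter (fun w => w = v ∨ conf S o w v) := by
        intro w hw
        rw [mem_filter] at hw ⊢
        refine ⟨hw.1, ?_⟩
        obtain ⟨-, h2⟩ := J3_ret h hw.2
        rcases h2 with h2 | h2 | ⟨w', -, h3, h2⟩
        · have h4 : v = w := by simpa using h2
          exact Or.inl h4.symm
        · exact absurd h2 (by simp)
        · have h4 : v = w' := by simpa using h2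
          rw [h4]
          exact Or.inr h3
      have h2 : (((J3_M S U L o u a).filter
          (fun v => ¬ (retv S U o m K ω v ↔ retv S U o m K ω' v))).card : ℝ) ≤
          (((J3_M S U L o u a).filter (fun w => w = v ∨ conf S o w v)).card : ℝ) := by
        exact_mod_cast card_le_card h1
      linarith
    · have h1 : (J3_M S U L o u a).filter
          (fun v => ¬ (retv S U o m K ω v ↔ retv S U o m K ω' v)) = ∅ := by
        rw [filter_eq_empty_iff]
        intro w hw hn
        obtain ⟨hwU, h2⟩ := J3_ret h hn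
        rcases h2 with h2 | h2 | ⟨w', hw', h3, h2⟩
        · have h4 : v = w := by simpa using h2
          rw [h4] at hv
          exact hv hwU
        · exact absurd h2 (by simp)
        · have h4 : v = w' := by simpa using h2
          rw [h4] at hv
          exact hv hw'
      rw [h1]
      simp
  · rw [hbk0 fun _ => by simp]
    simp only [Nat.cast_zero, add_zero]
    show _ ≤ if v ∈ J3_M S U L o u a then (2 : ℝ) else 0
    have h1 : (J3_M S U L o u a).filter
        (fun v => ¬ (retv S U o m K ω v ↔ retv S U o m K ω' v)) ⊆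
        (J3_M S U L o u a).filter (fun w => w = v) := by
      intro w hw
      rw [mem_filter] at hw ⊢
      refine ⟨hw.1, ?_⟩
      obtain ⟨-, h2⟩ := J3_ret h hw.2
      rcases h2 with h2 | h2 | ⟨w', -, h3, h2⟩
      · exact absurd h2 (by simp)
      · have h4 : v = w := by simpa using h2
        exact h4.symm
      · exact absurd h2 (by simp)
    have h2 : (((J3_M S U L o u a).filter
        (fun v => ¬ (retv S U o m K ω v ↔ retv S U o m K ω' v))).card : ℝ) ≤
        (((J3_M S U L o u a).filter (fun w => w = v)).card : ℝ) := by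
      exact_mod_cast card_le_card h1
    have h3 := h2.trans (J3_eq (J3_M S U L o u a) v)
    split_ifs at h3 ⊢ <;> linarith
  · have h1 : (J3_M S U L o u a).filter
        (fun v => ¬ (retv S U o m K ω v ↔ retv S U o m K ω' v)) = ∅ := by
      rw [filter_eq_empty_iff]
      intro w hw hn
      obtain ⟨hwU, h2⟩ := J3_ret h hn
      rcases h2 with h2 | h2 | ⟨w', hw', h3, h2⟩ <;> exact absurd h2 (by simp)
    rw [h1, card_empty]
    simp only [Nat.cast_zero, mul_zero, zero_add]
    show _ ≤ if ∃ w ∈ Pn S U L u a, S.r w a = v then (1 : ℝ) else 0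
    have h2 : ∀ w ∈ (Pn S U L u a).filter (fun w => ¬ (bkv S U L l m K x ω (S.r w a) ↔
        bkv S U L l m K x ω' (S.r w a))), S.r w a = v := by
      intro w hw
      by_contra hn
      refine (mem_filter.1 hw).2 (hbk _ ?_)
      intro h'
      have h4 : v = S.r w a := by simpa using h'
      exact hn h4.symm
    split_ifs with hv
    · have h3 : ((Pn S U L u a).filter (fun w => ¬ (bkv S U L l m K x ω (S.r w a) ↔
        bkv S U L l m K x ω' (S.r w a)))).card ≤ 1 := by
        rw [card_le_one]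
        intro w hw w' hw'
        exact S.inj _ _ a ((h2 w hw).trans (h2 w' hw').symm)
      exact_mod_cast h3
    · have h3 : (Pn S U L u a).filter (fun w => ¬ (bkv S U L l m K x ω (S.r w a) ↔
        bkv S U L l m K x ω' (S.r w a))) = ∅ := by
        rw [eq_empty_iff_forall_notMem]
        intro w hw
        exact hv ⟨w, (mem_filter.1 hw).1, h2 w hw⟩
      rw [h3]
      simp
  · have h1 : (J3_M S U L o u a).filter
        (fun v => ¬ (retv S U o m K ω v ↔ retv S U o m K ω' v)) = ∅ := by
      rw [filter_eq_empty_iff]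
      intro w hw hn
      obtain ⟨hwU, h2⟩ := J3_ret h hn
      rcases h2 with h2 | h2 | ⟨w', hw', h3, h2⟩ <;> exact absurd h2 (by simp)
    rw [hbk0 fun _ => by simp, h1]
    show _ ≤ (0 : ℝ)
    simp

theorem J3_nn (u : V) (a : κ) (t : Lab V κ) : 0 ≤ J3_cc S U L o u a t := by
  rcases t with (v | v) | (v | p)
  · show 0 ≤ if v ∈ U then
      2 * (((J3_M S U L o u a).filter (fun w => w = v ∨ conf S o w v)).card : ℝ) else 0
    split_ifs <;> positivity
  · show 0 ≤ if v ∈ J3_M S U L o u a then (2 : ℝ) else 0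
    split_ifs <;> positivity
  · show 0 ≤ if ∃ w ∈ Pn S U L u a, S.r w a = v then (1 : ℝ) else 0
    split_ifs <;> positivity
  · exact le_refl _

theorem J3_loc (u : V) (a : κ) (t : Lab V κ) (ht : J3_cc S U L o u a t ≠ 0) :
    near S 5 u (pos t) := by
  rcases t with (v | v) | (v | p)
  · have h1 : (if v ∈ U then
      2 * (((J3_M S U L o u a).filter (fun w => w = v ∨ conf S o w v)).card : ℝ) else 0) ≠ 0 := ht
    show near S 5 u v
    split_ifs at h1 with hv
    · have h2 : ((J3_M S U L o u a).filter (fun w => w = v ∨ conf S o w v)).Nonempty := by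
        rw [nonempty_iff_ne_empty]
        intro h3
        rw [h3] at h1
        simp at h1
      obtain ⟨w, hw⟩ := h2
      rw [mem_filter] at hw
      rcases hw.2 with h3 | h3
      · rw [← h3]
        exact J3_near_le (by norm_num) (J3_M_near hw.1)
      · exact J3_conf_near (J3_M_near hw.1) h3
    · exact absurd rfl h1
  · have h1 : (if v ∈ J3_M S U L o u a then (2 : ℝ) else 0) ≠ 0 := ht
    show near S 5 u v
    split_ifs at h1 with hv
    · exact J3_near_le (by norm_num) (J3_M_near hv)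
    · exact absurd rfl h1
  · have h1 : (if ∃ w ∈ Pn S U L u a, S.r w a = v then (1 : ℝ) else 0) ≠ 0 := ht
    show near S 5 u v
    split_ifs at h1 with hv
    · obtain ⟨w, hw, rfl⟩ := hv
      unfold Pn at hw
      have h2 : near S 1 u w := J3_near_stp (n := 0) rfl (Or.inr (Or.inl (mem_filter.1 hw).2.2.1))
      exact J3_near_le (n := 2) (by norm_num)
        (J3_near_stp h2 (Or.inr (Or.inr (Or.inl ⟨a, rfl⟩))))
    · exact absurd rfl h1
  · exact absurd rfl ht

theorem J3_sum (hH : Hyp S U L D l m K x y q Lam) (hG : Good S U L l m K x y q Lam o)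
    {u : V} (hu : u ∈ U) {a : κ} (ha : a ∈ L u) :
    (∑ t, J3_cc S U L o u a t ^ 2) ≤ 450 * (K : ℝ) ^ 4 * l := by
  have hM := J3_M_card hH hG hu ha
  have hK := hH.Kpos
  have hl := hH.lpos
  have s1 : ∑ v : V, J3_cc S U L o u a (Sum.inl (Sum.inl v)) ^ 2 ≤
      4 * (2 * K + 1) ^ 2 * ((J3_M S U L o u a).card : ℝ) := by
    have c1 : ∀ v : V, J3_cc S U L o u a (Sum.inl (Sum.inl v)) ^ 2 ≤
        4 * (2 * K + 1) * ∑ w ∈ J3_M S U L o u a,
          if v ∈ U ∧ (w = v ∨ conf S o w v) then (1 : ℝ) else 0 := by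
      intro v
      show (if v ∈ U then
        2 * (((J3_M S U L o u a).filter (fun w => w = v ∨ conf S o w v)).card : ℝ) else 0) ^ 2 ≤ _
      by_cases hv : v ∈ U
      · rw [if_pos hv]
        have c2 : ∑ w ∈ J3_M S U L o u a, (if v ∈ U ∧ (w = v ∨ conf S o w v) then (1 : ℝ) else 0) =
            (((J3_M S U L o u a).filter (fun w => w = v ∨ conf S o w v)).card : ℝ) := by
          rw [← sum_filter, sum_const, nsmul_eq_mul, mul_one]
          congr 2
          ext w
          rw [mem_filter, mem_filter]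
          constructor
          · rintro ⟨k1, -, k2⟩
            exact ⟨k1, k2⟩
          · rintro ⟨k1, k2⟩
            exact ⟨k1, hv, k2⟩
        rw [c2]
        have c3 : ((J3_M S U L o u a).filter (fun w => w = v ∨ conf S o w v)).card ≤ 2 * K + 1 := by
          have c4 : (J3_M S U L o u a).filter (fun w => w = v ∨ conf S o w v) ⊆
              insert v (J3_C S U o v) := by
            intro w hw
            rw [mem_filter] at hw
            rw [mem_insert]
            rcases hw.2 with k | k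
            · exact Or.inl k
            · right
              unfold J3_C
              rw [mem_filter]
              exact ⟨mem_univ _, J3_M_U hw.1, J3_conf_symm k⟩
          have c5 := (card_le_card c4).trans (card_insert_le _ _)
          have c6 := J3_C_card hG hv
          omega
        have c7 : (((J3_M S U L o u a).filter (fun w => w = v ∨ conf S o w v)).card : ℝ) ≤
            2 * K + 1 := by exact_mod_cast c3
        have c8 : (0 : ℝ) ≤ ((J3_M S U L o u a).filter (fun w => w = v ∨ conf S o w v)).card :=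
          Nat.cast_nonneg _
        nlinarith
      · rw [if_neg hv, zero_pow two_ne_zero]
        exact mul_nonneg (by positivity) (sum_nonneg fun w _ => by split_ifs <;> norm_num)
    refine (sum_le_sum fun v _ => c1 v).trans ?_
    rw [← mul_sum, sum_comm]
    have c2 : ∀ w ∈ J3_M S U L o u a,
        ∑ v : V, (if v ∈ U ∧ (w = v ∨ conf S o w v) then (1 : ℝ) else 0) ≤ 2 * K + 1 := by
      intro w hw
      rw [← sum_filter, sum_const, nsmul_eq_mul, mul_one]
      have c4 : (univ : Finset V).filter (fun v => v ∈ U ∧ (w = v ∨ conf S o w v)) ⊆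
          insert w (J3_C S U o w) := by
        intro v hv
        rw [mem_filter] at hv
        rw [mem_insert]
        rcases hv.2.2 with k | k
        · exact Or.inl k.symm
        · right
          unfold J3_C
          rw [mem_filter]
          exact ⟨mem_univ _, hv.2.1, k⟩
      have c5 := (card_le_card c4).trans (card_insert_le _ _)
      have c6 := J3_C_card hG (J3_M_U hw)
      have c7 : ((univ : Finset V).filter (fun v => v ∈ U ∧ (w = v ∨ conf S o w v))).card ≤
          2 * K + 1 := by omega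
      exact_mod_cast c7
    have c3 := sum_le_sum c2
    rw [sum_const, nsmul_eq_mul] at c3
    have c4 : (0 : ℝ) ≤ 4 * (2 * K + 1) := by positivity
    calc 4 * (2 * (K : ℝ) + 1) * ∑ w ∈ J3_M S U L o u a, ∑ v : V,
          (if v ∈ U ∧ (w = v ∨ conf S o w v) then (1 : ℝ) else 0)
        ≤ 4 * (2 * (K : ℝ) + 1) * (((J3_M S U L o u a).card : ℝ) * (2 * K + 1)) :=
          mul_le_mul_of_nonneg_left c3 c4
      _ = _ := by ring
  have s2 : ∑ v : V, J3_cc S U L o u a (Sum.inl (Sum.inr v)) ^ 2 =
      4 * ((J3_M S U L o u a).card : ℝ) := by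
    have c1 : ∀ v : V, J3_cc S U L o u a (Sum.inl (Sum.inr v)) ^ 2 =
        if v ∈ J3_M S U L o u a then (4 : ℝ) else 0 := by
      intro v
      show (if v ∈ J3_M S U L o u a then (2 : ℝ) else 0) ^ 2 = _
      split_ifs <;> norm_num
    rw [sum_congr rfl fun v _ => c1 v, sum_ite_mem, univ_inter, sum_const, nsmul_eq_mul]
    ring
  have s3 : ∑ v : V, J3_cc S U L o u a (Sum.inr (Sum.inl v)) ^ 2 ≤
      ((Pn S U L u a).card : ℝ) := by
    have c1 : ∀ v : V, J3_cc S U L o u a (Sum.inr (Sum.inl v)) ^ 2 =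
        if v ∈ (Pn S U L u a).image (fun w => S.r w a) then (1 : ℝ) else 0 := by
      intro v
      show (if ∃ w ∈ Pn S U L u a, S.r w a = v then (1 : ℝ) else 0) ^ 2 = _
      by_cases h : ∃ w ∈ Pn S U L u a, S.r w a = v
      · rw [if_pos h, if_pos (mem_image.2 h)]
        norm_num
      · rw [if_neg h, if_neg fun h' => h (mem_image.1 h')]
        norm_num
    rw [sum_congr rfl fun v _ => c1 v, sum_ite_mem, univ_inter, sum_const, nsmul_eq_mul, mul_one]
    exact_mod_cast card_image_le
  have s4 : ∑ p : V × κ, J3_cc S U L o u a (Sum.inr (Sum.inr p)) ^ 2 = 0 := by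
    refine sum_eq_zero fun p _ => ?_
    show (0 : ℝ) ^ 2 = 0
    norm_num
  rw [Fintype.sum_sum_type, Fintype.sum_sum_type, Fintype.sum_sum_type, s2, s4]
  have h5 := hH.Pn2 hu ha
  have h6 : (2 * (K : ℝ) + 1) ^ 2 ≤ 9 * (K : ℝ) ^ 2 := by nlinarith
  have h7 : (0 : ℝ) ≤ (J3_M S U L o u a).card := Nat.cast_nonneg _
  have h8 : 4 * (2 * (K : ℝ) + 1) ^ 2 * ((J3_M S U L o u a).card : ℝ) +
      4 * ((J3_M S U L o u a).card : ℝ) ≤ 40 * (K : ℝ) ^ 2 * ((J3_M S U L o u a).card : ℝ) := by
    have h9 : 4 * (2 * (K : ℝ) + 1) ^ 2 + 4 ≤ 40 * (K : ℝ) ^ 2 := by nlinarith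
    have h10 := mul_le_mul_of_nonneg_right h9 h7
    linarith
  have h11 : 40 * (K : ℝ) ^ 2 * ((J3_M S U L o u a).card : ℝ) ≤
      40 * (K : ℝ) ^ 2 * (2 * l * (K + 1)) := mul_le_mul_of_nonneg_left hM (by positivity)
  have h12 : 40 * (K : ℝ) ^ 2 * (2 * l * (K + 1)) ≤ 160 * (K : ℝ) ^ 3 * l := by
    have h13 : 2 * (l : ℝ) * (K + 1) ≤ 4 * K * l := by nlinarith
    have h14 := mul_le_mul_of_nonneg_left h13 (show (0 : ℝ) ≤ 40 * (K : ℝ) ^ 2 by positivity)
    calc _ ≤ 40 * (K : ℝ) ^ 2 * (4 * K * l) := h14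
      _ = _ := by ring
  have h15 : 160 * (K : ℝ) ^ 3 * l + 2 * l ≤ 450 * (K : ℝ) ^ 4 * l := by
    have h16 : (1 : ℝ) ≤ (K : ℝ) ^ 3 := one_le_pow₀ (by linarith)
    have h17 : 160 * (K : ℝ) ^ 3 + 2 ≤ 450 * (K : ℝ) ^ 4 := by
      have h18 : (K : ℝ) ^ 4 = (K : ℝ) ^ 3 * K := by ring
      rw [h18]
      nlinarith
    have h19 := mul_le_mul_of_nonneg_right h17 hl.le
    linarith
  linarith

end

theorem thm_J3 : St_J3 := by
  intro V κ _ _ S U L D l m K x y q Lam o hH hG u hu a ha
  exact ⟨J3_cc S U L o u a, J3_nn u a, J3_bd u a, J3_sum hH hG hu ha, J3_loc u a⟩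

end Pool.TCS
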