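import Pool.Agent.Helper3.TCS.Stmts
import Pool.Agent.Helper66.SEC.LLL

/-!
LLL0: the local lemma for events in a product space.
-/

set_option autoImplicit false

namespace Pool.TCS

open Finset
open scoped Classical

theorem thm_LLL0 : St_LLL0 := by
  intro T A J _ _ _ _ Ev S p N hdep hp hN hp0 h
  refine Pool.Agent.SEC.lll S Ev (fun j ω ω' hω => ⟨hdep j ω ω' hω,
    hdep j ω' ω fun t ht => (hω t ht).symm⟩) N (fun j => ?_) p (fun j => ?_) h
  · refine le_trans (le_of_eq ?_) (hN j)
    congr
  · unfold Pool.Agent.SEC.pr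
    have hcard : (0 : ℝ) < Fintype.card (T → A) := by exact_mod_cast Fintype.card_pos
    rw [div_le_iff₀ hcard]
    refine le_trans (le_of_eq ?_) (hp j)
    congr

end Pool.TCS
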