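import Pool.Agent.Helper3.TCS.Stmts
import Pool.Agent.Helper3.TCS.Bas

/-!
# M1: the mean number of surviving options (helper89)
-/

set_option autoImplicit false
set_option linter.unusedSectionVars false

namespace Pool.TCS

open Pool.TC Pool.TCM Finset
open scoped Classical

/-! ### Means -/

theorem M1_mean_mono {Ω : Type} [Fintype Ω] {F G : Ω → ℝ} (h : ∀ ω, F ω ≤ G ω) :
    mean F ≤ mean G := by
  unfold mean
  exact div_le_div_of_nonneg_right (sum_le_sum fun ω _ => h ω) (Nat.cast_nonneg _)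

theorem M1_mean_sum {Ω ι : Type} [Fintype Ω] (A : Finset ι) (F : ι → Ω → ℝ) :
    mean (fun ω => ∑ i ∈ A, F i ω) = ∑ i ∈ A, mean (F i) := by
  unfold mean
  rw [sum_comm, sum_div]

theorem M1_mean_lin {Ω : Type} [Fintype Ω] [Nonempty Ω] (F G H : Ω → ℝ) :
    mean (fun ω => 1 - F ω + G ω / 2 - H ω / 6) = 1 - mean F + mean G / 2 - mean H / 6 := by
  unfold mean
  have h : (Fintype.card Ω : ℝ) ≠ 0 := by exact_mod_cast Fintype.card_ne_zero
  rw [sum_sub_distrib, sum_add_distrib, sum_sub_distrib, ← sum_div, ← sum_div, sum_const,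
    nsmul_eq_mul, mul_one, card_univ]
  field_simp

/-- the inclusion-exclusion inequality -/
theorem M1_ie {ι : Type} (S : Finset ι) (P : ι → Prop) {d : Decidable (∀ w ∈ S, ¬ P w)} :
    1 - ∑ w ∈ S, (if P w then (1 : ℝ) else 0) +
      (∑ w ∈ S, ∑ w' ∈ S.erase w, (if P w ∧ P w' then (1 : ℝ) else 0)) / 2 -
      (∑ w ∈ S, ∑ w' ∈ S.erase w, ∑ t ∈ (S.erase w).erase w',
        (if P w ∧ P w' ∧ P t then (1 : ℝ) else 0)) / 6 ≤
      @ite ℝ (∀ w ∈ S, ¬ P w) d 1 0 := by
  obtain ⟨X, hX⟩ : ∃ X : ι → ℝ, X = fun w => if P w then (1 : ℝ) else 0 := ⟨_, rfl⟩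
  have hX2 : ∀ w, X w * X w = X w := by
    intro w
    rw [hX]
    by_cases h : P w
    · simp [h]
    · simp [h]
  obtain ⟨t, ht⟩ : ∃ t : ℝ, t = ∑ w ∈ S, X w := ⟨_, rfl⟩
  have htn : t = ((S.filter P).card : ℝ) := by
    rw [ht, hX, card_filter]
    push_cast
    rfl
  have e1 : ∀ w ∈ S, ∑ w' ∈ S.erase w, X w' = t - X w := by
    intro w hw
    rw [ht, ← add_sum_erase S X hw]
    ring
  have e2 : ∀ w ∈ S, ∀ w' ∈ S.erase w, ∑ t' ∈ (S.erase w).erase w', X t' = t - X w - X w' := by
    intro w hw w' hw'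
    rw [← e1 w hw, ← add_sum_erase (S.erase w) X hw']
    ring
  have T1 : ∑ w ∈ S, (if P w then (1 : ℝ) else 0) = t := by
    rw [ht, hX]
  have T2 : ∑ w ∈ S, ∑ w' ∈ S.erase w, (if P w ∧ P w' then (1 : ℝ) else 0) = t * (t - 1) := by
    have h1 : ∀ w ∈ S, ∑ w' ∈ S.erase w, (if P w ∧ P w' then (1 : ℝ) else 0) =
        X w * (t - 1) := by
      intro w hw
      have h2 : ∀ w' ∈ S.erase w, (if P w ∧ P w' then (1 : ℝ) else 0) = X w * X w' := by
        intro w' _
        rw [hX]
        by_cases h3 : P w <;> by_cases h4 : P w' <;> simp [h3, h4]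
      rw [sum_congr rfl h2, ← mul_sum, e1 w hw]
      have := hX2 w
      linear_combination -this
    rw [sum_congr rfl h1, ← sum_mul, ← ht]
  have T3 : ∑ w ∈ S, ∑ w' ∈ S.erase w, ∑ t' ∈ (S.erase w).erase w',
      (if P w ∧ P w' ∧ P t' then (1 : ℝ) else 0) = t * (t - 1) * (t - 2) := by
    have h1 : ∀ w ∈ S, ∑ w' ∈ S.erase w, ∑ t' ∈ (S.erase w).erase w',
        (if P w ∧ P w' ∧ P t' then (1 : ℝ) else 0) = X w * ((t - 1) * (t - 2)) := by
      intro w hw
      have h2 : ∀ w' ∈ S.erase w, ∑ t' ∈ (S.erase w).erase w',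
          (if P w ∧ P w' ∧ P t' then (1 : ℝ) else 0) = X w * (t - 2) * X w' := by
        intro w' hw'
        have h5 : ∀ t' ∈ (S.erase w).erase w', (if P w ∧ P w' ∧ P t' then (1 : ℝ) else 0) =
            X w * X w' * X t' := by
          intro t' _
          rw [hX]
          by_cases h3 : P w <;> by_cases h4 : P w' <;> by_cases h6 : P t' <;> simp [h3, h4, h6]
        rw [sum_congr rfl h5, ← mul_sum, e2 w hw w' hw']
        have q1 := hX2 w
        have q2 := hX2 w'
        linear_combination (-X w') * q1 - X w * q2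
      rw [sum_congr rfl h2, ← mul_sum, e1 w hw]
      have q1 := hX2 w
      linear_combination (-(t - 2)) * q1
    rw [sum_congr rfl h1, ← sum_mul, ← ht]
    ring
  rw [T1, T2, T3]
  have h0 : 1 - t + t * (t - 1) / 2 - t * (t - 1) * (t - 2) / 6 =
      -((t - 1) * (t - 2) * (t - 3)) / 6 := by ring
  rw [h0]
  obtain ⟨n, hn⟩ : ∃ n : ℕ, n = (S.filter P).card := ⟨_, rfl⟩
  rw [← hn] at htn
  by_cases hP : ∀ w ∈ S, ¬ P w
  · rw [if_pos hP]
    have h1 : n = 0 := by
      rw [hn, card_eq_zero, filter_eq_empty_iff]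
      exact hP
    rw [htn, h1]
    norm_num
  · rw [if_neg hP]
    have h1 : 1 ≤ n := by
      rw [hn]
      apply card_pos.2
      push Not at hP
      obtain ⟨w, hw, hPw⟩ := hP
      exact ⟨w, mem_filter.2 ⟨hw, hPw⟩⟩
    have h2 : 0 ≤ (t - 1) * (t - 2) * (t - 3) := by
      rw [htn]
      rcases Nat.lt_or_ge n 4 with h3 | h3
      · interval_cases n <;> norm_num
      · have h4 : (4 : ℝ) ≤ n := by exact_mod_cast h3
        have h5 : (0 : ℝ) ≤ (n : ℝ) - 1 := by linarith
        have h6 : (0 : ℝ) ≤ (n : ℝ) - 2 := by linarith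
        have h7 : (0 : ℝ) ≤ (n : ℝ) - 3 := by linarith
        positivity
    linarith

section

variable {V κ : Type} [Fintype V] [Fintype κ] {S : CS V κ} {U : Finset V} {L : V → Finset κ}
  {D l m K : ℕ} {x y q Lam : ℝ} {o : V → κ}

theorem M1_disj {u : V} {a : κ} : Disjoint (KP S U o u a) (KR S U o u (S.r u a)) := by
  rw [disjoint_left]
  intro w hw hw'
  unfold KP at hw
  unfold KR at hw'
  obtain ⟨-, -, h1, h2⟩ := mem_filter.1 hw
  obtain ⟨-, -, h3, h4⟩ := mem_filter.1 hw'
  rw [h2] at h4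
  exact h3 (S.inj _ _ _ h4)

/-- the number of the ordered pairs without conflict -/
theorem M1_pairs (u : V) (a : κ) :
    2 * (npair S (KP S U o u a) + (KP S U o u a).card * (KR S U o u (S.r u a)).card) ≤
      ∑ w ∈ KP S U o u a ∪ KR S U o u (S.r u a), ∑ w' ∈ KP S U o u a ∪ KR S U o u (S.r u a),
        (if w ≠ w' ∧ ¬ conf S o w w' then (1 : ℝ) else 0) := by
  obtain ⟨A, hA⟩ : ∃ A : Finset V, A = KP S U o u a := ⟨_, rfl⟩
  obtain ⟨B, hB⟩ : ∃ B : Finset V, B = KR S U o u (S.r u a) := ⟨_, rfl⟩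
  have hdis : Disjoint A B := by rw [hA, hB]; exact M1_disj
  have hAm : ∀ w ∈ A, S.adj u w ∧ o w = a := by
    intro w hw
    rw [hA] at hw
    unfold KP at hw
    exact (mem_filter.1 hw).2.2
  have hBm : ∀ w ∈ B, w ≠ u ∧ S.r w (o w) = S.r u a := by
    intro w hw
    rw [hB] at hw
    unfold KR at hw
    exact (mem_filter.1 hw).2.2
  rw [← hA, ← hB, sum_union hdis]
  have hAB : ∀ w ∈ A, ∀ w' ∈ B, w ≠ w' ∧ ¬ conf S o w w' := by
    intro w hw w' hw'
    obtain ⟨h1, h2⟩ := hAm w hw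
    obtain ⟨h3, h4⟩ := hBm w' hw'
    refine ⟨fun h => disjoint_left.1 hdis hw (h ▸ hw'), ?_⟩
    rintro ⟨-, ⟨h5, h6⟩ | h5⟩
    · rw [h2] at h6
      rw [← h6] at h4
      exact h3 (S.inj _ _ _ h4)
    · rw [h2, h4] at h5
      have h6 := S.inj _ _ _ h5
      rw [h6] at h1
      exact S.irr u h1
  have hBA : ∀ w ∈ B, ∀ w' ∈ A, w ≠ w' ∧ ¬ conf S o w w' := by
    intro w hw w' hw'
    obtain ⟨h1, h2⟩ := hAB w' hw' w hw
    refine ⟨h1.symm, fun h => h2 ?_⟩
    obtain ⟨h3, h4⟩ := h
    refine ⟨h3.symm, ?_⟩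
    rcases h4 with ⟨h4, h5⟩ | h4
    · exact Or.inl ⟨S.symm _ _ h4, h5.symm⟩
    · exact Or.inr h4.symm
  have s1 : ∑ w ∈ A, ∑ w' ∈ A ∪ B, (if w ≠ w' ∧ ¬ conf S o w w' then (1 : ℝ) else 0) ≥
      2 * npair S A + A.card * B.card := by
    have h1 : ∀ w ∈ A, ∑ w' ∈ A ∪ B, (if w ≠ w' ∧ ¬ conf S o w w' then (1 : ℝ) else 0) =
        ∑ w' ∈ A, (if w ≠ w' ∧ ¬ conf S o w w' then (1 : ℝ) else 0) + B.card := by
      intro w hw
      rw [sum_union hdis]
      congr 1
      rw [sum_congr rfl fun w' hw' => if_pos (hAB w hw w' hw'), sum_const, nsmul_eq_mul, mul_one]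
    rw [sum_congr rfl h1, sum_add_distrib, sum_const, nsmul_eq_mul]
    have h2 : 2 * npair S A ≤
        ∑ w ∈ A, ∑ w' ∈ A, (if w ≠ w' ∧ ¬ conf S o w w' then (1 : ℝ) else 0) := by
      unfold npair
      rw [card_filter]
      push_cast
      rw [sum_product, mul_div_cancel₀ _ (two_ne_zero)]
      refine sum_le_sum fun w hw => sum_le_sum fun w' hw' => ?_
      by_cases h3 : w ≠ w' ∧ ¬ S.adj w w'
      · rw [if_pos h3, if_pos]
        refine ⟨h3.1, ?_⟩
        rintro ⟨-, ⟨h5, h6⟩ | h5⟩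
        · exact h3.2 h5
        · rw [(hAm w hw).2, (hAm w' hw').2] at h5
          exact h3.1 (S.inj _ _ _ h5)
      · rw [if_neg h3]
        split_ifs <;> norm_num
    linarith
  have s2 : ∑ w ∈ B, ∑ w' ∈ A ∪ B, (if w ≠ w' ∧ ¬ conf S o w w' then (1 : ℝ) else 0) ≥
      A.card * B.card := by
    have h1 : ∀ w ∈ B, (A.card : ℝ) ≤
        ∑ w' ∈ A ∪ B, (if w ≠ w' ∧ ¬ conf S o w w' then (1 : ℝ) else 0) := by
      intro w hw
      rw [sum_union hdis, sum_congr rfl fun w' hw' => if_pos (hBA w hw w' hw'), sum_const,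
        nsmul_eq_mul, mul_one]
      have : 0 ≤ ∑ w' ∈ B, (if w ≠ w' ∧ ¬ conf S o w w' then (1 : ℝ) else 0) :=
        sum_nonneg fun w' _ => by split_ifs <;> norm_num
      linarith
    have h2 := sum_le_sum h1
    rw [sum_const, nsmul_eq_mul] at h2
    linarith
  linarith

end

theorem thm_M1 (hRet : St_Ret) : St_M1 := by
  intro V κ _ _ S U L D l m K x y q Lam o h hg u hu
  obtain ⟨r1, r2, -, r4, r5⟩ := hRet V κ S U L D l m K x y q Lam o h hg
  have hN : 0 < m ^ (2 * K + 1) := Nat.pow_pos (by have := h.m192; omega)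
  have hne : Nonempty (Fin (m ^ (2 * K + 1))) := ⟨⟨0, hN⟩⟩
  have hα := h.al0
  have hK := h.Kpos
  obtain ⟨ε, hε⟩ : ∃ ε : ℝ, ε = 4 / 3 * (K : ℝ) ^ 3 * (1 / (m : ℝ)) ^ 3 := ⟨_, rfl⟩
  have hε0 : 0 ≤ ε := by rw [hε]; positivity
  have hG : mean (G1 S U L l m K x q o u) =
      ∑ a ∈ L u, mean (fun ω => if alive S U L l m K x q o ω u a then (1 : ℝ) else 0) := by
    rw [← M1_mean_sum]
    refine congrArg _ (funext fun ω => ?_)
    unfold G1
    rw [card_filter]
    push_cast
    rfl
  rw [hG, ← hε]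
  have key : ∀ a ∈ L u, Psi1 S U L l m K x q o u a - ε ≤
      mean (fun ω => if alive S U L l m K x q o ω u a then (1 : ℝ) else 0) := by
    intro a ha
    obtain ⟨A, hA⟩ : ∃ A : Finset V, A = KP S U o u a := ⟨_, rfl⟩
    obtain ⟨B, hB⟩ : ∃ B : Finset V, B = KR S U o u (S.r u a) := ⟨_, rfl⟩
    obtain ⟨T, hT⟩ : ∃ T : Finset V, T = A ∪ B := ⟨_, rfl⟩
    have hdis : Disjoint A B := by rw [hA, hB]; exact M1_disj
    have hTU : ∀ w ∈ T, w ∈ U := by
      intro w hw
      rw [hT, mem_union, hA, hB] at hw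
      unfold KP KR at hw
      rcases hw with hw | hw
      · exact (mem_filter.1 hw).2.1
      · exact (mem_filter.1 hw).2.1
    have hTc : T.card = A.card + B.card := by rw [hT]; exact card_union_of_disjoint hdis
    have hAc : A.card ≤ K := by rw [hA]; exact hg.kP u hu a ha
    have hBc : B.card ≤ K := by
      refine le_trans (card_le_card ?_) (hg.kR (S.r u a))
      intro w hw
      rw [hB] at hw
      unfold KR at hw
      obtain ⟨-, h1, -, h2⟩ := mem_filter.1 hw
      exact mem_filter.2 ⟨mem_univ _, h1, h2⟩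
    obtain ⟨f, hf⟩ : ∃ f : (Lab V κ → Fin (m ^ (2 * K + 1))) → ℝ,
      f = fun ω => if ∀ w ∈ T, ¬ retv S U o m K ω w then (1 : ℝ) else 0 := ⟨_, rfl⟩
    have hf0 : ∀ ω, 0 ≤ f ω := by
      intro ω
      rw [hf]
      beta_reduce
      split_ifs <;> norm_num
    have hf1 : ∀ ω, f ω ≤ 1 := by
      intro ω
      rw [hf]
      beta_reduce
      split_ifs <;> norm_num
    have hfd : ∀ ω ω' : Lab V κ → Fin (m ^ (2 * K + 1)),
        (∀ t, ω (Sum.inl t) = ω' (Sum.inl t)) → f ω = f ω' := by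
      intro ω ω' hω
      rw [hf]
      beta_reduce
      have h1 : ∀ w, retv S U o m K ω w ↔ retv S U o m K ω' w := by
        intro w
        unfold retv actv goodv
        simp only [hω]
      simp only [h1]
    have h5 := (r5 f hf0 hf1 hfd).1 (S.r u a) u hu a ha
    have halive : mean (fun ω => if ¬ bkv S U L l m K x ω (S.r u a) ∧
        ¬ ekv S U L l m K q ω u a then f ω else 0) ≤
        mean (fun ω => if alive S U L l m K x q o ω u a then (1 : ℝ) else 0) := by
      refine M1_mean_mono fun ω => ?_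
      by_cases h1 : ¬ bkv S U L l m K x ω (S.r u a) ∧ ¬ ekv S U L l m K q ω u a
      · rw [if_pos h1, hf]
        beta_reduce
        by_cases h2 : ∀ w ∈ T, ¬ retv S U o m K ω w
        · rw [if_pos h2, if_pos]
          refine ⟨fun w hw => h2 w ?_, fun w hw => h2 w ?_, h1.1, h1.2⟩
          · rw [hT, mem_union, hA]
            exact Or.inl hw
          · rw [hT, mem_union, hB]
            exact Or.inr hw
        · rw [if_neg h2]
          split_ifs <;> norm_num
      · rw [if_neg h1]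
        split_ifs <;> norm_num
    -- the mean of `f`
    have hfm : 1 - bet m K * (A.card + B.card) +
        bet m K ^ 2 * min (npair S A + A.card * B.card) (2 * (K : ℝ) ^ 2) - ε ≤ mean f := by
      have g1 : mean (fun ω => 1 - (∑ w ∈ T, (if retv S U o m K ω w then (1 : ℝ) else 0)) +
          (∑ w ∈ T, ∑ w' ∈ T.erase w,
            (if retv S U o m K ω w ∧ retv S U o m K ω w' then (1 : ℝ) else 0)) / 2 -
          (∑ w ∈ T, ∑ w' ∈ T.erase w, ∑ t ∈ (T.erase w).erase w',
            (if retv S U o m K ω w ∧ retv S U o m K ω w' ∧ retv S U o m K ω t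
              then (1 : ℝ) else 0)) / 6) ≤ mean f := by
        refine M1_mean_mono fun ω => ?_
        rw [hf]
        exact M1_ie T fun w => retv S U o m K ω w
      rw [M1_mean_lin] at g1
      have m1 : mean (fun ω => ∑ w ∈ T, (if retv S U o m K ω w then (1 : ℝ) else 0)) =
          bet m K * (A.card + B.card) := by
        rw [M1_mean_sum, sum_congr rfl fun w hw => r1 w (hTU w hw), sum_const, nsmul_eq_mul, hTc]
        push_cast
        ring
      have m2 : bet m K ^ 2 * (2 * (npair S A + A.card * B.card)) ≤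
          mean (fun ω => ∑ w ∈ T, ∑ w' ∈ T.erase w,
            (if retv S U o m K ω w ∧ retv S U o m K ω w' then (1 : ℝ) else 0)) := by
        rw [M1_mean_sum]
        have h1 : ∀ w ∈ T, bet m K ^ 2 * ∑ w' ∈ T,
            (if w ≠ w' ∧ ¬ conf S o w w' then (1 : ℝ) else 0) ≤
            mean (fun ω => ∑ w' ∈ T.erase w,
              (if retv S U o m K ω w ∧ retv S U o m K ω w' then (1 : ℝ) else 0)) := by
          intro w hw
          rw [M1_mean_sum, ← sum_erase T (a := w) (f := fun w' =>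
            if w ≠ w' ∧ ¬ conf S o w w' then (1 : ℝ) else 0) (by simp), mul_sum]
          refine sum_le_sum fun w' hw' => ?_
          obtain ⟨h2, h3⟩ := mem_erase.1 hw'
          by_cases h4 : w ≠ w' ∧ ¬ conf S o w w'
          · rw [if_pos h4, mul_one]
            exact r2 w (hTU w hw) w' (hTU w' h3) h4.1 h4.2
          · rw [if_neg h4, mul_zero]
            unfold mean
            refine div_nonneg (sum_nonneg fun ω _ => ?_) (Nat.cast_nonneg _)
            split_ifs <;> norm_num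
        have h2 := sum_le_sum h1
        rw [← mul_sum] at h2
        refine le_trans (mul_le_mul_of_nonneg_left ?_ (by positivity)) h2
        have h3 := M1_pairs (S := S) (U := U) (o := o) u a
        rw [← hA, ← hB, ← hT] at h3
        exact h3
      have m3 : mean (fun ω => ∑ w ∈ T, ∑ w' ∈ T.erase w, ∑ t ∈ (T.erase w).erase w',
            (if retv S U o m K ω w ∧ retv S U o m K ω w' ∧ retv S U o m K ω t
              then (1 : ℝ) else 0)) ≤ (2 * (K : ℝ)) ^ 3 * (1 / (m : ℝ)) ^ 3 := by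
        rw [M1_mean_sum]
        have hTr : (T.card : ℝ) ≤ 2 * K := by
          have : T.card ≤ 2 * K := by omega
          exact_mod_cast this
        have hα3 : 0 ≤ (1 / (m : ℝ)) ^ 3 := by positivity
        have hT0 : (0 : ℝ) ≤ T.card := Nat.cast_nonneg _
        have h1 : ∀ w ∈ T, mean (fun ω => ∑ w' ∈ T.erase w, ∑ t ∈ (T.erase w).erase w',
            (if retv S U o m K ω w ∧ retv S U o m K ω w' ∧ retv S U o m K ω t
              then (1 : ℝ) else 0)) ≤ T.card * (T.card * (1 / (m : ℝ)) ^ 3) := by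
          intro w hw
          rw [M1_mean_sum]
          have h2 : ∀ w' ∈ T.erase w, mean (fun ω => ∑ t ∈ (T.erase w).erase w',
              (if retv S U o m K ω w ∧ retv S U o m K ω w' ∧ retv S U o m K ω t
                then (1 : ℝ) else 0)) ≤ T.card * (1 / (m : ℝ)) ^ 3 := by
            intro w' hw'
            obtain ⟨h3, h4⟩ := mem_erase.1 hw'
            rw [M1_mean_sum]
            have h5 : ∀ t ∈ (T.erase w).erase w', mean (fun ω =>
                (if retv S U o m K ω w ∧ retv S U o m K ω w' ∧ retv S U o m K ω t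
                  then (1 : ℝ) else 0)) ≤ (1 / (m : ℝ)) ^ 3 := by
              intro t ht
              obtain ⟨h6, h7⟩ := mem_erase.1 ht
              obtain ⟨h8, h9⟩ := mem_erase.1 h7
              exact r4 w (hTU w hw) w' (hTU w' h4) t (hTU t h9) h3.symm h8.symm h6.symm
            refine (sum_le_sum h5).trans ?_
            rw [sum_const, nsmul_eq_mul]
            refine mul_le_mul_of_nonneg_right (Nat.cast_le.2 (card_le_card ?_)) hα3
            exact (erase_subset _ _).trans (erase_subset _ _)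
          refine (sum_le_sum h2).trans ?_
          rw [sum_const, nsmul_eq_mul]
          refine mul_le_mul_of_nonneg_right (Nat.cast_le.2 (card_le_card (erase_subset _ _))) ?_
          positivity
        refine (sum_le_sum h1).trans ?_
        rw [sum_const, nsmul_eq_mul]
        calc (T.card : ℝ) * (T.card * (T.card * (1 / (m : ℝ)) ^ 3)) =
            (T.card : ℝ) ^ 3 * (1 / (m : ℝ)) ^ 3 := by ring
          _ ≤ _ := mul_le_mul_of_nonneg_right (pow_le_pow_left₀ hT0 hTr 3) hα3
      rw [m1] at g1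
      have m4 : bet m K ^ 2 * min (npair S A + A.card * B.card) (2 * (K : ℝ) ^ 2) ≤
          bet m K ^ 2 * (npair S A + A.card * B.card) :=
        mul_le_mul_of_nonneg_left (min_le_left _ _) (by positivity)
      have m5 : (2 * (K : ℝ)) ^ 3 * (1 / (m : ℝ)) ^ 3 / 6 = ε := by
        rw [hε]
        ring
      linarith
    -- conclusion
    have e1 := h.eK_nonneg hu ha
    have e2 := h.eK_le hu ha
    have e3 := h.eR_nonneg (S.r u a)
    have e4 := h.eR_le (S.r u a)
    refine le_trans ?_ (h5.trans halive)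
    unfold Psi1
    rw [← hA, ← hB]
    generalize 1 - bet m K * ((A.card : ℝ) + B.card) +
        bet m K ^ 2 * min (npair S A + A.card * B.card) (2 * (K : ℝ) ^ 2) = Φ at hfm ⊢
    generalize mean f = M at hfm ⊢
    generalize eR S U L l m K x (S.r u a) = er at e3 e4 ⊢
    generalize eK S U L l m K q u a = ek at e1 e2 ⊢
    have f1 : 0 ≤ (1 - er) * (1 - ek) := mul_nonneg (by linarith) (by linarith)
    have f2 : (1 - er) * (1 - ek) ≤ 1 := by nlinarith
    have f3 := mul_le_mul_of_nonneg_right hfm f1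
    have f4 : ε * ((1 - er) * (1 - ek)) ≤ ε := mul_le_of_le_one_right hε0 f2
    linarith
  have h1 := sum_le_sum key
  rw [sum_sub_distrib, sum_const, nsmul_eq_mul, h.card u hu] at h1
  linarith

end Pool.TCS
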