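import Pool.Agent.Helper3.TCS.Stmts
import Pool.Agent.Helper3.TCS.Bas

/-!
# T5, module M2: the mean of `G2`
-/

set_option autoImplicit false

namespace Pool.TCS

open Pool.TC Pool.TCM Finset
open scoped Classical

section mean

variable {Ω : Type} [Fintype Ω]

theorem m2_mono {F G : Ω → ℝ} (h : ∀ ω, F ω ≤ G ω) : mean F ≤ mean G := by
  unfold mean
  exact div_le_div_of_nonneg_right (sum_le_sum fun ω _ => h ω) (Nat.cast_nonneg _)

theorem m2_add (F G : Ω → ℝ) : mean (fun ω => F ω + G ω) = mean F + mean G := by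
  unfold mean
  rw [sum_add_distrib, add_div]

theorem m2_sub (F G : Ω → ℝ) : mean (fun ω => F ω - G ω) = mean F - mean G := by
  unfold mean
  rw [sum_sub_distrib, sub_div]

theorem m2_div (F : Ω → ℝ) (c : ℝ) : mean (fun ω => F ω / c) = mean F / c := by
  unfold mean
  rw [← sum_div]
  ring

theorem m2_sum {ι : Type} (s : Finset ι) (F : ι → Ω → ℝ) :
    mean (fun ω => ∑ i ∈ s, F i ω) = ∑ i ∈ s, mean (F i) := by
  unfold mean
  rw [sum_comm, ← sum_div]

theorem m2_const [Nonempty Ω] (c : ℝ) : mean (fun _ : Ω => c) = c := by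
  unfold mean
  rw [sum_const, card_univ, nsmul_eq_mul]
  have : (Fintype.card Ω : ℝ) ≠ 0 := by
    exact_mod_cast Fintype.card_ne_zero
  field_simp

end mean

/-- the elementary inequality -/
theorem m2_elem (t : ℕ) (a f : ℝ) (ha : a = 0 ∨ a = 1) (hf1 : f ≤ 1) (hfa : a = 1 → f = 0)
    (hft : t ≠ 0 → f = 0) : f ≤ 1 - a - t + ((t : ℝ) ^ 2 - t) / 2 + a * t := by
  have h1 : (t : ℝ) ≤ (t : ℝ) ^ 2 := by
    have : t ≤ t ^ 2 := by nlinarith [Nat.zero_le t, Nat.le_self_pow (n := 2) (by norm_num) t]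
    exact_mod_cast this
  rcases ha with rfl | rfl
  · rcases Nat.eq_zero_or_pos t with rfl | ht
    · simpa using hf1
    · rw [hft (by omega)]
      rcases Nat.lt_or_ge t 2 with h2 | h2
      · have : t = 1 := by omega
        subst this
        norm_num
      · have h3 : (2 : ℝ) ≤ t := by exact_mod_cast h2
        nlinarith
  · rw [hfa rfl]
    linarith

section

variable {V κ : Type} [Fintype V] [Fintype κ] {S : CS V κ} {U : Finset V} {L : V → Finset κ}
  {D l m K : ℕ} {x y q Lam : ℝ} {o : V → κ}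

/-- indicator of `retv` -/
noncomputable def m2_i (S : CS V κ) (U : Finset V) (o : V → κ) (m K : ℕ) (u : V)
    (ω : Lab V κ → Fin (m ^ (2 * K + 1))) : ℝ := if retv S U o m K ω u then 1 else 0

theorem m2_i_mul (u w : V) (ω : Lab V κ → Fin (m ^ (2 * K + 1))) :
    m2_i S U o m K u ω * m2_i S U o m K w ω =
      if retv S U o m K ω u ∧ retv S U o m K ω w then 1 else 0 := by
  unfold m2_i
  by_cases h1 : retv S U o m K ω u <;> by_cases h2 : retv S U o m K ω w <;> simp [h1, h2]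

theorem m2_conf {u w : V} (hw : w ∈ U) (h : conf S o u w)
    (ω : Lab V κ → Fin (m ^ (2 * K + 1))) :
    m2_i S U o m K u ω * m2_i S U o m K w ω = 0 := by
  rw [m2_i_mul, if_neg]
  rintro ⟨h1, h2⟩
  exact h1.2.2.2 w hw h h2.2.1

/-- the number of retained vertices in `KP` -/
theorem m2_t (A : Finset V) (ω : Lab V κ → Fin (m ^ (2 * K + 1))) :
    ∑ u ∈ A, m2_i S U o m K u ω = ((A.filter (fun u => retv S U o m K ω u)).card : ℝ) := by
  unfold m2_i
  rw [sum_boole]

theorem m2_pairs (A : Finset V) (ω : Lab V κ → Fin (m ^ (2 * K + 1))) :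
    ∑ p ∈ (A ×ˢ A).filter (fun p => p.1 ≠ p.2),
      m2_i S U o m K p.1 ω * m2_i S U o m K p.2 ω =
      ((A.filter (fun u => retv S U o m K ω u)).card : ℝ) ^ 2 -
        ((A.filter (fun u => retv S U o m K ω u)).card : ℝ) := by
  rw [← m2_t]
  set i : V → ℝ := fun u => m2_i S U o m K u ω with hi
  have h1 : ∑ p ∈ A ×ˢ A, i p.1 * i p.2 = (∑ u ∈ A, i u) ^ 2 := by
    rw [pow_two, sum_mul_sum, sum_product]
  have h2 : ∑ p ∈ (A ×ˢ A).filter (fun p => ¬ p.1 ≠ p.2), i p.1 * i p.2 = ∑ u ∈ A, i u := by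
    have h3 : ∀ u, i u * i u = i u := by
      intro u
      rw [hi]
      show m2_i S U o m K u ω * m2_i S U o m K u ω = m2_i S U o m K u ω
      unfold m2_i
      split_ifs <;> simp
    have h4 : (A ×ˢ A).filter (fun p => ¬ p.1 ≠ p.2) = A.image (fun u => (u, u)) := by
      ext ⟨a, b⟩
      simp only [mem_filter, mem_product, ne_eq, not_not, mem_image, Prod.mk.injEq]
      constructor
      · rintro ⟨⟨h1, h2⟩, rfl⟩
        exact ⟨a, h1, rfl, rfl⟩
      · rintro ⟨c, hc, rfl, rfl⟩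
        exact ⟨⟨hc, hc⟩, rfl⟩
    rw [h4, sum_image (by
      intro a _ b _ hab
      exact (Prod.mk.inj hab).1)]
    exact sum_congr rfl fun u _ => h3 u
  have h5 := sum_filter_add_sum_filter_not (A ×ˢ A) (fun p => p.1 ≠ p.2)
    (fun p => i p.1 * i p.2)
  rw [h2, h1] at h5
  show ∑ p ∈ (A ×ˢ A).filter (fun p => p.1 ≠ p.2), i p.1 * i p.2 = _
  linarith

/-- the event that `w` is not retained and nobody in `KP` is -/
noncomputable def m2_f (S : CS V κ) (U : Finset V) (o : V → κ) (m K : ℕ) (w : V) (b : κ)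
    (ω : Lab V κ → Fin (m ^ (2 * K + 1))) : ℝ :=
  if ¬ retv S U o m K ω w ∧ ∀ t ∈ KP S U o w b, ¬ retv S U o m K ω t then 1 else 0

theorem m2_f_le (w : V) (b : κ) (ω : Lab V κ → Fin (m ^ (2 * K + 1))) :
    m2_f S U o m K w b ω ≤ 1 - m2_i S U o m K w ω - ∑ u ∈ KP S U o w b, m2_i S U o m K u ω +
      (∑ p ∈ (KP S U o w b ×ˢ KP S U o w b).filter (fun p => p.1 ≠ p.2),
        m2_i S U o m K p.1 ω * m2_i S U o m K p.2 ω) / 2 +
      ∑ u ∈ KP S U o w b, m2_i S U o m K w ω * m2_i S U o m K u ω := by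
  rw [← mul_sum, m2_pairs, m2_t]
  apply m2_elem
  · unfold m2_i
    split_ifs
    · exact Or.inr rfl
    · exact Or.inl rfl
  · unfold m2_f
    split_ifs <;> norm_num
  · intro h
    unfold m2_i at h
    split_ifs at h with h1
    · unfold m2_f
      rw [if_neg]
      exact fun h2 => h2.1 h1
    · norm_num at h
  · intro h
    unfold m2_f
    rw [if_neg]
    rintro ⟨-, h2⟩
    apply h
    rw [card_eq_zero, filter_eq_empty_iff]
    exact h2

theorem m2_mean (hRet : St_Ret) (h : Hyp S U L D l m K x y q Lam)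
    (g : Good S U L l m K x y q Lam o) {w : V} (hw : w ∈ U) {b : κ} (hb : b ∈ L w) :
    mean (m2_f S U o m K w b) ≤ 1 - bet m K - bet m K * (KP S U o w b).card +
      (1 / (m : ℝ)) ^ 2 * min (npair S (KP S U o w b)) ((K : ℝ) ^ 2) +
      (1 / (m : ℝ)) ^ 2 * (KP S U o w b).card := by
  obtain ⟨r1, r2, r3, r4, r5⟩ := hRet V κ S U L D l m K x y q Lam o h g
  haveI : Nonempty (Lab V κ → Fin (m ^ (2 * K + 1))) := by
    have hm : 0 < m := by have := h.m192; omega
    exact ⟨fun _ => ⟨0, by positivity⟩⟩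
  set A := KP S U o w b with hA
  have hAmem : ∀ u ∈ A, u ∈ U ∧ S.adj w u ∧ o u = b := by
    intro u hu
    rw [hA] at hu
    unfold KP at hu
    rw [mem_filter] at hu
    exact hu.2
  have hK : (A.card : ℝ) ≤ K := by exact_mod_cast g.kP w hw b hb
  have e1 : ∀ u ∈ U, mean (m2_i S U o m K u) = bet m K := r1
  have e3 : ∀ u ∈ U, ∀ t ∈ U, u ≠ t →
      mean (fun ω => m2_i S U o m K u ω * m2_i S U o m K t ω) ≤ (1 / (m : ℝ)) ^ 2 := by
    intro u hu t ht hut
    simp only [m2_i_mul]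
    exact r3 u hu t ht hut
  have hα : 0 ≤ (1 / (m : ℝ)) ^ 2 := by positivity
  -- the pairs
  have hP1 : ∑ p ∈ (A ×ˢ A).filter (fun p => p.1 ≠ p.2),
      mean (fun ω => m2_i S U o m K p.1 ω * m2_i S U o m K p.2 ω) ≤
      (1 / (m : ℝ)) ^ 2 * (2 * npair S A) := by
    have h1 : ∀ p ∈ (A ×ˢ A).filter (fun p => p.1 ≠ p.2),
        mean (fun ω => m2_i S U o m K p.1 ω * m2_i S U o m K p.2 ω) ≤
        if ¬ S.adj p.1 p.2 then (1 / (m : ℝ)) ^ 2 else 0 := by
      intro p hp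
      rw [mem_filter, mem_product] at hp
      obtain ⟨u1, u2, u3⟩ := hAmem _ hp.1.1
      obtain ⟨t1, t2, t3⟩ := hAmem _ hp.1.2
      split_ifs with h2
      · have h3 : ∀ ω, m2_i S U o m K p.1 ω * m2_i S U o m K p.2 ω = 0 := fun ω =>
          m2_conf t1 ⟨hp.2, Or.inl ⟨h2, u3.trans t3.symm⟩⟩ ω
        simp only [h3]
        rw [m2_const]
      · exact e3 _ u1 _ t1 hp.2
    refine (sum_le_sum h1).trans (le_of_eq ?_)
    rw [← sum_filter, filter_filter, sum_const, nsmul_eq_mul]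
    unfold npair
    ring
  have hP2 : ∑ p ∈ (A ×ˢ A).filter (fun p => p.1 ≠ p.2),
      mean (fun ω => m2_i S U o m K p.1 ω * m2_i S U o m K p.2 ω) ≤
      (1 / (m : ℝ)) ^ 2 * (2 * (K : ℝ) ^ 2) := by
    refine hP1.trans (mul_le_mul_of_nonneg_left ?_ hα)
    have h1 := npair_le S A
    have h2 : (A.card : ℝ) ^ 2 ≤ (K : ℝ) ^ 2 := pow_le_pow_left₀ (Nat.cast_nonneg _) hK 2
    have h3 : (0 : ℝ) ≤ (K : ℝ) ^ 2 := by positivity
    linarith
  have hP : (∑ p ∈ (A ×ˢ A).filter (fun p => p.1 ≠ p.2),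
      mean (fun ω => m2_i S U o m K p.1 ω * m2_i S U o m K p.2 ω)) / 2 ≤
      (1 / (m : ℝ)) ^ 2 * min (npair S A) ((K : ℝ) ^ 2) := by
    rw [mul_min_of_nonneg _ _ hα]
    apply le_min <;> linarith
  -- the products with `w`
  have hQ : ∑ u ∈ A, mean (fun ω => m2_i S U o m K w ω * m2_i S U o m K u ω) ≤
      (1 / (m : ℝ)) ^ 2 * A.card := by
    have h1 : ∀ u ∈ A, mean (fun ω => m2_i S U o m K w ω * m2_i S U o m K u ω) ≤
        (1 / (m : ℝ)) ^ 2 := by
      intro u hu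
      obtain ⟨u1, u2, u3⟩ := hAmem _ hu
      refine e3 _ hw _ u1 ?_
      rintro rfl
      exact S.irr _ u2
    refine (sum_le_sum h1).trans (le_of_eq ?_)
    rw [sum_const, nsmul_eq_mul]
    ring
  have hT : ∑ u ∈ A, mean (m2_i S U o m K u) = bet m K * A.card := by
    rw [sum_congr rfl fun u hu => e1 u (hAmem u hu).1, sum_const, nsmul_eq_mul]
    ring
  refine (m2_mono (m2_f_le w b)).trans ?_
  rw [← hA, m2_add, m2_add, m2_sub, m2_sub, m2_div, m2_sum, m2_sum, m2_sum, m2_const, e1 w hw, hT]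
  linarith

theorem m2_ret_inl (ω ω' : Lab V κ → Fin (m ^ (2 * K + 1)))
    (h : ∀ t, ω (Sum.inl t) = ω' (Sum.inl t)) (u : V) :
    retv S U o m K ω u ↔ retv S U o m K ω' u := by
  unfold retv actv goodv
  simp only [h]

end

theorem thm_M2 (hRet : St_Ret) : St_M2 := by
  intro V κ _ _ S U L D l m K x y q Lam o h g v
  obtain ⟨r1, r2, r3, r4, r5⟩ := hRet V κ S U L D l m K x y q Lam o h g
  have h1 : ∀ ω, G2 S U L l m K q o v ω = ∑ p ∈ Cv S U L v,
      (if ¬ ekv S U L l m K q ω p.1 p.2 then m2_f S U o m K p.1 p.2 ω else 0) := by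
    intro ω
    unfold G2
    rw [← sum_boole]
    refine sum_congr rfl fun p _ => ?_
    unfold m2_f
    by_cases e1 : ekv S U L l m K q ω p.1 p.2
    · simp [e1]
    · by_cases e2 : ¬ retv S U o m K ω p.1 ∧ ∀ t ∈ KP S U o p.1 p.2, ¬ retv S U o m K ω t
      · rw [if_pos ⟨e2.1, e2.2, e1⟩, if_pos e1, if_pos e2]
      · rw [if_neg (fun h3 => e2 ⟨h3.1, h3.2.1⟩), if_pos e1, if_neg e2]
  have h2 : mean (G2 S U L l m K q o v) = ∑ p ∈ Cv S U L v, mean (fun ω =>
      if ¬ ekv S U L l m K q ω p.1 p.2 then m2_f S U o m K p.1 p.2 ω else 0) := by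
    rw [← m2_sum]
    congr 1
    funext ω
    exact h1 ω
  rw [h2]
  have h3 : ∀ p ∈ Cv S U L v, mean (fun ω =>
      if ¬ ekv S U L l m K q ω p.1 p.2 then m2_f S U o m K p.1 p.2 ω else 0) ≤
      Psi2 S U L l m K q o p.1 p.2 + (1 / 2) ^ K := by
    intro p hp
    unfold Cv at hp
    rw [mem_filter] at hp
    obtain ⟨-, hu, ha, -⟩ := hp
    obtain ⟨-, h5, -⟩ := r5 (m2_f S U o m K p.1 p.2)
      (fun ω => by unfold m2_f; split_ifs <;> norm_num)
      (fun ω => by unfold m2_f; split_ifs <;> norm_num)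
      (fun ω ω' hh => by
        unfold m2_f
        simp only [m2_ret_inl ω ω' hh])
    refine (h5 p.1 hu p.2 ha).trans ?_
    unfold Psi2
    have h6 := h.eK_le hu ha
    have h7 := mul_le_mul_of_nonneg_right (m2_mean hRet h g hu ha)
      (by linarith : (0 : ℝ) ≤ 1 - eK S U L l m K q p.1 p.2)
    linarith
  refine (sum_le_sum h3).trans ?_
  rw [sum_add_distrib, sum_const, nsmul_eq_mul]
  have h4 := h.Cv1 v
  have h5 : (0 : ℝ) ≤ (1 / 2) ^ K := by positivity
  nlinarith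

end Pool.TCS
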