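import Pool.Agent.Helper3.TCS.Stmts
import Pool.Agent.Helper3.TCS.Bas

/-!
# The mean of `G3`
-/

set_option autoImplicit false

namespace Pool.TCS

open Pool.TC Pool.TCM Finset
open scoped Classical

section m3

variable {Ω : Type} [Fintype Ω]

private theorem m3_mono {F G : Ω → ℝ} (h : ∀ ω, F ω ≤ G ω) : mean F ≤ mean G := by
  unfold mean
  exact div_le_div_of_nonneg_right (sum_le_sum fun ω _ => h ω) (Nat.cast_nonneg _)

private theorem m3_sum {ι : Type} (s : Finset ι) (F : ι → Ω → ℝ) :
    mean (fun ω => ∑ i ∈ s, F i ω) = ∑ i ∈ s, mean (F i) := by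
  unfold mean
  rw [sum_comm, sum_div]

private theorem m3_add (F G : Ω → ℝ) : mean (fun ω => F ω + G ω) = mean F + mean G := by
  unfold mean
  rw [sum_add_distrib, add_div]

private theorem m3_sub (F G : Ω → ℝ) : mean (fun ω => F ω - G ω) = mean F - mean G := by
  unfold mean
  rw [sum_sub_distrib, sub_div]

private theorem m3_one [Nonempty Ω] : mean (fun _ : Ω => (1 : ℝ)) = 1 := by
  unfold mean
  rw [sum_const, nsmul_eq_mul, mul_one, card_univ]
  exact div_self (Nat.cast_ne_zero.2 Fintype.card_ne_zero)

end m3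

theorem thm_M3 (hRet : St_Ret) : St_M3 := by
  intro V κ _ _ S U L D l m K x y q Lam o h hg u hu a ha
  obtain ⟨h1, -, h2, -, h3⟩ := hRet V κ S U L D l m K x y q Lam o h hg
  have hm : 0 < m := by
    have := h.m192
    omega
  have hne : Nonempty (Lab V κ → Fin (m ^ (2 * K + 1))) :=
    ⟨fun _ => ⟨0, pow_pos hm _⟩⟩
  -- one vertex
  have key : ∀ w ∈ Pn S U L u a, mean (fun ω : Lab V κ → Fin (m ^ (2 * K + 1)) =>
      if ¬ retv S U o m K ω w ∧ (∀ t ∈ KR S U o w (S.r w a), ¬ retv S U o m K ω t) ∧
        ¬ bkv S U L l m K x ω (S.r w a) then (1 : ℝ) else 0) ≤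
      Psi3 S U L l m K x o w a + (1 / 2) ^ K := by
    intro w hw
    have hwU : w ∈ U := by
      unfold Pn at hw
      exact (mem_filter.1 hw).2.1
    have hKR : ∀ t ∈ KR S U o w (S.r w a), t ∈ U ∧ t ≠ w ∧ S.r t (o t) = S.r w a := by
      intro t ht
      unfold KR at ht
      exact (mem_filter.1 ht).2
    set f : (Lab V κ → Fin (m ^ (2 * K + 1))) → ℝ := fun ω =>
      if ¬ retv S U o m K ω w ∧ (∀ t ∈ KR S U o w (S.r w a), ¬ retv S U o m K ω t) then (1 : ℝ)
      else 0 with hf
    -- the function depends only on the first labels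
    have hret : ∀ (ω ω' : Lab V κ → Fin (m ^ (2 * K + 1))),
        (∀ t, ω (Sum.inl t) = ω' (Sum.inl t)) → ∀ t, retv S U o m K ω t ↔ retv S U o m K ω' t := by
      intro ω ω' hh t
      unfold retv actv goodv
      simp only [hh]
    have hfd : ∀ ω ω', (∀ t, ω (Sum.inl t) = ω' (Sum.inl t)) → f ω = f ω' := by
      intro ω ω' hh
      have e := hret ω ω' hh
      simp only [hf, e]
    have h4 := (h3 f (fun ω => by simp only [hf]; split_ifs <;> norm_num)
      (fun ω => by simp only [hf]; split_ifs <;> norm_num) hfd).2.2 (S.r w a)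
    have e1 : (fun ω : Lab V κ → Fin (m ^ (2 * K + 1)) =>
        if ¬ retv S U o m K ω w ∧ (∀ t ∈ KR S U o w (S.r w a), ¬ retv S U o m K ω t) ∧
          ¬ bkv S U L l m K x ω (S.r w a) then (1 : ℝ) else 0) =
        fun ω => if ¬ bkv S U L l m K x ω (S.r w a) then f ω else 0 := by
      funext ω
      simp only [hf]
      by_cases hb : bkv S U L l m K x ω (S.r w a)
      · simp [hb]
      · simp [hb]
    rw [e1]
    refine h4.trans ?_
    -- the mean of `f`
    have h5 : mean f ≤ 1 - bet m K - bet m K * (KR S U o w (S.r w a)).card +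
        (1 / (m : ℝ)) ^ 2 * (KR S U o w (S.r w a)).card := by
      have h6 : ∀ ω, f ω ≤ (1 - (if retv S U o m K ω w then (1 : ℝ) else 0)) -
          (∑ t ∈ KR S U o w (S.r w a), if retv S U o m K ω t then (1 : ℝ) else 0) +
          ∑ t ∈ KR S U o w (S.r w a),
            if retv S U o m K ω w ∧ retv S U o m K ω t then (1 : ℝ) else 0 := by
        intro ω
        by_cases hr : retv S U o m K ω w
        · simp [hf, hr]
        · have h7 : (∑ t ∈ KR S U o w (S.r w a), if retv S U o m K ω t then (1 : ℝ) else 0) ≤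
              1 := by
            rw [← sum_filter, sum_const, nsmul_eq_mul, mul_one]
            have h8 : ((KR S U o w (S.r w a)).filter (fun t => retv S U o m K ω t)).card ≤ 1 := by
              rw [card_le_one]
              intro t ht t' ht'
              rw [mem_filter] at ht ht'
              by_contra hne
              have hc : conf S o t t' :=
                ⟨hne, Or.inr (((hKR t ht.1).2.2).trans ((hKR t' ht'.1).2.2).symm)⟩
              exact ht.2.2.2.2 t' (hKR t' ht'.1).1 hc ht'.2.2.1
            exact_mod_cast h8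
          by_cases ht : ∀ t ∈ KR S U o w (S.r w a), ¬ retv S U o m K ω t
          · have h9 : (∑ t ∈ KR S U o w (S.r w a),
                if retv S U o m K ω t then (1 : ℝ) else 0) = 0 :=
              sum_eq_zero fun t hh => if_neg (ht t hh)
            simp [hf, hr, h9]
            split_ifs
            norm_num
          · have h9 : f ω = 0 := by
              simp only [hf]
              exact if_neg fun hh => ht hh.2
            rw [h9, if_neg hr]
            simp only [hr, false_and, if_false, sum_const_zero, add_zero, sub_zero]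
            linarith
      refine (m3_mono h6).trans ?_
      rw [m3_add, m3_sub, m3_sub, m3_one, h1 w hwU, m3_sum, m3_sum]
      have h7 : ∑ t ∈ KR S U o w (S.r w a), mean (fun ω : Lab V κ → Fin (m ^ (2 * K + 1)) =>
          if retv S U o m K ω t then (1 : ℝ) else 0) =
          bet m K * (KR S U o w (S.r w a)).card := by
        rw [sum_congr rfl fun t ht => h1 t (hKR t ht).1, sum_const, nsmul_eq_mul, mul_comm]
      have h8 : ∑ t ∈ KR S U o w (S.r w a), mean (fun ω : Lab V κ → Fin (m ^ (2 * K + 1)) =>
          if retv S U o m K ω w ∧ retv S U o m K ω t then (1 : ℝ) else 0) ≤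
          (1 / (m : ℝ)) ^ 2 * (KR S U o w (S.r w a)).card := by
        refine (sum_le_sum fun t ht => h2 w hwU t (hKR t ht).1 (Ne.symm (hKR t ht).2.1)).trans
          (le_of_eq ?_)
        rw [sum_const, nsmul_eq_mul, mul_comm]
      rw [h7]
      linarith
    unfold Psi3
    have h6 : 0 ≤ 1 - eR S U L l m K x (S.r w a) := by
      have := h.eR_le (S.r w a)
      linarith
    have h7 := mul_le_mul_of_nonneg_right h5 h6
    linarith
  -- the sum
  have e2 : G3 S U L l m K x o u a = fun ω : Lab V κ → Fin (m ^ (2 * K + 1)) =>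
      ∑ w ∈ Pn S U L u a, if ¬ retv S U o m K ω w ∧
        (∀ t ∈ KR S U o w (S.r w a), ¬ retv S U o m K ω t) ∧
        ¬ bkv S U L l m K x ω (S.r w a) then (1 : ℝ) else 0 := by
    funext ω
    unfold G3
    rw [← sum_filter, sum_const, nsmul_eq_mul, mul_one]
  rw [e2, m3_sum]
  refine (sum_le_sum key).trans ?_
  rw [sum_add_distrib, sum_const, nsmul_eq_mul]
  have h4 := h.Pn2 hu ha
  have h5 : (0 : ℝ) ≤ (1 / 2) ^ K := by positivity
  have h6 := mul_le_mul_of_nonneg_right h4 h5
  linarith

end Pool.TCS
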