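import Pool.Agent.Helper3.TCS.Stmts
import Pool.Agent.Helper3.TCS.Bas

/-!
# Balls of the distance relation
-/

set_option autoImplicit false

namespace Pool.TCS

open Pool.TC Pool.TCM Finset
open scoped Classical

section

variable {V κ : Type} [Fintype V] [Fintype κ]

theorem stp_symm (S : CS V κ) {u w : V} (h : stp S u w) : stp S w u := by
  rcases h with h | h | h | h
  · exact Or.inl h.symm
  · exact Or.inr (Or.inl (S.symm _ _ h))
  · exact Or.inr (Or.inr (Or.inr h))
  · exact Or.inr (Or.inr (Or.inl h))

theorem near_cons (S : CS V κ) : ∀ (n : ℕ) {u v w : V}, stp S u v → near S n v w →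
    near S (n + 1) u w
  | 0, u, v, w, h, h' => by
      have h2 : v = w := h'
      subst h2
      exact ⟨u, rfl, h⟩
  | n + 1, u, v, w, h, h' => by
      obtain ⟨t, h1, h2⟩ := h'
      exact ⟨t, near_cons S n h h1, h2⟩

theorem near_symm (S : CS V κ) : ∀ (n : ℕ) (u w : V), near S n u w → near S n w u
  | 0, _, _, h => Eq.symm h
  | n + 1, u, w, h => by
      obtain ⟨t, h1, h2⟩ := h
      exact near_cons S n (stp_symm S h2) (near_symm S n u t h1)

theorem near_trans (S : CS V κ) : ∀ (n n' : ℕ) (u w x : V), near S n u w → near S n' w x →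
    near S (n + n') u x
  | n, 0, u, w, x, h, h' => by
      have h2 : w = x := h'
      subst h2
      exact h
  | n, n' + 1, u, w, x, h, h' => by
      obtain ⟨t, h1, h2⟩ := h'
      exact ⟨t, near_trans S n n' u w t h h1, h2⟩

theorem near_mono (S : CS V κ) (n n' : ℕ) (u w : V) (h : n ≤ n') (h' : near S n u w) :
    near S n' u w := by
  induction n', h using Nat.le_induction with
  | base => exact h'
  | succ k _ ih => exact ⟨w, ih, Or.inl rfl⟩

theorem stp_card (S : CS V κ) (D : ℕ) (hD : ∀ u, (univ.filter (fun v => S.adj u v)).card ≤ D)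
    (hκ : Fintype.card κ ≤ D) (u : V) : (univ.filter (fun w => stp S u w)).card ≤ 3 * D + 1 := by
  have hsub : univ.filter (fun w => stp S u w) ⊆ (({u} : Finset V) ∪
      univ.filter (fun v => S.adj u v)) ∪ ((univ.image (fun a => S.r u a)) ∪
        (univ.biUnion (fun a : κ => univ.filter (fun w => S.r w a = u)))) := by
    intro w hw
    rw [mem_filter] at hw
    rcases hw.2 with h | h | ⟨a, h⟩ | ⟨a, h⟩
    · exact mem_union_left _ (mem_union_left _ (mem_singleton.2 h.symm))
    · exact mem_union_left _ (mem_union_right _ (mem_filter.2 ⟨mem_univ _, h⟩))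
    · exact mem_union_right _ (mem_union_left _ (mem_image.2 ⟨a, mem_univ _, h⟩))
    · exact mem_union_right _ (mem_union_right _ (mem_biUnion.2
        ⟨a, mem_univ _, mem_filter.2 ⟨mem_univ _, h⟩⟩))
  have h1 : (univ.image (fun a => S.r u a)).card ≤ D :=
    card_image_le.trans ((le_of_eq (card_univ)).trans hκ)
  have h2 : (univ.biUnion (fun a : κ => univ.filter (fun w => S.r w a = u))).card ≤ D := by
    refine (card_biUnion_le_card_mul _ _ 1 ?_).trans ?_
    · intro a _
      rw [card_le_one]
      intro w hw w' hw'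
      rw [mem_filter] at hw hw'
      exact S.inj w w' a (hw.2.trans hw'.2.symm)
    · rw [mul_one, card_univ]
      exact hκ
  calc (univ.filter (fun w => stp S u w)).card ≤ _ := card_le_card hsub
    _ ≤ _ := card_union_le _ _
    _ ≤ (({u} : Finset V).card + (univ.filter (fun v => S.adj u v)).card) +
      ((univ.image (fun a => S.r u a)).card +
        (univ.biUnion (fun a : κ => univ.filter (fun w => S.r w a = u))).card) :=
        Nat.add_le_add (card_union_le _ _) (card_union_le _ _)
    _ ≤ (1 + D) + (D + D) := by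
        rw [card_singleton]
        exact Nat.add_le_add (Nat.add_le_add_left (hD u) 1) (Nat.add_le_add h1 h2)
    _ = 3 * D + 1 := by ring

theorem near_card (S : CS V κ) (D : ℕ) (hD : ∀ u, (univ.filter (fun v => S.adj u v)).card ≤ D)
    (hκ : Fintype.card κ ≤ D) (n : ℕ) (u : V) :
    (univ.filter (fun w => near S n u w)).card ≤ (3 * D + 1) ^ n := by
  induction n with
  | zero =>
    rw [pow_zero, card_le_one]
    intro w hw w' hw'
    rw [mem_filter] at hw hw'
    have h1 : u = w := hw.2
    have h2 : u = w' := hw'.2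
    exact h1.symm.trans h2
  | succ n ih =>
    have hsub : univ.filter (fun w => near S (n + 1) u w) ⊆
        (univ.filter (fun w => near S n u w)).biUnion
          (fun v => univ.filter (fun w => stp S v w)) := by
      intro w hw
      rw [mem_filter] at hw
      obtain ⟨v, h1, h2⟩ := hw.2
      exact mem_biUnion.2 ⟨v, mem_filter.2 ⟨mem_univ _, h1⟩, mem_filter.2 ⟨mem_univ _, h2⟩⟩
    refine (card_le_card hsub).trans ((card_biUnion_le_card_mul _ _ (3 * D + 1)
      (fun v _ => stp_card S D hD hκ v)).trans ?_)
    rw [pow_succ]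
    exact Nat.mul_le_mul_right _ ih

end

theorem thm_Near : St_Near := by
  intro V κ _ _ S D hD hκ
  exact ⟨near_symm S, near_trans S, near_mono S, near_card S D hD hκ⟩

end Pool.TCS
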