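import Pool.Agent.Helper3.TCS.Stmts
import Pool.Agent.Helper3.TCS.Bas

/-!
# One step of the nibble (helper21 for helper3)
-/

set_option autoImplicit false

namespace Pool.TCS

open Pool.TC Pool.TCM Finset
open scoped Classical

section step

variable {V κ : Type} [Fintype V] [Fintype κ] {S : CS V κ} {U : Finset V} {L : V → Finset κ}
  {D l m K : ℕ} {x y q Lam : ℝ}

theorem Step_sqrt (h : Hyp S U L D l m K x y q Lam) :
    Real.sqrt (Lam / l) * l = Real.sqrt (l * Lam) := by
  have hl := h.lpos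
  have h1 : (l : ℝ) * Lam = Lam / l * (l : ℝ) ^ 2 := by field_simp
  rw [h1, Real.sqrt_mul (div_nonneg h.L0.le hl.le), Real.sqrt_sq hl.le]

theorem Step_sqrt_ge (h : Hyp S U L D l m K x y q Lam) : 1 ≤ Real.sqrt (l * Lam) := by
  rw [Real.one_le_sqrt]
  have h1 := h.Lam_ge
  have h2 := h.Ll
  nlinarith

theorem Step_solv {o : V → κ} {ω : Lab V κ → Fin (m ^ (2 * K + 1))}
    (hG : Good S U L l m K x y q Lam o)
    (hs : Solv S (U.filter fun u => ¬ retv S U o m K ω u)
      (fun u => (L u).filter fun a => alive S U L l m K x q o ω u a)) : Solv S U L := by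
  obtain ⟨c, h1, h2, h3⟩ := hs
  have hU : ∀ u ∈ U, ¬ retv S U o m K ω u → u ∈ U.filter fun u => ¬ retv S U o m K ω u :=
    fun u hu h => mem_filter.2 ⟨hu, h⟩
  have hal : ∀ u ∈ U, ¬ retv S U o m K ω u → c u ∈ L u ∧ alive S U L l m K x q o ω u (c u) :=
    fun u hu h => mem_filter.1 (h1 u (hU u hu h))
  have hbb : ∀ u w, retv S U o m K ω u → retv S U o m K ω w → ¬ conf S o u w :=
    fun u w hu hw hc => hu.2.2.2 w hw.1 hc hw.2.1
  have hR : ∀ u ∈ U, ∀ w ∈ U, u ≠ w → retv S U o m K ω u → ¬ retv S U o m K ω w →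
      S.r u (o u) ≠ S.r w (c w) := by
    intro u hu w hw hne hr hn he
    obtain ⟨_, _, h5, _⟩ := hal w hw hn
    exact h5 u (by rw [KR, mem_filter]; exact ⟨mem_univ _, hu, hne, he⟩) hr
  have hP : ∀ u ∈ U, ∀ w ∈ U, S.adj u w → retv S U o m K ω u → ¬ retv S U o m K ω w →
      o u ≠ c w := by
    intro u hu w hw hadj hr hn he
    obtain ⟨_, h5, _⟩ := hal w hw hn
    exact h5 u (by rw [KP, mem_filter]; exact ⟨mem_univ _, hu, S.symm _ _ hadj, he⟩) hr
  refine ⟨fun u => if retv S U o m K ω u then o u else c u, ?_, ?_, ?_⟩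
  · intro u hu
    by_cases hr : retv S U o m K ω u
    · simp only [if_pos hr]
      exact hG.mem u hu
    · simp only [if_neg hr]
      exact (hal u hu hr).1
  · intro u hu w hw hne
    by_cases hr : retv S U o m K ω u
    · by_cases hr' : retv S U o m K ω w
      · simp only [if_pos hr, if_pos hr']
        exact fun he => hbb u w hr hr' ⟨hne, Or.inr he⟩
      · simp only [if_pos hr, if_neg hr']
        exact hR u hu w hw hne hr hr'
    · by_cases hr' : retv S U o m K ω w
      · simp only [if_neg hr, if_pos hr']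
        exact fun he => hR w hw u hu hne.symm hr' hr he.symm
      · simp only [if_neg hr, if_neg hr']
        exact h2 u (hU u hu hr) w (hU w hw hr') hne
  · intro u hu w hw hadj
    by_cases hr : retv S U o m K ω u
    · by_cases hr' : retv S U o m K ω w
      · simp only [if_pos hr, if_pos hr']
        refine fun he => hbb u w hr hr' ⟨?_, Or.inl ⟨hadj, he⟩⟩
        rintro rfl
        exact S.irr u hadj
      · simp only [if_pos hr, if_neg hr']
        exact hP u hu w hw hadj hr hr'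
    · by_cases hr' : retv S U o m K ω w
      · simp only [if_neg hr, if_pos hr']
        exact fun he => hP w hw u hu (S.symm _ _ hadj) hr' hr he.symm
      · simp only [if_neg hr, if_neg hr']
        exact h3 u (hU u hu hr) w (hU w hw hr') hadj

end step

theorem thm_Step (hChoice : St_Choice) (hActi : St_Acti) : St_Step := by
  intro V κ _ _ _ S U L D l m K x y q Lam hH
  obtain ⟨o, hG⟩ := hChoice V κ S U L D l m K x y q Lam hH
  obtain ⟨ω, a1, a2, a3⟩ := hActi V κ S U L D l m K x y q Lam o hH hG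
  have hl := hH.lpos
  have hK := hH.Kpos
  have hal := hH.al0
  have hb := hH.bet_pos
  have hb' := hH.bet_le'
  have hs := Step_sqrt hH
  have hs1 := Step_sqrt_ge hH
  have hErr : Err m K Lam l * l = 40 * (K : ℝ) ^ 3 * (1 / (m : ℝ)) ^ 3 * l +
      2 ^ 14 * (1 / 2) ^ K * l + 64 * (K : ℝ) ^ 2 * Real.sqrt (l * Lam) := by
    rw [← hs]; unfold Err; ring
  have hq : (1 / 4 : ℝ) ^ K ≤ (1 / 2) ^ K := pow_le_pow_left₀ (by norm_num) (by norm_num) K
  have hq0 : (0 : ℝ) < (1 / 2) ^ K := by positivity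
  have hK2 : (24 : ℝ) ^ 2 ≤ (K : ℝ) ^ 2 := pow_le_pow_left₀ (by norm_num) hK 2
  have hKS : 24 ^ 2 * Real.sqrt (l * Lam) ≤ (K : ℝ) ^ 2 * Real.sqrt (l * Lam) :=
    mul_le_mul_of_nonneg_right hK2 (by linarith)
  have hA : 0 ≤ (K : ℝ) ^ 3 * (1 / (m : ℝ)) ^ 3 * l := by positivity
  have hA1 : (K : ℝ) * (1 / (m : ℝ)) ^ 3 * l ≤ (K : ℝ) ^ 3 * (1 / (m : ℝ)) ^ 3 * l := by
    have h3 : (K : ℝ) ≤ (K : ℝ) ^ 3 := by nlinarith
    have h4 : 0 ≤ (1 / (m : ℝ)) ^ 3 * l := by positivity
    nlinarith [mul_le_mul_of_nonneg_right h3 h4]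
  have hQ : (1 / 4 : ℝ) ^ K * l ≤ (1 / 2) ^ K * l := mul_le_mul_of_nonneg_right hq hl.le
  have hQ0 : 0 < (1 / 2 : ℝ) ^ K * l := by positivity
  refine ⟨U.filter (fun u => ¬ retv S U o m K ω u),
    fun u => (L u).filter (fun a => alive S U L l m K x q o ω u a), filter_subset _ _,
    fun u _ => filter_subset _ _, ?_, ?_, ?_, fun h => Step_solv hG h⟩
  · intro u hu
    have hu' := (mem_filter.1 hu).1
    have h1 := a1 u hu'
    have h2 := hG.c1 u hu'
    have h3 : (l : ℝ) * ((1 - q) * (1 - bet m K * x / l) - Err m K Lam l) =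
        (l : ℝ) * ((1 - q) * (1 - bet m K * x / l)) - Err m K Lam l * l := by ring
    have h4 : (l : ℝ) * ((1 - q) * (1 - bet m K * x / l) - 2 ^ 13 * (1 / 4) ^ K) =
        (l : ℝ) * ((1 - q) * (1 - bet m K * x / l)) - 2 ^ 13 * ((1 / 4) ^ K * l) := by ring
    have h5 : G1 S U L l m K x q o u ω =
        (((L u).filter (fun a => alive S U L l m K x q o ω u a)).card : ℝ) := rfl
    rw [← h5, h3, hErr]
    rw [h4] at h2
    nlinarith
  · intro v
    have hsub : Cv S (U.filter (fun u => ¬ retv S U o m K ω u))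
        (fun u => (L u).filter (fun a => alive S U L l m K x q o ω u a)) v ⊆
        (Cv S U L v).filter (fun p => ¬ retv S U o m K ω p.1 ∧
          (∀ w ∈ KP S U o p.1 p.2, ¬ retv S U o m K ω w) ∧ ¬ ekv S U L l m K q ω p.1 p.2) := by
      intro p hp
      rw [Cv, mem_filter] at hp
      obtain ⟨_, h1, h2, h3⟩ := hp
      rw [mem_filter] at h1 h2
      rw [mem_filter, Cv, mem_filter]
      exact ⟨⟨mem_univ _, h1.1, h2.1, h3⟩, h1.2, h2.2.1, h2.2.2.2.2⟩
    have h0 : ((Cv S (U.filter (fun u => ¬ retv S U o m K ω u))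
        (fun u => (L u).filter (fun a => alive S U L l m K x q o ω u a)) v).card : ℝ) ≤
        G2 S U L l m K q o v ω := by
      unfold G2
      exact_mod_cast card_le_card hsub
    have h1 := a2 v
    have h2 := hG.c2 v
    rw [hErr]
    nlinarith
  · intro u hu a ha
    have hu' := (mem_filter.1 hu).1
    have ha' := (mem_filter.1 ha).1
    have hsub : Pn S (U.filter (fun u => ¬ retv S U o m K ω u))
        (fun u => (L u).filter (fun a => alive S U L l m K x q o ω u a)) u a ⊆
        (Pn S U L u a).filter (fun w => ¬ retv S U o m K ω w ∧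
          (∀ t ∈ KR S U o w (S.r w a), ¬ retv S U o m K ω t) ∧
            ¬ bkv S U L l m K x ω (S.r w a)) := by
      intro w hw
      rw [Pn, mem_filter] at hw
      obtain ⟨_, h1, h2, h3⟩ := hw
      rw [mem_filter] at h1 h3
      rw [mem_filter, Pn, mem_filter]
      exact ⟨⟨mem_univ _, h1.1, h2, h3.1⟩, h1.2, h3.2.2.1, h3.2.2.2.1⟩
    have h0 : ((Pn S (U.filter (fun u => ¬ retv S U o m K ω u))
        (fun u => (L u).filter (fun a => alive S U L l m K x q o ω u a)) u a).card : ℝ) ≤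
        G3 S U L l m K x o u a ω := by
      unfold G3
      exact_mod_cast card_le_card hsub
    have h1 := a3 u hu' a ha'
    have h2 := hG.c3 u hu' a ha'
    rw [hErr]
    nlinarith

end Pool.TCS
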