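import Pool.Agent.Helper3.TCM.LM
import Pool.Agent.Helper3.TCS.Near
import Pool.Agent.Helper3.TCS.LLL0
import Pool.Agent.Helper3.TCS.Bern
import Pool.Agent.Helper3.TCS.Mean
import Pool.Agent.Helper3.TCS.Box
import Pool.Agent.Helper3.TCS.IT
import Pool.Agent.Helper3.TCS.E1
import Pool.Agent.Helper3.TCS.E2
import Pool.Agent.Helper3.TCS.E3
import Pool.Agent.Helper3.TCS.E4
import Pool.Agent.Helper3.TCS.I1
import Pool.Agent.Helper3.TCS.I2
import Pool.Agent.Helper3.TCS.I3
import Pool.Agent.Helper3.TCS.Choice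
import Pool.Agent.Helper3.TCS.Ret
import Pool.Agent.Helper3.TCS.M1
import Pool.Agent.Helper3.TCS.M2
import Pool.Agent.Helper3.TCS.M3
import Pool.Agent.Helper3.TCS.J1
import Pool.Agent.Helper3.TCS.J2
import Pool.Agent.Helper3.TCS.J3
import Pool.Agent.Helper3.TCS.Acti
import Pool.Agent.Helper3.TCS.Step
import Pool.Agent.Helper3.TCS.Iter

/-!
The nibble: one step and the iteration.
-/

set_option autoImplicit false

namespace Pool.TCS

open Pool.TC Pool.TCM

theorem thm_ChoiceAll : St_Choice :=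
  thm_Choice thm_Near thm_LLL0 thm_Bern (thm_E1 thm_Mean) (thm_E2 thm_Mean) (thm_E3 thm_Mean)
    (thm_E4 thm_Mean) thm_I1 thm_I2 thm_I3

theorem thm_ActiAll : St_Acti :=
  thm_Acti thm_Near thm_LM (thm_M1 (thm_Ret thm_Box)) (thm_M2 (thm_Ret thm_Box))
    (thm_M3 (thm_Ret thm_Box)) thm_J1 thm_J2 thm_J3

theorem thm_StepAll : St_Step := thm_Step thm_ChoiceAll thm_ActiAll

theorem thm_IterAll : St_Iter := thm_Iter thm_StepAll thm_IT

end Pool.TCS
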