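import Pool.Agent.Helper3.TCS.Stmts
import Pool.Agent.Helper3.TCS.Bas

set_option autoImplicit false

namespace Pool.TCS

open Pool.TC Pool.TCM Finset
open scoped Classical

/-! ### Elementary estimates -/

theorem num5_bet {m K : ℕ} (hm : 0 < m) (h : 8 * K ≤ m) :
    3 / 4 * (1 / (m : ℝ)) ≤ bet m K ∧ bet m K ≤ 1 / (m : ℝ) := by
  have hm' : (0 : ℝ) < m := by exact_mod_cast hm
  have hm1 : (1 : ℝ) ≤ m := by exact_mod_cast hm
  have h8 : 8 * (K : ℝ) ≤ m := by exact_mod_cast h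
  have hi : 1 / (m : ℝ) ≤ 1 := by
    rw [div_le_one hm']
    exact hm1
  have hi0 : 0 < 1 / (m : ℝ) := by positivity
  unfold bet
  constructor
  · have h1 := one_add_mul_le_pow (a := -(1 / (m : ℝ))) (by linarith) (2 * K)
    have h2 : 3 / 4 ≤ 1 + ((2 * K : ℕ) : ℝ) * -(1 / (m : ℝ)) := by
      have h3 : ((2 * K : ℕ) : ℝ) * (1 / (m : ℝ)) ≤ 1 / 4 := by
        push_cast
        rw [mul_one_div, div_le_div_iff₀ hm' (by norm_num)]
        linarith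
      linarith
    rw [← sub_eq_add_neg] at h1
    have h4 := h2.trans h1
    have h5 := mul_le_mul_of_nonneg_left h4 hi0.le
    linarith
  · exact mul_le_of_le_one_right hi0.le (pow_le_one₀ (by linarith) (by linarith))

/-- growth of the gap -/
theorem num5_gn {m K T : ℕ} (hm : 0 < m) (h : 8 * K ≤ m) :
    (2 : ℝ) ^ T ≤ (1 + bet m K / 16) ^ (32 * m * T) := by
  obtain ⟨h1, -⟩ := num5_bet hm h
  have hm' : (0 : ℝ) < m := by exact_mod_cast hm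
  have hb0 : 0 ≤ bet m K := by
    have : 0 < 1 / (m : ℝ) := by positivity
    linarith
  rw [pow_mul]
  refine pow_le_pow_left₀ (by norm_num) ?_ T
  have h2 := one_add_mul_le_pow (a := bet m K / 16) (by linarith) (32 * m)
  refine le_trans ?_ h2
  push_cast
  have h3 : (3 : ℝ) / 4 ≤ m * bet m K := by
    have h4 := mul_le_mul_of_nonneg_left h1 hm'.le
    have h5 : (m : ℝ) * (3 / 4 * (1 / (m : ℝ))) = 3 / 4 := by field_simp
    linarith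
  linarith

/-- the lists do not become too short -/
theorem num5_L0 {m K T j : ℕ} (hm : m = 8 * j) (hj : 1 ≤ j) (h : 8 * K ≤ m) :
    ((1 : ℝ) / 2) ^ (256 * T) ≤ (1 - 3 * bet m K) ^ (32 * m * T) := by
  have hm0 : 0 < m := by omega
  obtain ⟨-, h1⟩ := num5_bet hm0 h
  have hm' : (0 : ℝ) < m := by exact_mod_cast hm0
  have hmj : (m : ℝ) = 8 * j := by exact_mod_cast hm
  have hj' : (1 : ℝ) ≤ j := by exact_mod_cast hj
  have h2 : 1 - 3 * (1 / (m : ℝ)) ≤ 1 - 3 * bet m K := by linarith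
  have h8 : 1 / (m : ℝ) ≤ 1 / 8 := by
    rw [div_le_div_iff₀ hm' (by norm_num)]
    linarith
  have h3 : (0 : ℝ) ≤ 1 - 3 * (1 / (m : ℝ)) := by linarith
  have h4 : (1 : ℝ) / 2 ≤ (1 - 3 * bet m K) ^ j := by
    refine le_trans ?_ (pow_le_pow_left₀ h3 h2 j)
    have h5 := one_add_mul_le_pow (a := -(3 * (1 / (m : ℝ)))) (by linarith) j
    rw [← sub_eq_add_neg] at h5
    refine le_trans ?_ h5
    have h6 : (j : ℝ) * (3 * (1 / (m : ℝ))) = 3 / 8 := by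
      rw [hmj]
      field_simp
    have h7 : (j : ℝ) * -(3 * (1 / (m : ℝ))) = -(3 / 8) := by rw [← h6]; ring
    rw [h7]
    norm_num
  have h9 : 32 * m * T = j * (256 * T) := by
    rw [hm]
    ring
  rw [h9, pow_mul (1 - 3 * bet m K) j (256 * T)]
  exact pow_le_pow_left₀ (by norm_num) h4 _

/-- exponentials -/
theorem num5_exp {X : ℕ} {G : ℕ} (h : 4 * X ≤ 2 ^ (17 * G ^ 2)) :
    4 * Real.exp (-(17 * (G : ℝ) ^ 2)) * X ≤ 1 := by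
  have h2 : (4 : ℝ) * X ≤ 2 ^ (17 * G ^ 2) := by exact_mod_cast h
  have h3 : (2 : ℝ) ^ (17 * G ^ 2) ≤ Real.exp (17 * (G : ℝ) ^ 2) := by
    have h4 : Real.exp (17 * (G : ℝ) ^ 2) = Real.exp 1 ^ (17 * G ^ 2) := by
      rw [Real.exp_one_pow]
      push_cast
      rfl
    rw [h4]
    apply pow_le_pow_left₀ (by norm_num)
    have := Real.add_one_le_exp (1 : ℝ)
    linarith
  rw [Real.exp_neg]
  have h5 : 0 < Real.exp (17 * (G : ℝ) ^ 2) := Real.exp_pos _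
  have h6 : 4 * (Real.exp (17 * (G : ℝ) ^ 2))⁻¹ * X = (4 * X) / Real.exp (17 * (G : ℝ) ^ 2) := by
    field_simp
  rw [h6, div_le_one h5]
  exact h2.trans h3

theorem num5_LL (D G : ℕ) (hG : 80 ≤ G) (hD : D + 1 ≤ 2 ^ (G + 1)) :
    4 * (2 * (D + 1) ^ 2 * LL D G * (D + 2) + 1) ≤ 2 ^ (17 * G ^ 2) := by
  have h1 : LL D G ≤ 2 ^ (9 + G) * (D + 1) ^ (16 * G + 3) := by
    unfold LL
    have h2 : 1 ≤ (D + 1) ^ (16 * G + 3) := Nat.one_le_pow _ _ (Nat.succ_pos D)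
    have h3 : G ≤ 2 ^ G := Nat.lt_two_pow_self.le
    have h4 : 4 ≤ 4 * G * (D + 1) ^ (16 * G + 3) := by
      have : 1 ≤ G * (D + 1) ^ (16 * G + 3) := Nat.one_le_iff_ne_zero.2
        (Nat.mul_ne_zero (by omega) (by omega))
      nlinarith
    calc 384 * G * (D + 1) ^ (16 * G + 3) + 4
        ≤ 384 * G * (D + 1) ^ (16 * G + 3) + 4 * G * (D + 1) ^ (16 * G + 3) := by omega
      _ = 388 * G * (D + 1) ^ (16 * G + 3) := by ring
      _ ≤ 2 ^ 9 * 2 ^ G * (D + 1) ^ (16 * G + 3) := by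
          apply Nat.mul_le_mul_right
          exact Nat.mul_le_mul (by norm_num) h3
      _ = 2 ^ (9 + G) * (D + 1) ^ (16 * G + 3) := by rw [pow_add 2 9 G]
  have h5 : 1 ≤ 2 ^ (11 + G) * (D + 1) ^ (16 * G + 6) := Nat.one_le_iff_ne_zero.2
    (Nat.mul_ne_zero (by positivity) (by positivity))
  calc 4 * (2 * (D + 1) ^ 2 * LL D G * (D + 2) + 1)
      ≤ 4 * (2 * (D + 1) ^ 2 * (2 ^ (9 + G) * (D + 1) ^ (16 * G + 3)) * (2 * (D + 1)) + 1) := by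
        have h6 : D + 2 ≤ 2 * (D + 1) := by omega
        gcongr
    _ = 4 * (2 ^ (11 + G) * (D + 1) ^ (16 * G + 6) + 1) := by
        have h7 : (D + 1) ^ (16 * G + 6) = (D + 1) ^ 2 * (D + 1) ^ (16 * G + 3) * (D + 1) := by
          rw [← pow_add, ← pow_succ]
          congr 1
          omega
        have h8 : 2 ^ (11 + G) = 4 * 2 ^ (9 + G) := by
          rw [show 11 + G = 2 + (9 + G) by omega, pow_add]
          norm_num
        rw [h7, h8]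
        ring
    _ ≤ 4 * (2 ^ (11 + G) * (D + 1) ^ (16 * G + 6) + 2 ^ (11 + G) * (D + 1) ^ (16 * G + 6)) := by
        gcongr
    _ = 2 ^ (14 + G) * (D + 1) ^ (16 * G + 6) := by
        rw [show 14 + G = 3 + (11 + G) by omega, pow_add 2 3]
        ring
    _ ≤ 2 ^ (14 + G) * (2 ^ (G + 1)) ^ (16 * G + 6) := by gcongr
    _ = 2 ^ (14 + G + (G + 1) * (16 * G + 6)) := by rw [← pow_mul, ← pow_add]
    _ ≤ 2 ^ (17 * G ^ 2) := by
        apply Nat.pow_le_pow_right (by norm_num)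
        nlinarith

theorem num5_12 (D G : ℕ) (hG : 80 ≤ G) (hD : D + 1 ≤ 2 ^ (G + 1)) :
    4 * ((3 * (D + 1) + 2) ^ 12 + 1) ≤ 2 ^ (17 * G ^ 2) := by
  have h1 : 3 * (D + 1) + 2 ≤ 2 ^ (G + 3) := by
    have h2 : 2 ^ (G + 3) = 4 * 2 ^ (G + 1) := by
      rw [show G + 3 = 2 + (G + 1) by omega, pow_add]
      norm_num
    have h3 : 2 ≤ 2 ^ (G + 1) := by
      calc 2 = 2 ^ 1 := by norm_num
        _ ≤ 2 ^ (G + 1) := Nat.pow_le_pow_right (by norm_num) (by omega)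
    omega
  have h4 : (3 * (D + 1) + 2) ^ 12 ≤ 2 ^ (12 * G + 36) := by
    calc (3 * (D + 1) + 2) ^ 12 ≤ (2 ^ (G + 3)) ^ 12 := Nat.pow_le_pow_left h1 12
      _ = 2 ^ (12 * G + 36) := by rw [← pow_mul]; congr 1; ring
  have h5 : 1 ≤ 2 ^ (12 * G + 36) := Nat.one_le_two_pow
  have h6 : 2 ^ (12 * G + 39) = 8 * 2 ^ (12 * G + 36) := by
    rw [show 12 * G + 39 = 3 + (12 * G + 36) by omega, pow_add]
    norm_num
  have h7 : 2 ^ (12 * G + 39) ≤ 2 ^ (17 * G ^ 2) := by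
    apply Nat.pow_le_pow_right (by norm_num)
    nlinarith
  omega

/-! ### The error terms -/

theorem num5_err0 {m0 K t0 A Z : ℕ} {Lam ll b : ℝ} (hK : 1 ≤ K) (ht : 1 ≤ t0) (hA : 1 ≤ A)
    (hm0 : m0 = 2 ^ 22 * K ^ 3 * t0 * A) (hb : 1 / (128 * (m0 : ℝ) ^ 2 * A) ≤ b)
    (h1 : 4096 * (m0 ^ 2 * t0 * A) ≤ Z) (h44 : 2 ^ 44 ≤ Z) (h2 : Z ^ 4 ≤ 2 ^ K)
    (h3 : Real.sqrt (Lam / ll) ≤ 1 / (Z : ℝ) ^ 4) (h4 : 64 * K ^ 2 ≤ Z) :
    Err m0 K Lam ll ≤ b / (128 * t0) := by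
  have hK' : (1 : ℝ) ≤ K := by exact_mod_cast hK
  have ht' : (1 : ℝ) ≤ t0 := by exact_mod_cast ht
  have hA' : (1 : ℝ) ≤ A := by exact_mod_cast hA
  have hm0' : (m0 : ℝ) = 2 ^ 22 * (K : ℝ) ^ 3 * t0 * A := by exact_mod_cast hm0
  have hm0p : (0 : ℝ) < m0 := by rw [hm0']; positivity
  have hZ44 : (2 : ℝ) ^ 44 ≤ Z := by exact_mod_cast h44
  have hZ0 : (0 : ℝ) < Z := by linarith [show (0 : ℝ) < 2 ^ 44 by positivity]
  have h1' : 4096 * ((m0 : ℝ) ^ 2 * t0 * A) ≤ Z := by exact_mod_cast h1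
  have h4' : 64 * (K : ℝ) ^ 2 ≤ Z := by exact_mod_cast h4
  have h2' : (Z : ℝ) ^ 4 ≤ 2 ^ K := by exact_mod_cast h2
  have hp : (0 : ℝ) < (m0 : ℝ) ^ 2 * t0 * A := by positivity
  set P : ℝ := (m0 : ℝ) ^ 2 * t0 * A with hP
  have hw : 1 / (2 ^ 14 * P) ≤ b / (128 * t0) := by
    have e1 : 1 / (2 ^ 14 * P) = 1 / (128 * (m0 : ℝ) ^ 2 * A) / (128 * t0) := by
      rw [hP]
      field_simp
      norm_num
    rw [e1]
    exact div_le_div_of_nonneg_right hb (by positivity)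
  refine le_trans ?_ hw
  have ha : 40 * (K : ℝ) ^ 3 * (1 / (m0 : ℝ)) ^ 3 ≤ 1 / (2 ^ 16 * P) := by
    have e1 : 40 * (K : ℝ) ^ 3 * (1 / (m0 : ℝ)) ^ 3 = 40 / (2 ^ 22 * P) := by
      have e2 : (1 / (m0 : ℝ)) ^ 3 = 1 / ((m0 : ℝ) ^ 2 * (2 ^ 22 * (K : ℝ) ^ 3 * t0 * A)) := by
        rw [← hm0', one_div_pow]
        congr 1
      rw [e2, hP]
      field_simp
    rw [e1, div_le_div_iff₀ (by positivity) (by positivity)]
    nlinarith
  have hZP : 1 / (16 * (Z : ℝ)) ≤ 1 / (2 ^ 16 * P) := by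
    apply one_div_le_one_div_of_le (by positivity)
    linarith
  have hb' : (2 : ℝ) ^ 14 * (1 / 2) ^ K ≤ 1 / (2 ^ 16 * P) := by
    refine le_trans ?_ hZP
    rw [one_div_pow, mul_one_div, div_le_div_iff₀ (by positivity) (by positivity), one_mul]
    refine le_trans ?_ h2'
    have e3 : (Z : ℝ) ^ 4 = Z ^ 3 * Z := by ring
    have e4 : (2 : ℝ) ^ 18 ≤ (Z : ℝ) ^ 3 := by
      calc (2 : ℝ) ^ 18 ≤ (2 ^ 44) ^ 3 := by norm_num
        _ ≤ (Z : ℝ) ^ 3 := pow_le_pow_left₀ (by positivity) hZ44 3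
    rw [e3]
    nlinarith
  have hc : 64 * (K : ℝ) ^ 2 * Real.sqrt (Lam / ll) ≤ 1 / (2 ^ 16 * P) := by
    refine le_trans ?_ hZP
    calc 64 * (K : ℝ) ^ 2 * Real.sqrt (Lam / ll) ≤ Z * (1 / (Z : ℝ) ^ 4) :=
          mul_le_mul h4' h3 (Real.sqrt_nonneg _) hZ0.le
      _ ≤ 1 / (16 * (Z : ℝ)) := by
          rw [mul_one_div, div_le_div_iff₀ (by positivity) (by positivity), one_mul]
          have e4 : (16 : ℝ) ≤ (Z : ℝ) ^ 2 := by nlinarith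
          have e5 : (Z : ℝ) ^ 4 = Z ^ 2 * Z ^ 2 := by ring
          have e6 : 0 < (Z : ℝ) ^ 2 := by positivity
          rw [e5]
          nlinarith
  have e7 : 1 / (2 ^ 14 * P) = 4 * (1 / (2 ^ 16 * P)) := by
    field_simp
    norm_num
  have e8 : 0 < 1 / (2 ^ 16 * P) := by positivity
  unfold Err
  rw [e7]
  linarith

theorem num5_err2 {m2 K L0 Z : ℕ} {g : ℝ} (hK : 1 ≤ K) (hm2 : m2 = 256 * K ^ 2 * Z)
    (hL0 : L0 = K * (2 ^ 16 * K ^ 2 * m2 * Z) ^ 2) (hg : g = 1 / (Z : ℝ))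
    (h44 : 2 ^ 44 ≤ Z) (h2 : Z ^ 4 ≤ 2 ^ K) (h4 : 256 * K ^ 2 ≤ Z) :
    8 * Err m2 K (K : ℝ) L0 ≤ g * bet m2 K / 16 := by
  have hK' : (1 : ℝ) ≤ K := by exact_mod_cast hK
  have hZ44 : (2 : ℝ) ^ 44 ≤ Z := by exact_mod_cast h44
  have hZ0 : (0 : ℝ) < Z := by linarith [show (0 : ℝ) < 2 ^ 44 by positivity]
  have hZn : 0 < Z := by exact_mod_cast hZ0
  have hm2' : (m2 : ℝ) = 256 * (K : ℝ) ^ 2 * Z := by exact_mod_cast hm2
  have hm2p : (0 : ℝ) < m2 := by rw [hm2']; positivity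
  have hm2n : 0 < m2 := by exact_mod_cast hm2p
  have h2' : (Z : ℝ) ^ 4 ≤ 2 ^ K := by exact_mod_cast h2
  have h4' : 256 * (K : ℝ) ^ 2 ≤ Z := by exact_mod_cast h4
  have h8 : 8 * K ≤ m2 := by
    rw [hm2]
    have e1 : K ≤ K ^ 2 := by nlinarith
    nlinarith
  obtain ⟨hb, -⟩ := num5_bet hm2n h8
  have hW : 0 < (m2 : ℝ) * Z := by positivity
  have hR : 3 / 64 * (1 / ((m2 : ℝ) * Z)) ≤ g * bet m2 K / 16 := by
    rw [hg]
    have e1 : 3 / 64 * (1 / ((m2 : ℝ) * Z)) = 1 / (Z : ℝ) * (3 / 4 * (1 / (m2 : ℝ))) / 16 := by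
      field_simp
      norm_num
    rw [e1]
    have e2 : 0 < 1 / (Z : ℝ) := by positivity
    have e3 := mul_le_mul_of_nonneg_left hb e2.le
    linarith
  refine le_trans ?_ hR
  have ha : 8 * (40 * (K : ℝ) ^ 3 * (1 / (m2 : ℝ)) ^ 3) ≤ 1 / 64 * (1 / ((m2 : ℝ) * Z)) := by
    have e1 : 8 * (40 * (K : ℝ) ^ 3 * (1 / (m2 : ℝ)) ^ 3) =
        320 * (K : ℝ) ^ 3 / ((m2 : ℝ) ^ 2 * m2) := by
      field_simp
      norm_num
    have e2 : 1 / 64 * (1 / ((m2 : ℝ) * Z)) = 1 / (64 * (m2 * Z)) := by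
      field_simp
    rw [e1, e2, div_le_div_iff₀ (by positivity) (by positivity)]
    have e3 : 320 * (K : ℝ) ^ 3 * 64 * Z ≤ (m2 : ℝ) ^ 2 := by
      rw [hm2']
      have e4 : (256 * (K : ℝ) ^ 2 * Z) ^ 2 = 65536 * (K : ℝ) ^ 3 * Z * (K * Z) := by ring
      rw [e4]
      have e5 : (1 : ℝ) ≤ K * Z := by nlinarith
      have e6 : 0 < (K : ℝ) ^ 3 * Z := by positivity
      nlinarith
    nlinarith
  have hb' : 8 * ((2 : ℝ) ^ 14 * (1 / 2) ^ K) ≤ 1 / 64 * (1 / ((m2 : ℝ) * Z)) := by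
    have e2 : 1 / 64 * (1 / ((m2 : ℝ) * Z)) = 1 / (64 * (m2 * Z)) := by
      field_simp
    have e1 : 8 * ((2 : ℝ) ^ 14 * (1 / 2) ^ K) = 2 ^ 17 / 2 ^ K := by
      rw [one_div_pow]
      ring
    rw [e1, e2, div_le_div_iff₀ (by positivity) (by positivity), one_mul]
    refine le_trans ?_ h2'
    rw [hm2']
    have e3 : (256 * (K : ℝ) ^ 2 * Z) * Z ≤ Z ^ 3 := by
      have : 256 * (K : ℝ) ^ 2 * Z * Z ≤ Z * Z * Z := by gcongr
      calc (256 * (K : ℝ) ^ 2 * Z) * Z ≤ Z * Z * Z := this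
        _ = Z ^ 3 := by ring
    have e4 : (Z : ℝ) ^ 4 = Z ^ 3 * Z := by ring
    have e5 : 0 < (Z : ℝ) ^ 3 := by positivity
    rw [e4]
    nlinarith
  have hc : 8 * (64 * (K : ℝ) ^ 2 * Real.sqrt ((K : ℝ) / L0)) ≤
      1 / 64 * (1 / ((m2 : ℝ) * Z)) := by
    have e0 : (0 : ℝ) < 2 ^ 16 * (K : ℝ) ^ 2 * m2 * Z := by positivity
    have e1 : (K : ℝ) / L0 = (1 / (2 ^ 16 * (K : ℝ) ^ 2 * m2 * Z)) ^ 2 := by
      have e9 : (L0 : ℝ) = K * (2 ^ 16 * (K : ℝ) ^ 2 * m2 * Z) ^ 2 := by exact_mod_cast hL0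
      have e10 : (K : ℝ) ≠ 0 := by positivity
      rw [e9, one_div_pow, div_mul_eq_div_div, div_self e10]
    rw [e1, Real.sqrt_sq (by positivity)]
    have e2 : 8 * (64 * (K : ℝ) ^ 2 * (1 / (2 ^ 16 * (K : ℝ) ^ 2 * m2 * Z))) =
        1 / 128 * (1 / ((m2 : ℝ) * Z)) := by
      field_simp
      norm_num
    rw [e2]
    have e3 : 0 < 1 / ((m2 : ℝ) * Z) := by positivity
    nlinarith
  unfold Err
  linarith

/-! ### The algebra of the first step -/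

theorem num5_xg {be lam q E g f : ℝ} (hbe : 0 ≤ be) (hl0 : 0 ≤ lam) (hl : lam ≤ 1 - f / 2)
    (hq0 : 0 ≤ q) (hq : q ≤ 1 / 2) (hg0 : 0 ≤ g) (hg1 : g ≤ 1) (hg : g ≤ f / 8) (hE0 : 0 ≤ E)
    (hE : E ≤ f / 16) :
    lam * (1 - be) * (1 - q) + E ≤ (1 - g) * ((1 - q) * (1 - be * lam) - E) := by
  have h1 : 0 ≤ g * (be * lam) := by positivity
  have h2 : f * (3 / 8) ≤ (1 - g) * (1 - be * lam) - lam * (1 - be) := by nlinarith
  have h3 : 0 ≤ f := by linarith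
  have h4 : (1 - q) * (f * (3 / 8)) ≤ (1 - q) * ((1 - g) * (1 - be * lam) - lam * (1 - be)) :=
    mul_le_mul_of_nonneg_left h2 (by linarith)
  have h5 : 0 ≤ E * g := by positivity
  nlinarith

theorem num5_yg {be lam mu q E g b de : ℝ} (hbe : 0 ≤ be) (hbe1 : be ≤ 1 / 2) (hl0 : 0 ≤ lam)
    (hl : lam ≤ 1) (hmu : mu ≤ 1 + 2 * b) (hq0 : 0 ≤ q)
    (hq : q ≤ be * mu - de) (hg0 : 0 ≤ g) (hg1 : g ≤ 1) (hE0 : 0 ≤ E)
    (hde : 2 * b + g + 4 * E ≤ de) :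
    mu * (1 - be) * (1 - be * lam) + E ≤ (1 - g) * ((1 - q) * (1 - be * lam) - E) := by
  have h1 : 4 * E ≤ (1 - g) * (1 - q) - mu * (1 - be) := by nlinarith
  have h2 : 1 / 2 ≤ 1 - be * lam := by nlinarith
  have h3 : (1 - be * lam) * (4 * E) ≤ (1 - be * lam) * ((1 - g) * (1 - q) - mu * (1 - be)) :=
    mul_le_mul_of_nonneg_left h1 (by linarith)
  have h5 : 0 ≤ E * g := by positivity
  nlinarith

/-- natural numbers: everything is bounded by `Z` -/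
theorem num5_nat {K t0 A m0 R Q Z G : ℕ} (hG : 80 ≤ G) (hK : K = 17 * G ^ 2)
    (ht0 : t0 = 9 + 6664 * G ^ 2) (hA : 1 ≤ A) (hm0 : m0 = 2 ^ 22 * K ^ 3 * t0 * A)
    (hR1 : 64 * m0 ^ 2 * A ≤ R) (hQ1 : 64 * t0 ≤ Q) (hZ : Z = R * Q) :
    4096 * (m0 ^ 2 * t0 * A) ≤ Z ∧ 2 ^ 44 ≤ Z ∧ 2 ^ 16 * K ^ 2 ≤ Z ∧ K ≤ Z ∧ t0 ≤ Z ∧
      G + 2 ≤ Z ∧ A ≤ Z ∧ R ≤ Z ∧ 2 ^ 22 ≤ m0 ∧ 8 * K ≤ m0 := by
  have hK1 : 1 ≤ K := by rw [hK]; nlinarith
  have ht1 : 1 ≤ t0 := by omega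
  have hQ0 : 1 ≤ Q := by omega
  have hm1 : 2 ^ 22 * K ^ 3 ≤ m0 := by
    rw [hm0]
    calc 2 ^ 22 * K ^ 3 = 2 ^ 22 * K ^ 3 * 1 * 1 := by ring
      _ ≤ 2 ^ 22 * K ^ 3 * t0 * A := by gcongr
  have hK3 : K ≤ K ^ 3 := Nat.le_self_pow (by norm_num) K
  have hm22 : 2 ^ 22 ≤ m0 := by nlinarith
  have hm8 : 8 * K ≤ m0 := by nlinarith
  have hRm : m0 ^ 2 ≤ R := by
    refine le_trans ?_ hR1
    calc m0 ^ 2 = 1 * m0 ^ 2 * 1 := by ring
      _ ≤ 64 * m0 ^ 2 * A := by gcongr; norm_num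
  have hRZ : R ≤ Z := by
    rw [hZ]
    exact Nat.le_mul_of_pos_right _ hQ0
  have hA2 : A ≤ R := by
    refine le_trans ?_ hR1
    have : 1 ≤ 64 * m0 ^ 2 := by
      have : 1 ≤ m0 ^ 2 := Nat.one_le_pow _ _ (by omega)
      omega
    nlinarith
  have hR0 : 1 ≤ R := hA.trans hA2
  have h44 : 2 ^ 44 ≤ m0 ^ 2 := by
    calc 2 ^ 44 = (2 ^ 22) ^ 2 := by norm_num
      _ ≤ m0 ^ 2 := Nat.pow_le_pow_left hm22 2
  have h16 : 2 ^ 16 * K ^ 2 ≤ m0 ^ 2 := by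
    calc 2 ^ 16 * K ^ 2 = (2 ^ 8 * K) ^ 2 := by ring
      _ ≤ m0 ^ 2 := Nat.pow_le_pow_left (by nlinarith) 2
  have hKZ : K ≤ Z := by
    refine le_trans ?_ (h16.trans (hRm.trans hRZ))
    nlinarith
  refine ⟨?_, h44.trans (hRm.trans hRZ), h16.trans (hRm.trans hRZ), hKZ, ?_, ?_,
    hA2.trans hRZ, hRZ, hm22, hm8⟩
  · rw [hZ]
    calc 4096 * (m0 ^ 2 * t0 * A) = (64 * m0 ^ 2 * A) * (64 * t0) := by ring
      _ ≤ R * Q := Nat.mul_le_mul hR1 hQ1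
  · rw [hZ]
    have : t0 ≤ Q := by omega
    exact this.trans (Nat.le_mul_of_pos_left _ hR0)
  · refine le_trans ?_ hKZ
    rw [hK]
    nlinarith


/-- the size of the error -/
theorem num5_e {d Z K : ℝ} (hZ : 2 ^ 44 ≤ Z) (hd : Z ^ 300 ≤ d) (hK : K ≤ Z) :
    Real.sqrt (d * K) ≤ d / Z ^ 8 ∧ Z ≤ d / Z ^ 8 ∧ 10 ^ 6 * Z ^ 4 * (d / Z ^ 8) ≤ d := by
  have hZ1 : 1 ≤ Z := le_trans (by norm_num) hZ
  have hZ0 : 0 < Z := by linarith
  have h17 : Z ^ 17 ≤ d := (pow_le_pow_right₀ hZ1 (by norm_num)).trans hd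
  have hd0 : 0 < d := lt_of_lt_of_le (by positivity) h17
  refine ⟨?_, ?_, ?_⟩
  · rw [Real.sqrt_le_left (by positivity), div_pow, le_div_iff₀ (by positivity)]
    calc d * K * (Z ^ 8) ^ 2 ≤ d * Z * (Z ^ 8) ^ 2 := by gcongr
      _ = d * Z ^ 17 := by ring
      _ ≤ d * d := by gcongr
      _ = d ^ 2 := by ring
  · rw [le_div_iff₀ (by positivity)]
    calc Z * Z ^ 8 = Z ^ 9 := by ring
      _ ≤ Z ^ 17 := pow_le_pow_right₀ hZ1 (by norm_num)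
      _ ≤ d := h17
  · rw [mul_div_assoc', div_le_iff₀ (by positivity)]
    have h1 : (10 : ℝ) ^ 6 ≤ Z ^ 4 :=
      le_trans (by norm_num) (pow_le_pow_left₀ (by positivity) hZ 4)
    calc 10 ^ 6 * Z ^ 4 * d ≤ Z ^ 4 * Z ^ 4 * d := by gcongr
      _ = d * Z ^ 8 := by ring

/-- the length of the lists -/
theorem num5_ll {d J u n1 e G b t0 f Z L : ℝ} (hZ : 2 ^ 44 ≤ Z) (he : Z ≤ e)
    (hde : 10 ^ 6 * Z ^ 4 * e ≤ d) (hn0 : 0 ≤ n1) (hn : n1 ≤ e) (hG0 : 0 ≤ G) (hG : G + 2 ≤ Z)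
    (hb0 : 0 < b) (hb : 1 ≤ b * Z) (hb1 : b ≤ 1 / 64) (hJ0 : 0 ≤ J) (hJ : J ≤ b * d)
    (hu : u = (d - J) / 2) (ht1 : 1 ≤ t0) (ht : t0 ≤ Z) (hf : f = b / (8 * t0))
    (hL1 : u - G - 2 - 2 * n1 ≤ L) (hL2 : L ≤ u - 1 - G - 2 * n1) :
    d / 4 ≤ L ∧ L ≤ d / 2 - 1 ∧ u * (1 - f) + 2 * t0 * n1 ≤ (1 - f / 2) * L ∧
      d / 2 + 32 * n1 ≤ (1 + 2 * b) * L := by
  have hZ1 : 1 ≤ Z := le_trans (by norm_num) hZ
  have hZ0 : 0 < Z := by linarith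
  have he0 : 0 < e := by linarith
  have hZ2 : 1 ≤ Z ^ 2 := one_le_pow₀ hZ1
  have hZ3 : 1 ≤ Z ^ 3 := one_le_pow₀ hZ1
  have hZ4 : 1 ≤ Z ^ 4 := one_le_pow₀ hZ1
  have hd1 : 10 ^ 6 * e ≤ d := by
    refine le_trans ?_ hde
    have := mul_le_mul_of_nonneg_right hZ4 he0.le
    linarith
  have hd0 : 0 < d := by linarith
  have hbd : b * d ≤ d / 64 := by
    have := mul_le_mul_of_nonneg_right hb1 hd0.le
    linarith
  have hu1 : d * (63 / 128) ≤ u := by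
    rw [hu]
    linarith
  have hu2 : u ≤ d / 2 := by
    rw [hu]
    linarith
  have hf0 : 0 < f := by rw [hf]; positivity
  have hf1 : 1 ≤ f * (8 * Z ^ 2) := by
    have e1 : f * (8 * Z ^ 2) = (b * Z) * Z / t0 := by
      rw [hf]
      field_simp
    rw [e1, le_div_iff₀ (by linarith)]
    nlinarith
  have hf2 : f ≤ 1 := by
    rw [hf, div_le_one (by positivity)]
    linarith
  have hdf : 40 * (Z * e) ≤ d * f := by
    have e1 : 10 ^ 6 * Z ^ 4 * e ≤ d * f * (8 * Z ^ 2) := by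
      refine hde.trans ?_
      have := mul_le_mul_of_nonneg_left hf1 hd0.le
      linarith
    have e2 : Z ^ 2 * (10 ^ 6 * Z ^ 2 * e) ≤ Z ^ 2 * (8 * (d * f)) := by
      calc Z ^ 2 * (10 ^ 6 * Z ^ 2 * e) = 10 ^ 6 * Z ^ 4 * e := by ring
        _ ≤ d * f * (8 * Z ^ 2) := e1
        _ = Z ^ 2 * (8 * (d * f)) := by ring
    have e3 := le_of_mul_le_mul_left e2 (by positivity)
    have e4 : Z * e ≤ Z ^ 2 * e := by
      have : Z ≤ Z ^ 2 := by nlinarith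
      exact mul_le_mul_of_nonneg_right this he0.le
    have e5 : 0 < Z * e := by positivity
    linarith
  have hdb : 164 * e ≤ d * b := by
    have e1 : 10 ^ 6 * Z ^ 4 * e ≤ d * b * Z := by
      refine hde.trans ?_
      have := mul_le_mul_of_nonneg_left hb hd0.le
      linarith
    have e2 : Z * (10 ^ 6 * Z ^ 3 * e) ≤ Z * (d * b) := by
      calc Z * (10 ^ 6 * Z ^ 3 * e) = 10 ^ 6 * Z ^ 4 * e := by ring
        _ ≤ d * b * Z := e1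
        _ = Z * (d * b) := by ring
    have e3 := le_of_mul_le_mul_left e2 hZ0
    have e4 := mul_le_mul_of_nonneg_right hZ3 he0.le
    linarith
  have hZe : e ≤ Z * e := by nlinarith
  refine ⟨by linarith, by linarith, ?_, ?_⟩
  · have e1 : t0 * n1 ≤ Z * e := mul_le_mul ht hn hn0 hZ0.le
    have e2 : d * (63 / 128) * f ≤ u * f := mul_le_mul_of_nonneg_right hu1 hf0.le
    have e3 : 0 ≤ f / 2 * (G + 2 + 2 * n1) := by positivity
    have e4 : (1 - f / 2) * (u - G - 2 - 2 * n1) ≤ (1 - f / 2) * L :=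
      mul_le_mul_of_nonneg_left hL1 (by linarith)
    nlinarith
  · have e4 : (1 + 2 * b) * (u - G - 2 - 2 * n1) ≤ (1 + 2 * b) * L :=
      mul_le_mul_of_nonneg_left hL1 (by linarith)
    have e5 : (1 + 2 * b) * (d * (1 - b) / 2 - 3 * e) ≤ (1 + 2 * b) * (u - G - 2 - 2 * n1) := by
      apply mul_le_mul_of_nonneg_left _ (by linarith)
      rw [hu]
      linarith
    have e6 : d * b * b ≤ d * b * (1 / 64) := mul_le_mul_of_nonneg_left hb1 (by positivity)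
    have e7 : b * e ≤ 1 / 64 * e := mul_le_mul_of_nonneg_right hb1 he0.le
    nlinarith

/-- the probability `q` -/
theorem num5_q {be y Nn L q b δ : ℝ} (hL : 0 < L) (hbe : 0 ≤ be) (hbe1 : be ≤ 1 / 2)
    (hy : y ≤ (1 + 2 * b) * L) (hy1 : L ≤ y) (hb : b ≤ 1 / 64) (hN : δ / 4 * L ^ 2 ≤ Nn)
    (hN2 : Nn ≤ 2 * L ^ 2) (hδ : 0 ≤ δ) (hq : q = be * y / L - be ^ 2 * Nn / L ^ 2) :
    0 ≤ q ∧ q ≤ 2 * be ∧ q ≤ be * (y / L) - be ^ 2 * δ / 4 ∧ y / L ≤ 1 + 2 * b := by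
  have h1 : y / L ≤ 1 + 2 * b := by
    rw [div_le_iff₀ hL]
    exact hy
  have h2 : 1 ≤ y / L := by
    rw [le_div_iff₀ hL]
    linarith
  have hL2 : 0 < L ^ 2 := by positivity
  have h3 : δ / 4 ≤ Nn / L ^ 2 := by
    rw [le_div_iff₀ hL2]
    exact hN
  have h4 : Nn / L ^ 2 ≤ 2 := by
    rw [div_le_iff₀ hL2]
    exact hN2
  have h5 : q = be * (y / L) - be ^ 2 * (Nn / L ^ 2) := by
    rw [hq, mul_div_assoc, mul_div_assoc]
  have h6 : be ^ 2 * (δ / 4) ≤ be ^ 2 * (Nn / L ^ 2) := mul_le_mul_of_nonneg_left h3 (sq_nonneg _)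
  have h7 : be ^ 2 * (Nn / L ^ 2) ≤ be ^ 2 * 2 := mul_le_mul_of_nonneg_left h4 (sq_nonneg _)
  have h8 : be * 1 ≤ be * (y / L) := mul_le_mul_of_nonneg_left h2 hbe
  have h9 : be * (y / L) ≤ be * (1 + 2 * b) := mul_le_mul_of_nonneg_left h1 hbe
  have h10 : be * b ≤ be * (1 / 64) := mul_le_mul_of_nonneg_left hb hbe
  have h11 : 0 ≤ be ^ 2 * (δ / 4) := by positivity
  have h12 : be ^ 2 ≤ be * (1 / 2) := by
    rw [sq]
    exact mul_le_mul_of_nonneg_left hbe1 hbe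
  refine ⟨?_, ?_, ?_, h1⟩
  · rw [h5]
    linarith
  · rw [h5]
    linarith
  · rw [h5]
    linarith

/-- the number of non-adjacent pairs -/
theorem num5_N {D d n1 e δ L Z : ℝ} (hd : d = D + 1) (hZ : 2 ^ 44 ≤ Z) (he : Z ≤ e)
    (hde : 10 ^ 6 * Z ^ 4 * e ≤ d) (hn0 : 0 ≤ n1) (hn : n1 ≤ e) (hδ : 0 < δ) (hδ1 : δ ≤ 1)
    (hδZ : 1 ≤ δ * Z) (hL1 : d / 4 ≤ L) (hL2 : L ≤ d / 2) :
    δ / 4 * L ^ 2 ≤ (δ * D ^ 2 - D) / 8 - 16 * d * n1 ∧
      (δ * D ^ 2 - D) / 8 - 16 * d * n1 ≤ 2 * L ^ 2 := by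
  have hZ1 : 1 ≤ Z := le_trans (by norm_num) hZ
  have hZ0 : 0 < Z := by linarith
  have he0 : 0 < e := by linarith
  have hZ3 : 1 ≤ Z ^ 3 := one_le_pow₀ hZ1
  have hZ4 : 1 ≤ Z ^ 4 := one_le_pow₀ hZ1
  have hd1 : 10 ^ 6 * e ≤ d := by
    refine le_trans ?_ hde
    have := mul_le_mul_of_nonneg_right hZ4 he0.le
    linarith
  have hd0 : 0 < d := by linarith
  have hdδ : 10 ^ 6 * e ≤ d * δ := by
    have e1 : 10 ^ 6 * Z ^ 4 * e ≤ d * δ * Z := by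
      refine hde.trans ?_
      have := mul_le_mul_of_nonneg_left hδZ hd0.le
      linarith
    have e2 : Z * (10 ^ 6 * Z ^ 3 * e) ≤ Z * (d * δ) := by
      calc Z * (10 ^ 6 * Z ^ 3 * e) = 10 ^ 6 * Z ^ 4 * e := by ring
        _ ≤ d * δ * Z := e1
        _ = Z * (d * δ) := by ring
    have e3 := le_of_mul_le_mul_left e2 hZ0
    have e4 := mul_le_mul_of_nonneg_right hZ3 he0.le
    linarith
  have hD : D = d - 1 := by linarith
  have hLd : L ^ 2 ≤ (d / 2) ^ 2 := pow_le_pow_left₀ (by linarith) hL2 2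
  have hLd1 : (d / 4) ^ 2 ≤ L ^ 2 := pow_le_pow_left₀ (by linarith) hL1 2
  have h1 : d * n1 ≤ d * e := mul_le_mul_of_nonneg_left hn hd0.le
  have h2 : d * (10 ^ 6 * e) ≤ d * (d * δ) := mul_le_mul_of_nonneg_left hdδ hd0.le
  have h3 : d * 1 ≤ d * e := mul_le_mul_of_nonneg_left (by linarith) hd0.le
  have h4 : δ * d ≤ 1 * d := mul_le_mul_of_nonneg_right hδ1 hd0.le
  have h5 : 0 ≤ d * n1 := by positivity
  have h6 : δ / 4 * L ^ 2 ≤ δ / 4 * (d / 2) ^ 2 := mul_le_mul_of_nonneg_left hLd (by positivity)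
  have h7 : δ * d ^ 2 ≤ 1 * d ^ 2 := mul_le_mul_of_nonneg_right hδ1 (by positivity)
  rw [hD]
  constructor
  · nlinarith
  · nlinarith

theorem num5_4 {G T : ℕ} (hG : 80 ≤ G) (hT : 300 * T ≤ G) : T * 4 ≤ 17 * G ^ 2 := by
  nlinarith

theorem num5_tG {G : ℝ} (hG : 80 ≤ G) : 8 * G + 3 ≤ 9 + 6664 * G ^ 2 := by
  nlinarith

theorem num5_8 {K Z : ℕ} (hK : 1 ≤ K) (hZ : 0 < Z) : 8 * K ≤ 256 * K ^ 2 * Z := by
  have h1 : K ≤ K ^ 2 := by nlinarith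
  calc 8 * K = 8 * K * 1 := by ring
    _ ≤ 256 * K ^ 2 * Z := by gcongr <;> omega

/-- the parameters of one graph -/
theorem num5_core {D G A r T0 : ℕ} (hG : 80 ≤ G) (hlow : 2 ^ G ≤ D) (hup : D < 2 ^ (G + 1))
    (hA : 1 ≤ A)
    (hR1 : 64 * (2 ^ 22 * (17 * G ^ 2) ^ 3 * (9 + 6664 * G ^ 2) * A) ^ 2 * A ≤ 2 ^ r)
    (hR2 : 2 ^ r ≤ 128 * (2 ^ 22 * (17 * G ^ 2) ^ 3 * (9 + 6664 * G ^ 2) * A) ^ 2 * A)
    (hQ1 : 64 * (9 + 6664 * G ^ 2) ≤ 2 ^ T0) (hT : 300 * (r + T0) ≤ G) :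
    ∃ (s l ρ r t0 K m0 m2 n L0 ll : ℕ) (g Lam x y q l1 : ℝ),
      N5 D s l ρ r t0 K m0 m2 n L0 ll (1 / (A : ℝ)) g Lam x y q l1 := by
  obtain ⟨K, hK⟩ : ∃ K, K = 17 * G ^ 2 := ⟨_, rfl⟩
  obtain ⟨t0, ht0⟩ : ∃ t0, t0 = 9 + 6664 * G ^ 2 := ⟨_, rfl⟩
  rw [← hK, ← ht0] at hR1 hR2
  rw [← ht0] at hQ1
  obtain ⟨m0, hm0⟩ : ∃ m0, m0 = 2 ^ 22 * K ^ 3 * t0 * A := ⟨_, rfl⟩
  rw [← hm0] at hR1 hR2
  obtain ⟨Z, hZdef⟩ : ∃ Z, Z = 2 ^ r * 2 ^ T0 := ⟨_, rfl⟩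
  obtain ⟨z1, z44, z16, zK, zt, zG, zA, zR, m22, m8⟩ :=
    num5_nat hG hK ht0 hA hm0 hR1 hQ1 hZdef
  have hK1 : 1 ≤ K := by rw [hK]; nlinarith
  have hK24 : 24 ≤ K := by rw [hK]; nlinarith
  have ht1 : 1 ≤ t0 := by omega
  have hm0n : 0 < m0 := by omega
  obtain ⟨l, hl⟩ : ∃ l, G = l + 1 := ⟨G - 1, by omega⟩
  have hl2 : 2 ^ G = 2 * 2 ^ l := by rw [hl, pow_succ]; ring
  have hl4 : 2 ^ (G + 1) = 4 * 2 ^ l := by rw [pow_succ, hl2]; ring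
  have hlp : 0 < 2 ^ l := by positivity
  obtain ⟨s, hs⟩ : ∃ s, s = (D + 1) / 2 ^ l := ⟨_, rfl⟩
  obtain ⟨ρ, hρ⟩ : ∃ ρ, ρ = (D + 1) % 2 ^ l := ⟨_, rfl⟩
  have hsρ : s * 2 ^ l + ρ = D + 1 := by rw [hs, hρ]; exact Nat.div_add_mod' (D + 1) (2 ^ l)
  have hρl : ρ < 2 ^ l := by rw [hρ]; exact Nat.mod_lt _ hlp
  have hs2 : 2 ≤ s := by
    rw [hs, Nat.le_div_iff_mul_le hlp]
    omega
  have hrl : r ≤ l := by omega
  have hZT : Z = 2 ^ (r + T0) := by rw [hZdef, pow_add]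
  -- real numbers
  have hZ44 : (2 : ℝ) ^ 44 ≤ Z := by exact_mod_cast z44
  have hZ1 : (1 : ℝ) ≤ Z := le_trans (by norm_num) hZ44
  have hZ0 : (0 : ℝ) < Z := lt_of_lt_of_le one_pos hZ1
  obtain ⟨d, hd⟩ : ∃ d : ℝ, d = D + 1 := ⟨_, rfl⟩
  have hD0 : 0 < D := lt_of_lt_of_le (by positivity) hlow
  have hZd : (Z : ℝ) ^ 300 ≤ d := by
    have h1 : Z ^ 300 ≤ D + 1 := by
      calc Z ^ 300 = 2 ^ (300 * (r + T0)) := by rw [hZT, ← pow_mul]; congr 1; ring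
        _ ≤ 2 ^ G := Nat.pow_le_pow_right (by norm_num) hT
        _ ≤ D + 1 := by omega
    rw [hd]
    exact_mod_cast h1
  have hZK : Z ^ 4 ≤ 2 ^ K := by
    rw [hZT, ← pow_mul]
    apply Nat.pow_le_pow_right (by norm_num)
    rw [hK]
    exact num5_4 hG hT
  have hd0 : 0 < d := lt_of_lt_of_le (by positivity) hZd
  have hKZ : (K : ℝ) ≤ Z := by exact_mod_cast zK
  have hK1' : (1 : ℝ) ≤ K := by exact_mod_cast hK1
  obtain ⟨n1, hn1⟩ : ∃ n1 : ℝ, n1 = Real.sqrt (d * K) := ⟨_, rfl⟩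
  obtain ⟨e, he⟩ : ∃ e : ℝ, e = d / (Z : ℝ) ^ 8 := ⟨_, rfl⟩
  obtain ⟨hne, hZe, hde⟩ := num5_e hZ44 hZd hKZ
  rw [← he] at hne hZe hde
  rw [← hn1] at hne
  have hn0 : 0 ≤ n1 := by rw [hn1]; exact Real.sqrt_nonneg _
  have hLam : (K : ℝ) = 17 * (G : ℝ) ^ 2 := by exact_mod_cast hK
  have hs2n : Real.sqrt (2 * d * K) ≤ 2 * n1 := by
    rw [hn1, Real.sqrt_le_left (by positivity), mul_pow, Real.sq_sqrt (by positivity)]
    have : 0 < d * K := mul_pos hd0 (lt_of_lt_of_le one_pos hK1')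
    linarith only [this]
  have hs0 : 0 ≤ Real.sqrt (2 * d * K) := Real.sqrt_nonneg _
  obtain ⟨J, hJ⟩ : ∃ J : ℝ, J = ((s * 2 ^ (l - r) : ℕ) : ℝ) := ⟨_, rfl⟩
  obtain ⟨b, hb⟩ : ∃ b : ℝ, b = (1 / 2 : ℝ) ^ r := ⟨_, rfl⟩
  have hb0 : 0 < b := by rw [hb]; positivity
  have hbR : b * 2 ^ r = 1 := by
    rw [hb, ← mul_pow]
    norm_num
  have hJ0 : 0 ≤ J := by rw [hJ]; positivity
  have hJd : J ≤ b * d := by
    have h1 : s * 2 ^ (l - r) * 2 ^ r ≤ D + 1 := by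
      rw [mul_assoc, ← pow_add, Nat.sub_add_cancel hrl]
      omega
    have h2 : J * 2 ^ r ≤ d := by
      rw [hJ, hd]
      exact_mod_cast h1
    have h3 := mul_le_mul_of_nonneg_left h2 hb0.le
    calc J = b * (J * 2 ^ r) := by
          rw [show b * (J * 2 ^ r) = b * 2 ^ r * J by ring, hbR, one_mul]
      _ ≤ b * d := h3
  have hR' : (2 : ℝ) ^ r ≤ Z := by exact_mod_cast zR
  have hbZ : 1 ≤ b * Z := by
    rw [← hbR]
    exact mul_le_mul_of_nonneg_left hR' hb0.le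
  have hm0' : (2 : ℝ) ^ 22 ≤ m0 := by exact_mod_cast m22
  have hA' : (1 : ℝ) ≤ A := by exact_mod_cast hA
  have hmA : 64 * (m0 : ℝ) ^ 2 * A ≤ 2 ^ r := by exact_mod_cast hR1
  have hmA2 : (2 : ℝ) ^ r ≤ 128 * (m0 : ℝ) ^ 2 * A := by exact_mod_cast hR2
  have hm0p : (0 : ℝ) < m0 := lt_of_lt_of_le (by positivity) hm0'
  have hbmA : b * (64 * (m0 : ℝ) ^ 2 * A) ≤ 1 := by
    rw [← hbR]
    exact mul_le_mul_of_nonneg_left hmA hb0.le
  have hb1 : b ≤ 1 / 64 := by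
    have h1 : 1 ≤ (m0 : ℝ) ^ 2 := one_le_pow₀ (le_trans (by norm_num) hm0')
    have h2 : 1 ≤ (m0 : ℝ) ^ 2 * A := one_le_mul_of_one_le_of_one_le h1 hA'
    have h3 : b * 64 ≤ b * (64 * (m0 : ℝ) ^ 2 * A) := by
      apply mul_le_mul_of_nonneg_left _ hb0.le
      linarith only [h2]
    linarith only [h3, hbmA]
  have ht1' : (1 : ℝ) ≤ t0 := by exact_mod_cast ht1
  have htZ : (t0 : ℝ) ≤ Z := by exact_mod_cast zt
  have hGZ : (G : ℝ) + 2 ≤ Z := by exact_mod_cast zG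
  have hG0 : (0 : ℝ) ≤ G := Nat.cast_nonneg G
  have hGR : (80 : ℝ) ≤ G := by exact_mod_cast hG
  have htG : (t0 : ℝ) = 9 + 6664 * (G : ℝ) ^ 2 := by exact_mod_cast ht0
  obtain ⟨u, hu⟩ : ∃ u : ℝ, u = (d - J) / 2 := ⟨_, rfl⟩
  obtain ⟨f, hf⟩ : ∃ f : ℝ, f = b / (8 * t0) := ⟨_, rfl⟩
  have hlG : ((l : ℝ) + 1) = G := by
    rw [hl]
    push_cast
    ring
  have hu1 : d * (63 / 128) ≤ u := by
    have := mul_le_mul_of_nonneg_right hb1 hd0.le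
    rw [hu]
    linarith only [this, hJd]
  have hd6 : 10 ^ 6 * e ≤ d := by
    refine le_trans ?_ hde
    have hZ4 : 1 ≤ (Z : ℝ) ^ 4 := one_le_pow₀ hZ1
    have := mul_le_mul_of_nonneg_right hZ4 (hZ0.le.trans hZe)
    linarith only [this]
  obtain ⟨ll, hll⟩ : ∃ ll : ℕ, ll = ⌊(d - J - 2 - 2 * (G : ℝ)) / 2 - 2 * n1⌋₊ := ⟨_, rfl⟩
  have hin : 0 ≤ (d - J - 2 - 2 * (G : ℝ)) / 2 - 2 * n1 := by
    have h1 : (d - J - 2 - 2 * (G : ℝ)) / 2 - 2 * n1 = u - 1 - G - 2 * n1 := by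
      rw [hu]
      ring
    rw [h1]
    linarith only [hu1, hGZ, hZe, hne, hd6, hZ1]
  have hll1 : (ll : ℝ) ≤ (d - J - 2 - 2 * (G : ℝ)) / 2 - 2 * n1 := by
    rw [hll]
    exact Nat.floor_le hin
  have hll2 : (d - J - 2 - 2 * (G : ℝ)) / 2 - 2 * n1 < (ll : ℝ) + 1 := by
    rw [hll]
    exact Nat.lt_floor_add_one _
  have hL1 : u - G - 2 - 2 * n1 ≤ ll := by
    rw [hu]
    linarith only [hll2]
  have hL2 : (ll : ℝ) ≤ u - 1 - G - 2 * n1 := by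
    rw [hu]
    linarith only [hll1]
  obtain ⟨c1, c2, c3, c4⟩ := num5_ll hZ44 hZe hde hn0 hne hG0 hGZ hb0 hbZ hb1 hJ0 hJd hu ht1' htZ
    hf hL1 hL2
  have hL0 : (0 : ℝ) < ll := by linarith only [c1, hd0]
  obtain ⟨x, hx⟩ : ∃ x : ℝ, x = ((d - J) * (1 - 1 / (4 * (t0 : ℝ)) * (1 / 2) ^ r / 2) +
    (8 * (G : ℝ) + (1 + t0)) * Real.sqrt (2 * d * K)) / 2 + 2 * n1 := ⟨_, rfl⟩
  obtain ⟨y, hy⟩ : ∃ y : ℝ, y = (D : ℝ) / 2 + 32 * n1 := ⟨_, rfl⟩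
  have hx1 : x ≤ u * (1 - f) + 2 * t0 * n1 := by
    have h1 : x = u * (1 - f) + (8 * (G : ℝ) + (1 + t0)) / 2 * Real.sqrt (2 * d * K) + 2 * n1 := by
      rw [hx, hu, hf, ← hb]
      field_simp
      ring
    have h2 : (8 * (G : ℝ) + (1 + t0)) / 2 * Real.sqrt (2 * d * K) ≤
        (8 * (G : ℝ) + (1 + t0)) / 2 * (2 * n1) :=
      mul_le_mul_of_nonneg_left hs2n (by positivity)
    have h3 : 8 * (G : ℝ) + 3 ≤ t0 := by
      rw [htG]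
      exact num5_tG hGR
    have h4 : (8 * (G : ℝ) + 3) * n1 ≤ t0 * n1 := mul_le_mul_of_nonneg_right h3 hn0
    rw [h1]
    linarith only [h2, h4]
  have hf0 : 0 < f := by rw [hf]; positivity
  have hf1 : f ≤ 1 := by
    rw [hf, div_le_one (by positivity)]
    linarith only [hb1, ht1']
  have hx2 : x ≤ (1 - f / 2) * ll := hx1.trans c3
  have hx0 : 0 ≤ x := by
    have h1 : 0 ≤ d - J := by linarith only [hu, hu1, hd0]
    have h2 : 0 ≤ 1 - 1 / (4 * (t0 : ℝ)) * (1 / 2) ^ r / 2 := by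
      have h3 : 1 / (4 * (t0 : ℝ)) * (1 / 2) ^ r / 2 = f := by
        rw [hf, ← hb]
        field_simp
        norm_num
      rw [h3]
      linarith only [hf1]
    rw [hx]
    positivity
  have hx3 : x / ll ≤ 1 - f / 2 := by
    rw [div_le_iff₀ hL0]
    exact hx2
  have hx4 : 0 ≤ x / ll := by positivity
  have hy1 : y ≤ (1 + 2 * b) * ll := by
    refine le_trans ?_ c4
    rw [hy]
    linarith only [hd]
  have hy2 : (ll : ℝ) ≤ y := by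
    rw [hy]
    linarith only [c2, hd, hn0]
  obtain ⟨δ, hδ⟩ : ∃ δ : ℝ, δ = 1 / (A : ℝ) := ⟨_, rfl⟩
  have hδ0 : 0 < δ := by rw [hδ]; positivity
  have hδ1 : δ ≤ 1 := by
    rw [hδ, div_le_one (by positivity)]
    exact hA'
  have hAZ : (A : ℝ) ≤ Z := by exact_mod_cast zA
  have hδZ : 1 ≤ δ * Z := by
    rw [hδ, one_div_mul_eq_div, le_div_iff₀ (by positivity)]
    linarith only [hAZ]
  obtain ⟨Nn, hNn⟩ : ∃ Nn : ℝ, Nn = (δ * (D : ℝ) ^ 2 - D) / 8 - 16 * d * n1 := ⟨_, rfl⟩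
  obtain ⟨hN1, hN2⟩ := num5_N (L := (ll : ℝ)) hd hZ44 hZe hde hn0 hne hδ0 hδ1 hδZ c1
    (by linarith only [c2])
  rw [← hNn] at hN1 hN2
  obtain ⟨hbe1, hbe2⟩ := num5_bet hm0n m8
  obtain ⟨be, hbe⟩ : ∃ be : ℝ, be = bet m0 K := ⟨_, rfl⟩
  rw [← hbe] at hbe1 hbe2
  have hbe0 : 0 < be := lt_of_lt_of_le (by positivity) hbe1
  have hi : 1 / (m0 : ℝ) ≤ 1 / 2 ^ 22 := one_div_le_one_div_of_le (by positivity) hm0'
  have hbe3 : be ≤ 1 / 4 := by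
    refine hbe2.trans (hi.trans ?_)
    norm_num
  obtain ⟨q, hq⟩ : ∃ q : ℝ, q = be * y / ll - be ^ 2 * Nn / (ll : ℝ) ^ 2 := ⟨_, rfl⟩
  obtain ⟨q0, q1, q2, hmu⟩ := num5_q hL0 hbe0.le (by linarith only [hbe3]) hy1 hy2 hb1 hN1 hN2 hδ0.le hq
  -- the error of the first step
  have hsq : Real.sqrt ((K : ℝ) / ll) ≤ 1 / (Z : ℝ) ^ 4 := by
    rw [Real.sqrt_le_left (by positivity), one_div_pow, div_le_div_iff₀ hL0 (by positivity),
      one_mul]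
    have h1 : (Z : ℝ) ^ 10 ≤ d := (pow_le_pow_right₀ hZ1 (by norm_num)).trans hZd
    have h2 : 4 * (Z : ℝ) ^ 9 ≤ (Z : ℝ) ^ 10 := by
      have h3 : (Z : ℝ) ^ 10 = Z * Z ^ 9 := by ring
      rw [h3]
      exact mul_le_mul_of_nonneg_right (le_trans (by norm_num) hZ44) (by positivity)
    calc (K : ℝ) * ((Z : ℝ) ^ 4) ^ 2 ≤ Z * ((Z : ℝ) ^ 4) ^ 2 := by gcongr
      _ = (Z : ℝ) ^ 9 := by ring
      _ ≤ ll := by linarith only [h1, h2, c1]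
  obtain ⟨E, hE⟩ : ∃ E : ℝ, E = Err m0 K (K : ℝ) ll := ⟨_, rfl⟩
  have hE1 : E ≤ b / (128 * t0) := by
    rw [hE]
    refine num5_err0 hK1 ht1 hA hm0 ?_ z1 z44 hZK hsq ?_
    · rw [div_le_iff₀ (by positivity)]
      rw [← hbR]
      exact mul_le_mul_of_nonneg_left hmA2 hb0.le
    · exact le_trans (Nat.mul_le_mul_right _ (by norm_num)) z16
  have hE0 : 0 ≤ E := by
    rw [hE]
    unfold Err
    positivity
  have hE2 : E ≤ f / 16 := by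
    refine hE1.trans (le_of_eq ?_)
    rw [hf]
    field_simp
    norm_num
  have hbf : b / t0 ≤ b := div_le_self hb0.le ht1'
  have hfb : f = b / t0 / 8 := by
    rw [hf]
    field_simp
  have hE3 : 4 * E ≤ b / 8 := by linarith only [hE2, hfb, hbf, hb0]
  -- the gap
  obtain ⟨g, hg⟩ : ∃ g : ℝ, g = 1 / (Z : ℝ) := ⟨_, rfl⟩
  have hg0 : 0 < g := by rw [hg]; positivity
  have hQ' : 64 * (t0 : ℝ) ≤ 2 ^ T0 := by exact_mod_cast hQ1
  have hgQ : g * 2 ^ T0 = b := by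
    have h1 : (Z : ℝ) = 2 ^ r * 2 ^ T0 := by exact_mod_cast hZdef
    have h2 : b = 1 / 2 ^ r := by
      rw [hb, one_div_pow]
    rw [hg, h1, h2]
    field_simp
  have hg64 : g * (64 * t0) ≤ b := by
    rw [← hgQ]
    exact mul_le_mul_of_nonneg_left hQ' hg0.le
  have hg8 : g ≤ f / 8 := by
    rw [hf, div_div, le_div_iff₀ (by positivity)]
    calc g * (8 * t0 * 8) = g * (64 * t0) := by ring
      _ ≤ b := hg64
  have hgb : g ≤ b / 8 := by linarith only [hg8, hfb, hbf, hb0]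
  have hg1 : g ≤ 1 / 64 := by linarith only [hgb, hb1, hb0]
  have hde2 : 2 * b + g + 4 * E ≤ be ^ 2 * δ / 4 := by
    have h1 : (3 / 4 * (1 / (m0 : ℝ))) ^ 2 ≤ be ^ 2 :=
      pow_le_pow_left₀ (by positivity) hbe1 2
    have h2 : b ≤ 1 / (64 * (m0 : ℝ) ^ 2 * A) := by
      rw [le_div_iff₀ (by positivity)]
      exact hbmA
    have h3 : (3 / 4 * (1 / (m0 : ℝ))) ^ 2 * δ = 36 * (1 / (64 * (m0 : ℝ) ^ 2 * A)) := by
      rw [hδ]
      field_simp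
      norm_num
    have h4 : (3 / 4 * (1 / (m0 : ℝ))) ^ 2 * δ ≤ be ^ 2 * δ :=
      mul_le_mul_of_nonneg_right h1 hδ0.le
    linarith only [h2, h3, h4, hgb, hE3, hb0]
  obtain ⟨l1, hl1⟩ : ∃ l1 : ℝ, l1 = (ll : ℝ) * ((1 - q) * (1 - be * x / ll) - E) := ⟨_, rfl⟩
  have hbx : be * x / ll = be * (x / ll) := mul_div_assoc _ _ _
  have hx5 : x / ll ≤ 1 := by linarith only [hx3, hf0]
  have hl1' : (ll : ℝ) / 8 ≤ l1 := by
    rw [hl1, hbx]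
    have h1 : be * (x / ll) ≤ be * 1 := mul_le_mul_of_nonneg_left hx5 hbe0.le
    have h2 : (1 / 2 : ℝ) * (1 / 2) ≤ (1 - q) * (1 - be * (x / ll)) :=
      mul_le_mul (by linarith only [q1, hbe3]) (by linarith only [h1, hbe3]) (by norm_num)
        (by linarith only [q1, hbe3])
    have h3 : (1 : ℝ) / 8 ≤ (1 - q) * (1 - be * (x / ll)) - E := by
      linarith only [h2, hE2, hf1]
    have h4 := mul_le_mul_of_nonneg_left h3 hL0.le
    linarith only [h4]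
  have hxg : x * (1 - be) * (1 - q) + E * ll ≤ (1 - g) * l1 := by
    have h1 := num5_xg hbe0.le hx4 hx3 q0 (by linarith only [q1, hbe3]) hg0.le
      (by linarith only [hg1]) hg8 hE0 hE2
    have h2 := mul_le_mul_of_nonneg_left h1 hL0.le
    have h3 : (ll : ℝ) * (x / ll * (1 - be) * (1 - q) + E) = x * (1 - be) * (1 - q) + E * ll := by
      field_simp
    have h4 : (ll : ℝ) * ((1 - g) * ((1 - q) * (1 - be * (x / ll)) - E)) = (1 - g) * l1 := by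
      rw [hl1, hbx]
      ring
    rw [← h3, ← h4]
    exact h2
  have hyg : y * (1 - be) * (1 - be * x / ll) + E * ll ≤ (1 - g) * l1 := by
    have h1 := num5_yg hbe0.le (by linarith only [hbe3]) hx4 hx5 hmu q0 q2 hg0.le
      (by linarith only [hg1]) hE0 hde2
    have h2 := mul_le_mul_of_nonneg_left h1 hL0.le
    have h3 : (ll : ℝ) * (y / ll * (1 - be) * (1 - be * (x / ll)) + E) =
        y * (1 - be) * (1 - be * x / ll) + E * ll := by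
      rw [hbx]
      field_simp
    have h4 : (ll : ℝ) * ((1 - g) * ((1 - q) * (1 - be * (x / ll)) - E)) = (1 - g) * l1 := by
      rw [hl1, hbx]
      ring
    rw [← h3, ← h4]
    exact h2
  -- the second part
  obtain ⟨m2, hm2⟩ : ∃ m2, m2 = 256 * K ^ 2 * Z := ⟨_, rfl⟩
  obtain ⟨L0, hL0d⟩ : ∃ L0, L0 = K * (2 ^ 16 * K ^ 2 * m2 * Z) ^ 2 := ⟨_, rfl⟩
  have hZn : 0 < Z := by omega
  have hm28 : 8 * K ≤ m2 := by
    rw [hm2]
    exact num5_8 hK1 hZn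
  have hm2n : 0 < m2 := lt_of_lt_of_le (Nat.mul_pos (by norm_num) hK1) hm28
  have hL0K : K ≤ L0 := by
    rw [hL0d]
    exact Nat.le_mul_of_pos_right _ (by positivity)
  have hL0Z : (L0 : ℝ) ≤ (Z : ℝ) ^ 9 := by
    have h1 : (L0 : ℝ) = K * (2 ^ 16 * (K : ℝ) ^ 2 * (256 * (K : ℝ) ^ 2 * Z) * Z) ^ 2 := by
      have h2 : L0 = K * (2 ^ 16 * K ^ 2 * (256 * K ^ 2 * Z) * Z) ^ 2 := by rw [hL0d, hm2]
      exact_mod_cast h2
    have h2 : 2 ^ 16 * (K : ℝ) ^ 2 ≤ Z := by exact_mod_cast z16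
    have h3 : 256 * (K : ℝ) ^ 2 ≤ Z := by linarith only [h2, sq_nonneg (K : ℝ)]
    rw [h1]
    calc (K : ℝ) * (2 ^ 16 * (K : ℝ) ^ 2 * (256 * (K : ℝ) ^ 2 * Z) * Z) ^ 2
        ≤ Z * (Z * (Z * Z) * Z) ^ 2 := by gcongr
      _ = (Z : ℝ) ^ 9 := by ring
  refine ⟨s, l, ρ, r, t0, K, m0, m2, 32 * m2 * (r + T0), L0, ll, g, (K : ℝ), x, y, q, l1, ?_⟩
  constructor
  · exact hs2
  · exact hρl.le
  · exact hsρ
  · rcases Nat.eq_zero_or_pos r with h | h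
    · exfalso
      rw [h] at hmA
      have h1 : 1 ≤ (m0 : ℝ) ^ 2 := one_le_pow₀ (le_trans (by norm_num) hm0')
      have h2 : 1 ≤ (m0 : ℝ) ^ 2 * A := one_le_mul_of_one_le_of_one_le h1 hA'
      rw [pow_zero] at hmA
      linarith only [hmA, h2]
    · exact h
  · exact hrl
  · exact ht1
  · exact hD0
  · rw [← hδ]
    exact hδ1
  · rw [← hl, hLam]
    have h1 := num5_exp (num5_LL D G hG (by omega))
    push_cast at h1
    exact h1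
  · rw [hLam]
    have h1 := num5_exp (num5_12 D G hG (by omega))
    push_cast at h1 ⊢
    exact h1
  · rw [hLam]
    set a := Real.sqrt (D + 1) * (1 / Real.sqrt 2) ^ l with ha
    set c := 14 * Real.sqrt (17 * (G : ℝ) ^ 2) with hc
    have h1 : a ^ 2 ≤ 4 := by
      rw [ha, mul_pow, Real.sq_sqrt (by positivity), ← pow_mul, mul_comm l 2, pow_mul, div_pow,
        Real.sq_sqrt (by norm_num), one_pow, div_pow, one_pow, mul_one_div,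
        div_le_iff₀ (by positivity)]
      have h2 : D + 1 ≤ 4 * 2 ^ l := by omega
      exact_mod_cast h2
    have h2 : c ^ 2 = 196 * (17 * (G : ℝ) ^ 2) := by
      rw [hc, mul_pow, Real.sq_sqrt (by positivity)]
      norm_num
    have h3 : (a + c) ^ 2 ≤ 2 * a ^ 2 + 2 * c ^ 2 := by nlinarith [sq_nonneg (a - c)]
    rw [htG]
    linarith only [h1, h2, h3]
  · rw [hlG, ← hd]
    have h1 : 8 * (G : ℝ) * Real.sqrt (2 * d * K) ≤ 8 * (G : ℝ) * (2 * n1) :=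
      mul_le_mul_of_nonneg_left hs2n (by positivity)
    have h2 : (G : ℝ) * n1 ≤ Z * e := mul_le_mul (by linarith only [hGZ]) hne hn0 hZ0.le
    have h3 : (Z : ℝ) * e ≤ (Z : ℝ) ^ 4 * e := by
      apply mul_le_mul_of_nonneg_right _ (hZ0.le.trans hZe)
      exact le_self_pow₀ hZ1 (by norm_num)
    have h4 : 0 ≤ (Z : ℝ) ^ 4 * e := by
      have : 0 ≤ e := hZ0.le.trans hZe
      positivity
    linarith only [h1, h2, h3, h4, hde]
  · rw [hlG, ← hd, ← hJ, ← hn1]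
    exact hll1
  · rw [hlG, ← hd, ← hJ, ← hn1, hx]
  · rw [← hd, ← hn1, hy]
  · rw [← hd, ← hn1, ← hbe, ← hδ, ← hNn, ← hy, hq]
  · rw [← hbe]
    have h1 : be * D ≤ 1 / 4 * D := mul_le_mul_of_nonneg_right hbe3 (Nat.cast_nonneg D)
    linarith only [h1, c1, hd, hd0]
  · exact_mod_cast hL0
  · exact hx0
  · have h1 : (1 - f / 2) * ll ≤ 1 * ll :=
      mul_le_mul_of_nonneg_right (by linarith only [hf0]) hL0.le
    linarith only [h1, hx2]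
  · linarith only [hy2, hL0]
  · have h1 : (1 + 2 * b) * ll ≤ 2 * ll :=
      mul_le_mul_of_nonneg_right (by linarith only [hb1]) hL0.le
    linarith only [h1, hy1]
  · exact q0
  · linarith only [q1, hbe3]
  · exact m8
  · exact hm28
  · exact hK24
  · exact lt_of_lt_of_le one_pos hK1'
  · exact le_refl _
  · linarith only [hKZ, hZe, hd6, c1, hZ1]
  · rw [hl1, hE, hbe]
  · linarith only [hl1', hL0]
  · rw [← hbe, ← hE]
    exact hxg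
  · rw [← hbe, ← hE]
    exact hyg
  · exact hg0
  · linarith only [hg1]
  · exact lt_of_lt_of_le hK1 hL0K
  · exact_mod_cast hL0K
  · exact num5_err2 hK1 hm2 hL0d hg z44 hZK
      (le_trans (Nat.mul_le_mul_right _ (by norm_num)) z16)
  · have h1 := num5_gn (T := r + T0) hm2n hm28
    have h2 := mul_le_mul_of_nonneg_left h1 hg0.le
    have h3 : g * 2 ^ (r + T0) = 1 := by
      have h4 : (Z : ℝ) = 2 ^ (r + T0) := by exact_mod_cast hZT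
      rw [hg, ← h4]
      field_simp
    linarith only [h2, h3]
  · have h1 := num5_L0 (m := m2) (K := K) (T := r + T0) (j := 32 * K ^ 2 * Z)
      (by rw [hm2]; ring) (by
        have : 0 < 32 * K ^ 2 * Z := by positivity
        exact this) hm28
    have h2 : ((1 : ℝ) / 2) ^ (256 * (r + T0)) = 1 / (Z : ℝ) ^ 256 := by
      have h4 : (Z : ℝ) = 2 ^ (r + T0) := by exact_mod_cast hZT
      rw [h4, one_div_pow, ← pow_mul, mul_comm 256]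
    rw [h2] at h1
    have h3 : d / 32 ≤ l1 := by linarith only [c1, hl1']
    have h5 : (Z : ℝ) ^ 9 ≤ d / 32 * (1 / (Z : ℝ) ^ 256) := by
      rw [mul_one_div, le_div_iff₀ (by positivity), ← pow_add]
      have h6 : 32 * (Z : ℝ) ^ 265 ≤ Z ^ 300 := by
        have h7 : (Z : ℝ) ^ 300 = Z ^ 35 * Z ^ 265 := by rw [← pow_add]
        rw [h7]
        apply mul_le_mul_of_nonneg_right _ (by positivity)
        have h8 : (Z : ℝ) ≤ Z ^ 35 := le_self_pow₀ hZ1 (by norm_num)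
        linarith only [h8, hZ44]
      linarith only [h6, hZd]
    calc (L0 : ℝ) ≤ (Z : ℝ) ^ 9 := hL0Z
      _ ≤ d / 32 * (1 / (Z : ℝ) ^ 256) := h5
      _ ≤ l1 * (1 / (Z : ℝ) ^ 256) := mul_le_mul_of_nonneg_right h3 (by positivity)
      _ ≤ l1 * (1 - 3 * bet m2 K) ^ (32 * m2 * (r + T0)) :=
          mul_le_mul_of_nonneg_left h1 (by linarith only [h3, hd0])

/-! ### Large degrees -/

theorem num5_log (C G : ℕ) (h : 2 ^ (2 * C + 4) ≤ G) : C * Nat.clog 2 G ≤ G := by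
  obtain ⟨c, hc⟩ : ∃ c, c = Nat.clog 2 G := ⟨_, rfl⟩
  rw [← hc]
  have h1 : 2 * C + 4 ≤ c := by
    have h2 : G ≤ 2 ^ c := by
      rw [hc]
      exact Nat.le_pow_clog (by norm_num) G
    exact (Nat.pow_le_pow_iff_right (by norm_num)).1 (h.trans h2)
  have hG1 : 1 < G := by
    refine lt_of_lt_of_le ?_ h
    exact Nat.one_lt_pow (by omega) (by norm_num)
  have h2 : 2 ^ (c - 1) < G := by
    rw [hc]
    exact Nat.pow_pred_clog_lt_self (by norm_num) hG1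
  have h3 : c ≤ 2 ^ (c / 2 + 1) := by
    have h4 : c / 2 < 2 ^ (c / 2) := Nat.lt_two_pow_self
    rw [pow_succ]
    omega
  have h5 : C * c ≤ 2 ^ (c - 1) := by
    calc C * c ≤ 2 ^ C * 2 ^ (c / 2 + 1) := Nat.mul_le_mul Nat.lt_two_pow_self.le h3
      _ = 2 ^ (C + (c / 2 + 1)) := (pow_add _ _ _).symm
      _ ≤ 2 ^ (c - 1) := Nat.pow_le_pow_right (by norm_num) (by omega)
  omega

theorem num5_clog {X c j G : ℕ} (h : X ≤ 2 ^ c * G ^ j) :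
    Nat.clog 2 X ≤ c + j * Nat.clog 2 G := by
  apply Nat.clog_le_of_le_pow
  rw [pow_add, mul_comm j, pow_mul]
  exact h.trans (Nat.mul_le_mul_left _ (Nat.pow_le_pow_left (Nat.le_pow_clog (by norm_num) G) j))

theorem num5_X {G : ℕ} (k : ℕ) (hG : 80 ≤ G) :
    64 * (2 ^ 22 * (17 * G ^ 2) ^ 3 * (9 + 6664 * G ^ 2) * G ^ k) ^ 2 * G ^ k ≤
      2 ^ 102 * G ^ (16 + 3 * k) := by
  have h1 : 9 + 6664 * G ^ 2 ≤ 2 ^ 13 * G ^ 2 := by nlinarith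
  calc 64 * (2 ^ 22 * (17 * G ^ 2) ^ 3 * (9 + 6664 * G ^ 2) * G ^ k) ^ 2 * G ^ k
      ≤ 64 * (2 ^ 22 * (17 * G ^ 2) ^ 3 * (2 ^ 13 * G ^ 2) * G ^ k) ^ 2 * G ^ k := by gcongr
    _ = 64 * (2 ^ 22 * 17 ^ 3 * 2 ^ 13) ^ 2 * G ^ (16 + 3 * k) := by
        have h2 : G ^ (16 + 3 * k) = G ^ 16 * (G ^ k) ^ 3 := by
          rw [pow_add, mul_comm 3, pow_mul]
        rw [h2]
        ring
    _ ≤ 2 ^ 102 * G ^ (16 + 3 * k) := Nat.mul_le_mul_right _ (by norm_num)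

theorem thm_Num5 : St_Num5 := by
  intro k
  refine ⟨2 ^ (2 ^ (2 * (300 * (139 + 3 * k)) + 4)), fun D hD => ?_⟩
  have hG0 : 2 ^ (2 * (300 * (139 + 3 * k)) + 4) ≤ Nat.log 2 D :=
    Nat.le_log_of_pow_le (by norm_num) hD
  have hDpos : D ≠ 0 := by
    have : 0 < 2 ^ (2 ^ (2 * (300 * (139 + 3 * k)) + 4)) := by positivity
    omega
  have hlow : 2 ^ Nat.log 2 D ≤ D := Nat.pow_log_le_self 2 hDpos
  have hup : D < 2 ^ (Nat.log 2 D + 1) := Nat.lt_pow_succ_log_self (by norm_num) D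
  generalize Nat.log 2 D = G at hG0 hlow hup ⊢
  have h80 : 80 ≤ G := by
    refine le_trans ?_ hG0
    calc 80 ≤ 2 ^ 7 := by norm_num
      _ ≤ 2 ^ (2 * (300 * (139 + 3 * k)) + 4) := Nat.pow_le_pow_right (by norm_num) (by omega)
  have hA : 1 ≤ G ^ k := Nat.one_le_pow _ _ (by omega)
  have hX := num5_X k h80
  obtain ⟨X, hXd⟩ : ∃ X, X = 64 * (2 ^ 22 * (17 * G ^ 2) ^ 3 * (9 + 6664 * G ^ 2) * G ^ k) ^ 2 *
    G ^ k := ⟨_, rfl⟩
  have hX2 : 1 < X := by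
    have h1 : 1 ≤ (2 ^ 22 * (17 * G ^ 2) ^ 3 * (9 + 6664 * G ^ 2) * G ^ k) ^ 2 * G ^ k := by
      apply Nat.one_le_iff_ne_zero.2
      have : 0 < G := by omega
      positivity
    rw [hXd, mul_assoc]
    omega
  rw [← hXd] at hX
  have hr1 : X ≤ 2 ^ Nat.clog 2 X := Nat.le_pow_clog (by norm_num) X
  have hr2 : 2 ^ Nat.clog 2 X ≤ 2 * X := by
    have h2 := Nat.pow_pred_clog_lt_self (b := 2) (by norm_num) hX2
    have h3 : 0 < Nat.clog 2 X := Nat.clog_pos (by norm_num) hX2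
    have h4 : 2 ^ Nat.clog 2 X = 2 ^ (Nat.clog 2 X).pred * 2 := by
      rw [← pow_succ]
      congr 1
      exact (Nat.succ_pred_eq_of_pos h3).symm
    omega
  have hq1 : 64 * (9 + 6664 * G ^ 2) ≤ 2 ^ Nat.clog 2 (64 * (9 + 6664 * G ^ 2)) :=
    Nat.le_pow_clog (by norm_num) _
  have hq2 : 64 * (9 + 6664 * G ^ 2) ≤ 2 ^ 19 * G ^ 2 := by nlinarith
  have hT : 300 * (Nat.clog 2 X + Nat.clog 2 (64 * (9 + 6664 * G ^ 2))) ≤ G := by
    have h1 := num5_clog hX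
    have h2 := num5_clog hq2
    have h3 := num5_log _ _ hG0
    have h4 : 1 ≤ Nat.clog 2 G := Nat.clog_pos (by norm_num) (by omega)
    refine le_trans ?_ h3
    generalize Nat.clog 2 G = c at h1 h2 h4
    have h5 : 300 * (139 + 3 * k) * c = 300 * ((121 * c) + (16 + 3 * k) * c + 2 * c) := by ring
    rw [h5]
    generalize (16 + 3 * k) * c = w at h1 h2
    omega
  have h := num5_core h80 hlow hup hA (by rw [← hXd]; exact hr1)
    (by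
      refine hr2.trans (le_of_eq ?_)
      rw [hXd]
      ring) hq1 hT
  push_cast at h
  exact h

end Pool.TCS
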