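import Pool.Agent.Helper3.TCS.Stmts

/-!
# Regularisation of a graph (helper2)
-/

set_option autoImplicit false

namespace Pool.TCS

open Pool.TC Pool.TCM Finset
open scoped Classical

/-- `s` with the bit `i` flipped -/
noncomputable def RegFlip {D : ℕ} (s : Fin D → Bool) (i : Fin D) : Fin D → Bool :=
  Function.update s i (!(s i))

theorem RegFlip_self {D : ℕ} (s : Fin D → Bool) (i : Fin D) : RegFlip s i i = !(s i) := by
  simp [RegFlip]

theorem RegFlip_ne {D : ℕ} (s : Fin D → Bool) {i j : Fin D} (h : j ≠ i) :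
    RegFlip s i j = s j := by
  simp [RegFlip, h]

theorem RegFlip_flip {D : ℕ} (s : Fin D → Bool) (i : Fin D) : RegFlip (RegFlip s i) i = s := by
  funext j
  by_cases h : j = i
  · subst h
    rw [RegFlip_self, RegFlip_self, Bool.not_not]
  · rw [RegFlip_ne _ h, RegFlip_ne _ h]

theorem RegFlip_neq {D : ℕ} (s : Fin D → Bool) (i : Fin D) : RegFlip s i ≠ s := by
  intro h
  have h1 := congrFun h i
  rw [RegFlip_self] at h1
  cases h2 : s i <;> simp [h2] at h1

theorem RegFlip_inj {D : ℕ} (s : Fin D → Bool) {i j : Fin D} (h : RegFlip s i = RegFlip s j) :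
    i = j := by
  by_contra hne
  have h1 := congrFun h i
  rw [RegFlip_self, RegFlip_ne s hne] at h1
  cases h2 : s i <;> simp [h2] at h1

/-- two flips are not adjacent -/
theorem RegFlip_three {D : ℕ} (s : Fin D → Bool) (i j k : Fin D) :
    RegFlip s j ≠ RegFlip (RegFlip s i) k := by
  intro h
  by_cases hij : k = i
  · subst hij
    rw [RegFlip_flip] at h
    exact RegFlip_neq s j h
  · -- `i ≠ k`
    have h1 := congrFun h i
    have h2 := congrFun h k
    rw [RegFlip_ne _ (fun h => hij h.symm), RegFlip_self] at h1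
    rw [RegFlip_self, RegFlip_ne _ hij] at h2
    by_cases hj : i = j
    · have hk : k ≠ j := by
        intro h3
        exact hij (h3.trans hj.symm)
      rw [RegFlip_ne _ hk] at h2
      cases h3 : s k <;> simp [h3] at h2
    · rw [RegFlip_ne _ hj] at h1
      cases h3 : s i <;> simp [h3] at h1

/-- the regularised graph -/
noncomputable def RegG {V : Type} [Fintype V] (G : SimpleGraph V) (D : ℕ) :
    SimpleGraph (V × (Fin D → Bool)) where
  Adj p q := (p.2 = q.2 ∧ G.Adj p.1 q.1) ∨
    (p.1 = q.1 ∧ ∃ i : Fin D, i.val < D - (nb G p.1).card ∧ q.2 = RegFlip p.2 i)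
  symm := ⟨by
    rintro ⟨u, s⟩ ⟨v, t⟩ h
    rcases h with ⟨h1, h2⟩ | ⟨h1, i, h2, h3⟩
    · exact Or.inl ⟨h1.symm, h2.symm⟩
    · simp only at h1 h2 h3
      subst h1
      refine Or.inr ⟨rfl, i, h2, ?_⟩
      simp only
      rw [h3, RegFlip_flip]⟩
  loopless := ⟨by
    rintro ⟨u, s⟩ h
    rcases h with ⟨_, h2⟩ | ⟨_, i, _, h3⟩
    · exact G.loopless.irrefl _ h2
    · exact RegFlip_neq s i h3.symm⟩

theorem RegG_nb {V : Type} [Fintype V] (G : SimpleGraph V) (D : ℕ) (u : V) (s : Fin D → Bool) :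
    nb (RegG G D) (u, s) = (nb G u).image (fun v => (v, s)) ∪
      ((univ : Finset (Fin D)).filter (fun i => i.val < D - (nb G u).card)).image
        (fun i => (u, RegFlip s i)) := by
  ext ⟨v, t⟩
  rw [mem_union, mem_image, mem_image]
  unfold nb
  rw [mem_filter]
  constructor
  · rintro ⟨_, h⟩
    rcases h with ⟨h1, h2⟩ | ⟨h1, i, h2, h3⟩
    · exact Or.inl ⟨v, mem_filter.2 ⟨mem_univ _, h2⟩, Prod.ext rfl h1⟩
    · exact Or.inr ⟨i, mem_filter.2 ⟨mem_univ _, h2⟩, Prod.ext h1 h3.symm⟩
  · rintro (⟨v', h1, h2⟩ | ⟨i, h1, h2⟩)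
    · obtain ⟨h3, h4⟩ := Prod.mk.inj h2
      subst h3
      exact ⟨mem_univ _, Or.inl ⟨h4, (mem_filter.1 h1).2⟩⟩
    · obtain ⟨h3, h4⟩ := Prod.mk.inj h2
      exact ⟨mem_univ _, Or.inr ⟨h3, i, (mem_filter.1 h1).2, h4.symm⟩⟩

theorem thm_Reg : St_Reg := by
  intro V _ G D T hD hT
  refine ⟨V × (Fin D → Bool), inferInstance, RegG G D, fun u => (u, fun _ => false), ?_, ?_, ?_, ?_⟩
  · intro u v h
    exact (Prod.mk.inj h).1
  · intro u v h
    exact Or.inl ⟨rfl, h⟩
  · rintro ⟨u, s⟩
    rw [RegG_nb, card_union_of_disjoint, card_image_of_injective, card_image_of_injective]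
    · have h1 : ((univ : Finset (Fin D)).filter (fun i => i.val < D - (nb G u).card)).card =
          D - (nb G u).card := by
        have h2 : ((univ : Finset (Fin D)).filter (fun i => i.val < D - (nb G u).card)) =
            (univ : Finset (Fin (D - (nb G u).card))).map
              (Fin.castLEEmb (Nat.sub_le _ _)) := by
          ext i
          simp only [mem_filter, mem_univ, true_and, mem_map, Fin.castLEEmb_apply]
          constructor
          · intro h
            exact ⟨⟨i.val, h⟩, Fin.ext rfl⟩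
          · rintro ⟨j, rfl⟩
            exact j.2
        rw [h2, card_map, card_univ, Fintype.card_fin]
      rw [h1]
      have h3 := hD u
      omega
    · intro i j h
      exact RegFlip_inj s (Prod.mk.inj h).2
    · intro v v' h
      exact (Prod.mk.inj h).1
    · rw [disjoint_left]
      rintro ⟨v, t⟩ h1 h2
      simp only [mem_image, Prod.mk.injEq, mem_filter, mem_univ, true_and] at h1 h2
      obtain ⟨v', _, _, h3⟩ := h1
      obtain ⟨i, _, _, h4⟩ := h2
      rw [← h3] at h4
      exact RegFlip_neq s i h4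
  · rintro ⟨u, s⟩
    refine le_trans ?_ (hT u)
    have key : ∀ p : (V × (Fin D → Bool)) × (V × (Fin D → Bool)),
        p ∈ ((nb (RegG G D) (u, s) ×ˢ nb (RegG G D) (u, s)).filter
          (fun p => (RegG G D).Adj p.1 p.2)) →
        p.1.2 = s ∧ p.2.2 = s ∧ p.1.1 ∈ nb G u ∧ p.2.1 ∈ nb G u ∧ G.Adj p.1.1 p.2.1 := by
      rintro ⟨⟨a, t⟩, ⟨b, r⟩⟩ h
      rw [mem_filter, mem_product, RegG_nb] at h
      simp only [mem_union, mem_image, Prod.mk.injEq, mem_filter, mem_univ, true_and] at h
      obtain ⟨⟨h1, h2⟩, h3⟩ := h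
      rcases h1 with ⟨a', ha', rfl, rfl⟩ | ⟨i, hi, rfl, rfl⟩
      · rcases h2 with ⟨b', hb', rfl, h5⟩ | ⟨j, hj, rfl, rfl⟩
        · subst h5
          rcases h3 with ⟨_, h4⟩ | ⟨_, k, _, h4⟩
          · exact ⟨rfl, rfl, ha', hb', h4⟩
          · exact absurd h4.symm (RegFlip_neq _ _)
        · exfalso
          rcases h3 with ⟨h4, _⟩ | ⟨h4, _⟩
          · exact RegFlip_neq _ _ (id (Eq.symm h4))
          · simp only [nb, mem_filter, mem_univ, true_and] at ha'
            simp only at h4
            rw [h4] at ha'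
            exact G.loopless.irrefl _ ha'
      · rcases h2 with ⟨b', hb', rfl, rfl⟩ | ⟨j, hj, h5, rfl⟩
        · exfalso
          rcases h3 with ⟨h4, _⟩ | ⟨h4, _⟩
          · exact RegFlip_neq _ _ h4
          · simp only [nb, mem_filter, mem_univ, true_and] at hb'
            simp only at h4
            rw [← h4] at hb'
            exact G.loopless.irrefl _ hb'
        · exfalso
          subst h5
          rcases h3 with ⟨_, h4⟩ | ⟨_, k, _, h4⟩
          · exact G.loopless.irrefl _ h4
          · exact RegFlip_three _ _ _ _ h4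
    refine card_le_card_of_injOn (fun p => (p.1.1, p.2.1)) ?_ ?_
    · intro p hp
      obtain ⟨_, _, h3, h4, h5⟩ := key p (mem_coe.1 hp)
      rw [mem_coe, mem_filter, mem_product]
      exact ⟨⟨h3, h4⟩, h5⟩
    · intro p hp p' hp' heq
      obtain ⟨h1, h2, _⟩ := key p (mem_coe.1 hp)
      obtain ⟨h1', h2', _⟩ := key p' (mem_coe.1 hp')
      have h3 := (Prod.mk.inj heq).1
      have h4 := (Prod.mk.inj heq).2
      exact Prod.ext (Prod.ext h3 (h1.trans h1'.symm)) (Prod.ext h4 (h2.trans h2'.symm))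

end Pool.TCS
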