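import Pool.Agent.Helper3.TCS.Stmts
import Pool.Agent.Helper3.TCS.Bas
import Pool.Agent.Helper3.TCM.Run

/-!
RUN5: all mixing rounds, with the test functions for the edges with a colour which is not reserved.
-/

set_option autoImplicit false
set_option linter.unusedSectionVars false

namespace Pool.TCS

open Pool.TC Pool.TCM Finset
open scoped Classical

section mj

variable {V : Type} {s l ρ : ℕ}

private theorem Run5_MJ0 (r j : ℕ) (c : Col s l ρ) : 0 ≤ MJ r j c := by
  rcases c with ⟨q, a⟩ | i
  · show (0 : ℝ) ≤ if _ then (1 / 2) ^ (r - j) else 0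
    split_ifs
    · positivity
    · exact le_refl _
  · exact le_refl (0 : ℝ)

private theorem Run5_MJ1 (r j : ℕ) (c : Col s l ρ) : MJ r j c ≤ 1 := by
  rcases c with ⟨q, a⟩ | i
  · show (if _ then (1 / 2 : ℝ) ^ (r - j) else 0) ≤ 1
    split_ifs
    · exact pow_le_one₀ (by norm_num) (by norm_num)
    · exact zero_le_one
  · exact zero_le_one

/-- the probabilities of two consecutive stages -/
private theorem Run5_MJs (r : ℕ) (j : Fin l) (c : Col s l ρ) :
    MJ r j.val c = (MJ r (j.val + 1) c + MJ r (j.val + 1) (flp j c)) / 2 := by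
  rcases c with ⟨q, a⟩ | i
  · show (if (∀ i : Fin l, i.val < r → i.val < j.val → a i = false) then
        (1 / 2 : ℝ) ^ (r - j.val) else 0) =
      ((if (∀ i : Fin l, i.val < r → i.val < j.val + 1 → a i = false) then
        (1 / 2 : ℝ) ^ (r - (j.val + 1)) else 0) +
      (if (∀ i : Fin l, i.val < r → i.val < j.val + 1 → Function.update a j (!a j) i = false) then
        (1 / 2 : ℝ) ^ (r - (j.val + 1)) else 0)) / 2
    by_cases hr : j.val < r
    · have e1 : (∀ i : Fin l, i.val < r → i.val < j.val + 1 → a i = false) ↔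
          (∀ i : Fin l, i.val < r → i.val < j.val → a i = false) ∧ a j = false := by
        constructor
        · intro h
          exact ⟨fun i h1 h2 => h i h1 (by omega), h j hr (by omega)⟩
        · rintro ⟨h1, h2⟩ i h3 h4
          rcases Nat.lt_succ_iff_lt_or_eq.1 h4 with h5 | h5
          · exact h1 i h3 h5
          · rw [Fin.ext h5]
            exact h2
      have e2 : (∀ i : Fin l, i.val < r → i.val < j.val + 1 →
          Function.update a j (!a j) i = false) ↔
          (∀ i : Fin l, i.val < r → i.val < j.val → a i = false) ∧ a j = true := by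
        constructor
        · intro h
          refine ⟨fun i h1 h2 => ?_, ?_⟩
          · have h3 := h i h1 (by omega)
            rwa [Function.update_of_ne (by intro e; rw [e] at h2; exact lt_irrefl _ h2)] at h3
          · have h3 := h j hr (by omega)
            rw [Function.update_self] at h3
            simpa using h3
        · rintro ⟨h1, h2⟩ i h3 h4
          rcases Nat.lt_succ_iff_lt_or_eq.1 h4 with h5 | h5
          · rw [Function.update_of_ne (by intro e; rw [e] at h5; exact lt_irrefl _ h5)]
            exact h1 i h3 h5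
          · rw [Fin.ext h5, Function.update_self, h2]
            rfl
      have e3 : (1 / 2 : ℝ) ^ (r - j.val) = (1 / 2) ^ (r - (j.val + 1)) / 2 := by
        rw [show r - j.val = (r - (j.val + 1)) + 1 by omega, pow_succ]
        ring
      rw [if_congr e1 rfl rfl, if_congr e2 rfl rfl, e3]
      by_cases hc : ∀ i : Fin l, i.val < r → i.val < j.val → a i = false
      · cases haj : a j
        · rw [if_pos hc, if_pos ⟨hc, rfl⟩, if_neg (fun h => absurd h.2 (by simp))]
          ring
        · rw [if_pos hc, if_neg (fun h => absurd h.2 (by simp)), if_pos ⟨hc, rfl⟩]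
          ring
      · rw [if_neg hc, if_neg (fun h => hc h.1), if_neg (fun h => hc h.1)]
        ring
    · have e1 : (∀ i : Fin l, i.val < r → i.val < j.val + 1 → a i = false) ↔
          (∀ i : Fin l, i.val < r → i.val < j.val → a i = false) :=
        ⟨fun h i h1 h2 => h i h1 (by omega), fun h i h1 h2 => h i h1 (by omega)⟩
      have e2 : (∀ i : Fin l, i.val < r → i.val < j.val + 1 →
          Function.update a j (!a j) i = false) ↔
          (∀ i : Fin l, i.val < r → i.val < j.val → a i = false) := by
        constructor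
        · intro h i h1 h2
          have h3 := h i h1 (by omega)
          rwa [Function.update_of_ne (by intro e; rw [e] at h2; exact lt_irrefl _ h2)] at h3
        · intro h i h1 h2
          rw [Function.update_of_ne (by intro e; rw [e] at h1; exact hr h1)]
          exact h i h1 (by omega)
      rw [if_congr e1 rfl rfl, if_congr e2 rfl rfl, show r - j.val = 0 by omega,
        show r - (j.val + 1) = 0 by omega]
      split_ifs <;> norm_num
  · show (0 : ℝ) = (0 + 0) / 2
    norm_num

/-- the averaging operator and products of functions of the two colours -/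
private theorem Run5_Tav {κ : Type} {σ : κ → κ} (hσ : ∀ c, σ (σ c) = c) (M : κ → ℝ) {θ : ℝ}
    (hθ : 0 ≤ θ) (w : V) (c m : κ) :
    Tav σ (fun _ c m => (1 - M c) * (1 - θ * M m)) w c m ≤
      (1 - (M c + M (σ c)) / 2) * (1 - θ * ((M m + M (σ m)) / 2)) := by
  unfold Tav
  split_ifs with h
  · subst h
    rw [hσ]
    nlinarith [mul_nonneg hθ (sq_nonneg (M c - M (σ c)))]
  · apply le_of_eq
    ring

private theorem Run5_pre_ge (r : ℕ) (q0 : Fin s) (ι : Fin ρ → (Fin l → Bool)) (c : Col s l ρ) :
    (1 / 2 : ℝ) ^ r / 2 ≤ (MJ r 0 c + MJ r 0 (pre q0 ι c)) / 2 := by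
  have hmain : ∀ (q : Fin s) (a : Fin l → Bool),
      MJ r 0 (Sum.inl (q, a) : Col s l ρ) = (1 / 2 : ℝ) ^ r := by
    intro q a
    show (if (∀ i : Fin l, i.val < r → i.val < 0 → a i = false) then (1 / 2 : ℝ) ^ (r - 0)
      else 0) = _
    rw [if_pos (fun i _ h => absurd h (Nat.not_lt_zero _)), Nat.sub_zero]
  have h0 := Run5_MJ0 r 0 c
  have h1 := Run5_MJ0 r 0 (pre q0 ι c)
  rcases c with ⟨q, a⟩ | i
  · rw [hmain] at h0 ⊢
    linarith
  · have h2 : pre q0 ι (Sum.inr i : Col s l ρ) = Sum.inl (q0, ι i) := rfl
    rw [h2, hmain]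
    linarith

private theorem Run5_sum (r : ℕ) (hr : r ≤ l) :
    ∑ c : Col s l ρ, MJ r 0 c = ((s * 2 ^ (l - r) : ℕ) : ℝ) := by
  rw [Fintype.sum_sum_type]
  have h1 : ∀ p : Fin s × (Fin l → Bool), MJ r 0 (Sum.inl p : Col s l ρ) = (1 / 2 : ℝ) ^ r := by
    rintro ⟨q, a⟩
    show (if (∀ i : Fin l, i.val < r → i.val < 0 → a i = false) then (1 / 2 : ℝ) ^ (r - 0)
      else 0) = _
    rw [if_pos (fun i _ h => absurd h (Nat.not_lt_zero _)), Nat.sub_zero]
  have h2 : ∀ i : Fin ρ, MJ r 0 (Sum.inr i : Col s l ρ) = 0 := fun i => rfl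
  rw [sum_congr rfl fun p _ => h1 p, sum_congr rfl fun i _ => h2 i, sum_const_zero, add_zero,
    sum_const, nsmul_eq_mul]
  have h3 : ((univ : Finset (Fin s × (Fin l → Bool))).card : ℝ) = s * 2 ^ l := by
    rw [card_univ]
    simp
  rw [h3]
  push_cast
  rw [show l = (l - r) + r by omega, Nat.add_sub_cancel, pow_add]
  have h4 : (2 : ℝ) ^ r * (1 / 2) ^ r = 1 := by
    rw [← mul_pow]
    norm_num
  calc (s : ℝ) * (2 ^ (l - r) * 2 ^ r) * (1 / 2) ^ r
      = (s : ℝ) * 2 ^ (l - r) * (2 ^ r * (1 / 2) ^ r) := by ring
    _ = _ := by rw [h4, mul_one]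

end mj

theorem thm_Run5 (hV : Pool.TCM.St_Viz) (hA : Pool.TCM.St_CutA) (hB : Pool.TCM.St_CutB)
    (hC : Pool.TCM.St_Coin) (hCh : Pool.TCM.St_Chain) : St_Run5 := by
  intro V _ G D s l ρ r θ Lam hD hs hρ hcard hr hrl hθ0 hθ1 hLam hexp hnoise
  set S : ℝ := ((s * 2 ^ (l - r) : ℕ) : ℝ) with hSdef
  have hSpos : 0 < S := by
    rw [hSdef]
    have : 0 < s * 2 ^ (l - r) := by positivity
    exact_mod_cast this
  have hSD : S < (D : ℝ) + 1 := by
    rw [hSdef]
    have h1 : 2 ^ (l - r) < 2 ^ l := Nat.pow_lt_pow_right (by norm_num) (by omega)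
    have h2 : s * 2 ^ (l - r) < s * 2 ^ l := Nat.mul_lt_mul_of_pos_left h1 (by omega)
    have h3 : s * 2 ^ (l - r) < D + 1 := by omega
    exact_mod_cast h3
  have hκ : Fintype.card (Col s l ρ) = D + 1 := by
    rw [← hcard]
    simp [Col]
  -- the injection of the leftover colours
  obtain ⟨ι, hι⟩ : ∃ ι : Fin ρ → (Fin l → Bool), Function.Injective ι := by
    have h1 : Fintype.card (Fin ρ) ≤ Fintype.card (Fin l → Bool) := by simpa using hρ
    obtain ⟨e⟩ := Function.Embedding.nonempty_of_card_le h1
    exact ⟨e, e.injective⟩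
  have q0 : Fin s := ⟨0, by omega⟩
  obtain ⟨c1, c2, -, c4, -, c6, -⟩ := hCh V s l ρ r (fun _ _ => true) θ q0 ι hs hr hrl
    (fun _ _ _ => rfl) hθ0 hθ1 hι
  -- the factor
  set f : ℝ := 1 - θ * (1 / 2) ^ r / 2 with hf
  have hpr : (0 : ℝ) < (1 / 2) ^ r ∧ ((1 / 2 : ℝ) ^ r ≤ 1) :=
    ⟨by positivity, pow_le_one₀ (by norm_num) (by norm_num)⟩
  have hf0 : 0 < f := by
    rw [hf]
    nlinarith [hpr.1, hpr.2]
  have hf1 : f ≤ 1 := by
    rw [hf]
    have := mul_nonneg hθ0 hpr.1.le
    linarith
  -- the family of test functions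
  let I := Option (Fin s × (Fin l → Bool))
  have hI : Fintype.card I ≤ D + 2 := by
    have : Fintype.card I = s * 2 ^ l + 1 := by simp [I]
    omega
  let fam : ℕ → I → V → Col s l ρ → Col s l ρ → ℝ := fun j i => match i with
    | none => G5 r θ j
    | some a => gY j a
  have hG0 : ∀ j w (c m : Col s l ρ), 0 ≤ G5 (V := V) r θ j w c m := by
    intro j w c m
    have h1 := Run5_MJ1 r j c
    have h2 := Run5_MJ1 r j m
    have h3 := Run5_MJ0 r j m
    show 0 ≤ (1 - MJ r j c) * (1 - θ * MJ r j m)
    apply mul_nonneg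
    · linarith
    · nlinarith
  have hG1 : ∀ j w (c m : Col s l ρ), G5 (V := V) r θ j w c m ≤ 1 := by
    intro j w c m
    have h1 := Run5_MJ1 r j c
    have h2 := Run5_MJ1 r j m
    have h3 := Run5_MJ0 r j m
    have h4 := Run5_MJ0 r j c
    show (1 - MJ r j c) * (1 - θ * MJ r j m) ≤ 1
    apply mul_le_one₀
    · linarith
    · nlinarith
    · have := mul_nonneg hθ0 h3
      linarith
  have fam0 : ∀ j i w c m, 0 ≤ fam j i w c m := by
    intro j i w c m
    cases i with
    | none => exact hG0 j w c m
    | some a => exact (c4 j a w c m).1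
  have fam1 : ∀ j i w c m, fam j i w c m ≤ 1 := by
    intro j i w c m
    cases i with
    | none => exact hG1 j w c m
    | some a => exact (c4 j a w c m).2
  set x0 : ℝ := ((D : ℝ) + 1 - S) * f with hx0
  have hx0pos : 0 < x0 := mul_pos (by linarith) hf0
  have hx0D : x0 ≤ (D : ℝ) + 1 := by
    rw [hx0]
    nlinarith
  have hsq : 0 ≤ Real.sqrt (2 * ((D : ℝ) + 1) * Lam) := Real.sqrt_nonneg _
  -- the induction
  have key : ∀ j : ℕ, j ≤ l → ∃ (E : EC (Col s l ρ) V) (z : V → V) (m : V → Col s l ρ),
      Stt G (8 * (l + 1)) E z m (j + 1) ∧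
      (∀ v, X E m (G5 r θ j) v ≤ x0 + 8 * ((j : ℝ) + 1) * Real.sqrt (2 * ((D : ℝ) + 1) * Lam)) ∧
      (∀ v a, X E m (gY j a) v ≤ uY D Lam j ^ 2) := by
    intro j
    induction j with
    | zero =>
      intro _
      obtain ⟨E, e1, e2⟩ := hV V (Col s l ρ) G D hD hκ
      -- missing colours
      have hmiss : ∀ w, ∃ c, E.N c w = w := by
        intro w
        by_contra hcon
        push Not at hcon
        have h1 : Fintype.card (Col s l ρ) ≤ (nb G w).card := by
          rw [← card_univ]
          refine card_le_card_of_injOn (fun c => E.N c w) ?_ ?_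
          · intro c _
            simp only [nb, coe_filter, mem_univ, true_and, Set.mem_ofPred_eq]
            exact e2 c w (hcon c)
          · intro a _ b _ hab
            exact E.uniq _ _ _ hab (hcon a)
        have h2 := hD w
        omega
      choose m0 hm0 using hmiss
      have hst : Stt G (8 * (l + 1)) E id m0 0 := by
        refine ⟨fun u => rfl, fun u h => absurd rfl h, e2, ?_, hm0, ?_⟩
        · intro u v h
          exact Or.inl (e1 u v h)
        · intro u
          simp
      obtain ⟨E', z', m', hS', hX'⟩ := round hA hB hC hD hκ c1 hst (by omega : 0 < l + 1)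
        (g := fam 0) (b := fun i => match i with | none => x0 | some _ => (D : ℝ) + 1) (Lam := Lam)
        (fam0 0) (fam1 0)
        (by
          intro i
          cases i with
          | none => exact hx0pos
          | some a => show (0 : ℝ) < D + 1; positivity)
        (by
          intro i v
          cases i with
          | none =>
            show X E m0 (Tav (pre q0 ι) (G5 r θ 0)) v ≤ x0
            have h1 : ∀ (w : V) (c m : Col s l ρ), m ≠ c → Tav (pre q0 ι) (G5 r θ 0) w c m ≤
                (1 - (MJ r 0 c + MJ r 0 (pre q0 ι c)) / 2) * f := by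
              intro w c m _
              refine (Run5_Tav c1 (MJ r 0) hθ0 w c m).trans ?_
              have h2 := Run5_pre_ge r q0 ι m
              have h3 := Run5_MJ1 r 0 c
              have h4 := Run5_MJ1 r 0 (pre q0 ι c)
              apply mul_le_mul_of_nonneg_left _ (by linarith)
              rw [hf]
              nlinarith
            refine (X_mono hm0 (g' := fun _ c _ =>
              (1 - (MJ r 0 c + MJ r 0 (pre q0 ι c)) / 2) * f) h1 v).trans ?_
            have h5 : X E m0 (fun _ c _ => (1 - (MJ r 0 c + MJ r 0 (pre q0 ι c)) / 2) * f) v ≤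
                ∑ c : Col s l ρ, (1 - (MJ r 0 c + MJ r 0 (pre q0 ι c)) / 2) * f := by
              unfold X
              refine sum_le_sum (fun c _ => ?_)
              split_ifs
              · have h3 := Run5_MJ1 r 0 c
                have h4 := Run5_MJ1 r 0 (pre q0 ι c)
                exact mul_nonneg (by linarith) hf0.le
              · exact le_refl _
            refine h5.trans (le_of_eq ?_)
            rw [← sum_mul, sum_sub_distrib, ← sum_div, sum_add_distrib]
            have h6 : ∑ c : Col s l ρ, MJ r 0 (pre q0 ι c) = ∑ c : Col s l ρ, MJ r 0 c :=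
              Equiv.sum_comp (Equiv.mk (pre q0 ι) (pre q0 ι) c1 c1) (fun c => MJ r 0 c)
            rw [h6, Run5_sum r hrl, sum_const, nsmul_eq_mul, mul_one, card_univ, hκ, hx0, hSdef]
            push_cast
            ring
          | some a =>
            show X E m0 _ v ≤ (D : ℝ) + 1
            refine (X_le_card (fun w c m => Tav_le_one (fam1 0 (some a)) w c m) v).trans ?_
            rw [hκ]
            push_cast
            exact le_refl _)
        hLam.le hI hexp
      refine ⟨E', z', m', by simpa using hS', ?_, ?_⟩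
      · intro v
        have h1 : X E' m' (G5 r θ 0) v ≤ x0 + 8 * Real.sqrt (x0 * Lam) := hX' none v
        have h2 : Real.sqrt (x0 * Lam) ≤ Real.sqrt (2 * ((D : ℝ) + 1) * Lam) := by
          apply Real.sqrt_le_sqrt
          apply mul_le_mul_of_nonneg_right _ hLam.le
          have : (0 : ℝ) ≤ (D : ℝ) := Nat.cast_nonneg _
          linarith
        push_cast
        linarith
      · intro v a
        refine (X_le_card (fun w c m => (c4 0 a w c m).2) v).trans ?_
        rw [hκ]
        unfold uY
        have h1 : Real.sqrt ((D : ℝ) + 1) ^ 2 = D + 1 := Real.sq_sqrt (by positivity)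
        have h2 := Real.sqrt_nonneg ((D : ℝ) + 1)
        have h3 := Real.sqrt_nonneg Lam
        push_cast
        rw [pow_zero, mul_one]
        nlinarith [mul_nonneg h2 h3]
    | succ j ih =>
      intro hj
      obtain ⟨E, z, m, hst, hX, hY⟩ := ih (by omega)
      have hjl : j < l := by omega
      set xj : ℝ := x0 + 8 * ((j : ℝ) + 1) * Real.sqrt (2 * ((D : ℝ) + 1) * Lam) with hxj
      have hxjpos : 0 < xj := by
        rw [hxj]
        positivity
      have hxjS : xj ≤ 2 * ((D : ℝ) + 1) := by
        have h1 : 8 * ((j : ℝ) + 1) * Real.sqrt (2 * ((D : ℝ) + 1) * Lam) ≤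
            8 * ((l : ℝ) + 1) * Real.sqrt (2 * ((D : ℝ) + 1) * Lam) := by
          have : (j : ℝ) ≤ l := by exact_mod_cast hjl.le
          gcongr
        rw [hxj]
        linarith
      obtain ⟨E', z', m', hS', hX'⟩ := round hA hB hC hD hκ (c2 ⟨j, hjl⟩) hst
        (by omega : j + 1 < l + 1)
        (g := fam (j + 1)) (b := fun i => match i with | none => xj | some _ => uY D Lam j ^ 2 / 2)
        (Lam := Lam) (fam0 (j + 1)) (fam1 (j + 1))
        (by
          intro i
          have := uY_pos D Lam j
          cases i with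
          | none => exact hxjpos
          | some a => show (0 : ℝ) < uY D Lam j ^ 2 / 2; positivity)
        (by
          intro i v
          cases i with
          | none =>
            show X E m (Tav (flp ⟨j, hjl⟩) (G5 r θ (j + 1))) v ≤ xj
            refine (X_mono hst.miss (g' := G5 r θ j) (fun w c m h => ?_) v).trans (hX v)
            refine (Run5_Tav (c2 ⟨j, hjl⟩) (MJ r (j + 1)) hθ0 w c m).trans (le_of_eq ?_)
            have h1 := Run5_MJs (s := s) (ρ := ρ) r ⟨j, hjl⟩ c
            have h2 := Run5_MJs (s := s) (ρ := ρ) r ⟨j, hjl⟩ m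
            show _ = (1 - MJ r j c) * (1 - θ * MJ r j m)
            rw [show MJ r j c = _ from h1, show MJ r j m = _ from h2]
          | some a =>
            show X E m (Tav (flp ⟨j, hjl⟩) (gY (j + 1) a)) v ≤ uY D Lam j ^ 2 / 2
            refine (X_mono hst.miss (g' := fun w c m => gY j a w c m / 2)
              (fun w c m _ => (c6 ⟨j, hjl⟩ a w c m).le) v).trans ?_
            rw [X_half]
            have := hY v a
            linarith)
        hLam.le hI hexp
      refine ⟨E', z', m', hS', ?_, ?_⟩
      · intro v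
        have h1 : X E' m' (G5 r θ (j + 1)) v ≤ xj + 8 * Real.sqrt (xj * Lam) := hX' none v
        have h2 : Real.sqrt (xj * Lam) ≤ Real.sqrt (2 * ((D : ℝ) + 1) * Lam) := by
          apply Real.sqrt_le_sqrt
          exact mul_le_mul_of_nonneg_right hxjS hLam.le
        rw [hxj] at h1
        push_cast
        rw [hxj] at h2
        linarith
      · intro v a
        exact (hX' (some a) v).trans (uY_step D hLam.le j)
  obtain ⟨E, z, m, h1, h2, h3⟩ := key l le_rfl
  exact ⟨E, z, m, h1, h2, h3⟩

end Pool.TCS
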