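import Pool.Agent.Helper3.TCS.Stmts
import Pool.Agent.Helper3.TCS.Bas

/-!
# TAU: a random bipartition (helper11)
-/

set_option autoImplicit false

namespace Pool.TCS

open Pool.TC Pool.TCM Finset
open scoped Classical

/-- flipping one coordinate -/
theorem tau_flip {T : Type} [Fintype T] (a : T) (X Y Z : (T → Bool) → Prop)
    (hZ : ∀ ω, Z ω ↔ X ω ∧ Y ω)
    (hX : ∀ ω, X (Function.update ω a (!ω a)) ↔ X ω)
    (hY : ∀ ω, Y (Function.update ω a (!ω a)) ↔ ¬ Y ω) :
    ((univ.filter (fun ω : T → Bool => Z ω)).card : ℝ) =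
      ((univ.filter (fun ω : T → Bool => X ω)).card : ℝ) / 2 := by
  have hinv : ∀ ω : T → Bool, Function.update (Function.update ω a (!ω a)) a
      (!(Function.update ω a (!ω a)) a) = ω := by
    intro ω
    simp
  obtain ⟨Z', hZ'⟩ : ∃ Z' : (T → Bool) → Prop, ∀ ω, Z' ω ↔ X ω ∧ ¬ Y ω := ⟨_, fun _ => Iff.rfl⟩
  have h1 : (univ.filter (fun ω : T → Bool => Z ω)).card =
      (univ.filter (fun ω : T → Bool => Z' ω)).card := by
    refine Finset.card_bij' (fun ω _ => Function.update ω a (!ω a))
      (fun ω _ => Function.update ω a (!ω a)) ?_ ?_ (fun ω _ => hinv ω) (fun ω _ => hinv ω)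
    · intro ω h
      rw [mem_filter] at h ⊢
      refine ⟨mem_univ _, ?_⟩
      rw [hZ', hX, hY]
      have h' := (hZ ω).1 h.2
      exact ⟨h'.1, fun h'' => h'' h'.2⟩
    · intro ω h
      rw [mem_filter] at h ⊢
      refine ⟨mem_univ _, ?_⟩
      rw [hZ, hX, hY]
      exact (hZ' ω).1 h.2
  have h2 : (univ.filter (fun ω : T → Bool => X ω)) =
      (univ.filter (fun ω : T → Bool => Z ω)) ∪ (univ.filter (fun ω : T → Bool => Z' ω)) := by
    ext ω
    rw [mem_union, mem_filter, mem_filter, mem_filter, hZ, hZ']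
    tauto
  have h4 : Disjoint (univ.filter (fun ω : T → Bool => Z ω))
      (univ.filter (fun ω : T → Bool => Z' ω)) := by
    rw [Finset.disjoint_left]
    intro ω ha hb
    rw [mem_filter] at ha hb
    exact ((hZ' ω).1 hb.2).2 ((hZ ω).1 ha.2).2
  have h3 : ((univ.filter (fun ω : T → Bool => X ω)).card : ℝ) =
      (univ.filter (fun ω : T → Bool => Z ω)).card +
        (univ.filter (fun ω : T → Bool => Z ω)).card := by
    rw [h2, Finset.card_union_of_disjoint h4, ← h1]
    push_cast
    ring
  rw [h3]
  ring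

/-- double counting -/
theorem tau_dc {Ω W : Type} [Fintype Ω] (s : Finset W) (R : Ω → W → Prop) (k : ℝ)
    (h : ∀ w ∈ s, ((univ.filter (fun ω => R ω w)).card : ℝ) = k) :
    ∑ ω : Ω, ((s.filter (fun w => R ω w)).card : ℝ) = s.card * k := by
  have h1 : ∀ ω : Ω, ((s.filter (fun w => R ω w)).card : ℝ) =
      ∑ w ∈ s, if R ω w then (1 : ℝ) else 0 := by
    intro ω
    rw [Finset.card_filter]
    push_cast
    rfl
  simp_rw [h1]
  rw [Finset.sum_comm]
  have h2 : ∀ w ∈ s, (∑ ω : Ω, if R ω w then (1 : ℝ) else 0) = k := by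
    intro w hw
    rw [← h w hw, Finset.card_filter]
    push_cast
    rfl
  rw [Finset.sum_congr rfl h2, Finset.sum_const, nsmul_eq_mul]

theorem tau_bd {W : Type} (s B : Finset W) (R R' : W → Prop)
    (h : ∀ w ∈ s, w ∉ B → (R w ↔ R' w)) :
    |((s.filter R).card : ℝ) - ((s.filter R').card : ℝ)| ≤ B.card := by
  have h1 : (s.filter R).card ≤ (s.filter R').card + B.card := by
    refine le_trans (Finset.card_le_card ?_) (Finset.card_union_le _ _)
    intro w hw
    rw [mem_filter] at hw
    rw [mem_union, mem_filter]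
    by_cases hB : w ∈ B
    · exact Or.inr hB
    · exact Or.inl ⟨hw.1, (h w hw.1 hB).1 hw.2⟩
  have h2 : (s.filter R').card ≤ (s.filter R).card + B.card := by
    refine le_trans (Finset.card_le_card ?_) (Finset.card_union_le _ _)
    intro w hw
    rw [mem_filter] at hw
    rw [mem_union, mem_filter]
    by_cases hB : w ∈ B
    · exact Or.inr hB
    · exact Or.inl ⟨hw.1, (h w hw.1 hB).2 hw.2⟩
  have h1' : ((s.filter R).card : ℝ) ≤ (s.filter R').card + B.card := by exact_mod_cast h1
  have h2' : ((s.filter R').card : ℝ) ≤ (s.filter R).card + B.card := by exact_mod_cast h2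
  rw [abs_le]
  constructor <;> linarith

theorem tau_sq {T : Type} [Fintype T] (b : T → ℝ) (k S : ℝ) (h0 : ∀ t, 0 ≤ b t)
    (hk : ∀ t, b t ≤ k) (hS : ∑ t, b t ≤ S) (k0 : 0 ≤ k) : ∑ t, b t ^ 2 ≤ k * S := by
  calc ∑ t, b t ^ 2 ≤ ∑ t, k * b t := by
        apply Finset.sum_le_sum
        intro t _
        rw [pow_two]
        exact mul_le_mul_of_nonneg_right (hk t) (h0 t)
    _ = k * ∑ t, b t := by rw [Finset.mul_sum]
    _ ≤ k * S := mul_le_mul_of_nonneg_left hS k0

section core

variable {V T : Type} [Fintype V] [Fintype T]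

/-- the vertices of `Q` whose coin is `t` -/
noncomputable def tauB1 (co : V → T) (Q : Finset V) (t : T) : Finset V :=
  Q.filter (fun w => co w = t)

/-- the vertices of `P` such that the coin of `w` or of `p w` is `t` -/
noncomputable def tauB2 (co : V → T) (p : V → V) (P : Finset V) (t : T) : Finset V :=
  P.filter (fun w => co w = t ∨ co (p w) = t)

theorem tau_fib (co : V → T) (z : V → V) (h2 : ∀ u w, co u = co w → w = u ∨ w = z u)
    (Q : Finset V) (t : T) : (tauB1 co Q t).card ≤ 2 := by
  unfold tauB1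
  rcases (Q.filter (fun w => co w = t)).eq_empty_or_nonempty with h | ⟨w0, h0⟩
  · rw [h]
    simp
  · rw [mem_filter] at h0
    refine le_trans (Finset.card_le_card (t := {w0, z w0}) ?_) Finset.card_le_two
    intro w hw
    rw [mem_filter] at hw
    rw [mem_insert, mem_singleton]
    exact h2 w0 w (by rw [h0.2, hw.2])

theorem tau_sum1 (co : V → T) (Q : Finset V) :
    ∑ t : T, ((tauB1 co Q t).card : ℝ) = Q.card := by
  have := tau_dc (Ω := T) Q (fun t w => co w = t) 1 (by
    intro w _
    have : univ.filter (fun t => co w = t) = {co w} := by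
      ext t
      simp [eq_comm]
    rw [this]
    simp)
  rw [mul_one] at this
  exact this

theorem tau_card2 (co : V → T) (z : V → V) (h2 : ∀ u w, co u = co w → w = u ∨ w = z u)
    (p : V → V) (hp : Function.Injective p) (P : Finset V) (t : T) :
    (tauB2 co p P t).card ≤ 4 := by
  unfold tauB2
  rw [Finset.filter_or]
  refine le_trans (Finset.card_union_le _ _) ?_
  have h3 : (P.filter (fun w => co w = t)).card ≤ 2 := tau_fib co z h2 P t
  have h4 : (P.filter (fun w => co (p w) = t)).card ≤ 2 := by
    rw [← Finset.card_image_of_injective _ hp]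
    refine le_trans (Finset.card_le_card ?_) (tau_fib co z h2 univ t)
    intro u hu
    obtain ⟨w, hw, rfl⟩ := Finset.mem_image.1 hu
    rw [mem_filter] at hw
    unfold tauB1
    rw [mem_filter]
    exact ⟨mem_univ _, hw.2⟩
  omega

theorem tau_sum2 (co : V → T) (p : V → V) (P : Finset V) :
    ∑ t : T, ((tauB2 co p P t).card : ℝ) ≤ 2 * P.card := by
  have h1 := tau_dc (Ω := T) P (fun t w => co w = t) 1 (by
    intro w _
    have : univ.filter (fun t => co w = t) = {co w} := by
      ext t
      simp [eq_comm]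
    rw [this]
    simp)
  have h2 := tau_dc (Ω := T) P (fun t w => co (p w) = t) 1 (by
    intro w _
    have : univ.filter (fun t => co (p w) = t) = {co (p w)} := by
      ext t
      simp [eq_comm]
    rw [this]
    simp)
  calc ∑ t : T, ((tauB2 co p P t).card : ℝ)
      ≤ ∑ t : T, (((P.filter (fun w => co w = t)).card : ℝ) +
          ((P.filter (fun w => co (p w) = t)).card : ℝ)) := by
        apply Finset.sum_le_sum
        intro t _
        unfold tauB2
        rw [Finset.filter_or]
        exact_mod_cast Finset.card_union_le _ _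
    _ = 2 * P.card := by
        rw [Finset.sum_add_distrib, h1, h2]
        ring

/-- the coin of `w` is `b` -/
def tauE (co : V → T) (b : Bool) (ω : T → Bool) (w : V) : Prop := ω (co w) = b

/-- `w` and `p w` are separated -/
def tauX (co : V → T) (p : V → V) (ω : T → Bool) (w : V) : Prop := ω (co (p w)) ≠ ω (co w)

/-- both are separated -/
def tauY (co : V → T) (p : V → V) (ω : T → Bool) (w : V × V) : Prop :=
  tauX co p ω w.1 ∧ tauX co p ω w.2

/-- the pairs of distinct non-adjacent vertices -/
noncomputable def tauP (G : SimpleGraph V) (P : Finset V) : Finset (V × V) :=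
  (P ×ˢ P).filter (fun w => w.1 ≠ w.2 ∧ ¬ G.Adj w.1 w.2)

/-- the counting functions -/
noncomputable def tauF {I J : Type} (G : SimpleGraph V) (co : V → T) (Q : I → Finset V)
    (P : J → Finset V) (p : J → V → V) : (I × Bool) ⊕ (J ⊕ J) → (T → Bool) → ℝ
  | Sum.inl (i, b) => fun ω => (((Q i).filter (fun w => tauE co b ω w)).card : ℝ)
  | Sum.inr (Sum.inl j) => fun ω => (((P j).filter (fun w => tauX co (p j) ω w)).card : ℝ)
  | Sum.inr (Sum.inr j) => fun ω =>
      -(((tauP G (P j)).filter (fun w => tauY co (p j) ω w)).card : ℝ)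

/-- the influences -/
noncomputable def tauC {I J : Type} (co : V → T) (Q : I → Finset V)
    (P : J → Finset V) (p : J → V → V) (M : ℕ) : (I × Bool) ⊕ (J ⊕ J) → T → ℝ
  | Sum.inl (i, _) => fun t => ((tauB1 co (Q i) t).card : ℝ)
  | Sum.inr (Sum.inl j) => fun t => ((tauB2 co (p j) (P j) t).card : ℝ)
  | Sum.inr (Sum.inr j) => fun t => 2 * M * ((tauB2 co (p j) (P j) t).card : ℝ)

/-- the vertices touched by an index -/
noncomputable def tauW {I J : Type} (Q : I → Finset V) (P : J → Finset V) (p : J → V → V) :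
    (I × Bool) ⊕ (J ⊕ J) → Finset V
  | Sum.inl (i, _) => Q i
  | Sum.inr (Sum.inl j) => P j ∪ (P j).image (p j)
  | Sum.inr (Sum.inr j) => P j ∪ (P j).image (p j)

/-- the constants -/
noncomputable def tauV {I J : Type} (M : ℕ) : (I × Bool) ⊕ (J ⊕ J) → ℝ
  | Sum.inl _ => 2 * M
  | Sum.inr (Sum.inl _) => 8 * M
  | Sum.inr (Sum.inr _) => 32 * M ^ 3

/-- the deviations -/
noncomputable def tauL {I J : Type} (M : ℕ) (Lam : ℝ) : (I × Bool) ⊕ (J ⊕ J) → ℝ
  | Sum.inl _ => 2 * Real.sqrt (M * Lam)
  | Sum.inr (Sum.inl _) => 32 * Real.sqrt (M * Lam)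
  | Sum.inr (Sum.inr _) => 32 * M * Real.sqrt (M * Lam)

theorem tau_core (hLM : Pool.TCM.St_LM) {I J : Type} [Fintype I] [Fintype J] (G : SimpleGraph V)
    (z : V → V) (co : V → T) (Q : I → Finset V) (P : J → Finset V) (p : J → V → V) (M N : ℕ)
    (Lam : ℝ) (h1 : ∀ u, co (z u) = co u) (h2 : ∀ u w, co u = co w → w = u ∨ w = z u)
    (zz : ∀ u, z (z u) = u) (za : ∀ u, z u ≠ u → G.Adj u (z u))
    (pin : ∀ j, Function.Injective (p j)) (padj : ∀ j, ∀ u ∈ P j, G.Adj u (p j u))
    (pz : ∀ j, ∀ u ∈ P j, z (p j u) = p j u) (hM : 0 < M)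
    (hQ : ∀ i, (Q i).card ≤ M) (hP : ∀ j, (P j).card ≤ M)
    (nQ : ∀ w, (univ.filter (fun i => w ∈ Q i)).card ≤ N)
    (nP : ∀ w, (univ.filter (fun j => w ∈ P j ∨ ∃ u ∈ P j, p j u = w)).card ≤ N)
    (hL : 0 ≤ Lam) (hexp : 4 * Real.exp (-Lam) * (32 * (N : ℝ) * M + 1) ≤ 1) :
    ∃ ω : T → Bool, ∀ j, tauF G co Q P p j ω ≤
      (∑ ω', tauF G co Q P p j ω') / Fintype.card (T → Bool) + tauL M Lam j := by
  have hMr : (0 : ℝ) < M := by exact_mod_cast hM
  have hsq : Real.sqrt (M * Lam) ^ 2 = M * Lam := Real.sq_sqrt (by positivity)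
  -- the bounded differences of the crossing status
  have hst : ∀ (j : J) (t : T) (ω ω' : T → Bool), (∀ t', t' ≠ t → ω t' = ω' t') → ∀ w ∈ P j,
      w ∉ tauB2 co (p j) (P j) t → (tauX co (p j) ω w ↔ tauX co (p j) ω' w) := by
    intro j t ω ω' hω w hw hB
    unfold tauB2 at hB
    rw [mem_filter] at hB
    have hB' : ¬ (co w = t ∨ co (p j w) = t) := fun h => hB ⟨hw, h⟩
    push Not at hB'
    unfold tauX
    rw [hω _ hB'.1, hω _ hB'.2]
  refine hLM T Bool ((I × Bool) ⊕ (J ⊕ J)) (tauF G co Q P p) (tauC co Q P p M) (tauV M)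
    (tauL M Lam) (fun j => (tauW Q P p j).image co) Lam (16 * N * M) ?_ ?_ ?_ ?_ ?_ ?_ ?_ ?_ ?_
  · -- nonnegativity
    rintro (⟨i, b⟩ | j | j) t <;> simp only [tauC] <;> positivity
  · -- bounded differences
    rintro (⟨i, b⟩ | j | j) t ω ω' hω
    · simp only [tauF, tauC]
      apply tau_bd
      intro w hw hB
      unfold tauB1 at hB
      rw [mem_filter] at hB
      have hB' : co w ≠ t := fun h => hB ⟨hw, h⟩
      unfold tauE
      rw [hω _ hB']
    · simp only [tauF, tauC]
      apply tau_bd
      intro w hw hB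
      exact hst j t ω ω' hω w hw hB
    · simp only [tauF, tauC]
      set B := (tauB2 co (p j) (P j) t ×ˢ P j) ∪ (P j ×ˢ tauB2 co (p j) (P j) t) with hB
      have k1 := tau_bd (tauP G (P j)) B (fun w => tauY co (p j) ω w)
        (fun w => tauY co (p j) ω' w) (by
          intro w hw hwB
          unfold tauP at hw
          rw [mem_filter, mem_product] at hw
          rw [hB, mem_union, mem_product, mem_product] at hwB
          push Not at hwB
          have e1 : w.1 ∉ tauB2 co (p j) (P j) t := fun h => hwB.1 h hw.1.2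
          have e2 : w.2 ∉ tauB2 co (p j) (P j) t := fun h => hwB.2 hw.1.1 h
          unfold tauY
          rw [hst j t ω ω' hω _ hw.1.1 e1, hst j t ω ω' hω _ hw.1.2 e2])
      have k2 : (B.card : ℝ) ≤ 2 * M * ((tauB2 co (p j) (P j) t).card : ℝ) := by
        have k3 : B.card ≤ (tauB2 co (p j) (P j) t).card * (P j).card +
            (P j).card * (tauB2 co (p j) (P j) t).card := by
          refine le_trans (Finset.card_union_le _ _) ?_
          rw [card_product, card_product]
        have k4 : B.card ≤ 2 * M * (tauB2 co (p j) (P j) t).card := by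
          have k5 := Nat.mul_le_mul_right (tauB2 co (p j) (P j) t).card (hP j)
          have k6 := Nat.mul_le_mul_left (tauB2 co (p j) (P j) t).card (hP j)
          nlinarith
        exact_mod_cast k4
      refine le_trans ?_ k2
      rw [neg_sub_neg, abs_sub_comm]
      exact k1
  · -- support
    rintro (⟨i, b⟩ | j | j) t ht
    · simp only [tauC]
      have : tauB1 co (Q i) t = ∅ := by
        rw [Finset.eq_empty_iff_forall_notMem]
        intro w hw
        unfold tauB1 at hw
        rw [mem_filter] at hw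
        exact ht (Finset.mem_image.2 ⟨w, hw.1, hw.2⟩)
      rw [this]
      simp
    · simp only [tauC]
      have : tauB2 co (p j) (P j) t = ∅ := by
        rw [Finset.eq_empty_iff_forall_notMem]
        intro w hw
        unfold tauB2 at hw
        rw [mem_filter] at hw
        rcases hw.2 with h | h
        · exact ht (Finset.mem_image.2 ⟨w, mem_union_left _ hw.1, h⟩)
        · exact ht (Finset.mem_image.2 ⟨p j w, mem_union_right _ (mem_image_of_mem _ hw.1), h⟩)
      rw [this]
      simp
    · simp only [tauC]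
      have : tauB2 co (p j) (P j) t = ∅ := by
        rw [Finset.eq_empty_iff_forall_notMem]
        intro w hw
        unfold tauB2 at hw
        rw [mem_filter] at hw
        rcases hw.2 with h | h
        · exact ht (Finset.mem_image.2 ⟨w, mem_union_left _ hw.1, h⟩)
        · exact ht (Finset.mem_image.2 ⟨p j w, mem_union_right _ (mem_image_of_mem _ hw.1), h⟩)
      rw [this]
      simp
  · -- sums of squares
    have hB2 : ∀ j : J, ∑ t, ((tauB2 co (p j) (P j) t).card : ℝ) ^ 2 ≤ 8 * M := by
      intro j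
      have h3 := tau_sq (fun t => ((tauB2 co (p j) (P j) t).card : ℝ)) 4 (2 * M)
        (fun t => Nat.cast_nonneg _)
        (fun t => by exact_mod_cast tau_card2 co z h2 (p j) (pin j) (P j) t)
        (le_trans (tau_sum2 co (p j) (P j)) (by
          have : ((P j).card : ℝ) ≤ M := by exact_mod_cast hP j
          linarith)) (by norm_num)
      calc _ ≤ 4 * (2 * (M : ℝ)) := h3
        _ = 8 * M := by ring
    rintro (⟨i, b⟩ | j | j)
    · simp only [tauC, tauV]
      exact tau_sq (fun t => ((tauB1 co (Q i) t).card : ℝ)) 2 M (fun t => Nat.cast_nonneg _)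
        (fun t => by exact_mod_cast tau_fib co z h2 (Q i) t)
        (by rw [tau_sum1]; exact_mod_cast hQ i) (by norm_num)
    · simp only [tauC, tauV]
      exact hB2 j
    · simp only [tauC, tauV]
      calc ∑ t, (2 * (M : ℝ) * ((tauB2 co (p j) (P j) t).card : ℝ)) ^ 2
          = 4 * (M : ℝ) ^ 2 * ∑ t, ((tauB2 co (p j) (P j) t).card : ℝ) ^ 2 := by
            rw [Finset.mul_sum]
            apply Finset.sum_congr rfl
            intro t _
            ring
        _ ≤ 4 * (M : ℝ) ^ 2 * (8 * M) := mul_le_mul_of_nonneg_left (hB2 j) (by positivity)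
        _ = 32 * M ^ 3 := by ring
  · rintro (⟨i, b⟩ | j | j) <;> simp only [tauV] <;> positivity
  · rintro (⟨i, b⟩ | j | j) <;> simp only [tauL] <;> positivity
  · rintro (⟨i, b⟩ | j | j) <;> simp only [tauV, tauL]
    · rw [mul_pow, hsq]
      linarith
    · rw [mul_pow, hsq]
      have : 0 ≤ (M : ℝ) * Lam := by positivity
      nlinarith
    · rw [mul_pow, hsq, mul_pow]
      have : 0 ≤ (M : ℝ) ^ 3 * Lam := by positivity
      nlinarith
  · -- dependencies
    intro j
    have hWc : (tauW Q P p j).card ≤ 2 * M := by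
      rcases j with ⟨i, b⟩ | j | j
      · simp only [tauW]
        have := hQ i
        omega
      · simp only [tauW]
        have e1 := Finset.card_union_le (P j) ((P j).image (p j))
        have e2 : ((P j).image (p j)).card ≤ (P j).card := Finset.card_image_le
        have e3 := hP j
        omega
      · simp only [tauW]
        have e1 := Finset.card_union_le (P j) ((P j).image (p j))
        have e2 : ((P j).image (p j)).card ≤ (P j).card := Finset.card_image_le
        have e3 := hP j
        omega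
    have htouch : ∀ w : V, (univ.filter (fun j' : (I × Bool) ⊕ (J ⊕ J) =>
        w ∈ tauW Q P p j')).card ≤ 4 * N := by
      intro w
      set A := univ.filter (fun j => w ∈ P j ∨ ∃ u ∈ P j, p j u = w) with hA
      refine le_trans (Finset.card_le_card (t := ((univ.filter (fun i => w ∈ Q i)) ×ˢ
        (univ : Finset Bool)).disjSum (A.disjSum A)) ?_) ?_
      · intro j' hj'
        rw [mem_filter] at hj'
        rcases j' with ⟨i, b⟩ | j' | j'
        · rw [Finset.inl_mem_disjSum, mem_product, mem_filter]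
          exact ⟨⟨mem_univ _, hj'.2⟩, mem_univ _⟩
        · rw [Finset.inr_mem_disjSum, Finset.inl_mem_disjSum, hA, mem_filter]
          refine ⟨mem_univ _, ?_⟩
          have := hj'.2
          simp only [tauW, mem_union, mem_image] at this
          exact this
        · rw [Finset.inr_mem_disjSum, Finset.inr_mem_disjSum, hA, mem_filter]
          refine ⟨mem_univ _, ?_⟩
          have := hj'.2
          simp only [tauW, mem_union, mem_image] at this
          exact this
      · rw [Finset.card_disjSum, Finset.card_disjSum, card_product]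
        have e1 := nQ w
        have e2 : A.card ≤ N := nP w
        have e3 : (univ : Finset Bool).card = 2 := by simp
        rw [e3]
        omega
    refine le_trans (Finset.card_le_card (t := (tauW Q P p j).biUnion (fun w =>
      (univ.filter (fun j' : (I × Bool) ⊕ (J ⊕ J) => w ∈ tauW Q P p j')) ∪
      (univ.filter (fun j' : (I × Bool) ⊕ (J ⊕ J) => z w ∈ tauW Q P p j')))) ?_) ?_
    · intro j' hj'
      rw [mem_filter] at hj'
      obtain ⟨-, t, ht1, ht2⟩ := hj'
      obtain ⟨w, hw, rfl⟩ := Finset.mem_image.1 ht1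
      obtain ⟨w', hw', hww'⟩ := Finset.mem_image.1 ht2
      rw [Finset.mem_biUnion]
      refine ⟨w, hw, ?_⟩
      rw [mem_union, mem_filter, mem_filter]
      rcases h2 w w' hww'.symm with h | h
      · left
        rw [← h]
        exact ⟨mem_univ _, hw'⟩
      · right
        rw [← h]
        exact ⟨mem_univ _, hw'⟩
    · refine le_trans (Finset.card_biUnion_le_card_mul _ _ (8 * N) ?_) ?_
      · intro w _
        refine le_trans (Finset.card_union_le _ _) ?_
        have e1 := htouch w
        have e2 := htouch (z w)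
        omega
      · calc (tauW Q P p j).card * (8 * N) ≤ 2 * M * (8 * N) := Nat.mul_le_mul_right _ hWc
          _ = 16 * N * M := by ring
  · -- the exponential
    refine le_trans ?_ hexp
    have e1 : (0 : ℝ) ≤ (N : ℝ) * M := by positivity
    have e2 : 0 ≤ 4 * Real.exp (-Lam) := by positivity
    apply mul_le_mul_of_nonneg_left _ e2
    push_cast
    nlinarith

end core

theorem thm_Tau (hLM : Pool.TCM.St_LM) : St_Tau := by
  intro V I J _ _ _ G z Q P p M N Lam zz za pin padj pz hM hQ hP nQ nP hL hexp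
  -- the coins
  have hco : ∃ (T : Type) (_ : Fintype T) (co : V → T), (∀ u, co (z u) = co u) ∧
      ∀ u w, co u = co w → w = u ∨ w = z u := by
    refine ⟨Finset V, inferInstance, fun u => {u, z u}, ?_, ?_⟩
    · intro u
      show ({z u, z (z u)} : Finset V) = {u, z u}
      rw [zz]
      exact Finset.pair_comm _ _
    · intro u w h
      have h' : ({u, z u} : Finset V) = {w, z w} := h
      have : w ∈ ({u, z u} : Finset V) := by
        rw [h']
        exact mem_insert_self _ _
      rw [mem_insert, mem_singleton] at this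
      exact this
  obtain ⟨T, _, co, h1, h2⟩ := hco
  obtain ⟨ω, hω⟩ := tau_core hLM G z co Q P p M N Lam h1 h2 zz za pin padj pz hM hQ hP nQ nP hL hexp
  have hcard : (0 : ℝ) < Fintype.card (T → Bool) := by
    exact_mod_cast Fintype.card_pos
  obtain ⟨Tr, hTr⟩ : ∃ Tr : (T → Bool) → Prop, ∀ ω, Tr ω := ⟨fun _ => True, fun _ => trivial⟩
  have htrue : ((univ.filter (fun ω : T → Bool => Tr ω)).card : ℝ) =
      Fintype.card (T → Bool) := by
    rw [Finset.filter_true_of_mem (fun ω _ => hTr ω), Finset.card_univ]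
  -- distinct coins
  have d1 : ∀ j, ∀ w ∈ P j, co w ≠ co (p j w) := by
    intro j w hw h
    have hadj := padj j w hw
    have h4 : w = p j w := by
      rcases h2 _ _ h.symm with h3 | h3
      · exact h3
      · rw [pz j w hw] at h3
        exact h3
    exact G.ne_of_adj hadj h4
  -- half
  have p1 : ∀ (w : V) (b : Bool), ((univ.filter (fun ω : T → Bool => tauE co b ω w)).card : ℝ) =
      Fintype.card (T → Bool) / 2 := by
    intro w b
    rw [← htrue]
    apply tau_flip (co w) Tr (fun ω => ω (co w) = b)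
    · intro ω
      exact ⟨fun h => ⟨hTr ω, h⟩, fun h => h.2⟩
    · intro ω
      exact ⟨fun _ => hTr _, fun _ => hTr _⟩
    · intro ω
      rw [Function.update_self]
      cases ω (co w) <;> cases b <;> simp
  have p2 : ∀ (a b : T), a ≠ b → ∀ X Z : (T → Bool) → Prop,
      (∀ ω, Z ω ↔ X ω ∧ ω a ≠ ω b) →
      (∀ ω, X (Function.update ω a (!ω a)) ↔ X ω) →
      ((univ.filter (fun ω : T → Bool => Z ω)).card : ℝ) =
        ((univ.filter (fun ω : T → Bool => X ω)).card : ℝ) / 2 := by
    intro a b hab X Z hZ hX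
    apply tau_flip a X (fun ω => ω a ≠ ω b) Z hZ hX
    intro ω
    rw [Function.update_self, Function.update_of_ne (Ne.symm hab)]
    cases ω a <;> cases ω b <;> simp
  have p3 : ∀ j, ∀ w ∈ P j, ((univ.filter (fun ω : T → Bool => tauX co (p j) ω w)).card : ℝ) =
      Fintype.card (T → Bool) / 2 := by
    intro j w hw
    rw [← htrue]
    apply p2 (co (p j w)) (co w) (d1 j w hw).symm Tr
    · intro ω
      exact ⟨fun h => ⟨hTr ω, h⟩, fun h => h.2⟩
    · intro ω
      exact ⟨fun _ => hTr _, fun _ => hTr _⟩
  have p4 : ∀ j, ∀ w ∈ tauP G (P j),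
      ((univ.filter (fun ω : T → Bool => tauY co (p j) ω w)).card : ℝ) =
      Fintype.card (T → Bool) / 4 := by
    intro j w hw
    unfold tauP at hw
    rw [mem_filter, mem_product] at hw
    obtain ⟨⟨hw1, hw2⟩, hne, hna⟩ := hw
    have c1 : co (p j w.2) ≠ co w.1 := by
      intro h
      have h5 : w.1 = p j w.2 := by
        rcases h2 _ _ h with h5 | h5
        · exact h5
        · rw [pz j w.2 hw2] at h5
          exact h5
      have h6 := padj j w.2 hw2
      rw [← h5] at h6
      exact hna h6.symm
    have c2 : co (p j w.2) ≠ co (p j w.1) := by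
      intro h
      have h5 : p j w.1 = p j w.2 := by
        rcases h2 _ _ h with h5 | h5
        · exact h5
        · rw [pz j w.2 hw2] at h5
          exact h5
      exact hne (pin j h5)
    have q1 := p2 (co (p j w.2)) (co w.2) (d1 j w.2 hw2).symm
      (fun ω => tauX co (p j) ω w.1) (fun ω => tauY co (p j) ω w) (fun ω => Iff.rfl) (by
        intro ω
        unfold tauX
        rw [Function.update_of_ne c2.symm, Function.update_of_ne c1.symm])
    rw [q1, p3 j w.1 hw1]
    ring
  refine ⟨fun u => ω (co u), fun u => congrArg ω (h1 u), ?_, ?_, ?_⟩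
  · intro i b
    have h3 := hω (Sum.inl (i, b))
    simp only [tauF, tauL] at h3
    rw [tau_dc (Q i) (fun (ω : T → Bool) w => tauE co b ω w) (Fintype.card (T → Bool) / 2)
      (fun w _ => p1 w b)] at h3
    have e : ((Q i).card : ℝ) * (Fintype.card (T → Bool) / 2) / Fintype.card (T → Bool) =
        (Q i).card / 2 := by
      rw [mul_div_assoc, div_div, mul_comm (2 : ℝ), ← div_div, div_self hcard.ne']
      ring
    rw [e] at h3
    have e2 : (Q i).filter (fun w => ω (co w) = b) = (Q i).filter (fun w => tauE co b ω w) := by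
      ext w
      rw [mem_filter, mem_filter]
      exact Iff.rfl
    rw [e2]
    exact h3
  · intro j
    have h3 := hω (Sum.inr (Sum.inl j))
    simp only [tauF, tauL] at h3
    rw [tau_dc (P j) (fun (ω : T → Bool) w => tauX co (p j) ω w)
      (Fintype.card (T → Bool) / 2) (p3 j)] at h3
    have e : ((P j).card : ℝ) * (Fintype.card (T → Bool) / 2) / Fintype.card (T → Bool) =
        (P j).card / 2 := by
      rw [mul_div_assoc, div_div, mul_comm (2 : ℝ), ← div_div, div_self hcard.ne']
      ring
    rw [e] at h3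
    have e2 : (P j).filter (fun w => ω (co (p j w)) ≠ ω (co w)) =
        (P j).filter (fun w => tauX co (p j) ω w) := by
      ext w
      rw [mem_filter, mem_filter]
      exact Iff.rfl
    rw [e2]
    exact h3
  · intro j
    have h3 := hω (Sum.inr (Sum.inr j))
    simp only [tauF, tauL] at h3
    rw [Finset.sum_neg_distrib, tau_dc (tauP G (P j)) (fun (ω : T → Bool) w => tauY co (p j) ω w)
      (Fintype.card (T → Bool) / 4) (p4 j)] at h3
    have e : -(((tauP G (P j)).card : ℝ) * (Fintype.card (T → Bool) / 4)) /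
        Fintype.card (T → Bool) = -((tauP G (P j)).card / 4) := by
      rw [neg_div, mul_div_assoc, div_div, mul_comm (4 : ℝ), ← div_div, div_self hcard.ne']
      ring
    rw [e] at h3
    have h6 : ((tauP G (P j)).filter (fun w => tauY co (p j) ω w)).card ≤
        ((((P j).filter (fun w => ω (co (p j w)) ≠ ω (co w))) ×ˢ
        ((P j).filter (fun w => ω (co (p j w)) ≠ ω (co w)))).filter
          (fun w => w.1 ≠ w.2 ∧ ¬ G.Adj w.1 w.2)).card := by
      apply Finset.card_le_card
      intro w hw
      unfold tauP at hw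
      rw [mem_filter, mem_filter, mem_product] at hw
      rw [mem_filter, mem_product, mem_filter, mem_filter]
      exact ⟨⟨⟨hw.1.1.1, hw.2.1⟩, ⟨hw.1.1.2, hw.2.2⟩⟩, hw.1.2⟩
    have h7 : (((tauP G (P j)).filter (fun w => tauY co (p j) ω w)).card : ℝ) ≤
        (((((P j).filter (fun w => ω (co (p j w)) ≠ ω (co w))) ×ˢ
        ((P j).filter (fun w => ω (co (p j w)) ≠ ω (co w)))).filter
          (fun w => w.1 ≠ w.2 ∧ ¬ G.Adj w.1 w.2)).card : ℝ) := by
      exact_mod_cast h6
    have h8 : ((((P j) ×ˢ (P j)).filter (fun w => w.1 ≠ w.2 ∧ ¬ G.Adj w.1 w.2)).card : ℝ) =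
        (tauP G (P j)).card := rfl
    rw [h8]
    linarith

end Pool.TCS
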