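import Pool.Agent.Helper3.TCM.All
import Pool.Agent.Helper3.TCS.Nib
import Pool.Agent.Helper3.TCS.Reg
import Pool.Agent.Helper3.TCS.Run5
import Pool.Agent.Helper3.TCS.Tau
import Pool.Agent.Helper3.TCS.Core5
import Pool.Agent.Helper3.TCS.Num5
import Pool.Agent.Helper3.TCS.Main5

/-!
The theorem for locally sparse graphs.
-/

set_option autoImplicit false

namespace Pool.TCS

open Pool.TC Pool.TCM Finset
open scoped Classical

theorem thm_Run5All : St_Run5 :=
  thm_Run5 thm_Viz (thm_CutA thm_Pack) (thm_CutB thm_Orb)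
    (thm_Coin thm_LM thm_CoinA thm_CoinB thm_CoinC) thm_Chain

theorem thm_Core5All : St_Core5 :=
  thm_Core5 thm_Run5All (thm_Act thm_LM) (thm_Tau thm_LM) thm_StepAll thm_IterAll

/-- The main theorem. -/
theorem total_sparse (k : ℕ) :
    ∃ D0 : ℕ, ∀ D ≥ D0, ∀ {V : Type*} [Fintype V] (G : SimpleGraph V),
    (∀ u, (univ.filter (fun v => G.Adj u v)).card ≤ D) →
    (∀ u, ((((univ.filter (fun v => G.Adj u v)) ×ˢ (univ.filter (fun v => G.Adj u v))).filter
      (fun p => G.Adj p.1 p.2)).card : ℝ) ≤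
      (1 - 1 / (Nat.log 2 D : ℝ) ^ k) * (D : ℝ) ^ 2) →
    ∃ (c : V → Fin (D + 3)) (e : Sym2 V → Fin (D + 3)), IsTotalColouring G c e :=
  main5 thm_Reg thm_Core5All thm_Num5 k

end Pool.TCS
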