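import Pool.Agent.Helper3.TCM.Defs

/-!
# Total colourings with `Δ + 3` colours of locally sparse graphs

Definitions and statements of the parts of the proof (paper proof: `TC5_helper3.md`).
-/

set_option autoImplicit false

namespace Pool.TCS

open Pool.TC Pool.TCM Finset
open scoped Classical

/-- uniform mean -/
noncomputable def mean {Ω : Type} [Fintype Ω] (F : Ω → ℝ) : ℝ := (∑ ω, F ω) / Fintype.card Ω

/-! ### The structure -/

/-- A conflict structure: vertices with an adjacency relation; the option `a` at the vertex `u`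
uses the right vertex `r u a`. -/
structure CS (V κ : Type) where
  adj : V → V → Prop
  r : V → κ → V
  symm : ∀ u v, adj u v → adj v u
  irr : ∀ u, ¬ adj u u
  inj : ∀ u u' a, r u a = r u' a → u = u'

section defs

variable {V κ : Type} [Fintype V] [Fintype κ]

/-- the options which use `v` -/
noncomputable def Cv (S : CS V κ) (U : Finset V) (L : V → Finset κ) (v : V) : Finset (V × κ) :=
  univ.filter (fun p => p.1 ∈ U ∧ p.2 ∈ L p.1 ∧ S.r p.1 p.2 = v)

/-- the neighbours of `u` in `U` with the colour `a` in their list -/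
noncomputable def Pn (S : CS V κ) (U : Finset V) (L : V → Finset κ) (u : V) (a : κ) : Finset V :=
  univ.filter (fun w => w ∈ U ∧ S.adj u w ∧ a ∈ L w)

/-- the number of unordered pairs of distinct non-adjacent vertices of `A` -/
noncomputable def npair (S : CS V κ) (A : Finset V) : ℝ :=
  (((A ×ˢ A).filter (fun p => p.1 ≠ p.2 ∧ ¬ S.adj p.1 p.2)).card : ℝ) / 2

/-- the choice problem is solvable -/
def Solv (S : CS V κ) (U : Finset V) (L : V → Finset κ) : Prop :=
  ∃ c : V → κ, (∀ u ∈ U, c u ∈ L u) ∧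
    (∀ u ∈ U, ∀ w ∈ U, u ≠ w → S.r u (c u) ≠ S.r w (c w)) ∧
    (∀ u ∈ U, ∀ w ∈ U, S.adj u w → c u ≠ c w)

/-- the probability that a vertex is coloured in one step -/
noncomputable def bet (m K : ℕ) : ℝ := 1 / (m : ℝ) * (1 - 1 / (m : ℝ)) ^ (2 * K)

/-- the relative error of one step -/
noncomputable def Err (m K : ℕ) (Lam l : ℝ) : ℝ :=
  40 * (K : ℝ) ^ 3 * (1 / (m : ℝ)) ^ 3 + 2 ^ 14 * (1 / 2) ^ K + 64 * (K : ℝ) ^ 2 * Real.sqrt (Lam / l)

/-- the probability that the option `a` at `u` is killed by a neighbour -/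
noncomputable def pp (S : CS V κ) (U : Finset V) (L : V → Finset κ) (l m K : ℕ) (u : V) (a : κ) :
    ℝ := bet m K * (Pn S U L u a).card / l - bet m K ^ 2 * npair S (Pn S U L u a) / (l : ℝ) ^ 2

/-- the equalizing probability of the option `a` at `u` -/
noncomputable def eK (S : CS V κ) (U : Finset V) (L : V → Finset κ) (l m K : ℕ) (q : ℝ) (u : V)
    (a : κ) : ℝ := (q - pp S U L l m K u a) / (1 - pp S U L l m K u a)

/-- the equalizing probability of the right vertex `v` -/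
noncomputable def eR (S : CS V κ) (U : Finset V) (L : V → Finset κ) (l m K : ℕ) (x : ℝ) (v : V) :
    ℝ := (bet m K * x / l - bet m K * (Cv S U L v).card / l) /
      (1 - bet m K * (Cv S U L v).card / l)

/-- The hypotheses of one step. -/
structure Hyp (S : CS V κ) (U : Finset V) (L : V → Finset κ) (D l m K : ℕ) (x y q Lam : ℝ) :
    Prop where
  deg : ∀ u, (univ.filter (fun v => S.adj u v)).card ≤ D
  col : Fintype.card κ ≤ D
  card : ∀ u ∈ U, (L u).card = l
  inj2 : ∀ u ∈ U, ∀ a ∈ L u, ∀ a' ∈ L u, S.r u a = S.r u a' → a = a'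
  hC : ∀ v, ((Cv S U L v).card : ℝ) ≤ x
  hP : ∀ u ∈ U, ∀ a ∈ L u, ((Pn S U L u a).card : ℝ) ≤ y
  hq : ∀ u ∈ U, ∀ a ∈ L u, pp S U L l m K u a ≤ q
  l0 : 0 < l
  x0 : 0 ≤ x
  x1 : x ≤ l
  y0 : 0 ≤ y
  y2 : y ≤ 2 * l
  q0 : 0 ≤ q
  q1 : q ≤ 1 / 2
  mK : 8 * K ≤ m
  K24 : 24 ≤ K
  L0 : 0 < Lam
  LK : Lam ≤ K
  Ll : Lam ≤ l
  hexp : 4 * Real.exp (-Lam) * ((3 * (D : ℝ) + 2) ^ 12 + 1) ≤ 1

/-- one step of the distance relation -/
def stp (S : CS V κ) (u w : V) : Prop := u = w ∨ S.adj u w ∨ (∃ a, S.r u a = w) ∨ ∃ a, S.r w a = u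

/-- distance at most `n` -/
def near (S : CS V κ) : ℕ → V → V → Prop
  | 0 => fun u w => u = w
  | n + 1 => fun u w => ∃ v, near S n u v ∧ stp S v w

/-! ### The choice of one option at every vertex -/

/-- the neighbours of `u` which have chosen `a` -/
noncomputable def KP (S : CS V κ) (U : Finset V) (o : V → κ) (u : V) (a : κ) : Finset V :=
  univ.filter (fun w => w ∈ U ∧ S.adj u w ∧ o w = a)

/-- the vertices other than `u` whose chosen option uses `v` -/
noncomputable def KR (S : CS V κ) (U : Finset V) (o : V → κ) (u v : V) : Finset V :=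
  univ.filter (fun w => w ∈ U ∧ w ≠ u ∧ S.r w (o w) = v)

/-- the chosen options of `u` and `w` are in conflict -/
def conf (S : CS V κ) (o : V → κ) (u w : V) : Prop :=
  u ≠ w ∧ ((S.adj u w ∧ o u = o w) ∨ S.r u (o u) = S.r w (o w))

/-- lower estimate of the probability that the option survives -/
noncomputable def Psi1 (S : CS V κ) (U : Finset V) (L : V → Finset κ) (l m K : ℕ) (x q : ℝ)
    (o : V → κ) (u : V) (a : κ) : ℝ :=
  (1 - bet m K * ((KP S U o u a).card + (KR S U o u (S.r u a)).card) +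
    bet m K ^ 2 * min (npair S (KP S U o u a) +
      (KP S U o u a).card * (KR S U o u (S.r u a)).card) (2 * (K : ℝ) ^ 2)) *
  (1 - eR S U L l m K x (S.r u a)) * (1 - eK S U L l m K q u a)

/-- upper estimate of the probability that `w` is not coloured and that its option `b` is not
killed by a neighbour -/
noncomputable def Psi2 (S : CS V κ) (U : Finset V) (L : V → Finset κ) (l m K : ℕ) (q : ℝ)
    (o : V → κ) (w : V) (b : κ) : ℝ :=
  (1 - bet m K - bet m K * (KP S U o w b).card +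
    (1 / (m : ℝ)) ^ 2 * min (npair S (KP S U o w b)) ((K : ℝ) ^ 2) +
    (1 / (m : ℝ)) ^ 2 * (KP S U o w b).card) * (1 - eK S U L l m K q w b)

/-- upper estimate of the probability that `w` is not coloured and that the right vertex of its
option `a` is not used by another vertex -/
noncomputable def Psi3 (S : CS V κ) (U : Finset V) (L : V → Finset κ) (l m K : ℕ) (x : ℝ)
    (o : V → κ) (w : V) (a : κ) : ℝ :=
  (1 - bet m K - bet m K * (KR S U o w (S.r w a)).card +
    (1 / (m : ℝ)) ^ 2 * (KR S U o w (S.r w a)).card) * (1 - eR S U L l m K x (S.r w a))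

/-- enumerations of the lists -/
structure Enu (U : Finset V) (L : V → Finset κ) (l : ℕ) (e : V → Fin l → κ) : Prop where
  inj : ∀ u ∈ U, Function.Injective (e u)
  mem : ∀ u ∈ U, ∀ a, a ∈ L u ↔ ∃ i, e u i = a

/-- the choice given by the indices -/
def oc {l : ℕ} (e : V → Fin l → κ) (w : V → Fin l) : V → κ := fun u => e u (w u)

/-- the properties of a good choice -/
structure Good (S : CS V κ) (U : Finset V) (L : V → Finset κ) (l m K : ℕ) (x y q Lam : ℝ)
    (o : V → κ) : Prop where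
  mem : ∀ u ∈ U, o u ∈ L u
  kP : ∀ u ∈ U, ∀ a ∈ L u, (KP S U o u a).card ≤ K
  kR : ∀ v, (univ.filter (fun w => w ∈ U ∧ S.r w (o w) = v)).card ≤ K
  c1 : ∀ u ∈ U, (l : ℝ) * ((1 - q) * (1 - bet m K * x / l) - 2 ^ 13 * (1 / 4) ^ K) -
    21 * Real.sqrt (l * Lam) ≤ ∑ a ∈ L u, Psi1 S U L l m K x q o u a
  c2 : ∀ v, ∑ p ∈ Cv S U L v, Psi2 S U L l m K q o p.1 p.2 ≤
    x * (1 - bet m K) * (1 - q) + 18 * K * (1 / (m : ℝ)) ^ 3 * l + 21 * Real.sqrt (l * Lam)
  c3 : ∀ u ∈ U, ∀ a ∈ L u, ∑ w ∈ Pn S U L u a, Psi3 S U L l m K x o w a ≤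
    y * (1 - bet m K) * (1 - bet m K * x / l) + 8 * K * (1 / (m : ℝ)) ^ 3 * l + 2 * bet m K +
      21 * Real.sqrt (l * Lam)

/-- The function `F` of the choice changes by at most `4` with one coordinate; only the letters in
`R w` of the coordinate `w` matter. -/
structure Infl (S : CS V κ) (l : ℕ) (u : V) (F : (V → Fin l) → ℝ) (R : V → Finset (Fin l)) :
    Prop where
  bd : ∀ w (ω ω' : V → Fin l), (∀ t, t ≠ w → ω t = ω' t) → |F ω - F ω'| ≤ 4
  eq : ∀ w (ω ω' : V → Fin l), (∀ t, t ≠ w → ω t = ω' t) → ω w ∉ R w → ω' w ∉ R w → F ω = F ω'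
  sum : (∑ w, ((R w).card : ℝ)) ≤ 3 * (l : ℝ) * l
  loc : ∀ w, (R w).Nonempty → near S 3 u w

/-! ### Activation -/

/-- the labels: activity, coin, blocking of right vertices, killing of options -/
abbrev Lab (V κ : Type) : Type := (V ⊕ V) ⊕ (V ⊕ (V × κ))

/-- position of a label -/
def pos : Lab V κ → V
  | Sum.inl (Sum.inl u) => u
  | Sum.inl (Sum.inr u) => u
  | Sum.inr (Sum.inl v) => v
  | Sum.inr (Sum.inr p) => p.1

/-- `u` is active (probability `1 / m`) -/
def actv (m K : ℕ) (ω : Lab V κ → Fin (m ^ (2 * K + 1))) (u : V) : Prop :=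
  (ω (Sum.inl (Sum.inl u))).val < m ^ (2 * K)

/-- number of conflicts of the choice of `u` -/
noncomputable def qc (S : CS V κ) (U : Finset V) (o : V → κ) (u : V) : ℕ :=
  (univ.filter (fun w => w ∈ U ∧ conf S o u w)).card

/-- the coin of `u` (probability `(1 - 1 / m) ^ (2 K - qc u)`) -/
def goodv (S : CS V κ) (U : Finset V) (o : V → κ) (m K : ℕ)
    (ω : Lab V κ → Fin (m ^ (2 * K + 1))) (u : V) : Prop :=
  (ω (Sum.inl (Sum.inr u))).val < (m - 1) ^ (2 * K - qc S U o u) * m ^ (qc S U o u + 1)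

/-- `v` is blocked by its label -/
def bkv (S : CS V κ) (U : Finset V) (L : V → Finset κ) (l m K : ℕ) (x : ℝ)
    (ω : Lab V κ → Fin (m ^ (2 * K + 1))) (v : V) : Prop :=
  (ω (Sum.inr (Sum.inl v))).val < ⌊eR S U L l m K x v * (m : ℝ) ^ (2 * K + 1)⌋₊

/-- the option `a` at `u` is killed by its label -/
def ekv (S : CS V κ) (U : Finset V) (L : V → Finset κ) (l m K : ℕ) (q : ℝ)
    (ω : Lab V κ → Fin (m ^ (2 * K + 1))) (u : V) (a : κ) : Prop :=
  (ω (Sum.inr (Sum.inr (u, a)))).val < ⌊eK S U L l m K q u a * (m : ℝ) ^ (2 * K + 1)⌋₊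

/-- `u` keeps its choice -/
def retv (S : CS V κ) (U : Finset V) (o : V → κ) (m K : ℕ)
    (ω : Lab V κ → Fin (m ^ (2 * K + 1))) (u : V) : Prop :=
  u ∈ U ∧ actv m K ω u ∧ goodv S U o m K ω u ∧ ∀ w ∈ U, conf S o u w → ¬ actv m K ω w

/-- the option `a` at `u` survives -/
def alive (S : CS V κ) (U : Finset V) (L : V → Finset κ) (l m K : ℕ) (x q : ℝ) (o : V → κ)
    (ω : Lab V κ → Fin (m ^ (2 * K + 1))) (u : V) (a : κ) : Prop :=
  (∀ w ∈ KP S U o u a, ¬ retv S U o m K ω w) ∧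
  (∀ w ∈ KR S U o u (S.r u a), ¬ retv S U o m K ω w) ∧
  ¬ bkv S U L l m K x ω (S.r u a) ∧ ¬ ekv S U L l m K q ω u a

/-- number of surviving options of `u` -/
noncomputable def G1 (S : CS V κ) (U : Finset V) (L : V → Finset κ) (l m K : ℕ) (x q : ℝ)
    (o : V → κ) (u : V) (ω : Lab V κ → Fin (m ^ (2 * K + 1))) : ℝ :=
  ((L u).filter (fun a => alive S U L l m K x q o ω u a)).card

/-- number of options which use `v` and survive, if `v` is not used -/
noncomputable def G2 (S : CS V κ) (U : Finset V) (L : V → Finset κ) (l m K : ℕ) (q : ℝ)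
    (o : V → κ) (v : V) (ω : Lab V κ → Fin (m ^ (2 * K + 1))) : ℝ :=
  ((Cv S U L v).filter (fun p => ¬ retv S U o m K ω p.1 ∧
    (∀ w ∈ KP S U o p.1 p.2, ¬ retv S U o m K ω w) ∧ ¬ ekv S U L l m K q ω p.1 p.2)).card

/-- upper bound for the number of neighbours of `u` with the colour `a` in their new list -/
noncomputable def G3 (S : CS V κ) (U : Finset V) (L : V → Finset κ) (l m K : ℕ) (x : ℝ)
    (o : V → κ) (u : V) (a : κ) (ω : Lab V κ → Fin (m ^ (2 * K + 1))) : ℝ :=
  ((Pn S U L u a).filter (fun w => ¬ retv S U o m K ω w ∧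
    (∀ t ∈ KR S U o w (S.r w a), ¬ retv S U o m K ω t) ∧ ¬ bkv S U L l m K x ω (S.r w a))).card

/-- bounded differences for a function of the labels -/
structure Diff (S : CS V κ) (l m K : ℕ) (u : V) (F : (Lab V κ → Fin (m ^ (2 * K + 1))) → ℝ)
    (cc : Lab V κ → ℝ) : Prop where
  nn : ∀ t, 0 ≤ cc t
  bd : ∀ t (ω ω' : Lab V κ → Fin (m ^ (2 * K + 1))), (∀ t', t' ≠ t → ω t' = ω' t') →
    |F ω - F ω'| ≤ cc t
  sum : (∑ t, cc t ^ 2) ≤ 450 * (K : ℝ) ^ 4 * l
  loc : ∀ t, cc t ≠ 0 → near S 5 u (pos t)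

end defs

end Pool.TCS
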